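import Pool.Agent.Work.MP_f4b644_ag.Mid.PTop
import Pool.Agent.Work.MP_f4b644_ag.Mid.Dom2

namespace Pool.Agent.Work.MP_f4b644_ag.Mid

theorem rt4_0 : Tr.run2 ce0 pRT
    (.comp 1 1062275985633537971341601234659697508730623052501908852417815264961596560430625319395679316916524612602790194398392548486670622053007163317509575002074714406796819761345515589656903680 (.node 103079215106 (.node 68719476738 (.leaf 1) (.node 85899345922 (.node 77309411330 (.node 10249 (.node 73014444034 (.leaf 1) (.node 75161927682 (.node 74088185858 (.leaf 1) (.leaf 1)) (.leaf 1))) (.node 73014444034 (.leaf 1) (.leaf 1))) (.node 10249 (.leaf 1) (.leaf 1))) (.node 94489280514 (.leaf 1) (.leaf 1)))) (.node 188978561026 (.node 146028888066 (.node 124554051586 (.node 113816633346 (.leaf 1) (.node 10249 (.node 119185342466 (.leaf 1) (.leaf 1)) (.leaf 1))) (.leaf 1)) (.leaf 1)) (.leaf 1))))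
    ⟨17179869184, 17179869184, 1374389534720, 0, 2147483648, 17179869184, 4294967296, 4294967296, 4294967296, 4294967296, 0⟩ = true := by decide +kernel

theorem bk4_0 : Tr.run2 ce0 pBK
    (.node 103079215106 (.comp 1 69617318994479544489843178515536630032666827290534231538344128154736450109633498275719588373381942715775301023237664321276860785051499312528369595383115536823312822565492695851310430289920 (.node 68719476738 (.leaf 1) (.setw 4562440617622211427686362547194208585820852988725538404588053906924451942659993929457431065946409655115339124527304883880398512822506141756009307416459304501030750599596702037977401993071689983 (.node 85899345922 (.node 77309411330 (.node 10249 (.node 73014444034 (.leaf 1) (.node 6825 (.node 75161927682 (.node 5849 (.node 74088185858 (.leaf 1) (.leaf 1)) (.node 74088185858 (.leaf 1) (.leaf 1))) (.node 5849 (.node 76235669506 (.leaf 1) (.leaf 1)) (.leaf 255))) (.node 75161927682 (.node 8201 (.node 74088185858 (.leaf 1) (.leaf 1)) (.node 74088185858 (.leaf 1) (.leaf 1))) (.node 8201 (.leaf 1) (.leaf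 1))))) (.node 73014444034 (.leaf 1) (.node 20521 (.node 75161927682 (.node 13673 (.node 74088185858 (.leaf 1) (.leaf 1)) (.node 74088185858 (.leaf 1) (.leaf 1))) (.leaf 255)) (.node 75161927682 (.node 41065 (.node 74088185858 (.leaf 1) (.leaf 1)) (.node 74088185858 (.leaf 1) (.leaf 1))) (.leaf 1))))) (.node 10249 (.node 81604378626 (.node 6825 (.node 79456894978 (.leaf 255) (.leaf 255)) (.node 79456894978 (.leaf 1) (.leaf 1))) (.node 6825 (.leaf 255) (.leaf 255))) (.node 81604378626 (.node 20521 (.node 79456894978 (.leaf 1) (.leaf 1)) (.node 79456894978 (.leaf 1) (.leaf 1))) (.node 20521 (.leaf 255) (.leaf 255))))) (.node 94489280514 (.node 10249 (.node 90194313218 (.node 6825 (.node 88046829570 (.leaf 255) (.leaf 255)) (.node 88046829570 (.leaf 255) (.leaf 255))) (.node 6825 (.node 92341796866 (.node 5849 (.leaf 255) (.leaf 255)) (.node 5849 (.node 93415538690 (.leaf 255) (.leaf 255)) (.leaf 255))) (.node 92341796866 (.leaf 255) (.leaf 255)))) (.node 90194313218 (.node 20521 (.leaf 255) (.leaf 255)) (.node 20521 (.node 92341796866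 (.leaf 255) (.leaf 255)) (.leaf 255)))) (.setw
    4562440617622211427686362547136622489250699870438650518180806463306563767820782383013613516785444744990920313295782335483939106881755393332884721641064364565061553074761906680023406199842013438 (.node 10249 (.node 6825 (.node 98784247810 (.node 5849 (.node 96636764162 (.leaf 17822033662586763389399853699752431598635546368900978586643775247291264718049931183646927799943143535120784416480541973713208055718763828725487757588189422940023313958067505405578458876084224) (.leaf 254)) (.leaf 254)) (.node 5849 (.node 100931731458 (.leaf 254) (.leaf 254)) (.node 100931731458 (.leaf 254) (.leaf 254)))) (.node 98784247810 (.leaf 254) (.node 8201 (.leaf 254) (.leaf 254)))) (.node 20521 (.node 98784247810 (.leaf 254) (.leaf 254)) (.node 98784247810 (.leaf 254) (.leaf 254)))))))))) (.comp 1 18446744073709551616 (.node 188978561026 (.node 146028888066 (.node 124554051586 (.comp 65 18446744073709551616 (.node 113816633346 (.comp 129 69617318994479544489843178514657935932170103003519447604077247059731502804882543686120811718527904434065556538326756828063035688503347676588206812150029976883873795696440226440786837766144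 (.node 10249 (.node 108447924226 (.node 6825 (.node 105763569666 (.node 5849 (.node 104421392386 (.leaf 5) (.leaf 5)) (.node 104421392386 (.leaf 5) (.leaf 5))) (.leaf 3)) (.node 105763569666 (.node 8201 (.node 104421392386 (.leaf 5) (.leaf 5)) (.node 39582418599937 (.leaf 5) (.leaf 5))) (.node 107105746946 (.leaf 5) (.node 107776835586 (.leaf 5) (.leaf 5))))) (.node 6825 (.leaf 3) (.leaf 3))) (.node 108447924226 (.node 20521 (.node 105763569666 (.node 13673 (.leaf 5) (.leaf 5)) (.node 107105746946 (.leaf 5) (.leaf 5))) (.node 105763569666 (.leaf 5) (.node 107105746946 (.leaf 5) (.leaf 5)))) (.leaf 3)))) (.node 10249 (.node 119185342466 (.node 6825 (.node 116500987906 (.leaf 3) (.leaf 3)) (.leaf 3)) (.node 6825 (.node 5849 (.node 121869697026 (.leaf 3) (.leaf 3)) (.node 121869697026 (.leaf 3) (.leaf 3))) (.node 8201 (.node 121869697026 (.leaf 3) (.leaf 3)) (.node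
    121869697026 (.leaf 3) (.leaf 3))))) (.node 119185342466 (.node 20521 (.leaf 3) (.leaf 3)) (.node 20521 (.node 13673 (.node 121869697026 (.leaf 3) (.leaf 3)) (.node 121869697026 (.leaf 3) (.leaf 3))) (.node 41065 (.node 121869697026 (.leaf 3) (.leaf 3)) (.node 121869697026 (.leaf 3) (.leaf 3)))))))) (.leaf 1)) (.leaf 1)) (.leaf 1))))
    ⟨17179869184, 17179869184, 1374389534720, 0, 2147483648, 17179869184, 4294967296, 4294967296, 4294967296, 4294967296, 0⟩ = true := by decide +kernel

theorem px4_0 : Tr.run2 ce0 pPX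
    (.comp 1 0 (.node 103079215106 (.node 68719476738 (.leaf 1) (.leaf 1)) (.node 34359738371 (.node 188978561026 (.comp 65 601226901190103442326742953695741340182227028371852403280403933503773712135120991487646091873753271656668725248 (.node 25769803779 (.node 146028888066 (.node 21474836483 (.leaf 3) (.node 124554051586 (.node 113816633346 (.leaf 3) (.node 23622320131 (.node 10249 (.node 22548578307 (.leaf 3) (.node 119185342466 (.leaf 3) (.node 6825 (.node 23085449219 (.node 5849 (.node 121869697026 (.leaf 3) (.leaf 3)) (.node 121869697026 (.leaf 3) (.leaf 3))) (.node 5849 (.node 121869697026 (.leaf 3) (.leaf 3)) (.node 121869697026 (.leaf 3) (.leaf 3)))) (.node 23085449219 (.node 8201 (.node 121869697026 (.leaf 3) (.leaf 3)) (.node 121869697026 (.leaf 3) (.leaf 3))) (.node 8201 (.node 121869697026 (.leaf 3) (.leaf 3)) (.node 39582418599937 (.leaf 3) (.leaf 3))))))) (.node 22548578307 (.leaf 3) (.node 119185342466 (.leaf 3) (.node 20521 (.node 23085449219 (.node 13673 (.node 121869697026 (.leaf 3) (.leaf 3)) (.leaf 3)) (.leaf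 3)) (.node 23085449219 (.leaf 3) (.leaf 3)))))) (.node 10249 (.node 119185342466 (.leaf 1) (.node 6825 (.node 24696061955 (.node 5849 (.node 24159191043 (.node 121869697026 (.leaf 1) (.leaf 1)) (.node 121869697026 (.leaf 1) (.leaf 1))) (.node 24159191043 (.node 121869697026 (.leaf 1) (.leaf 1)) (.node 121869697026 (.leaf 1) (.leaf 1)))) (.node 5849 (.node 121869697026 (.leaf 1) (.leaf 1)) (.node 121869697026 (.leaf 1) (.leaf 1)))) (.node 24696061955 (.node 8201 (.node 121869697026 (.leaf 1) (.leaf 1)) (.node 121869697026 (.leaf 1) (.leaf 1))) (.node 8201 (.node 121869697026 (.leaf 1) (.leaf 1)) (.node 121869697026 (.leaf 1) (.leaf 1)))))) (.node 119185342466 (.leaf 1) (.node 20521 (.node 24696061955 (.node 121869697026 (.leaf 1) (.leaf 1)) (.node 121869697026 (.leaf 1) (.leaf 1))) (.node 24696061955 (.node 121869697026 (.leaf 1) (.leaf 1)) (.node 121869697026 (.leaf 1) (.leaf 1)))))))) (.node 23622320131 (.node 10249 (.node 135291469826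
    (.node 22548578307 (.leaf 3) (.node 6825 (.node 129922760706 (.leaf 3) (.leaf 3)) (.leaf 3))) (.leaf 3)) (.leaf 3)) (.node 10249 (.node 135291469826 (.node 6825 (.node 24696061955 (.leaf 3) (.leaf 3)) (.leaf 3)) (.node 6825 (.node 24696061955 (.leaf 3) (.leaf 3)) (.leaf 3))) (.leaf 3))))) (.leaf 3)) (.node 146028888066 (.node 124554051586 (.node 30064771075 (.node 113816633346 (.leaf 3) (.node 10249 (.node 27917287427 (.node 119185342466 (.leaf 3) (.node 6825 (.node 26843545603 (.node 5849 (.node 121869697026 (.leaf 3) (.leaf 3)) (.node 121869697026 (.leaf 3) (.leaf 3))) (.node 5849 (.node 121869697026 (.leaf 3) (.leaf 3)) (.node 121869697026 (.leaf 3) (.leaf 3)))) (.node 26843545603 (.node 8201 (.leaf 3) (.leaf 3)) (.node 8201 (.leaf 3) (.leaf 3))))) (.node 119185342466 (.leaf 3) (.node 6825 (.node 28991029251 (.node 5849 (.node 121869697026 (.leaf 3) (.leaf 3)) (.node 121869697026 (.leaf 3) (.leaf 3))) (.node 5849 (.node 121869697026 (.leaf 3) (.leaf 3)) (.node 121869697026 (.leaf 3) (.leaf 3)))) (.node 28991029251 (.node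 8201 (.node 121869697026 (.leaf 3) (.leaf 3)) (.leaf 3)) (.node 8201 (.node 121869697026 (.leaf 3) (.leaf 3)) (.leaf 3)))))) (.node 27917287427 (.node 119185342466 (.leaf 3) (.node 20521 (.node 26843545603 (.leaf 3) (.leaf 3)) (.node 26843545603 (.leaf 3) (.leaf 3)))) (.node 119185342466 (.leaf 3) (.node 20521 (.node 28991029251 (.leaf 3) (.leaf 3)) (.node 28991029251 (.leaf 3) (.leaf 3))))))) (.node 113816633346 (.leaf 3) (.node 10249 (.node 32212254723 (.node 119185342466 (.leaf 3) (.node 6825 (.node 31138512899 (.node 5849 (.node 121869697026 (.leaf 3) (.leaf 3)) (.node 121869697026 (.leaf 3) (.leaf 3))) (.node 5849 (.node 121869697026 (.leaf 3) (.leaf 3)) (.node 121869697026 (.leaf 3) (.leaf 3)))) (.node 31138512899 (.node 8201 (.node 121869697026 (.leaf 3) (.leaf 3)) (.leaf 3)) (.node 8201 (.node 121869697026 (.leaf 3) (.leaf 3)) (.leaf 3))))) (.node 119185342466 (.leaf 3) (.node 6825 (.node 33285996547 (.node 5849 (.node 121869697026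
    (.leaf 3) (.leaf 3)) (.node 121869697026 (.leaf 3) (.leaf 3))) (.node 5849 (.node 121869697026 (.leaf 3) (.leaf 3)) (.node 121869697026 (.leaf 3) (.leaf 3)))) (.node 33285996547 (.node 8201 (.node 121869697026 (.leaf 3) (.leaf 3)) (.leaf 3)) (.node 8201 (.node 121869697026 (.leaf 3) (.leaf 3)) (.node 121869697026 (.leaf 3) (.leaf 3))))))) (.node 32212254723 (.node 119185342466 (.leaf 3) (.node 20521 (.node 31138512899 (.node 13673 (.leaf 3) (.leaf 3)) (.node 13673 (.leaf 3) (.leaf 3))) (.node 31138512899 (.leaf 3) (.leaf 3)))) (.node 119185342466 (.leaf 3) (.node 20521 (.node 33285996547 (.node 13673 (.leaf 3) (.leaf 3)) (.node 13673 (.leaf 3) (.leaf 3))) (.node 33285996547 (.leaf 3) (.leaf 3)))))))) (.node 30064771075 (.node 10249 (.node 135291469826 (.node 27917287427 (.node 6825 (.node 129922760706 (.leaf 3) (.node 26843545603 (.leaf 3) (.leaf 3))) (.leaf 3)) (.node 6825 (.node 129922760706 (.leaf 3) (.node 28991029251 (.leaf 3) (.leaf 3))) (.leaf 3))) (.node 27917287427 (.node 6825 (.node 26843545603 (.leaf 3) (.leaf 3))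 (.leaf 3)) (.leaf 3))) (.leaf 3)) (.node 10249 (.node 135291469826 (.node 32212254723 (.node 6825 (.node 129922760706 (.leaf 3) (.node 31138512899 (.leaf 3) (.leaf 3))) (.leaf 3)) (.node 6825 (.node 129922760706 (.leaf 3) (.node 33285996547 (.leaf 3) (.leaf 3))) (.leaf 3))) (.node 32212254723 (.leaf 3) (.leaf 3))) (.leaf 3)))) (.leaf 3)))) (.leaf 1)) (.node 188978561026 (.node 146028888066 (.node 42949672963 (.node 124554051586 (.node 38654705667 (.node 113816633346 (.leaf 1) (.node 10249 (.node 36507222019 (.node 119185342466 (.leaf 1) (.node 6825 (.node 35433480195 (.node 5849 (.node 121869697026 (.leaf 1) (.leaf 1)) (.node 121869697026 (.leaf 1) (.leaf 1))) (.leaf 1)) (.node 35433480195 (.node 8201 (.node 121869697026 (.leaf 1) (.leaf 1)) (.node 121869697026 (.leaf 1) (.leaf 1))) (.leaf 1)))) (.leaf 1)) (.node 36507222019 (.node 119185342466 (.leaf 1) (.node 20521 (.node 35433480195 (.node 13673 (.node 121869697026 (.leaf 1) (.leaf 1))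
    (.node 121869697026 (.leaf 1) (.leaf 1))) (.leaf 1)) (.node 35433480195 (.node 121869697026 (.leaf 1) (.leaf 1)) (.leaf 1)))) (.leaf 1)))) (.leaf 1)) (.leaf 1)) (.leaf 1)) (.leaf 1)) (.leaf 1)))))
    ⟨17179869184, 17179869184, 1374389534720, 0, 2147483648, 17179869184, 1073741824, 3221225472, 4294967296, 4294967296, 0⟩ = true := by decide +kernel

theorem rt5_0 : Tr.run2 ce0 pRT
    (.comp 1 1062275985633537971341601234659697508730622957233703581544028906880626412934094992595198888908371815387306575809461302254987168700523746787275803281840151149147057816110580468442726400 (.setw 69617318994479544489843178514657935932170112368765098552053941204523192184381460931915239713441357011536458180093054057622445886865877455176307507335968483363757151717025445346161295622399 (.node 103079215106 (.node 68719476738 (.leaf 1) (.node 85899345922 (.setw 69617318994479544489843178514657935932170109247016548236061709822925962391215155183317097048470206152379490966170954981102642487411700862313607275607322314537129366376824223463011906486526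 (.node 77309411330 (.node 73014444034 (.node 19209 (.node 70866960386 (.leaf 1) (.leaf 254)) (.node 70866960386 (.leaf 1) (.leaf 1))) (.leaf 254)) (.leaf 254))) (.leaf 255))) (.node 188978561026 (.node 146028888066 (.node 124554051586 (.leaf 255) (.comp 65 13408012516855876413056724534599748578596260163967988043049001952232036132741165884610929012828129624955990807030597982328154365668401651702811896454316032 (.node 135291469826 (.node 19209 (.node 129922760706 (.leaf 3) (.leaf 3)) (.leaf 3)) (.node 19209 (.node 140660178946 (.leaf 3) (.leaf 3432451204315116556072796152702189470484821481531686769482039284814959293563641645843597344939483213106610962469755863666031614590125609321080868473357205506)) (.leaf 3))))) (.node 167503724546 (.node 156766306306 (.leaf 543885304644371441326899832142332673265763910713565085628908533858580975218060240422028760546532758446228744244899786515546839336268812784412668724620858596220834897922135941999281307648) (.leaf 1)) (.leaf 1))) (.leaf 1)))))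
    ⟨21474836480, 21474836480, 2576980377600, 0, 2147483648, 21474836480, 4294967296, 4294967296, 4294967296, 4294967296, 0⟩ = true := by decide +kernel

theorem bk5_0 : Tr.run2 ce0 pBK
    (.node 103079215106 (.comp 1 69617318994479544489843178514657935932170112368765098552053941204523192184381460931915239713441357011536458180093054057622445886865877455176307507335968483363757151717043892090235005173760 (.node 68719476738 (.leaf 1) (.node 85899345922 (.node 77309411330 (.node 73014444034 (.node 19209 (.node 70866960386 (.leaf 1) (.leaf 1)) (.node 70866960386 (.leaf 1) (.leaf 1))) (.leaf 1)) (.leaf 1)) (.node 94489280514 (.leaf 1) (.leaf 17822033662586763389399853699752431598635547967236236348431797714669046372151079726929176844408372775009149687339764475162276476777395420752283462555474512521505117792471723573013917705699328))))) (.comp 1 18446744073709551616 (.node 188978561026 (.node 146028888066 (.comp 65 878707508304654229611884235130603596457965333440583069996688732056875283367456191725465537705490705284409442078756342455273249201854001122694775319912664530944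 (.setw 57586975264254024178757438742386113121825267817309065615430870435628721276480612312518794557868874448147949277516356498994287636756889526966687663278096892970402559 (.node 124554051586 (.node 113816633346 (.setw 4562440617622211427686362547136622489250700279612476505198540214955275871270676410093869272168543430402342319958979705641542778055013227712584566414201475205505310154872761234691562932659028734 (.node 108447924226 (.node 19209 (.node 105763569666 (.leaf 254) (.node 107105746946 (.leaf 254) (.leaf 254))) (.node 105763569666 (.leaf 254) (.leaf 254))) (.node 19209 (.node 12809 (.node 111132278786 (.node 109790101506 (.leaf 254) (.leaf 254)) (.node 112474456066 (.leaf 254) (.leaf 254))) (.node 111132278786 (.node 109790101506 (.leaf 254) (.leaf 254)) (.node 112474456066 (.leaf 254) (.leaf 254)))) (.node 38441 (.leaf 255) (.leaf 255))))) (.node 19209 (.node 119185342466 (.node 12809 (.node 116500987906 (.leaf 255) (.leaf 255)) (.node 116500987906 (.leaf 255) (.leaf 255))) (.node 12809 (.node 121869697026 (.node 10969 (.node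 120527519746 (.leaf 255) (.leaf 255)) (.leaf 255))
    (.node 10969 (.node 123211874306 (.leaf 255) (.leaf 255)) (.node 123211874306 (.leaf 255) (.leaf 255)))) (.node 121869697026 (.node 15369 (.leaf 255) (.leaf 255)) (.node 15369 (.node 123211874306 (.leaf 255) (.leaf 255)) (.node 123211874306 (.leaf 255) (.leaf 255)))))) (.node 119185342466 (.node 38441 (.node 116500987906 (.leaf 255) (.leaf 255)) (.node 116500987906 (.leaf 255) (.leaf 255))) (.node 38441 (.node 121869697026 (.node 25625 (.leaf 255) (.leaf 255)) (.node 25625 (.node 123211874306 (.leaf 255) (.leaf 255)) (.node 123211874306 (.leaf 255) (.leaf 255)))) (.node 121869697026 (.leaf 255) (.node 76905 (.node 123211874306 (.leaf 255) (.leaf 255)) (.node 123211874306 (.leaf 255) (.leaf 255)))))))) (.node 135291469826 (.setw 57586975264253819591844445233519237297469216092362052075302992744079378570769608980920109479067038861519032087666434112425732316535010986911260385944018526561895166 (.node 19209 (.node 129922760706 (.node 12809 (.node 127238406146 (.node 10969 (.node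 125896228866 (.leaf 255) (.leaf 254)) (.node 125896228866 (.leaf 254) (.leaf 254))) (.node 10969 (.node 128580583426 (.node 10233 (.node 127909494786 (.leaf 3) (.leaf 3)) (.node 127909494786 (.leaf 3) (.leaf 3))) (.node 10233 (.node 129251672066 (.leaf 3) (.leaf 3)) (.node 129251672066 (.leaf 3) (.leaf 3)))) (.node 128580583426 (.node 11817 (.leaf 3) (.leaf 3)) (.node 11817 (.node 129251672066 (.leaf 3) (.leaf 3)) (.node 129251672066 (.leaf 3) (.leaf 3)))))) (.node 127238406146 (.node 15369 (.node 125896228866 (.leaf 254) (.leaf 254)) (.node 125896228866 (.leaf 254) (.leaf 254))) (.node 15369 (.node 128580583426 (.leaf 3) (.node 13977 (.node 129251672066 (.leaf 3) (.leaf 3)) (.leaf 3))) (.node 128580583426 (.leaf 3) (.node 17081 (.leaf 3) (.leaf 3)))))) (.node 12809 (.node 132607115266 (.node 10969 (.node 131264937986 (.node 10233 (.node 130593849346 (.leaf 3) (.leaf 3)) (.node 130593849346 (.leaf 3) (.leaf 3))) (.leaf 3)) (.node 131264937986 (.node 11817 (.node 130593849346 (.leaf 3) (.leaf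
    3)) (.node 130593849346 (.leaf 3) (.leaf 3))) (.leaf 3))) (.leaf 3)) (.node 132607115266 (.node 15369 (.node 131264937986 (.node 13977 (.node 130593849346 (.leaf 3) (.leaf 3)) (.node 130593849346 (.leaf 3) (.leaf 3))) (.leaf 3)) (.node 131264937986 (.node 17081 (.node 130593849346 (.leaf 3) (.leaf 3)) (.node 130593849346 (.leaf 3) (.leaf 3))) (.leaf 3))) (.leaf 3)))) (.node 129922760706 (.node 38441 (.node 127238406146 (.node 25625 (.node 125896228866 (.leaf 254) (.leaf 254)) (.node 125896228866 (.leaf 254) (.leaf 254))) (.node 25625 (.node 128580583426 (.leaf 3) (.leaf 3)) (.node 128580583426 (.leaf 3) (.leaf 3)))) (.node 127238406146 (.node 76905 (.node 125896228866 (.leaf 254) (.leaf 3)) (.node 125896228866 (.leaf 254) (.leaf 3))) (.node 76905 (.node 128580583426 (.leaf 3) (.leaf 3)) (.node 128580583426 (.leaf 3) (.leaf 3))))) (.node 38441 (.node 132607115266 (.node 25625 (.node 131264937986 (.node 21961 (.node 130593849346 (.leaf 3) (.leaf 3)) (.leaf 3)) (.leaf 3)) (.node 131264937986 (.node 30761 (.leaf 3) (.leaf 3)) (.leaf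 3))) (.leaf 3)) (.node 132607115266 (.node 76905 (.node 131264937986 (.leaf 3) (.leaf 3)) (.node 131264937986 (.leaf 3) (.leaf 3))) (.leaf 3)))))) (.comp 129 18446744073709551616 (.node 19209 (.node 140660178946 (.leaf 5) (.leaf 5)) (.node 140660178946 (.leaf 5) (.leaf 5)))))))) (.node 167503724546 (.node 156766306306 (.comp 65 18446744073709551616 (.node 19209 (.node 151397597186 (.leaf 3) (.node 12809 (.leaf 3) (.leaf 3))) (.node 151397597186 (.leaf 3) (.leaf 3)))) (.leaf 1)) (.leaf 1))) (.leaf 1))))
    ⟨21474836480, 21474836480, 2576980377600, 0, 2147483648, 21474836480, 4294967296, 4294967296, 4294967296, 4294967296, 0⟩ = true := by decide +kernel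

theorem px5_0 : Tr.run2 ce0 pPX
    (.comp 1 0 (.node 103079215106 (.node 68719476738 (.leaf 1) (.leaf 1)) (.node 188978561026 (.comp 65 7588666152346153259154587102556618192476406264792035209165742007903034647557177344 (.node 34359738371 (.node 25769803779 (.node 146028888066 (.node 21474836483 (.leaf 3) (.node 124554051586 (.leaf 3) (.leaf 3))) (.node 21474836483 (.leaf 3) (.node 167503724546 (.node 23622320131 (.node 156766306306 (.node 19209 (.node 22548578307 (.leaf 3) (.node 151397597186 (.leaf 3) (.leaf 3))) (.node 22548578307 (.leaf 3) (.node 151397597186 (.leaf 3) (.leaf 3)))) (.leaf 3)) (.node 156766306306 (.node 19209 (.node 24696061955 (.node 151397597186 (.leaf 3) (.leaf 3)) (.node 151397597186 (.leaf 3) (.leaf 3))) (.node 24696061955 (.node 151397597186 (.leaf 3) (.leaf 3)) (.node 151397597186 (.leaf 3) (.leaf 3)))) (.leaf 3))) (.leaf 3)))) (.node 146028888066 (.node 124554051586 (.leaf 3) (.leaf 3)) (.node 30064771075 (.node 167503724546 (.node 27917287427 (.node 156766306306 (.node 19209 (.node 26843545603 (.node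 151397597186 (.leaf 3) (.leaf 3)) (.node 151397597186 (.leaf 3) (.leaf 3))) (.node 26843545603 (.node 151397597186 (.leaf 3) (.leaf 3)) (.node 151397597186 (.leaf 3) (.leaf 3)))) (.leaf 3)) (.node 156766306306 (.node 19209 (.node 28991029251 (.node 151397597186 (.leaf 3) (.leaf 3)) (.node 151397597186 (.leaf 3) (.leaf 3))) (.node 28991029251 (.node 151397597186 (.leaf 3) (.leaf 3)) (.node 151397597186 (.leaf 3) (.leaf 3)))) (.leaf 3))) (.leaf 3)) (.node 167503724546 (.node 156766306306 (.node 32212254723 (.node 19209 (.node 151397597186 (.leaf 3) (.leaf 3)) (.node 151397597186 (.leaf 3) (.leaf 3))) (.node 19209 (.node 151397597186 (.leaf 3) (.node 33285996547 (.leaf 3) (.node 154081951746 (.leaf 3) (.leaf 3)))) (.node 151397597186 (.leaf 3) (.node 33285996547 (.leaf 3) (.node 165064183119873 (.leaf 3) (.leaf 3)))))) (.leaf 3)) (.leaf 3))))) (.node 146028888066 (.node 42949672963 (.node 124554051586 (.leaf 3) (.leaf 3)) (.leaf 3)) (.node 42949672963 (.node 167503724546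
    (.node 38654705667 (.node 156766306306 (.node 36507222019 (.node 19209 (.node 151397597186 (.leaf 3) (.node 35433480195 (.node 154081951746 (.leaf 3) (.node 155424129026 (.leaf 3) (.leaf 3))) (.leaf 3))) (.node 151397597186 (.leaf 3) (.node 35433480195 (.node 154081951746 (.leaf 3) (.node 155424129026 (.leaf 3) (.leaf 3))) (.leaf 3)))) (.leaf 3)) (.leaf 3)) (.leaf 3)) (.leaf 3)) (.leaf 3))))) (.leaf 1))))
    ⟨21474836480, 21474836480, 2576980377600, 0, 2147483648, 21474836480, 1073741824, 3221225472, 4294967296, 4294967296, 0⟩ = true := by decide +kernel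

theorem rt6_0 : Tr.run2 ce0 pRT
    (.comp 1 13408012516855733510748818223920211457180440925368892461524685366215747083160960276012292494573741466800704741697481761018879286840850691959441803995774976 (.node 51539607554 (.leaf 1) (.node 60129542146 (.leaf 1) (.setw 878707508304657351360434551122834978055195126606888818594831397028026142524423405647564614225294104738586034941456574183919418028561014625391814796581888065791 (.node 6185 (.node 4121 (.node 64424509442 (.leaf 1) (.node 3529 (.node 66571993090 (.leaf 1) (.comp 65 26815820446798330610322843222126057584620404739764891220051921383724604339589284978015933963469853023920894946863151791024226954637853259960225495536107520 (.node 3289 (.comp 143 13408012516855733510748818223920211457141038919172497842328359940002840309515738001214059665302949596230860165673391078364636664455032331628137905490231296 (.setw 878707508304657351360434551122834978055195126606888818594831397028026142524423405647564614225294104738585651817572026738484455130391444982153695121665964377342 (.node 67645734914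 (.node 3177 (.node 67108864002 (.leaf 3) (.node 67377299458 (.leaf 3) (.node 3129 (.node 67511517186 (.node 13331578486785 (.leaf 5) (.leaf 5)) (.node 3097 (.leaf 5) (.leaf 5))) (.node 67511517186 (.node 13537736916993 (.leaf 5) (.node 13572096655361 (.leaf 5) (.leaf 5))) (.node 3145 (.leaf 5) (.node 13572096655361 (.leaf 5) (.leaf 5))))))) (.node 67108864002 (.node 13881334300673 (.node 13778255085569 (.leaf 5) (.leaf 5)) (.node 13984413515777 (.leaf 5) (.leaf 5))) (.node 3225 (.leaf 254) (.node 67377299458 (.node 13984413515777 (.leaf 5) (.leaf 5)) (.node 3257 (.leaf 5) (.leaf 5)))))) (.setw 878707508304657351360434551122834978057777376484975736358481780160315200842036692648741600924384720768250985951886164690133272942401990948253978066667108827901 (.node 3177 (.node 68182605826 (.node 67914170370 (.node 3129 (.node 67779952642 (.node 3097 (.leaf 3) (.leaf 3)) (.node 3097 (.leaf 3) (.leaf 3))) (.node 67779952642 (.node 3145 (.leaf 3) (.leaf 3)) (.node 3145 (.leaf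
    3) (.leaf 3)))) (.node 3129 (.node 68048388098 (.leaf 3) (.leaf 253)) (.node 68048388098 (.node 3145 (.leaf 3) (.leaf 3)) (.leaf 3)))) (.setw 1062275985633537971341602113353797800871118584157505886155086748036362102816823325933886560692489102797991879217580938345287530729516050416139564736056864667668531358779307241160835836 (.node 68451041282 (.node 3129 (.leaf 252) (.leaf 3)) (.node 3129 (.node 68585259010 (.node 3097 (.leaf 3) (.leaf 252)) (.node 3097 (.leaf 3) (.node 68652367874 (.node 13365938225153 (.leaf 5) (.leaf 5)) (.node 3113 (.leaf 5) (.leaf 5))))) (.leaf 253))))) (.node 68182605826 (.node 3225 (.node 67914170370 (.leaf 254) (.node 68048388098 (.node 3193 (.leaf 3) (.leaf 3)) (.node 3193 (.leaf 3) (.leaf 3)))) (.node 67914170370 (.node 3257 (.node 13915694039041 (.node 13898514169857 (.leaf 3) (.leaf 3)) (.leaf 3)) (.leaf 3)) (.node 3257 (.leaf 3) (.leaf 3)))) (.node 3225 (.node 68451041282 (.node 68316823554 (.leaf 3) (.leaf 3)) (.leaf 3)) (.node 68451041282 (.node 3257 (.leaf 3) (.leaf 3)) (.node 3257 (.leaf 253)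 (.leaf 3)))))))))) (.node 67645734914 (.node 3401 (.node 67108864002 (.leaf 3) (.node 3337 (.node 67377299458 (.leaf 3) (.node 67511517186 (.leaf 3) (.leaf 3))) (.node 67377299458 (.leaf 3) (.node 3369 (.leaf 3) (.leaf 3))))) (.node 67108864002 (.leaf 3) (.node 3465 (.node 67377299458 (.leaf 3) (.node 67511517186 (.leaf 3) (.leaf 3))) (.node 67377299458 (.leaf 3) (.node 67511517186 (.leaf 3) (.leaf 3)))))) (.node 3401 (.node 68182605826 (.node 3337 (.node 67914170370 (.leaf 3) (.leaf 3)) (.node 67914170370 (.node 3369 (.leaf 3) (.leaf 3)) (.node 3369 (.leaf 3) (.leaf 3)))) (.node 3337 (.leaf 3) (.node 68451041282 (.leaf 3) (.leaf 3)))) (.node 68182605826 (.node 3465 (.node 67914170370 (.leaf 3) (.leaf 3)) (.node 67914170370 (.leaf 3) (.leaf 3))) (.node 3465 (.leaf 3) (.leaf 3)))))))) (.comp 65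
    13408012516855733510748818223920211457180440925368892461524685366215747083160960276012292494573741466800704741697481761018879286840850691959441803995774976 (.node 66571993090 (.leaf 3) (.node 3801 (.node 67645734914 (.node 3657 (.node 67108864002 (.leaf 3) (.node 3593 (.leaf 3) (.leaf 3))) (.node 67108864002 (.leaf 3) (.node 3721 (.leaf 3) (.leaf 3)))) (.node 3657 (.node 68182605826 (.node 3593 (.node 67914170370 (.node 67779952642 (.leaf 3) (.leaf 3)) (.leaf 3)) (.node 67914170370 (.node 67779952642 (.node 3625 (.leaf 3) (.leaf 3)) (.leaf 3)) (.leaf 3))) (.node 3593 (.leaf 3) (.leaf 3))) (.node 68182605826 (.node 3721 (.leaf 3) (.node 67914170370 (.node 3753 (.leaf 3) (.leaf 3)) (.leaf 3))) (.node 3721 (.leaf 3) (.leaf 3))))) (.node 67645734914 (.node 3961 (.node 67108864002 (.leaf 3) (.node 3881 (.leaf 3) (.leaf 3))) (.node 67108864002 (.leaf 3) (.node 4041 (.leaf 3) (.leaf 3)))) (.node 3961 (.node 68182605826 (.node 3881 (.leaf 3) (.leaf 3)) (.node 3881 (.leaf 3) (.leaf 3))) (.node 68182605826 (.node 4041 (.node 67914170370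 (.leaf 3) (.leaf 3)) (.leaf 3)) (.node 4041 (.leaf 3) (.leaf 3)))))))))) (.node 64424509442 (.leaf 1) (.node 4953 (.node 66571993090 (.leaf 1) (.node 4505 (.node 67645734914 (.node 4313 (.node 67108864002 (.leaf 1) (.leaf 1)) (.leaf 1)) (.node 4313 (.node 68182605826 (.node 4217 (.node 67914170370 (.node 17901423689729 (.leaf 1) (.leaf 1)) (.leaf 1)) (.node 67914170370 (.leaf 1) (.leaf 1))) (.node 4217 (.leaf 1) (.leaf 1))) (.node 68182605826 (.node 4409 (.leaf 1) (.leaf 1)) (.node 4409 (.leaf 1) (.leaf 1))))) (.node 67645734914 (.node 4713 (.leaf 1) (.leaf 1)) (.node 4713 (.node 68182605826 (.node 4601 (.leaf 1) (.leaf 1)) (.node 4601 (.leaf 1) (.leaf 1))) (.node 68182605826 (.node 4825 (.leaf 1) (.leaf 1)) (.node 4825 (.leaf 1) (.leaf 1))))))) (.node 66571993090 (.leaf 1) (.node 5497 (.node 67645734914 (.node 5209 (.leaf 1) (.leaf 1)) (.node 5209 (.node 68182605826 (.node 5081 (.leaf 1) (.leaf 1)) (.node 5081 (.leaf 1) (.leaf 1))) (.node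
    68182605826 (.node 5353 (.leaf 1) (.leaf 1)) (.leaf 255)))) (.node 67645734914 (.node 5817 (.leaf 1) (.leaf 1)) (.node 5817 (.leaf 255) (.leaf 255)))))))) (.node 12393 (.node 64424509442 (.leaf 1) (.node 8265 (.node 66571993090 (.leaf 1) (.node 7081 (.node 67645734914 (.leaf 1) (.leaf 255)) (.leaf 255))) (.node 66571993090 (.leaf 1) (.leaf 255)))) (.node 64424509442 (.leaf 1) (.leaf 255))))))))
    ⟨25769803776, 25769803776, 828928688128, 0, 2147483648, 4294967296, 4294967296, 4294967296, 4294967296, 4294967296, 0⟩ = true := by decide +kernel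

theorem rt6_1 : Tr.run2 ce0 pRT
    (.node 70866960386 (.comp 15 13408012516855733510748818223920211457180440925368892461524685366215747083160960276012292494573741466800704741697481761018879286840850691959441803995774976 (.setw 1062275985633537971341602113353797800871118584157505886155086750618611980903741089584267556994511499501196485372861467883788957690136266135568360015598749667312862228344896754567610623 (.node 3289 (.setw 1062275985633537971341602113353797800871118584157505886155086748036362102816823325933886560692489102797991879217580938345287530729516050416139564736056864667668531358779307241160835326 (.node 69793218562 (.node 3177 (.node 69256347650 (.node 3129 (.node 68987912194 (.node 68853694466 (.node 3097 (.leaf 1) (.node 68786585602 (.node 3113 (.leaf 1) (.leaf 1)) (.node 3113 (.leaf 1) (.leaf 1)))) (.node 3097 (.leaf 1) (.node 68920803330 (.node 3113 (.leaf 1) (.leaf 1)) (.node 3113 (.leaf 1) (.leaf 1))))) (.node 69122129922 (.node 3097 (.leaf 1) (.node 69055021058 (.node 3113 (.leaf 1) (.leaf 1)) (.node 3113 (.leaf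 1) (.leaf 1)))) (.node 3097 (.leaf 1) (.node 69189238786 (.node 3113 (.leaf 1) (.leaf 1)) (.node 3113 (.leaf 1) (.leaf 1)))))) (.node 68987912194 (.node 68853694466 (.node 3145 (.leaf 1) (.node 13572096655361 (.leaf 1) (.leaf 1))) (.node 3145 (.leaf 1) (.node 68920803330 (.node 3161 (.leaf 1) (.leaf 1)) (.node 3161 (.leaf 1) (.leaf 1))))) (.node 69122129922 (.node 3145 (.leaf 1) (.node 69055021058 (.node 3161 (.leaf 1) (.leaf 1)) (.node 3161 (.leaf 1) (.leaf 1)))) (.node 3145 (.leaf 1) (.node 69189238786 (.node 3161 (.leaf 1) (.leaf 1)) (.node 3161 (.leaf 1) (.leaf 1))))))) (.node 3129 (.node 69524783106 (.node 69390565378 (.node 3097 (.leaf 1) (.node 69323456514 (.node 3113 (.leaf 1) (.leaf 1)) (.node 3113 (.leaf 1) (.leaf 1)))) (.node 3097 (.leaf 1) (.node 69457674242 (.node 3113 (.leaf 1) (.leaf 1)) (.node 3113 (.leaf 1) (.leaf 1))))) (.node 69659000834 (.node 3097 (.leaf 1) (.node 69591891970 (.node 3113 (.leaf 1) (.leaf 1)) (.node 3113 (.leaf 1) (.leaf 1)))) (.node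
    3097 (.leaf 1) (.node 69726109698 (.node 3113 (.leaf 1) (.leaf 1)) (.node 3113 (.leaf 1) (.leaf 1)))))) (.node 69524783106 (.node 69390565378 (.node 3145 (.leaf 1) (.node 69323456514 (.node 3161 (.leaf 1) (.leaf 1)) (.node 3161 (.leaf 1) (.leaf 1)))) (.node 3145 (.leaf 1) (.node 69457674242 (.node 3161 (.leaf 1) (.leaf 1)) (.node 3161 (.leaf 1) (.leaf 1))))) (.node 69659000834 (.node 3145 (.leaf 1) (.node 69591891970 (.node 3161 (.leaf 1) (.leaf 1)) (.node 3161 (.leaf 1) (.leaf 1)))) (.node 3145 (.leaf 1) (.node 69726109698 (.node 3161 (.leaf 1) (.leaf 1)) (.node 3161 (.leaf 1) (.leaf 1)))))))) (.node 69256347650 (.node 3225 (.node 68987912194 (.node 13743895347201 (.node 13709535608833 (.leaf 1) (.leaf 1)) (.leaf 1)) (.node 69122129922 (.node 3193 (.leaf 1) (.node 13778255085569 (.leaf 1) (.leaf 1))) (.node 3193 (.leaf 1) (.node 69189238786 (.node 13778255085569 (.leaf 1) (.leaf 1)) (.node 3209 (.leaf 1) (.leaf 1)))))) (.node 68987912194 (.node 3257 (.leaf 1) (.leaf 1)) (.node 3257 (.leaf 1) (.leaf 1)))) (.node 3225 (.node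 69524783106 (.node 69390565378 (.node 3193 (.leaf 1) (.node 69323456514 (.node 3209 (.leaf 1) (.leaf 1)) (.node 3209 (.leaf 1) (.leaf 1)))) (.node 3193 (.leaf 1) (.node 69457674242 (.node 3209 (.leaf 1) (.leaf 1)) (.node 3209 (.leaf 1) (.leaf 1))))) (.node 69659000834 (.node 3193 (.leaf 1) (.node 69591891970 (.node 3209 (.leaf 1) (.leaf 1)) (.node 3209 (.leaf 1) (.leaf 1)))) (.node 3193 (.leaf 1) (.node 69726109698 (.node 3209 (.leaf 1) (.leaf 1)) (.node 3209 (.leaf 1) (.leaf 1)))))) (.node 69524783106 (.node 3257 (.leaf 1) (.leaf 1)) (.node 3257 (.leaf 254) (.leaf 254)))))) (.node 3177 (.node 70330089474 (.node 3129 (.node 70061654018 (.node 69927436290 (.node 3097 (.leaf 1) (.node 69860327426 (.node 3113 (.leaf 1) (.leaf 1)) (.node 3113 (.leaf 1) (.leaf 1)))) (.node 3097 (.leaf 1) (.node 69994545154 (.node 3113 (.leaf 1) (.leaf 1)) (.node 3113 (.leaf 1) (.leaf 1))))) (.node 70195871746 (.node 3097 (.leaf 1) (.node 70128762882 (.node 3113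
    (.leaf 1) (.leaf 1)) (.node 3113 (.leaf 1) (.leaf 1)))) (.node 3097 (.leaf 1) (.node 70262980610 (.node 3113 (.leaf 1) (.leaf 1)) (.node 3113 (.leaf 1) (.leaf 1)))))) (.node 70061654018 (.node 69927436290 (.node 3145 (.leaf 1) (.node 69860327426 (.node 3161 (.leaf 1) (.leaf 1)) (.node 3161 (.leaf 1) (.leaf 1)))) (.node 3145 (.leaf 1) (.node 69994545154 (.node 3161 (.leaf 1) (.leaf 1)) (.node 3161 (.leaf 1) (.leaf 1))))) (.node 70195871746 (.node 3145 (.leaf 1) (.node 70128762882 (.node 3161 (.leaf 1) (.leaf 1)) (.node 3161 (.leaf 1) (.leaf 1)))) (.node 3145 (.leaf 1) (.node 70262980610 (.node 3161 (.leaf 1) (.leaf 1)) (.node 3161 (.leaf 1) (.leaf 1))))))) (.node 3129 (.node 70598524930 (.node 70464307202 (.node 3097 (.leaf 1) (.node 70397198338 (.node 3113 (.leaf 1) (.leaf 1)) (.node 3113 (.leaf 1) (.leaf 1)))) (.node 3097 (.leaf 1) (.node 70531416066 (.node 3113 (.leaf 1) (.leaf 1)) (.node 3113 (.leaf 1) (.leaf 1))))) (.node 70732742658 (.node 3097 (.leaf 1) (.node 70665633794 (.node 3113 (.leaf 1) (.leaf 1)) (.node 3113 (.leaf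 1) (.leaf 1)))) (.node 3097 (.leaf 1) (.node 70799851522 (.node 3113 (.leaf 1) (.leaf 1)) (.node 3113 (.leaf 1) (.leaf 1)))))) (.node 70598524930 (.node 70464307202 (.node 3145 (.leaf 1) (.node 70397198338 (.node 3161 (.leaf 1) (.leaf 1)) (.node 3161 (.leaf 1) (.leaf 1)))) (.node 3145 (.leaf 1) (.node 70531416066 (.node 3161 (.leaf 1) (.leaf 1)) (.node 3161 (.leaf 1) (.leaf 1))))) (.node 70732742658 (.node 3145 (.leaf 1) (.node 70665633794 (.node 3161 (.leaf 1) (.leaf 1)) (.node 3161 (.leaf 1) (.leaf 1)))) (.node 3145 (.leaf 1) (.node 70799851522 (.node 3161 (.leaf 1) (.leaf 1)) (.node 3161 (.leaf 1) (.leaf 1)))))))) (.node 70330089474 (.node 3225 (.node 70061654018 (.node 69927436290 (.node 3193 (.leaf 1) (.node 69860327426 (.node 3209 (.leaf 1) (.leaf 1)) (.node 3209 (.leaf 1) (.leaf 1)))) (.node 3193 (.leaf 1) (.node 69994545154 (.node 3209 (.leaf 1) (.leaf 1)) (.node 3209 (.leaf 1) (.leaf 1))))) (.node 70195871746 (.node 3193 (.leaf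
    1) (.node 70128762882 (.node 3209 (.leaf 1) (.leaf 1)) (.node 3209 (.leaf 1) (.leaf 1)))) (.node 3193 (.leaf 1) (.node 70262980610 (.node 3209 (.leaf 1) (.leaf 1)) (.node 3209 (.leaf 1) (.leaf 1)))))) (.node 70061654018 (.node 3257 (.leaf 254) (.leaf 254)) (.node 3257 (.leaf 254) (.leaf 254)))) (.node 3225 (.node 70598524930 (.node 70464307202 (.node 3193 (.leaf 1) (.node 70397198338 (.node 3209 (.leaf 1) (.leaf 1)) (.node 3209 (.leaf 1) (.leaf 1)))) (.node 3193 (.leaf 1) (.node 70531416066 (.node 3209 (.leaf 1) (.leaf 1)) (.node 3209 (.leaf 1) (.leaf 1))))) (.node 70732742658 (.node 3193 (.leaf 1) (.node 70665633794 (.node 3209 (.leaf 1) (.leaf 1)) (.node 3209 (.leaf 1) (.leaf 1)))) (.node 3193 (.leaf 1) (.node 70799851522 (.node 3209 (.leaf 1) (.leaf 1)) (.node 3209 (.leaf 1) (.leaf 1)))))) (.node 70598524930 (.node 3257 (.leaf 254) (.leaf 254)) (.node 3257 (.leaf 255) (.leaf 255)))))))) (.comp 65 16209045190941436330285676778469815076768777224083036592942607889077941603145463403080254470741447441119331136670859800472853968660526521843999634027080530812269015935438488076288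 (.node 69793218562 (.node 3401 (.node 69256347650 (.node 3337 (.leaf 3) (.leaf 3)) (.node 3337 (.leaf 3) (.node 69524783106 (.node 3369 (.node 69390565378 (.leaf 3) (.node 69457674242 (.leaf 3) (.node 3353 (.leaf 3) (.leaf 3)))) (.leaf 3)) (.node 3369 (.node 69659000834 (.node 69591891970 (.node 3353 (.leaf 3) (.leaf 3)) (.node 3353 (.leaf 3) (.leaf 1))) (.node 69726109698 (.node 3353 (.leaf 3) (.leaf 1)) (.node 3353 (.leaf 3) (.leaf 1)))) (.leaf 3))))) (.node 69256347650 (.node 3465 (.leaf 3) (.leaf 3)) (.leaf 3))) (.node 3401 (.node 70330089474 (.node 3337 (.node 70061654018 (.node 69927436290 (.node 3305 (.leaf 1) (.leaf 255)) (.node 3305 (.leaf 1) (.node 69994545154 (.leaf 255) (.node 3321 (.leaf 1) (.leaf 1))))) (.node 70195871746 (.node 3305 (.leaf 1) (.node 70128762882 (.node 3321 (.leaf 1) (.leaf 1)) (.node 3321 (.leaf 1) (.leaf 1)))) (.node 3305 (.leaf 1) (.node 70262980610 (.node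
    3321 (.leaf 1) (.leaf 1)) (.node 3321 (.leaf 1) (.leaf 1)))))) (.node 70061654018 (.node 3369 (.node 69927436290 (.node 69860327426 (.node 3353 (.leaf 1) (.leaf 1)) (.node 3353 (.leaf 1) (.leaf 1))) (.node 69994545154 (.node 3353 (.leaf 1) (.leaf 1)) (.node 3353 (.leaf 1) (.leaf 1)))) (.leaf 255)) (.node 3369 (.node 70195871746 (.node 70128762882 (.node 3353 (.leaf 1) (.leaf 1)) (.node 3353 (.leaf 1) (.leaf 1))) (.node 70262980610 (.node 3353 (.leaf 1) (.leaf 1)) (.node 3353 (.leaf 1) (.leaf 1)))) (.leaf 255)))) (.node 3337 (.node 70598524930 (.node 70464307202 (.node 3305 (.leaf 1) (.node 70397198338 (.node 3321 (.leaf 1) (.leaf 1)) (.node 3321 (.leaf 1) (.leaf 1)))) (.node 3305 (.leaf 1) (.node 70531416066 (.node 3321 (.leaf 1) (.leaf 1)) (.node 3321 (.leaf 1) (.leaf 1))))) (.node 70732742658 (.node 3305 (.leaf 1) (.node 70665633794 (.node 3321 (.leaf 1) (.leaf 1)) (.node 3321 (.leaf 1) (.leaf 1)))) (.node 3305 (.leaf 1) (.node 14259291422721 (.leaf 1) (.leaf 1))))) (.node 70598524930 (.node 3369 (.node 70464307202 (.node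 70397198338 (.node 3353 (.leaf 1) (.leaf 1)) (.node 3353 (.leaf 1) (.leaf 1))) (.node 70531416066 (.node 3353 (.leaf 1) (.leaf 1)) (.node 3353 (.leaf 1) (.leaf 1)))) (.node 70464307202 (.node 70397198338 (.node 3385 (.leaf 1) (.leaf 1)) (.node 3385 (.leaf 1) (.leaf 1))) (.node 70531416066 (.node 3385 (.leaf 1) (.leaf 1)) (.node 3385 (.leaf 1) (.leaf 1))))) (.node 3369 (.node 70732742658 (.node 70665633794 (.node 3353 (.leaf 1) (.leaf 1)) (.node 3353 (.leaf 1) (.leaf 1))) (.node 70799851522 (.node 3353 (.leaf 1) (.leaf 1)) (.node 3353 (.leaf 1) (.leaf 1)))) (.node 70732742658 (.node 70665633794 (.node 3385 (.leaf 1) (.leaf 1)) (.node 3385 (.leaf 1) (.leaf 1))) (.node 70799851522 (.node 3385 (.leaf 1) (.leaf 1)) (.node 3385 (.leaf 1) (.leaf 1)))))))) (.node 70330089474 (.node 3465 (.leaf 3) (.node 70061654018 (.leaf 3) (.node 70195871746 (.leaf 3) (.node 3497 (.node 70262980610 (.leaf 3) (.node 3481 (.leaf 3) (.leaf 3))) (.leaf 3))))) (.node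
    3465 (.node 70598524930 (.node 3433 (.leaf 255) (.node 70464307202 (.node 14809047236609 (.leaf 1) (.leaf 1)) (.node 70531416066 (.node 14809047236609 (.leaf 1) (.leaf 1)) (.node 14809047236609 (.leaf 1) (.leaf 1))))) (.node 3433 (.node 70732742658 (.node 70665633794 (.node 3417 (.leaf 1) (.leaf 1)) (.node 3417 (.leaf 1) (.leaf 1))) (.node 70799851522 (.node 3417 (.leaf 1) (.leaf 1)) (.node 3417 (.leaf 1) (.leaf 1)))) (.node 70732742658 (.node 70665633794 (.node 3449 (.leaf 1) (.leaf 1)) (.node 3449 (.leaf 1) (.leaf 1))) (.node 70799851522 (.node 3449 (.leaf 1) (.leaf 1)) (.node 3449 (.leaf 1) (.leaf 1)))))) (.node 70598524930 (.node 70464307202 (.node 3497 (.node 70397198338 (.node 3481 (.leaf 1) (.leaf 1)) (.node 3481 (.leaf 1) (.leaf 1))) (.node 70397198338 (.node 15083925143553 (.leaf 1) (.leaf 1)) (.node 3513 (.leaf 1) (.leaf 1)))) (.node 3497 (.node 70531416066 (.node 3481 (.leaf 1) (.leaf 1)) (.node 3481 (.leaf 1) (.leaf 1))) (.node 70531416066 (.node 3513 (.leaf 1) (.leaf 1)) (.node 3513 (.leaf 1) (.leaf 1))))) (.node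 70732742658 (.node 3497 (.node 70665633794 (.node 3481 (.leaf 1) (.leaf 1)) (.node 3481 (.leaf 1) (.leaf 1))) (.node 70665633794 (.node 3513 (.leaf 1) (.leaf 1)) (.node 3513 (.leaf 1) (.leaf 1)))) (.node 3497 (.node 70799851522 (.node 3481 (.leaf 1) (.leaf 1)) (.node 3481 (.leaf 1) (.leaf 1))) (.node 70799851522 (.node 3513 (.leaf 1) (.leaf 1)) (.node 3513 (.leaf 1) (.leaf 1)))))))))))))) (.comp 15 13408012516855733510748818223920214039390917006090261492711492326838884786858187111175416088463882032708065615461035093027590928333502675238295137134051328 (.comp 65 1062275985633537971341601234659697508730623004867806216980922085921111486682360155995439102912448213995048385103926925370828895376765455052392689141957432777971334325818240714462461952 (.setw 878707508304657351360434551122835147285523136911131377186340356859739081549717985727948656380544850355845463872214825788193439720629752454591290491654025249023 (.node 3289 (.setw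
    69617318994479544489843178515536630032666827290534232265548844849967288220421656836031009773740926061122059010255346868124469814877361395125556401595549553786392984460713917582921282093310 (.node 71940702210 (.node 3177 (.node 71403831298 (.node 3129 (.node 71135395842 (.node 71001178114 (.node 3097 (.leaf 1) (.node 70934069250 (.node 3113 (.leaf 1) (.leaf 1)) (.node 3113 (.leaf 1) (.leaf 1)))) (.node 3097 (.leaf 1) (.node 71068286978 (.node 3113 (.leaf 1) (.leaf 1)) (.node 3113 (.leaf 1) (.leaf 1))))) (.node 71269613570 (.node 3097 (.leaf 1) (.node 71202504706 (.node 3113 (.leaf 1) (.leaf 1)) (.node 3113 (.leaf 1) (.leaf 1)))) (.node 3097 (.leaf 1) (.node 71336722434 (.node 3113 (.leaf 1) (.leaf 1)) (.node 3113 (.leaf 1) (.leaf 1)))))) (.node 71135395842 (.node 71001178114 (.node 3145 (.leaf 1) (.leaf 1)) (.node 3145 (.leaf 1) (.leaf 1))) (.node 71269613570 (.node 3145 (.leaf 1) (.leaf 1)) (.node 3145 (.leaf 1) (.leaf 1))))) (.node 3129 (.node 71672266754 (.node 71538049026 (.node 3097 (.leaf 1) (.node 71470940162 (.node 3113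 (.leaf 1) (.leaf 1)) (.node 3113 (.leaf 1) (.leaf 1)))) (.node 3097 (.leaf 1) (.node 71605157890 (.node 3113 (.leaf 1) (.leaf 1)) (.leaf 254)))) (.node 71806484482 (.node 3097 (.leaf 1) (.leaf 254)) (.node 3097 (.leaf 1) (.leaf 254)))) (.node 71672266754 (.node 71538049026 (.node 3145 (.leaf 1) (.leaf 1)) (.node 3145 (.leaf 1) (.leaf 1))) (.node 71806484482 (.node 3145 (.leaf 1) (.leaf 1)) (.node 3145 (.leaf 1) (.leaf 1)))))) (.node 71403831298 (.node 3225 (.node 71135395842 (.node 71001178114 (.node 3193 (.leaf 1) (.node 70934069250 (.node 3209 (.leaf 1) (.leaf 1)) (.node 3209 (.leaf 1) (.leaf 1)))) (.node 3193 (.leaf 1) (.node 71068286978 (.node 3209 (.leaf 1) (.leaf 1)) (.node 3209 (.leaf 1) (.leaf 1))))) (.node 71269613570 (.node 3193 (.leaf 1) (.leaf 255)) (.node 3193 (.leaf 1) (.leaf 255)))) (.node 71135395842 (.node 3257 (.node 13915694039041 (.leaf 1) (.leaf 1)) (.node 14053132992513 (.leaf 1) (.leaf 1))) (.node 3257 (.node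
    13915694039041 (.leaf 1) (.leaf 1)) (.leaf 255)))) (.node 3225 (.node 71672266754 (.node 71538049026 (.node 3193 (.leaf 1) (.leaf 255)) (.leaf 255)) (.leaf 255)) (.node 71672266754 (.node 3257 (.leaf 255) (.leaf 255)) (.node 3257 (.leaf 255) (.leaf 255)))))) (.node 3177 (.node 72477573122 (.node 3129 (.node 72209137666 (.node 72074919938 (.node 3097 (.leaf 1) (.leaf 254)) (.leaf 3)) (.leaf 3)) (.node 72209137666 (.node 72074919938 (.node 3145 (.leaf 3) (.leaf 3)) (.leaf 3)) (.leaf 3))) (.leaf 3)) (.node 72477573122 (.node 3225 (.leaf 3) (.leaf 3)) (.leaf 3))))) (.node 71940702210 (.node 3401 (.node 71403831298 (.node 3337 (.node 71135395842 (.node 71001178114 (.node 3305 (.leaf 1) (.leaf 1)) (.node 3305 (.leaf 1) (.leaf 1))) (.node 71269613570 (.node 3305 (.leaf 1) (.leaf 1)) (.node 3305 (.leaf 1) (.leaf 1)))) (.node 71135395842 (.node 3369 (.node 71001178114 (.node 70934069250 (.node 3353 (.leaf 1) (.leaf 1)) (.node 3353 (.leaf 1) (.leaf 1))) (.node 71068286978 (.node 3353 (.leaf 1) (.leaf 1)) (.leaf 255))) (.node 71001178114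 (.node 70934069250 (.node 3385 (.leaf 1) (.leaf 1)) (.node 3385 (.leaf 1) (.leaf 1))) (.leaf 255))) (.node 3369 (.leaf 255) (.leaf 255)))) (.node 3337 (.node 71672266754 (.node 71538049026 (.node 3305 (.leaf 1) (.leaf 1)) (.node 3305 (.leaf 1) (.leaf 1))) (.node 71806484482 (.node 3305 (.leaf 1) (.leaf 1)) (.node 14224931684353 (.leaf 1) (.leaf 1)))) (.setw 69617318994479544489843178515536630032666827290534232265548844849967288220421656836031009773740926061122059010255346868232309601545963954304225130971428550270370823637838380677089193885950 (.node 71672266754 (.node 3369 (.leaf 255) (.leaf 254)) (.node 3369 (.leaf 255) (.leaf 254)))))) (.setw 878707508304657351360434551122835147285523136911131377186340356859739081549717985727948656434464743690146743461548855962232701067904041299672435453861245747453 (.setw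
    69617318994479544489843178514657935932170106125267997920069478441328732598048849434718954383499055293222531340799217929235525065508802334111151116120473090675681240513851165713722163331326 (.node 71403831298 (.node 3465 (.node 71135395842 (.node 3433 (.node 71001178114 (.node 70934069250 (.node 3417 (.leaf 1) (.leaf 1)) (.node 3417 (.leaf 1) (.leaf 1))) (.leaf 253)) (.node 71001178114 (.node 70934069250 (.node 3449 (.leaf 1) (.leaf 253)) (.node 3449 (.leaf 1) (.leaf 253))) (.leaf 253))) (.node 3433 (.leaf 253) (.leaf 253))) (.node 71135395842 (.node 71001178114 (.node 3497 (.node 70934069250 (.node 3481 (.leaf 253) (.leaf 253)) (.node 3481 (.leaf 253) (.leaf 253))) (.node 70934069250 (.node 3513 (.leaf 253) (.leaf 253)) (.node 3513 (.leaf 253) (.leaf 253)))) (.node 3497 (.node 71068286978 (.node 3481 (.leaf 253) (.leaf 253)) (.node 3481 (.leaf 253) (.leaf 253))) (.node 71068286978 (.node 3513 (.leaf 253) (.leaf 253)) (.node 3513 (.leaf 253) (.leaf 253))))) (.node 71269613570 (.node 3497 (.node 71202504706 (.node 3481 (.leaf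 253) (.leaf 253)) (.node 3481 (.leaf 253) (.leaf 253))) (.node 71202504706 (.node 3513 (.leaf 253) (.leaf 253)) (.node 3513 (.leaf 253) (.leaf 253)))) (.node 3497 (.leaf 254) (.leaf 254))))) (.setw 69617318994479544489843178514657935932170109247016548236061709822925962391215155183317097048470206152379490966170954981102642487411700862313607275607322314537129366376824223463011906486524 (.node 3465 (.node 71672266754 (.node 3433 (.leaf 253) (.leaf 253)) (.node 3433 (.leaf 253) (.node 14809047236609 (.leaf 1) (.leaf 252)))) (.node 71672266754 (.node 3497 (.leaf 254) (.leaf 254)) (.node 15015205666817 (.node 14963666059265 (.leaf 252) (.leaf 1)) (.node 15066745274369 (.leaf 252) (.leaf 252)))))))))) (.node 3401 (.leaf 3) (.leaf 3))))))))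
    ⟨25769803776, 25769803776, 828928688128, 944892805120, 4294967296, 4563402752, 4294967296, 4294967296, 4294967296, 4294967296, 0⟩ = true := by decide +kernel

theorem rt6_2 : Tr.run2 ce0 pRT
    (.node 70866960386 (.comp 1 13408012516855733510748818223920211457180440925368892461524685366215747083160960276012292494573741466800704741697481761018879286840850691959441803995774976 (.node 3801 (.node 69793218562 (.node 3657 (.node 69256347650 (.node 3593 (.leaf 1) (.leaf 1)) (.node 3593 (.leaf 1) (.leaf 1))) (.node 69256347650 (.node 3721 (.leaf 1) (.leaf 1)) (.node 3721 (.leaf 1) (.leaf 1)))) (.node 3657 (.node 70330089474 (.node 3593 (.leaf 1) (.leaf 1)) (.comp 79 13408012516855733510748818223920211457180440925368892461524685366215747083160960276012292494573741466800704741697481761018879286840850691959441803995774976 (.node 3593 (.node 70598524930 (.leaf 1) (.node 70732742658 (.node 3561 (.node 70665633794 (.node 3545 (.leaf 3) (.leaf 3)) (.node 3545 (.leaf 3) (.leaf 3))) (.leaf 1)) (.node 3561 (.node 70799851522 (.node 3545 (.leaf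 3) (.leaf 3)) (.node 3545 (.leaf 3) (.leaf 3))) (.leaf 1)))) (.node 70598524930 (.node 70464307202 (.node 3625 (.node 70397198338 (.leaf 1) (.leaf 1)) (.leaf 1)) (.node 3625 (.node 70531416066 (.node 3609 (.leaf 1) (.leaf 1)) (.node 3609 (.leaf 1) (.leaf 3))) (.leaf 1))) (.node 70732742658 (.node 3625 (.node 15496242003969 (.leaf 3) (.leaf 3)) (.node 15633680957441 (.leaf 3) (.leaf 3))) (.node 3625 (.node 15496242003969 (.leaf 3) (.leaf 3)) (.node 15633680957441 (.leaf 3) (.leaf 3)))))))) (.node 70330089474 (.leaf 1) (.node 3721 (.leaf 1) (.leaf 1))))) (.node 69793218562 (.node 3961 (.node 69256347650 (.node 3881 (.leaf 1) (.leaf 1)) (.leaf 1)) (.node 69256347650 (.node 4041 (.leaf 1) (.leaf 1)) (.node 4041 (.leaf 1) (.leaf 1)))) (.node 3961 (.leaf 1) (.leaf 1))))) (.comp 1 1062275985633537971341601234659697508730623004867806216980922085921111486682360155995439102912448213995048385103926925370828895376765455052392689141957432777971334325818240714462461952 (.node 3801 (.node 71940702210 (.comp 79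
    13408012516855733510748818223920214039390917006090261492711492326838884786858187111175416090109386590029271657616004275584941433316238540871875000482660352 (.node 3657 (.setw 69617318994479544489843178514657935932170106125267997920069478441328732598048849434718954383499055293222531340799217929235525065508802334111151116120473090675681240513851165713722163331839 (.node 71403831298 (.node 3593 (.node 71135395842 (.node 71001178114 (.node 3561 (.node 70934069250 (.node 3545 (.leaf 3) (.leaf 3)) (.node 3545 (.leaf 3) (.leaf 3))) (.node 70934069250 (.node 3577 (.leaf 3) (.leaf 3)) (.node 3577 (.leaf 3) (.leaf 3)))) (.node 3561 (.node 71068286978 (.node 3545 (.leaf 3) (.leaf 3)) (.node 3545 (.leaf 3) (.leaf 3))) (.node 71068286978 (.node 3577 (.leaf 3) (.leaf 3)) (.node 3577 (.leaf 3) (.leaf 3))))) (.node 71269613570 (.node 3561 (.node 71202504706 (.node 3545 (.leaf 3) (.leaf 3)) (.node 3545 (.leaf 3) (.leaf 3))) (.node 71202504706 (.node 3577 (.leaf 3) (.leaf 3)) (.node 3577 (.leaf 3) (.leaf 3)))) (.node 3561 (.leaf 255) (.node 71336722434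 (.node 3577 (.leaf 3) (.leaf 3)) (.node 3577 (.leaf 3) (.leaf 3)))))) (.node 71135395842 (.node 71001178114 (.node 3625 (.leaf 3) (.leaf 3)) (.node 3625 (.leaf 3) (.leaf 3))) (.node 71269613570 (.node 3625 (.leaf 3) (.leaf 3)) (.node 3625 (.leaf 3) (.leaf 3))))) (.node 3593 (.node 71672266754 (.node 71538049026 (.node 3561 (.leaf 255) (.node 71470940162 (.node 3577 (.leaf 3) (.leaf 3)) (.node 3577 (.leaf 3) (.leaf 3)))) (.node 3561 (.leaf 3) (.leaf 3))) (.node 15290083573761 (.leaf 3) (.leaf 3))) (.node 71672266754 (.node 71538049026 (.node 3625 (.leaf 3) (.leaf 3)) (.node 3625 (.leaf 3) (.leaf 3))) (.node 15564961480705 (.leaf 3) (.leaf 3)))))) (.node 71403831298 (.node 3721 (.node 71135395842 (.node 71001178114 (.node 15839839387649 (.leaf 3) (.leaf 3)) (.node 15839839387649 (.leaf 3) (.leaf 3))) (.node 71269613570 (.node 3689 (.leaf 3) (.leaf 3)) (.node 3689 (.leaf 3) (.leaf 3)))) (.node 71135395842 (.node 3753 (.leaf 3) (.node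
    16217796509697 (.leaf 3) (.node 16252156248065 (.leaf 3) (.leaf 3)))) (.node 3753 (.leaf 3) (.node 16217796509697 (.leaf 3) (.node 16252156248065 (.leaf 3) (.leaf 3)))))) (.node 3721 (.node 71672266754 (.node 71538049026 (.node 3689 (.leaf 3) (.leaf 3)) (.node 15839839387649 (.leaf 3) (.leaf 3))) (.node 15839839387649 (.leaf 3) (.leaf 3))) (.node 71672266754 (.node 3753 (.leaf 3) (.node 71538049026 (.node 16217796509697 (.leaf 3) (.leaf 3)) (.node 16217796509697 (.leaf 3) (.leaf 3)))) (.node 16149077032961 (.node 16080357556225 (.leaf 3) (.leaf 3)) (.node 16217796509697 (.leaf 3) (.leaf 3)))))))) (.leaf 1)) (.node 71940702210 (.comp 65 13408012516855733510748818223920211457180440925368892461524685366215747083160960276012292494573741466800704741697481761018879286840850691959441803995774976 (.node 3961 (.node 71403831298 (.node 3881 (.node 71135395842 (.leaf 3) (.node 3833 (.leaf 3) (.node 71269613570 (.leaf 3) (.leaf 3)))) (.node 71135395842 (.leaf 3) (.leaf 3))) (.node 3881 (.node 71672266754 (.leaf 1) (.leaf 1)) (.leaf 1)))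 (.node 71403831298 (.node 4041 (.node 71135395842 (.leaf 3) (.node 3993 (.leaf 3) (.leaf 3))) (.leaf 3)) (.leaf 1)))) (.leaf 1)))))
    ⟨25769803776, 25769803776, 949187772416, 1103806595072, 4294967296, 4563402752, 4294967296, 4294967296, 4294967296, 4294967296, 0⟩ = true := by decide +kernel

theorem rt6_3 : Tr.run2 ce0 pRT
    (.comp 1 1062275985633537971341601234659697508730623004867806216980922085921111486682360155995439102912448213995048385103926925370828895376765455052392689141957432777971334325818240714462461952 (.leaf 1))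
    ⟨25769803776, 25769803776, 828928688128, 1103806595072, 4563402752, 4831838208, 4294967296, 4294967296, 4294967296, 4294967296, 0⟩ = true := by decide +kernel

theorem rt6_4 : Tr.run2 ce0 pRT
    (.comp 1 1062275985633537971341601234659697508730623004867806216980922085921111486682360155995439102912448213995048385103926925370828895376765455052392689141957432777971334325818240714462461952 (.node 73014444034 (.comp 65 13408012516855733510748818223920211457180440925368892461524685366215747083160960276012292494573741466800704741697481761018879286840850691959441803995774976 (.node 4953 (.node 70866960386 (.node 4505 (.node 69793218562 (.node 4313 (.node 69256347650 (.node 4217 (.node 17901423689729 (.leaf 3) (.leaf 3)) (.node 18313740550145 (.leaf 3) (.leaf 3))) (.node 4217 (.leaf 3) (.leaf 3))) (.node 69256347650 (.node 4409 (.leaf 3) (.leaf 3)) (.node 18932215840769 (.leaf 3) (.leaf 3)))) (.node 4313 (.node 70330089474 (.node 4217 (.leaf 3) (.leaf 3)) (.node 4217 (.leaf 3) (.leaf 3))) (.node 70330089474 (.node 4409 (.leaf 3) (.leaf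 3)) (.leaf 3)))) (.node 69793218562 (.node 4713 (.node 69256347650 (.node 4601 (.leaf 3) (.leaf 3)) (.node 19791209299969 (.leaf 3) (.leaf 3))) (.node 69256347650 (.node 4825 (.leaf 3) (.leaf 3)) (.node 4825 (.leaf 3) (.leaf 3)))) (.node 4713 (.node 70330089474 (.node 4601 (.leaf 3) (.leaf 3)) (.leaf 3)) (.node 70330089474 (.node 4825 (.leaf 3) (.leaf 3)) (.leaf 3))))) (.node 4505 (.node 71940702210 (.node 4313 (.node 71403831298 (.node 4217 (.node 71135395842 (.leaf 3) (.leaf 3)) (.leaf 3)) (.node 71672266754 (.node 71538049026 (.leaf 3) (.leaf 3)) (.leaf 3))) (.node 71403831298 (.leaf 3) (.node 71672266754 (.leaf 3) (.leaf 3)))) (.leaf 1)) (.node 71940702210 (.node 4713 (.node 71403831298 (.leaf 3) (.leaf 3)) (.node 71403831298 (.leaf 3) (.leaf 3))) (.leaf 1)))) (.node 70866960386 (.node 5497 (.node 69793218562 (.node 5209 (.node 69256347650 (.node 5081 (.leaf 3) (.leaf 3)) (.node 21818433863681 (.leaf 3) (.leaf 3))) (.node 69256347650 (.node 5353 (.leaf 3) (.leaf 3)) (.node 22952305229825 (.leaf 3) (.leaf 3)))) (.node 5209 (.node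 70330089474 (.node 5081 (.leaf 3) (.leaf 3)) (.leaf 3)) (.node 70330089474 (.node 5353 (.leaf 3)
    (.leaf 3)) (.leaf 3)))) (.node 69793218562 (.node 5817 (.node 69256347650 (.node 68987912194 (.node 24257975287809 (.leaf 3) (.leaf 3)) (.node 69122129922 (.leaf 3) (.leaf 3))) (.node 24257975287809 (.leaf 3) (.leaf 3))) (.setw 878707508304657351360434551122834978055195126606888818594831397028026142524423405647564614225294104738586034941456574183919418028561014625391814796581888066303 (.node 69256347650 (.node 68987912194 (.leaf 255) (.leaf 255)) (.node 69524783106 (.leaf 255) (.leaf 3))))) (.node 5817 (.node 70330089474 (.node 5657 (.leaf 3) (.leaf 3)) (.leaf 3)) (.node 70330089474 (.node 5993 (.leaf 3) (.leaf 3)) (.leaf 3))))) (.node 5497 (.node 71940702210 (.node 5209 (.leaf 1) (.leaf 1)) (.leaf 1)) (.leaf 1))))) (.leaf 1)))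
    ⟨25769803776, 25769803776, 1108101562368, 1657857376256, 4294967296, 4831838208, 4294967296, 4294967296, 4294967296, 4294967296, 0⟩ = true := by decide +kernel

theorem rt6_5 : Tr.run2 ce0 pRT
    (.comp 1 1062275985633537971341601234659697508730623004867806216980922085921111486682360155995439102912448213995048385103926925370828895376765455052392689141957432777971334325818240714462461952 (.leaf 1))
    ⟨25769803776, 25769803776, 828928688128, 1657857376256, 4831838208, 5368709120, 4294967296, 4294967296, 4294967296, 4294967296, 0⟩ = true := by decide +kernel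

theorem rt6_6 : Tr.run2 ce0 pRT
    (.comp 1 1062275985633537971341601234659697508730623004867806216980922085921111486682360155995439102912448213995048385103926925370828895376765455052392689141957432777971334325818240714462461952 (.node 77309411330 (.comp 65 13408012516855733510748818223920211457180440925368892461524685366215747083160960276012292494573741466800704741697481761018879286840850691959441803995774976 (.setw 878707508304657351360434551122834978057777376484975736358481780160315200842036692648741600924384720768251177513828772926240567735780384736901930409057381778175 (.node 12393 (.node 73014444034 (.node 8265 (.node 70866960386 (.node 7081 (.node 69793218562 (.setw 878707508304657351360434551122834978055195126606888818594831397028026142524423405647564614225294104738586034941456574183919418028561014625391814796581888066302 (.node 69256347650 (.leaf 254) (.node 69524783106 (.leaf 254) (.leaf 254)))) (.node 6601 (.node 70330089474 (.node 6393 (.leaf 3) (.leaf 3)) (.leaf 3)) (.node 70330089474 (.leaf 255) (.leaf 3)))) (.node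 69793218562 (.leaf 255) (.node 7625 (.node 70330089474 (.leaf 255) (.leaf 3)) (.node 70330089474 (.leaf 255) (.leaf 255))))) (.leaf 1)) (.node 70866960386 (.node 9913 (.node 69793218562 (.leaf 255) (.leaf 255)) (.node 69793218562 (.leaf 255) (.leaf 255))) (.leaf 1))) (.leaf 1)) (.node 73014444034 (.node 24809 (.node 70866960386 (.leaf 255) (.leaf 3)) (.node 70866960386 (.leaf 255) (.leaf 3))) (.node 75161927682 (.leaf 3) (.node 76235669506 (.leaf 3) (.leaf 3))))))) (.leaf 1)))
    ⟨25769803776, 25769803776, 1662152343552, 0, 4294967296, 5368709120, 4294967296, 4294967296, 4294967296, 4294967296, 0⟩ = true := by decide +kernel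

theorem rt6_7 : Tr.run2 ce0 pRT
    (.comp 1 1062275985633537971341601234659697508730623052501908852417815264961596560430625319395679316916524612602790194398392548486670622053007163317509575002074714406795610835525900960482197504 (.leaf 1))
    ⟨25769803776, 25769803776, 828928688128, 0, 5368709120, 6442450944, 4294967296, 4294967296, 4294967296, 4294967296, 0⟩ = true := by decide +kernel

theorem rt6_8 : Tr.run2 ce0 pRT
    (.comp 1 1062275985633537971341601234659697508730623052501908852417815264961596560430625319395679316916524612602790194398392548486670622053007163317509575002074714406795610835525900960482197504 (.node 128849018882 (.node 6185 (.node 115964116994 (.leaf 1) (.node 4121 (.node 122406567938 (.leaf 1) (.leaf 1)) (.leaf 1))) (.node 115964116994 (.leaf 1) (.leaf 1))) (.node 6185 (.node 141733920770 (.leaf 1) (.leaf 3432451204315104361742521480857535636120642601975804939020544499771401249981738466460397827284001183988732150022156456631419277037532636352286372748656115712)) (.comp 65 13408012516855828778954089097706569538111186415702824642808787948155637524999356590145305896986402948714276695907162798599199922104794276863073026704408576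 (.leaf 3)))))
    ⟨25769803776, 25769803776, 828928688128, 0, 6442450944, 9663676416, 4294967296, 4294967296, 4294967296, 4294967296, 0⟩ = true := by decide +kernel

theorem rt6_9 : Tr.run2 ce0 pRT
    (.comp 1 13408012516855876413056724534599748578596260163967988043049001952232036132741165884610929012828129624955984961024048658716481550927861860751118643549437952 (.node 6185 (.node 167503724546 (.leaf 1) (.leaf 3432451204315116556072796152702189470484821481531686769482039284814959293563641645843597344939483213106609465892079236821443374016547422837447395729708417024)) (.leaf 1)))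
    ⟨25769803776, 25769803776, 828928688128, 0, 9663676416, 11274289152, 4294967296, 4294967296, 4294967296, 4294967296, 0⟩ = true := by decide +kernel

theorem rt6_10 : Tr.run2 ce0 pRT
    (.comp 1 13408012516855876413056724534599748578596260163967988043049001952232036132741165884610929012828129624955984961024048658716481550929070786570733272724144128 (.node 3529 (.node 186831077378 (.leaf 1) (.node 3289 (.node 190052302850 (.leaf 1) (.node 3177 (.leaf 1) (.leaf 1))) (.node 190052302850 (.leaf 1) (.leaf 1)))) (.node 186831077378 (.leaf 1) (.node 3801 (.node 190052302850 (.leaf 1) (.leaf 1)) (.node 190052302850 (.leaf 1) (.leaf 1))))))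
    ⟨25769803776, 25769803776, 828928688128, 1103806595072, 11274289152, 12079595520, 4294967296, 4294967296, 4294967296, 4294967296, 0⟩ = true := by decide +kernel

theorem rt6_11 : Tr.run2 ce0 pRT
    (.comp 15 13408012516856066949467266282172464740536555157028641644009858001130206185060180442768552490745086906746312320146572109363855255896277603168017482027892736 (.comp 65 13408012516855876413056724534599748578596260163967988043049001952232036132741165884610929012828129624955984961024048658716481550929070786570733272724144128 (.setw 1757401608801397247117970065350872981046291397189372151184321376737818720018996371618607233283952919409546722700506896714106658883806551003965299898332093612286 (.setw 1757401608801397247117970065350872981046291397189372151184321374601831684098093877773945783868584083954915729714582529640979624692162453628588119300480618725631 (.node 3289 (.node 196494753794 (.node 3177 (.node 194884141058 (.node 194078834690 (.leaf 3) (.node 3129 (.node 194481487874 (.node 13331578486785 (.leaf 1) (.node 13365938225153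 (.leaf 1) (.leaf 1))) (.node 3097 (.leaf 1) (.node 194682814466 (.node 3113 (.leaf 1) (.leaf 1)) (.node 3113 (.leaf 1) (.leaf 1))))) (.node 194481487874 (.node 13537736916993 (.node 13503377178625 (.leaf 1) (.leaf 1)) (.node 13572096655361 (.leaf 1) (.leaf 1))) (.node 3145 (.leaf 1) (.node 194682814466 (.node 13572096655361 (.leaf 1) (.leaf 1)) (.node 3161 (.leaf 1) (.leaf 1))))))) (.node 195689447426 (.node 3129 (.node 195286794242 (.node 3097 (.leaf 1) (.node 195085467650 (.node 3113 (.leaf 1) (.leaf 1)) (.node 3113 (.leaf 1) (.leaf 1)))) (.node 3097 (.leaf 1) (.leaf 254))) (.node 195286794242 (.node 3145 (.leaf 1) (.node 195085467650 (.node 3161 (.leaf 1) (.leaf 1)) (.node 3161 (.leaf 1) (.leaf 1)))) (.node 3145 (.leaf 1) (.node 195488120834 (.node 3161 (.leaf 1) (.leaf 1)) (.node 3161 (.leaf 1) (.leaf 1)))))) (.node 3129 (.node 196092100610 (.node 3097 (.leaf 1) (.leaf 254)) (.node 3097 (.leaf 1) (.node 196293427202 (.node 3113 (.leaf 1) (.leaf 1)) (.node 3113 (.leaf 1) (.leaf 1))))) (.node 196092100610 (.node 3145 (.leaf 1)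 (.node 195890774018 (.node 3161 (.leaf 1) (.leaf 1)) (.node 3161 (.leaf 1) (.leaf 1)))) (.node 3145
    (.leaf 1) (.node 196293427202 (.leaf 1) (.node 3161 (.leaf 1) (.leaf 1)))))))) (.node 194884141058 (.node 3225 (.node 194078834690 (.leaf 3) (.node 194481487874 (.leaf 3) (.leaf 3))) (.node 194078834690 (.leaf 3) (.node 3257 (.leaf 1) (.leaf 1)))) (.node 3225 (.node 195689447426 (.node 195286794242 (.node 3193 (.leaf 1) (.node 195085467650 (.node 3209 (.leaf 1) (.leaf 1)) (.node 3209 (.leaf 1) (.leaf 1)))) (.node 3193 (.leaf 1) (.node 195488120834 (.node 3209 (.leaf 1) (.leaf 1)) (.node 3209 (.leaf 1) (.leaf 1))))) (.node 196092100610 (.node 3193 (.leaf 1) (.node 195890774018 (.node 3209 (.leaf 1) (.leaf 1)) (.node 3209 (.leaf 1) (.leaf 1)))) (.node 3193 (.leaf 1) (.node 196293427202 (.node 3209 (.leaf 1) (.leaf 1)) (.node 3209 (.leaf 1) (.leaf 1)))))) (.node 195689447426 (.node 3257 (.node 195286794242 (.leaf 1) (.node 13915694039041 (.leaf 1) (.leaf 1))) (.leaf 1)) (.node 3257 (.node 196092100610 (.node 195890774018 (.node 3241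 (.leaf 1) (.leaf 1)) (.node 3241 (.leaf 1) (.leaf 1))) (.node 196293427202 (.node 3241 (.leaf 1) (.leaf 1)) (.node 3241 (.leaf 1) (.leaf 1)))) (.leaf 1)))))) (.node 3177 (.node 198105366530 (.node 197300060162 (.node 3129 (.node 196897406978 (.node 3097 (.leaf 1) (.node 196696080386 (.node 3113 (.leaf 1) (.leaf 1)) (.node 3113 (.leaf 1) (.leaf 1)))) (.node 3097 (.leaf 1) (.node 197098733570 (.node 3113 (.leaf 1) (.leaf 1)) (.node 3113 (.leaf 1) (.leaf 1))))) (.node 196897406978 (.node 3145 (.leaf 1) (.leaf 1)) (.node 3145 (.leaf 1) (.leaf 1)))) (.node 3129 (.node 197702713346 (.node 3097 (.leaf 1) (.node 197501386754 (.node 3113 (.leaf 1) (.leaf 1)) (.node 3113 (.leaf 1) (.leaf 1)))) (.node 3097 (.leaf 1) (.node 197904039938 (.node 3113 (.leaf 1) (.leaf 1)) (.node 3113 (.leaf 1) (.leaf 1))))) (.node 197702713346 (.node 3145 (.leaf 1) (.leaf 1)) (.node 3145 (.leaf 1) (.leaf 1))))) (.node 198910672898 (.node 3129 (.node 198508019714 (.node 3097 (.leaf 1) (.node 198306693122 (.node 3113 (.leaf 1) (.leaf 1)) (.node 3113 (.leaf 1) (.leaf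
    1)))) (.node 3097 (.leaf 1) (.node 198709346306 (.node 3113 (.leaf 1) (.leaf 1)) (.node 3113 (.leaf 1) (.leaf 1))))) (.node 198508019714 (.node 3145 (.leaf 1) (.leaf 1)) (.node 3145 (.leaf 1) (.node 198709346306 (.node 3161 (.leaf 1) (.leaf 1)) (.node 3161 (.leaf 1) (.leaf 1)))))) (.node 3129 (.node 199313326082 (.node 3097 (.leaf 1) (.node 199111999490 (.node 3113 (.leaf 1) (.leaf 1)) (.node 3113 (.leaf 1) (.leaf 1)))) (.node 3097 (.leaf 1) (.node 199514652674 (.node 3113 (.leaf 1) (.leaf 1)) (.node 3113 (.leaf 1) (.leaf 1))))) (.node 199313326082 (.node 3145 (.leaf 1) (.node 199111999490 (.node 3161 (.leaf 1) (.leaf 1)) (.node 3161 (.leaf 1) (.leaf 1)))) (.node 3145 (.leaf 1) (.node 199514652674 (.node 3161 (.leaf 1) (.leaf 1)) (.node 3161 (.leaf 1) (.leaf 1)))))))) (.node 198105366530 (.node 3225 (.node 197300060162 (.node 196897406978 (.node 3193 (.leaf 1) (.node 196696080386 (.node 3209 (.leaf 1) (.leaf 1)) (.node 3209 (.leaf 1) (.leaf 1)))) (.node 3193 (.leaf 1) (.node 197098733570 (.node 3209 (.leaf 1) (.leaf 1)) (.node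 3209 (.leaf 1) (.leaf 1))))) (.node 197702713346 (.node 3193 (.leaf 1) (.node 197501386754 (.node 3209 (.leaf 1) (.leaf 1)) (.node 3209 (.leaf 1) (.leaf 1)))) (.node 3193 (.leaf 1) (.leaf 1)))) (.node 197300060162 (.node 3257 (.node 196897406978 (.node 196696080386 (.node 3241 (.leaf 1) (.leaf 1)) (.node 3241 (.leaf 1) (.leaf 1))) (.node 197098733570 (.node 3241 (.leaf 1) (.leaf 1)) (.node 3241 (.leaf 1) (.leaf 1)))) (.node 196897406978 (.node 14053132992513 (.leaf 1) (.leaf 1)) (.node 197098733570 (.node 3273 (.leaf 1) (.leaf 1)) (.node 3273 (.leaf 1) (.leaf 1))))) (.node 3257 (.node 197702713346 (.node 197501386754 (.node 3241 (.leaf 1) (.leaf 1)) (.node 3241 (.leaf 1) (.leaf 1))) (.node 197904039938 (.node 3241 (.leaf 1) (.leaf 1)) (.node 3241 (.leaf 1) (.leaf 1)))) (.node 197702713346 (.node 197501386754 (.node 3273 (.leaf 1) (.leaf 1)) (.node 3273 (.leaf 1) (.leaf 1))) (.node 197904039938 (.node 3273 (.leaf 1) (.leaf 1)) (.node 3273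
    (.leaf 1) (.leaf 1))))))) (.node 3225 (.node 198910672898 (.node 198508019714 (.node 3193 (.leaf 1) (.leaf 1)) (.node 3193 (.leaf 1) (.leaf 1))) (.node 199313326082 (.node 3193 (.leaf 1) (.leaf 1)) (.node 3193 (.leaf 1) (.leaf 1)))) (.node 198910672898 (.node 3257 (.node 198508019714 (.node 198306693122 (.node 3241 (.leaf 1) (.leaf 1)) (.node 3241 (.leaf 1) (.leaf 1))) (.node 198709346306 (.node 3241 (.leaf 1) (.leaf 1)) (.node 3241 (.leaf 1) (.leaf 1)))) (.node 198508019714 (.node 198306693122 (.node 3273 (.leaf 1) (.leaf 1)) (.node 3273 (.leaf 1) (.leaf 1))) (.leaf 255))) (.node 3257 (.node 199313326082 (.node 199111999490 (.node 3241 (.leaf 1) (.leaf 1)) (.leaf 1)) (.node 199514652674 (.node 3241 (.leaf 1) (.leaf 1)) (.leaf 1))) (.leaf 255))))))) (.setw 1757401608801394125369419749358641599449061604023066402586178711766667860862036746246868413518332799103443659208535067859375063687754394069027447440293316526331 (.setw 878707508304676081851736447076223267638573885604723310183687386854931297466241866280879586852481059759792267735231560914131845297168102224863930940686602338556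 (.setw 878707508304676081851736447076223267638573885604723310183687386854931297466234277730519330098297780611718738364502489012416797877163212332638388345822519492861 (.node 196494753794 (.node 3401 (.node 194884141058 (.node 194078834690 (.leaf 3) (.node 3337 (.node 194481487874 (.leaf 3) (.node 3305 (.leaf 1) (.node 194682814466 (.node 14259291422721 (.leaf 1) (.leaf 1)) (.node 3321 (.leaf 1) (.leaf 1))))) (.node 194481487874 (.leaf 3) (.node 3369 (.node 194682814466 (.leaf 3) (.node 3353 (.node 194783477762 (.leaf 3) (.leaf 3)) (.leaf 3))) (.leaf 3))))) (.node 195689447426 (.node 3337 (.node 195286794242 (.node 3305 (.leaf 1) (.node 195085467650 (.node 3321 (.leaf 1) (.leaf 1)) (.node 3321 (.leaf 1) (.leaf 1)))) (.node 3305 (.leaf 1) (.node 195488120834 (.leaf 253) (.node 3321 (.leaf 1) (.leaf 1))))) (.node 195286794242 (.node 3369 (.node 195085467650 (.node 3353 (.leaf 1) (.leaf 1))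
    (.node 3353 (.leaf 1) (.leaf 1))) (.node 14534169329665 (.leaf 1) (.leaf 1))) (.node 3369 (.node 195488120834 (.node 3353 (.leaf 1) (.leaf 1)) (.node 3353 (.leaf 1) (.leaf 1))) (.node 195488120834 (.node 14534169329665 (.leaf 1) (.leaf 1)) (.node 3385 (.leaf 1) (.leaf 1)))))) (.node 3337 (.node 196092100610 (.node 3305 (.leaf 1) (.node 195890774018 (.node 3321 (.leaf 1) (.leaf 1)) (.node 3321 (.leaf 1) (.leaf 1)))) (.node 3305 (.leaf 1) (.node 196293427202 (.node 3321 (.leaf 1) (.leaf 1)) (.node 3321 (.leaf 1) (.leaf 1))))) (.node 196092100610 (.node 3369 (.node 195890774018 (.node 3353 (.leaf 1) (.leaf 1)) (.node 3353 (.leaf 1) (.leaf 1))) (.node 195890774018 (.node 3385 (.leaf 1) (.leaf 1)) (.node 3385 (.leaf 1) (.leaf 1)))) (.node 3369 (.node 196293427202 (.leaf 251) (.node 3353 (.leaf 1) (.leaf 1))) (.node 196293427202 (.node 3385 (.leaf 1) (.leaf 1)) (.node 3385 (.leaf 1) (.leaf 1)))))))) (.node 194884141058 (.node 3465 (.node 194078834690 (.leaf 3) (.leaf 3)) (.node 194078834690 (.leaf 3) (.node 194481487874 (.leaf 3)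 (.node 3497 (.leaf 1) (.node 194682814466 (.leaf 3) (.node 3513 (.leaf 1) (.leaf 1))))))) (.node 3465 (.node 195689447426 (.node 195286794242 (.node 3433 (.leaf 1) (.leaf 253)) (.node 3433 (.leaf 1) (.node 195488120834 (.node 3449 (.leaf 1) (.leaf 1)) (.node 3449 (.leaf 1) (.leaf 1))))) (.node 196092100610 (.node 3433 (.leaf 1) (.node 195890774018 (.node 3449 (.leaf 1) (.leaf 1)) (.node 3449 (.leaf 1) (.leaf 1)))) (.node 3433 (.leaf 1) (.node 196293427202 (.node 3449 (.leaf 1) (.leaf 1)) (.node 14809047236609 (.leaf 1) (.leaf 1)))))) (.node 195689447426 (.node 195286794242 (.node 3497 (.leaf 1) (.node 195085467650 (.node 3513 (.leaf 1) (.leaf 1)) (.node 3513 (.leaf 1) (.leaf 1)))) (.node 3497 (.leaf 1) (.node 195488120834 (.node 3513 (.leaf 1) (.leaf 1)) (.node 3513 (.leaf 1) (.leaf 1))))) (.node 196092100610 (.node 3497 (.leaf 1) (.node 195890774018 (.node 3513 (.leaf 1) (.leaf 1)) (.leaf 252))) (.node 3497 (.leaf 1) (.node 196293427202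
    (.node 3513 (.leaf 1) (.leaf 1)) (.node 3513 (.leaf 1) (.leaf 1))))))))) (.node 3401 (.node 198105366530 (.node 3337 (.node 197300060162 (.node 196897406978 (.node 3305 (.leaf 1) (.node 196696080386 (.node 3321 (.leaf 1) (.leaf 1)) (.node 3321 (.leaf 1) (.leaf 1)))) (.node 3305 (.leaf 1) (.leaf 255))) (.node 197702713346 (.node 3305 (.leaf 1) (.node 197501386754 (.leaf 255) (.node 14259291422721 (.leaf 1) (.leaf 1)))) (.node 3305 (.leaf 1) (.leaf 1)))) (.node 197300060162 (.node 196897406978 (.node 3369 (.node 196696080386 (.node 3353 (.leaf 1) (.leaf 1)) (.leaf 1)) (.node 196696080386 (.node 3385 (.leaf 1) (.leaf 1)) (.node 3385 (.leaf 1) (.leaf 1)))) (.node 3369 (.leaf 1) (.node 197098733570 (.node 3385 (.leaf 1) (.leaf 1)) (.node 3385 (.leaf 1) (.leaf 1))))) (.node 197702713346 (.node 3369 (.leaf 1) (.node 197501386754 (.node 3385 (.leaf 1) (.leaf 1)) (.node 3385 (.leaf 1) (.leaf 1)))) (.node 3369 (.leaf 1) (.leaf 253))))) (.node 3337 (.node 198910672898 (.node 198508019714 (.node 3305 (.leaf 1) (.leaf 1)) (.node 3305 (.leaf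 1) (.node 14259291422721 (.leaf 1) (.leaf 1)))) (.node 199313326082 (.node 3305 (.leaf 1) (.node 199111999490 (.node 3321 (.leaf 1) (.leaf 1)) (.node 3321 (.leaf 1) (.leaf 1)))) (.node 3305 (.leaf 1) (.node 199514652674 (.node 3321 (.leaf 1) (.leaf 1)) (.node 3321 (.leaf 1) (.leaf 1)))))) (.node 198910672898 (.node 198508019714 (.node 3369 (.leaf 1) (.node 198306693122 (.leaf 253) (.node 3385 (.leaf 1) (.leaf 1)))) (.node 3369 (.leaf 1) (.node 198709346306 (.node 3385 (.leaf 1) (.leaf 1)) (.node 3385 (.leaf 1) (.leaf 1))))) (.node 3369 (.leaf 1) (.node 199313326082 (.node 199111999490 (.node 3385 (.leaf 1) (.leaf 1)) (.node 3385 (.leaf 1) (.leaf 1))) (.node 199514652674 (.node 3385 (.leaf 1) (.leaf 1)) (.node 3385 (.leaf 1) (.leaf 1)))))))) (.node 198105366530 (.node 3465 (.node 197300060162 (.node 196897406978 (.node 3433 (.node 196696080386 (.node 14671608283137 (.leaf 1) (.leaf 1)) (.node 3417 (.leaf 1) (.leaf 1))) (.node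
    14809047236609 (.leaf 1) (.leaf 1))) (.node 3433 (.node 197098733570 (.node 3417 (.leaf 1) (.leaf 1)) (.node 3417 (.leaf 1) (.leaf 1))) (.node 14809047236609 (.leaf 1) (.leaf 1)))) (.node 197702713346 (.node 3433 (.node 197501386754 (.node 3417 (.leaf 1) (.leaf 1)) (.leaf 251)) (.leaf 255)) (.node 3433 (.leaf 251) (.node 197904039938 (.node 14809047236609 (.leaf 1) (.leaf 1)) (.node 3449 (.leaf 1) (.leaf 1)))))) (.node 197300060162 (.node 196897406978 (.node 3497 (.leaf 1) (.node 196696080386 (.leaf 252) (.node 15083925143553 (.leaf 1) (.leaf 1)))) (.node 3497 (.leaf 1) (.node 197098733570 (.node 15083925143553 (.leaf 1) (.leaf 1)) (.leaf 254)))) (.node 197702713346 (.node 3497 (.leaf 1) (.leaf 254)) (.node 3497 (.leaf 1) (.node 15083925143553 (.leaf 1) (.leaf 1)))))) (.node 3465 (.node 198910672898 (.node 198508019714 (.node 3433 (.leaf 255) (.node 198306693122 (.node 3449 (.leaf 1) (.leaf 1)) (.node 3449 (.leaf 1) (.leaf 1)))) (.node 3433 (.leaf 1) (.node 198709346306 (.node 3449 (.leaf 1) (.leaf 1)) (.node 3449 (.leaf 1)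 (.leaf 1))))) (.node 199313326082 (.node 3433 (.leaf 255) (.node 199111999490 (.node 3449 (.leaf 1) (.leaf 1)) (.node 3449 (.leaf 1) (.leaf 1)))) (.node 3433 (.leaf 1) (.node 199514652674 (.node 3449 (.leaf 1) (.leaf 1)) (.node 3449 (.leaf 1) (.leaf 1)))))) (.node 198910672898 (.node 198508019714 (.node 3497 (.leaf 1) (.leaf 254)) (.node 3497 (.leaf 1) (.leaf 254))) (.node 199313326082 (.node 3497 (.node 14946486190081 (.leaf 1) (.leaf 1)) (.node 15083925143553 (.leaf 1) (.leaf 1))) (.node 3497 (.leaf 255) (.node 15083925143553 (.leaf 1) (.leaf 1)))))))))))))))))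
    ⟨25769803776, 25769803776, 828928688128, 944892805120, 12079595520, 12482248704, 4294967296, 4294967296, 4294967296, 4294967296, 0⟩ = true := by decide +kernel

theorem rt6_12 : Tr.run2 ce0 pRT
    (.comp 15 26815820446798664049041291280378310868015920977621035021733419412259394593781950039275295774361939757612849879678078150039361949038123376901063832099618816 (.setw 1757401608801397247117970065350872981046291397189372151184321376737818720018996371618607233283952919409546722700506896714106658883806551003965299898332093612286 (.setw 1757401608801394125369419749358641599449061604023066402586178711766667860862036746246868413518332799103443659208535067859375063687754394069027447440293316526335 (.node 3289 (.node 202937204738 (.node 3177 (.node 201326592002 (.node 200521285634 (.node 3129 (.node 200118632450 (.node 3097 (.leaf 1) (.node 199917305858 (.node 3113 (.leaf 1) (.leaf 1)) (.node 3113 (.leaf 1) (.leaf 1)))) (.node 3097 (.leaf 1) (.node 200319959042 (.node 3113 (.leaf 1) (.leaf 1)) (.node 3113 (.leaf 1) (.leaf 1))))) (.node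 200118632450 (.node 3145 (.leaf 1) (.node 199917305858 (.node 3161 (.leaf 1) (.leaf 1)) (.node 3161 (.leaf 1) (.leaf 1)))) (.node 3145 (.leaf 1) (.node 200319959042 (.node 3161 (.leaf 1) (.leaf 1)) (.node 3161 (.leaf 1) (.leaf 1)))))) (.node 3129 (.node 200923938818 (.node 3097 (.leaf 1) (.node 200722612226 (.node 3113 (.leaf 1) (.leaf 1)) (.node 3113 (.leaf 1) (.leaf 1)))) (.node 3097 (.leaf 1) (.node 201125265410 (.node 3113 (.leaf 1) (.leaf 1)) (.node 3113 (.leaf 1) (.leaf 1))))) (.node 200923938818 (.node 3145 (.leaf 1) (.node 200722612226 (.node 3161 (.leaf 1) (.leaf 1)) (.node 3161 (.leaf 1) (.leaf 1)))) (.node 3145 (.leaf 1) (.node 201125265410 (.node 3161 (.leaf 1) (.leaf 1)) (.node 3161 (.leaf 1) (.leaf 1))))))) (.node 202131898370 (.node 3129 (.node 201729245186 (.node 3097 (.leaf 1) (.node 201527918594 (.node 3113 (.leaf 1) (.leaf 1)) (.node 3113 (.leaf 1) (.leaf 1)))) (.node 3097 (.leaf 1) (.leaf 254))) (.node 201729245186 (.node 3145 (.leaf 1) (.node 201527918594 (.node 3161 (.leaf 1) (.leaf 1)) (.node 3161 (.leaf 1)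 (.leaf 1)))) (.node 3145 (.leaf 1) (.node 201930571778 (.node 3161 (.leaf 1) (.leaf 1)) (.node 3161
    (.leaf 1) (.leaf 1)))))) (.node 3129 (.node 202534551554 (.node 3097 (.leaf 1) (.node 202333224962 (.node 3113 (.leaf 1) (.leaf 1)) (.leaf 1))) (.node 3097 (.leaf 1) (.leaf 1))) (.node 202534551554 (.node 3145 (.leaf 1) (.node 202333224962 (.leaf 1) (.leaf 1))) (.node 3145 (.leaf 1) (.leaf 1)))))) (.node 201326592002 (.node 3225 (.node 200521285634 (.node 200118632450 (.node 3193 (.leaf 1) (.leaf 1)) (.node 3193 (.leaf 1) (.node 200319959042 (.leaf 1) (.node 3209 (.leaf 1) (.leaf 1))))) (.node 200923938818 (.node 3193 (.leaf 1) (.node 200722612226 (.node 3209 (.leaf 1) (.leaf 1)) (.node 3209 (.leaf 1) (.leaf 1)))) (.node 3193 (.leaf 1) (.node 201125265410 (.node 3209 (.leaf 1) (.leaf 1)) (.node 3209 (.leaf 1) (.leaf 1)))))) (.node 200521285634 (.node 3257 (.node 200118632450 (.leaf 1) (.leaf 1)) (.node 200118632450 (.node 199917305858 (.node 3273 (.leaf 1) (.leaf 1)) (.leaf 1)) (.leaf 1))) (.node 3257 (.node 200923938818 (.leaf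 1) (.leaf 1)) (.node 200923938818 (.leaf 1) (.leaf 1))))) (.node 3225 (.node 202131898370 (.node 201729245186 (.node 3193 (.leaf 1) (.node 201527918594 (.node 3209 (.leaf 1) (.leaf 1)) (.node 3209 (.leaf 1) (.leaf 1)))) (.node 3193 (.leaf 1) (.node 201930571778 (.node 3209 (.leaf 1) (.leaf 1)) (.node 3209 (.leaf 1) (.leaf 1))))) (.node 202534551554 (.node 3193 (.leaf 1) (.node 202333224962 (.node 3209 (.leaf 1) (.leaf 1)) (.node 3209 (.leaf 1) (.leaf 1)))) (.node 3193 (.leaf 1) (.node 202735878146 (.node 3209 (.leaf 1) (.leaf 1)) (.node 3209 (.leaf 1) (.leaf 1)))))) (.node 202131898370 (.node 3257 (.node 201729245186 (.leaf 1) (.node 201930571778 (.node 3241 (.leaf 1) (.leaf 1)) (.node 3241 (.leaf 1) (.leaf 1)))) (.leaf 1)) (.node 3257 (.node 202534551554 (.node 202333224962 (.node 3241 (.leaf 1) (.leaf 1)) (.node 3241 (.leaf 1) (.leaf 1))) (.node 202735878146 (.node 3241 (.leaf 1) (.leaf 1)) (.node 3241 (.leaf 1) (.leaf 1)))) (.leaf 1)))))) (.node 3177 (.node 204547817474 (.node 203742511106 (.node 3129 (.node 203339857922 (.node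 3097
    (.leaf 1) (.node 203138531330 (.node 3113 (.leaf 1) (.leaf 1)) (.node 3113 (.leaf 1) (.leaf 1)))) (.node 3097 (.leaf 1) (.node 203541184514 (.node 3113 (.leaf 1) (.leaf 1)) (.node 3113 (.leaf 1) (.leaf 1))))) (.node 203339857922 (.node 3145 (.leaf 1) (.node 203138531330 (.node 3161 (.leaf 1) (.leaf 1)) (.leaf 1))) (.node 3145 (.leaf 1) (.leaf 1)))) (.node 3129 (.node 204145164290 (.node 3097 (.leaf 1) (.node 203943837698 (.node 3113 (.leaf 1) (.leaf 1)) (.node 3113 (.leaf 1) (.leaf 1)))) (.node 3097 (.leaf 1) (.node 204346490882 (.node 3113 (.leaf 1) (.leaf 1)) (.node 3113 (.leaf 1) (.leaf 1))))) (.node 204145164290 (.node 3145 (.leaf 1) (.leaf 1)) (.node 3145 (.leaf 1) (.leaf 1))))) (.node 205353123842 (.node 3129 (.node 204950470658 (.node 3097 (.leaf 1) (.node 204749144066 (.node 3113 (.leaf 1) (.leaf 254)) (.node 3113 (.leaf 1) (.leaf 254)))) (.node 3097 (.leaf 1) (.node 205151797250 (.node 3113 (.leaf 1) (.leaf 254)) (.node 3113 (.leaf 1) (.leaf 1))))) (.node 204950470658 (.node 3145 (.leaf 1) (.leaf 1)) (.node 3145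 (.leaf 1) (.node 205151797250 (.node 3161 (.leaf 1) (.leaf 1)) (.node 3161 (.leaf 1) (.leaf 1)))))) (.node 3129 (.node 205755777026 (.node 3097 (.leaf 1) (.node 205554450434 (.node 3113 (.leaf 1) (.leaf 1)) (.node 3113 (.leaf 1) (.leaf 1)))) (.node 3097 (.leaf 1) (.node 205957103618 (.node 3113 (.leaf 1) (.leaf 1)) (.node 3113 (.leaf 1) (.leaf 1))))) (.node 205755777026 (.node 3145 (.leaf 1) (.node 205554450434 (.node 3161 (.leaf 1) (.leaf 1)) (.node 3161 (.leaf 1) (.leaf 1)))) (.node 3145 (.leaf 1) (.node 205957103618 (.node 3161 (.leaf 1) (.leaf 1)) (.node 3161 (.leaf 1) (.leaf 1)))))))) (.node 204547817474 (.node 3225 (.node 203742511106 (.node 203339857922 (.node 3193 (.leaf 1) (.node 203138531330 (.node 3209 (.leaf 1) (.leaf 1)) (.node 3209 (.leaf 1) (.leaf 1)))) (.node 3193 (.leaf 1) (.node 203541184514 (.node 3209 (.leaf 1) (.leaf 1)) (.node 3209 (.leaf 1) (.leaf 1))))) (.node 204145164290 (.node 3193 (.leaf 1) (.node 203943837698 (.node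
    3209 (.leaf 1) (.leaf 1)) (.node 3209 (.leaf 1) (.leaf 1)))) (.node 3193 (.leaf 1) (.node 204346490882 (.node 3209 (.leaf 1) (.leaf 1)) (.node 3209 (.leaf 1) (.leaf 1)))))) (.node 203742511106 (.node 3257 (.node 203339857922 (.node 203138531330 (.node 3241 (.leaf 1) (.leaf 1)) (.node 3241 (.leaf 1) (.leaf 1))) (.node 203541184514 (.node 3241 (.leaf 1) (.leaf 1)) (.leaf 255))) (.node 203339857922 (.node 203138531330 (.leaf 1) (.leaf 255)) (.leaf 255))) (.node 3257 (.node 204145164290 (.node 203943837698 (.node 3241 (.leaf 1) (.leaf 1)) (.node 3241 (.leaf 1) (.leaf 1))) (.node 204346490882 (.node 3241 (.leaf 1) (.leaf 1)) (.node 3241 (.leaf 1) (.leaf 1)))) (.node 204145164290 (.node 203943837698 (.node 3273 (.leaf 1) (.leaf 1)) (.leaf 255)) (.node 204346490882 (.node 3273 (.leaf 1) (.leaf 1)) (.node 3273 (.leaf 1) (.leaf 1))))))) (.node 3225 (.node 205353123842 (.node 204950470658 (.node 3193 (.leaf 1) (.leaf 1)) (.node 3193 (.leaf 1) (.leaf 1))) (.node 205755777026 (.node 3193 (.leaf 1) (.leaf 1)) (.node 3193 (.leaf 1) (.leaf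 1)))) (.node 205353123842 (.node 3257 (.node 204950470658 (.node 204749144066 (.node 3241 (.leaf 1) (.leaf 1)) (.node 3241 (.leaf 1) (.leaf 1))) (.node 205151797250 (.node 3241 (.leaf 1) (.leaf 1)) (.node 3241 (.leaf 1) (.leaf 1)))) (.node 204950470658 (.node 204749144066 (.node 3273 (.leaf 1) (.leaf 1)) (.node 3273 (.leaf 1) (.leaf 1))) (.node 205151797250 (.node 3273 (.leaf 1) (.leaf 1)) (.node 3273 (.leaf 1) (.leaf 1))))) (.node 3257 (.node 205755777026 (.node 205554450434 (.node 3241 (.leaf 1) (.leaf 1)) (.leaf 1)) (.node 205957103618 (.node 3241 (.leaf 1) (.leaf 1)) (.leaf 1))) (.node 205755777026 (.node 205554450434 (.node 3273 (.leaf 1) (.leaf 1)) (.node 3273 (.leaf 1) (.leaf 1))) (.node 205957103618 (.node 3273 (.leaf 1) (.leaf 1)) (.leaf 1))))))))) (.node 202937204738 (.node 3401 (.node 201326592002 (.node 3337 (.node 200521285634 (.node 200118632450 (.node 3305 (.leaf 1) (.node 199917305858 (.node 3321 (.leaf 1) (.leaf 1)) (.node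
    3321 (.leaf 1) (.leaf 1)))) (.node 3305 (.leaf 1) (.node 200319959042 (.node 3321 (.leaf 1) (.leaf 1)) (.node 3321 (.leaf 1) (.leaf 1))))) (.node 200923938818 (.node 3305 (.leaf 1) (.node 200722612226 (.node 3321 (.leaf 1) (.leaf 1)) (.node 3321 (.leaf 1) (.leaf 1)))) (.node 3305 (.leaf 1) (.node 201125265410 (.node 3321 (.leaf 1) (.leaf 1)) (.node 3321 (.leaf 1) (.leaf 1)))))) (.node 200521285634 (.node 3369 (.node 200118632450 (.node 14396730376193 (.leaf 1) (.leaf 1)) (.node 200319959042 (.node 14396730376193 (.leaf 1) (.leaf 1)) (.node 3353 (.leaf 1) (.leaf 1)))) (.node 200118632450 (.node 199917305858 (.leaf 1) (.node 14534169329665 (.leaf 1) (.leaf 1))) (.node 14534169329665 (.leaf 1) (.leaf 1)))) (.node 3369 (.node 200923938818 (.node 200722612226 (.node 3353 (.leaf 1) (.leaf 1)) (.node 3353 (.leaf 1) (.leaf 1))) (.node 201125265410 (.node 3353 (.leaf 1) (.leaf 1)) (.node 3353 (.leaf 1) (.leaf 1)))) (.node 14534169329665 (.leaf 1) (.leaf 1))))) (.node 3337 (.node 202131898370 (.node 201729245186 (.node 3305 (.leaf 1)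 (.node 201527918594 (.node 3321 (.leaf 1) (.leaf 1)) (.node 3321 (.leaf 1) (.leaf 1)))) (.node 3305 (.leaf 1) (.node 201930571778 (.node 3321 (.leaf 1) (.leaf 1)) (.node 3321 (.leaf 1) (.leaf 1))))) (.node 202534551554 (.node 3305 (.leaf 1) (.node 202333224962 (.node 3321 (.leaf 1) (.leaf 1)) (.node 3321 (.leaf 1) (.leaf 1)))) (.node 3305 (.leaf 1) (.node 202735878146 (.node 3321 (.leaf 1) (.leaf 1)) (.node 3321 (.leaf 1) (.leaf 1)))))) (.node 202131898370 (.node 3369 (.node 201729245186 (.node 201527918594 (.node 3353 (.leaf 1) (.leaf 1)) (.node 3353 (.leaf 1) (.leaf 1))) (.node 201930571778 (.node 3353 (.leaf 1) (.leaf 1)) (.leaf 255))) (.node 201729245186 (.node 201527918594 (.node 14534169329665 (.leaf 1) (.leaf 1)) (.node 3385 (.leaf 1) (.leaf 1))) (.node 201930571778 (.node 3385 (.leaf 1) (.leaf 1)) (.node 3385 (.leaf 1) (.leaf 1))))) (.node 3369 (.node 202534551554 (.leaf 255) (.node 202735878146 (.node 3353 (.leaf 1) (.leaf 1)) (.node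
    3353 (.leaf 1) (.leaf 1)))) (.node 202534551554 (.node 202333224962 (.node 3385 (.leaf 1) (.leaf 1)) (.node 3385 (.leaf 1) (.leaf 1))) (.node 202735878146 (.node 3385 (.leaf 1) (.leaf 1)) (.node 3385 (.leaf 1) (.leaf 1)))))))) (.node 201326592002 (.node 3465 (.node 200521285634 (.node 200118632450 (.node 3433 (.leaf 1) (.node 199917305858 (.node 3449 (.leaf 1) (.leaf 1)) (.node 3449 (.leaf 1) (.leaf 1)))) (.node 3433 (.leaf 1) (.node 200319959042 (.node 3449 (.leaf 1) (.leaf 1)) (.node 3449 (.leaf 1) (.leaf 1))))) (.node 200923938818 (.node 3433 (.leaf 1) (.node 200722612226 (.leaf 254) (.node 3449 (.leaf 1) (.leaf 1)))) (.node 3433 (.leaf 1) (.node 201125265410 (.node 3449 (.leaf 1) (.leaf 1)) (.node 3449 (.leaf 1) (.leaf 1)))))) (.node 200521285634 (.node 200118632450 (.node 3497 (.leaf 1) (.leaf 1)) (.node 3497 (.leaf 1) (.node 15083925143553 (.leaf 1) (.leaf 1)))) (.node 200923938818 (.node 3497 (.leaf 1) (.node 200722612226 (.node 3513 (.leaf 1) (.leaf 1)) (.node 3513 (.leaf 1) (.leaf 1)))) (.node 3497 (.leaf 1) (.node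 201125265410 (.node 3513 (.leaf 1) (.leaf 1)) (.node 3513 (.leaf 1) (.leaf 1))))))) (.node 3465 (.node 202131898370 (.node 201729245186 (.node 3433 (.leaf 1) (.node 201527918594 (.node 3449 (.leaf 1) (.leaf 1)) (.leaf 254))) (.node 3433 (.leaf 1) (.leaf 254))) (.node 202534551554 (.node 3433 (.leaf 1) (.leaf 254)) (.node 3433 (.node 202735878146 (.node 14671608283137 (.leaf 1) (.leaf 1)) (.node 3417 (.leaf 1) (.leaf 1))) (.node 14809047236609 (.leaf 1) (.leaf 1))))) (.node 202131898370 (.node 201729245186 (.node 3497 (.leaf 1) (.node 201527918594 (.node 3513 (.leaf 1) (.leaf 1)) (.node 3513 (.leaf 1) (.leaf 1)))) (.node 3497 (.leaf 1) (.node 201930571778 (.node 3513 (.leaf 1) (.leaf 1)) (.node 15083925143553 (.leaf 1) (.leaf 1))))) (.node 202534551554 (.node 3497 (.leaf 1) (.node 15083925143553 (.leaf 1) (.leaf 1))) (.node 3497 (.leaf 1) (.node 15083925143553 (.leaf 1) (.leaf 1)))))))) (.node 3401 (.node 204547817474 (.node 3337 (.node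
    203742511106 (.node 203339857922 (.node 3305 (.leaf 1) (.node 203138531330 (.node 3321 (.leaf 1) (.leaf 1)) (.node 3321 (.leaf 1) (.leaf 1)))) (.node 3305 (.leaf 1) (.node 203541184514 (.node 3321 (.leaf 1) (.leaf 1)) (.node 3321 (.leaf 1) (.leaf 1))))) (.node 204145164290 (.node 3305 (.leaf 1) (.node 203943837698 (.node 3321 (.leaf 1) (.leaf 1)) (.node 3321 (.leaf 1) (.leaf 1)))) (.node 3305 (.leaf 1) (.node 204346490882 (.node 3321 (.leaf 1) (.leaf 1)) (.node 3321 (.leaf 1) (.leaf 1)))))) (.node 203742511106 (.node 3369 (.node 203339857922 (.node 203138531330 (.node 3353 (.leaf 1) (.leaf 1)) (.node 3353 (.leaf 1) (.leaf 1))) (.leaf 1)) (.node 203339857922 (.node 203138531330 (.node 3385 (.leaf 1) (.leaf 1)) (.node 3385 (.leaf 1) (.leaf 1))) (.node 203541184514 (.node 14534169329665 (.leaf 1) (.leaf 1)) (.node 14534169329665 (.leaf 1) (.leaf 1))))) (.node 3369 (.node 204145164290 (.leaf 1) (.leaf 1)) (.node 204145164290 (.node 203943837698 (.node 14534169329665 (.leaf 1) (.leaf 1)) (.node 14534169329665 (.leaf 1) (.leaf 1)))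 (.node 204346490882 (.node 3385 (.leaf 1) (.leaf 1)) (.node 3385 (.leaf 1) (.leaf 1))))))) (.node 3337 (.node 205353123842 (.node 204950470658 (.node 3305 (.leaf 1) (.node 204749144066 (.node 3321 (.leaf 1) (.leaf 1)) (.node 3321 (.leaf 1) (.leaf 1)))) (.node 3305 (.leaf 1) (.node 205151797250 (.node 3321 (.leaf 1) (.leaf 1)) (.node 3321 (.leaf 1) (.leaf 1))))) (.node 205755777026 (.node 3305 (.leaf 1) (.node 205554450434 (.node 3321 (.leaf 1) (.leaf 1)) (.node 3321 (.leaf 1) (.leaf 1)))) (.node 3305 (.leaf 1) (.node 205957103618 (.node 3321 (.leaf 1) (.leaf 1)) (.node 3321 (.leaf 1) (.leaf 1)))))) (.node 205353123842 (.node 3369 (.leaf 1) (.node 204950470658 (.node 204749144066 (.node 3385 (.leaf 1) (.leaf 1)) (.node 3385 (.leaf 1) (.leaf 1))) (.node 205151797250 (.node 3385 (.leaf 1) (.leaf 1)) (.node 3385 (.leaf 1) (.leaf 1))))) (.node 3369 (.leaf 1) (.node 205755777026 (.node 205554450434 (.node 3385 (.leaf 1) (.leaf 1)) (.node 3385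
    (.leaf 1) (.leaf 1))) (.node 205957103618 (.node 3385 (.leaf 1) (.leaf 1)) (.leaf 254))))))) (.node 204547817474 (.node 3465 (.node 203742511106 (.node 203339857922 (.node 3433 (.node 203138531330 (.node 3417 (.leaf 1) (.leaf 1)) (.node 3417 (.leaf 1) (.leaf 1))) (.node 14809047236609 (.leaf 1) (.leaf 1))) (.node 3433 (.leaf 255) (.leaf 1))) (.node 204145164290 (.node 3433 (.node 203943837698 (.node 3417 (.leaf 1) (.leaf 1)) (.leaf 255)) (.node 14809047236609 (.leaf 1) (.leaf 1))) (.node 3433 (.leaf 255) (.node 204346490882 (.node 3449 (.leaf 1) (.leaf 1)) (.node 3449 (.leaf 1) (.leaf 1)))))) (.node 203742511106 (.node 203339857922 (.node 3497 (.leaf 1) (.leaf 254)) (.node 3497 (.leaf 1) (.leaf 254))) (.node 204145164290 (.node 3497 (.leaf 1) (.leaf 254)) (.node 3497 (.leaf 1) (.leaf 254))))) (.node 3465 (.node 205353123842 (.node 204950470658 (.node 3433 (.leaf 1) (.node 204749144066 (.node 3449 (.leaf 1) (.leaf 1)) (.node 3449 (.leaf 1) (.leaf 1)))) (.node 3433 (.node 14671608283137 (.leaf 1) (.leaf 1)) (.node 205151797250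 (.node 3449 (.leaf 1) (.leaf 1)) (.node 3449 (.leaf 1) (.leaf 1))))) (.node 205755777026 (.node 3433 (.node 205554450434 (.node 3417 (.leaf 1) (.leaf 1)) (.leaf 1)) (.node 205554450434 (.node 3449 (.leaf 1) (.leaf 1)) (.node 3449 (.leaf 1) (.leaf 1)))) (.node 3433 (.node 205957103618 (.node 3417 (.leaf 1) (.leaf 1)) (.leaf 1)) (.node 205957103618 (.node 3449 (.leaf 1) (.leaf 1)) (.node 14809047236609 (.leaf 1) (.leaf 1)))))) (.node 205353123842 (.node 204950470658 (.node 3497 (.leaf 1) (.node 15083925143553 (.leaf 1) (.leaf 1))) (.node 3497 (.node 14946486190081 (.leaf 1) (.leaf 1)) (.node 15083925143553 (.leaf 1) (.leaf 1)))) (.node 205755777026 (.node 3497 (.leaf 1) (.node 15083925143553 (.leaf 1) (.leaf 1))) (.node 3497 (.leaf 255) (.node 15083925143553 (.leaf 1) (.leaf 1)))))))))))))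
    ⟨25769803776, 25769803776, 828928688128, 944892805120, 12482248704, 12884901888, 4294967296, 4294967296, 4294967296, 4294967296, 0⟩ = true := by decide +kernel

theorem rt6_13 : Tr.run2 ce0 pRT
    (.comp 15 26815820446798664049041291280378310868015920977621035021733419412259394593781950039275295774361939757612849879678078150039361949038123376901063832099618816 (.setw 1757401608801397247117970065350872981046291397189372151184321376737818720018996371618607233283952919409546722700506896714106658883806551003965299898332093612286 (.setw 878707508304676081851736447076223267638573885604723310183687388990918333387144360125541036267849895214423260721155258959458405699382938113278938368784606429439 (.node 199715979266 (.comp 65 26815820446798664049041291280378310868015920977621035021733419444851970215133727419570426788911990334436344178333058160217609138708224173114451131033976832 (.comp 129 13408012516855876413056724534599748578596260163967988043049001952232036132741165884610929012828129624955984961024048658716481550929070786570733272724144128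 (.node 3801 (.node 196494753794 (.node 3657 (.node 194884141058 (.node 3593 (.node 194078834690 (.leaf 5) (.node 194481487874 (.leaf 5) (.leaf 3))) (.node 194078834690 (.leaf 5) (.leaf 5))) (.node 3593 (.node 195689447426 (.leaf 3) (.node 196092100610 (.node 3561 (.leaf 1) (.leaf 3)) (.node 3561 (.leaf 1) (.leaf 3)))) (.node 195689447426 (.node 195286794242 (.node 3625 (.leaf 3) (.node 195085467650 (.node 15633680957441 (.leaf 1) (.leaf 1)) (.leaf 255))) (.node 3625 (.leaf 3) (.node 195488120834 (.leaf 3432451204315165333393894840080804807941536999755214091328018424989191467891195077826705909669354461233794281162952096739236554704085899465980287274971037696) (.leaf 3)))) (.node 196092100610 (.node 3625 (.leaf 3) (.leaf 3)) (.leaf 3))))) (.node 194884141058 (.node 3721 (.leaf 5) (.node 194078834690 (.leaf 5) (.node 3753 (.node 194481487874 (.leaf 5) (.node 194682814466 (.leaf 5) (.leaf 5))) (.node 194481487874 (.leaf 5) (.leaf 5))))) (.node 3721 (.node 195689447426 (.node 195286794242 (.node 3689 (.leaf 1) (.leaf 1)) (.node 3689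 (.leaf 1) (.leaf 1))) (.node 196092100610 (.node 3689 (.leaf 1) (.node 15908558864385 (.leaf 1)
    (.leaf 1))) (.node 3689 (.leaf 1) (.node 196293427202 (.node 15908558864385 (.leaf 1) (.leaf 1)) (.node 3705 (.leaf 1) (.leaf 1)))))) (.node 195689447426 (.node 3753 (.leaf 3) (.leaf 3)) (.node 3753 (.leaf 3) (.leaf 3)))))) (.node 3657 (.node 198105366530 (.node 3593 (.node 197300060162 (.node 196897406978 (.node 3561 (.leaf 1) (.leaf 1)) (.node 3561 (.leaf 1) (.node 197098733570 (.node 15358803050497 (.leaf 1) (.leaf 1)) (.node 3577 (.leaf 1) (.leaf 1))))) (.node 197702713346 (.node 3561 (.leaf 1) (.node 197501386754 (.node 3577 (.leaf 1) (.leaf 1)) (.node 3577 (.leaf 1) (.leaf 1)))) (.node 3561 (.leaf 1) (.node 197904039938 (.node 3577 (.leaf 1) (.leaf 1)) (.node 3577 (.leaf 1) (.leaf 1)))))) (.node 197300060162 (.node 15564961480705 (.leaf 1) (.node 15616501088257 (.leaf 1) (.leaf 1))) (.node 15564961480705 (.node 15513421873153 (.leaf 1) (.leaf 1)) (.leaf 1)))) (.node 3593 (.node 198910672898 (.node 198508019714 (.node 3561 (.leaf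 1) (.node 198306693122 (.node 3577 (.leaf 1) (.leaf 1)) (.node 3577 (.leaf 1) (.leaf 1)))) (.node 3561 (.leaf 1) (.node 198709346306 (.node 3577 (.leaf 1) (.leaf 1)) (.node 15358803050497 (.leaf 1) (.leaf 1))))) (.node 199313326082 (.node 3561 (.leaf 1) (.node 15358803050497 (.leaf 1) (.leaf 1))) (.node 3561 (.leaf 1) (.node 199514652674 (.node 15358803050497 (.leaf 1) (.leaf 1)) (.leaf 254))))) (.node 198910672898 (.node 198508019714 (.node 3625 (.leaf 1) (.leaf 1)) (.node 3625 (.leaf 1) (.leaf 1))) (.node 199313326082 (.node 3625 (.leaf 1) (.leaf 1)) (.node 3625 (.leaf 1) (.node 199514652674 (.leaf 1) (.node 3641 (.leaf 1) (.leaf 1)))))))) (.node 198105366530 (.node 3721 (.node 197300060162 (.node 196897406978 (.node 3689 (.leaf 3) (.node 196696080386 (.node 3705 (.leaf 3) (.leaf 3)) (.node 3705 (.leaf 3) (.leaf 3)))) (.node 3689 (.leaf 3) (.node 197098733570 (.leaf 3) (.leaf 3)))) (.node 197702713346 (.node 3689 (.leaf 3) (.leaf 3)) (.node 3689 (.leaf 3) (.leaf 3)))) (.node 197300060162 (.leaf 3) (.node 3753 (.leaf 1) (.leaf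
    3)))) (.node 3721 (.node 198910672898 (.node 198508019714 (.node 3689 (.leaf 3) (.leaf 3)) (.leaf 3)) (.leaf 3)) (.node 198910672898 (.node 3753 (.leaf 1) (.node 198508019714 (.leaf 3) (.node 3769 (.leaf 3) (.leaf 3)))) (.node 3753 (.leaf 3) (.node 199313326082 (.node 3769 (.leaf 3) (.node 199111999490 (.leaf 3) (.leaf 3))) (.node 3769 (.leaf 3) (.leaf 1))))))))) (.node 196494753794 (.node 3961 (.node 194884141058 (.node 3881 (.node 194078834690 (.leaf 3) (.leaf 3)) (.leaf 5)) (.node 3881 (.node 195689447426 (.node 3833 (.leaf 3) (.leaf 3)) (.node 3833 (.leaf 3) (.node 196092100610 (.leaf 3) (.node 3849 (.leaf 3) (.leaf 3))))) (.node 195689447426 (.node 195286794242 (.leaf 3) (.leaf 3)) (.leaf 3)))) (.node 194884141058 (.leaf 3) (.node 4041 (.node 195689447426 (.node 195286794242 (.leaf 3) (.leaf 3)) (.node 196092100610 (.leaf 3) (.leaf 3))) (.leaf 3)))) (.node 3961 (.node 198105366530 (.node 3881 (.node 197300060162 (.node 3833 (.leaf 3) (.node 196897406978 (.node 3849 (.leaf 3) (.node 16595753631745 (.leaf 3) (.leaf 3))) (.leaf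 3))) (.node 3833 (.leaf 3) (.leaf 3))) (.node 197300060162 (.leaf 3) (.node 197702713346 (.leaf 3) (.node 3913 (.leaf 3) (.leaf 3))))) (.node 3881 (.node 198910672898 (.node 3833 (.leaf 3) (.leaf 3)) (.leaf 3)) (.node 198910672898 (.node 198508019714 (.node 3913 (.leaf 3) (.leaf 3)) (.node 3913 (.leaf 3) (.leaf 3))) (.node 199313326082 (.leaf 3) (.leaf 3))))) (.node 198105366530 (.node 4041 (.node 197300060162 (.node 196897406978 (.leaf 3) (.leaf 3)) (.node 197702713346 (.leaf 3) (.leaf 3))) (.node 197300060162 (.leaf 3) (.leaf 3))) (.node 4041 (.node 198910672898 (.leaf 3) (.leaf 3)) (.node 198910672898 (.leaf 3) (.leaf 3))))))))) (.node 3801 (.node 202937204738 (.node 3657 (.node 201326592002 (.node 3593 (.node 200521285634 (.node 200118632450 (.node 3561 (.leaf 1) (.leaf 254)) (.node 3561 (.leaf 1) (.node 15358803050497 (.leaf 1) (.leaf 1)))) (.node 200923938818 (.node 3561 (.leaf 1) (.node 200722612226 (.node 3577 (.leaf 1) (.leaf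
    1)) (.leaf 254))) (.node 3561 (.leaf 1) (.leaf 1)))) (.node 200521285634 (.node 200118632450 (.node 3625 (.leaf 1) (.node 199917305858 (.node 3641 (.leaf 1) (.leaf 1)) (.node 3641 (.leaf 1) (.leaf 1)))) (.node 3625 (.leaf 1) (.node 200319959042 (.node 3641 (.leaf 1) (.leaf 1)) (.node 3641 (.leaf 1) (.leaf 1))))) (.node 200923938818 (.node 3625 (.leaf 1) (.node 200722612226 (.node 3641 (.leaf 1) (.leaf 1)) (.node 3641 (.leaf 1) (.leaf 1)))) (.node 3625 (.leaf 1) (.node 201125265410 (.node 3641 (.leaf 1) (.leaf 1)) (.node 15633680957441 (.leaf 1) (.leaf 1))))))) (.node 3593 (.node 202131898370 (.node 201729245186 (.node 3561 (.node 15221364097025 (.leaf 1) (.leaf 1)) (.leaf 1)) (.node 3561 (.leaf 1) (.leaf 1))) (.node 202534551554 (.node 3561 (.leaf 1) (.leaf 1)) (.node 3561 (.leaf 1) (.node 15358803050497 (.leaf 1) (.leaf 1))))) (.node 202131898370 (.node 201729245186 (.node 3625 (.leaf 1) (.node 15633680957441 (.leaf 1) (.leaf 1))) (.node 3625 (.leaf 1) (.leaf 254))) (.node 202534551554 (.node 3625 (.leaf 1) (.leaf 254)) (.node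 3625 (.leaf 1) (.node 15633680957441 (.leaf 1) (.leaf 1))))))) (.node 201326592002 (.node 3721 (.node 200521285634 (.node 15839839387649 (.node 15788299780097 (.leaf 1) (.leaf 1)) (.leaf 1)) (.node 200923938818 (.node 3689 (.leaf 1) (.leaf 1)) (.node 3689 (.leaf 1) (.leaf 1)))) (.node 200521285634 (.node 3753 (.leaf 1) (.node 200118632450 (.node 3769 (.leaf 1) (.leaf 1)) (.node 16217796509697 (.leaf 6864850034380457996554570567776847582212075770270984965563755377882104375074234219410029257961469525615704109653262889015707939509305388317299489544698068992) (.leaf 1)))) (.node 3753 (.leaf 1) (.node 16217796509697 (.node 16183436771329 (.leaf 1) (.leaf 1)) (.leaf 1))))) (.node 3721 (.node 202131898370 (.node 201729245186 (.node 3689 (.leaf 1) (.node 15908558864385 (.leaf 1) (.leaf 1))) (.node 3689 (.leaf 1) (.node 201930571778 (.node 15908558864385 (.leaf 1) (.leaf 1)) (.node 3705 (.leaf 1) (.leaf 1))))) (.node 202534551554 (.node 3689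
    (.leaf 1) (.node 202333224962 (.node 3705 (.leaf 1) (.leaf 1)) (.node 3705 (.leaf 1) (.leaf 1)))) (.node 3689 (.leaf 1) (.node 202735878146 (.node 3705 (.leaf 1) (.leaf 1)) (.node 3705 (.leaf 1) (.leaf 1)))))) (.node 202131898370 (.node 3753 (.leaf 1) (.node 16217796509697 (.node 16183436771329 (.leaf 1) (.leaf 1)) (.leaf 1))) (.node 16149077032961 (.node 16080357556225 (.leaf 1) (.leaf 1)) (.node 16217796509697 (.leaf 1) (.leaf 1))))))) (.node 3657 (.node 204547817474 (.node 3593 (.node 203742511106 (.node 203339857922 (.node 3561 (.leaf 1) (.node 203138531330 (.node 3577 (.leaf 1) (.leaf 1)) (.node 3577 (.leaf 1) (.leaf 1)))) (.node 3561 (.leaf 1) (.node 203541184514 (.node 3577 (.leaf 1) (.leaf 1)) (.node 3577 (.leaf 1) (.leaf 1))))) (.node 204145164290 (.node 3561 (.leaf 1) (.node 203943837698 (.node 3577 (.leaf 1) (.leaf 1)) (.node 3577 (.leaf 1) (.leaf 1)))) (.node 3561 (.leaf 1) (.node 204346490882 (.node 3577 (.leaf 1) (.leaf 1)) (.node 3577 (.leaf 1) (.leaf 1)))))) (.node 203742511106 (.node 203339857922 (.node 3625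 (.leaf 1) (.leaf 1)) (.node 3625 (.leaf 1) (.node 15633680957441 (.leaf 1) (.leaf 1)))) (.node 204145164290 (.node 15564961480705 (.node 15513421873153 (.leaf 1) (.leaf 1)) (.node 15616501088257 (.leaf 1) (.leaf 1))) (.node 3625 (.leaf 1) (.leaf 1))))) (.node 3593 (.node 205353123842 (.node 204950470658 (.node 3561 (.leaf 1) (.node 15358803050497 (.leaf 1) (.leaf 1))) (.node 3561 (.leaf 1) (.node 15358803050497 (.leaf 1) (.leaf 1)))) (.node 205755777026 (.node 3561 (.leaf 1) (.leaf 254)) (.node 3561 (.leaf 1) (.node 205957103618 (.leaf 254) (.leaf 254))))) (.node 205353123842 (.node 204950470658 (.node 3625 (.leaf 1) (.leaf 1)) (.node 3625 (.leaf 1) (.node 15633680957441 (.leaf 1) (.leaf 1)))) (.node 205755777026 (.node 3625 (.leaf 1) (.node 205554450434 (.node 3641 (.leaf 1) (.leaf 1)) (.node 3641 (.leaf 1) (.leaf 1)))) (.node 3625 (.leaf 1) (.node 205957103618 (.node 3641 (.leaf 1) (.leaf 1)) (.node 3641 (.leaf 1) (.leaf 1)))))))) (.node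
    204547817474 (.node 3721 (.node 203742511106 (.node 203339857922 (.node 3689 (.leaf 1) (.node 203138531330 (.leaf 255) (.node 3705 (.leaf 1) (.leaf 1)))) (.node 3689 (.leaf 1) (.leaf 3432451204315140944733345496391497139213179240643450430405028863245774739793503013965549919975260219009178638087602293194309993278820500863489827241877045248))) (.node 204145164290 (.node 3689 (.leaf 1) (.node 15908558864385 (.leaf 1) (.leaf 1))) (.node 3689 (.leaf 1) (.leaf 254)))) (.node 203742511106 (.node 3753 (.leaf 1) (.node 16217796509697 (.leaf 1) (.leaf 1))) (.node 3753 (.leaf 1) (.node 204145164290 (.node 16217796509697 (.node 16183436771329 (.leaf 1) (.leaf 1)) (.leaf 1)) (.node 3769 (.leaf 1) (.leaf 1)))))) (.node 3721 (.node 205353123842 (.node 204950470658 (.node 3689 (.leaf 1) (.leaf 254)) (.node 3689 (.leaf 1) (.node 15908558864385 (.leaf 1) (.leaf 1)))) (.node 205755777026 (.node 3689 (.leaf 1) (.leaf 254)) (.node 3689 (.leaf 1) (.node 15908558864385 (.leaf 1) (.leaf 1))))) (.node 205353123842 (.node 3753 (.leaf 1) (.node 204950470658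 (.node 3769 (.leaf 1) (.leaf 1)) (.node 3769 (.leaf 1) (.leaf 1)))) (.node 3753 (.leaf 1) (.node 205755777026 (.node 3769 (.leaf 1) (.leaf 1)) (.node 3769 (.leaf 1) (.leaf 1))))))))) (.comp 65 26815820446798616414938655843485131827530847229355871621493205440775571607391918125104803673070263658194635913216172300100327509883947663406790885014241280 (.setw 1757401608801397247117970065350872981046291397189372151184321376737818720019003960168967490038136198557620252071235299588021232514382179409228669323442705662717 (.node 202937204738 (.node 3961 (.node 201326592002 (.node 3881 (.node 200521285634 (.node 3833 (.leaf 1) (.leaf 253)) (.node 3833 (.leaf 1) (.leaf 253))) (.node 200521285634 (.node 200118632450 (.leaf 253) (.leaf 253)) (.node 200923938818 (.leaf 253) (.leaf 253)))) (.node 3881 (.node 202131898370 (.node 3833 (.leaf 253) (.node 201729245186 (.node 3849 (.leaf 253) (.leaf 253)) (.node 3849 (.leaf 253) (.leaf 253)))) (.node 3833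
    (.leaf 253) (.node 202534551554 (.node 3849 (.leaf 3) (.node 16595753631745 (.leaf 3) (.node 202333224962 (.leaf 253) (.leaf 3)))) (.leaf 3)))) (.node 202131898370 (.node 201729245186 (.leaf 253) (.leaf 253)) (.leaf 253)))) (.node 201326592002 (.node 4041 (.node 200521285634 (.leaf 253) (.leaf 253)) (.node 200521285634 (.leaf 253) (.leaf 253))) (.node 4041 (.node 202131898370 (.leaf 253) (.leaf 253)) (.node 202131898370 (.leaf 253) (.leaf 253))))) (.node 3961 (.node 204547817474 (.node 3881 (.node 203742511106 (.node 3833 (.leaf 3) (.node 203339857922 (.leaf 3) (.leaf 3))) (.node 3833 (.leaf 253) (.leaf 253))) (.node 203742511106 (.node 3913 (.node 203339857922 (.node 203138531330 (.node 16733192585217 (.leaf 1) (.leaf 1)) (.leaf 254)) (.leaf 254)) (.leaf 253)) (.node 3913 (.node 204145164290 (.leaf 3) (.leaf 3)) (.node 204145164290 (.leaf 253) (.node 3929 (.leaf 3) (.leaf 253)))))) (.node 3881 (.node 205353123842 (.leaf 253) (.node 3833 (.leaf 1) (.leaf 253))) (.node 205353123842 (.node 3913 (.leaf 3) (.node 204950470658 (.node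 3929 (.leaf 3) (.node 16939351015425 (.leaf 253) (.leaf 253))) (.node 3929 (.leaf 3) (.leaf 1)))) (.node 3913 (.leaf 3) (.leaf 6864850034380445802224295895932193747847896890715103135102260592838546331492360682801674493252015930669989017887750545941758246514684702973644492324833591298))))) (.node 204547817474 (.node 4041 (.node 203742511106 (.leaf 253) (.leaf 253)) (.node 203742511106 (.leaf 253) (.leaf 253))) (.node 4041 (.node 205353123842 (.leaf 253) (.node 205755777026 (.leaf 253) (.node 3993 (.leaf 1) (.leaf 253)))) (.node 205353123842 (.leaf 253) (.leaf 253)))))))))))))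
    ⟨25769803776, 25769803776, 949187772416, 1103806595072, 12079595520, 12884901888, 4294967296, 4294967296, 4294967296, 4294967296, 0⟩ = true := by decide +kernel

theorem rt6_14 : Tr.run2 ce0 pRT
    (.node 193273528322 (.comp 1 13408012516855876413056724534599748578596260163967988043049001952232036132741165884610929012828129624955984961024048658716481550929070786570733272724144128 (.node 4953 (.node 186831077378 (.leaf 1) (.node 4505 (.leaf 1) (.leaf 1))) (.node 186831077378 (.leaf 1) (.node 5497 (.leaf 1) (.leaf 1))))) (.comp 1 26815820446798664049041291280378310868015920977621035021733419444851970215133727419570426788911990334436344178333058160217609138708224173114451131033976832 (.node 4953 (.node 199715979266 (.node 4505 (.node 196494753794 (.node 4313 (.node 194884141058 (.node 4217 (.node 194078834690 (.leaf 1) (.leaf 1)) (.leaf 1)) (.node 4217 (.node 195689447426 (.leaf 1) (.leaf 1)) (.leaf 1))) (.node 194884141058 (.leaf 1) (.leaf 1))) (.node 4313 (.node 198105366530 (.node 4217 (.node 197300060162 (.leaf 1) (.leaf 1))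 (.leaf 1)) (.node 4217 (.node 198910672898 (.leaf 1) (.leaf 1)) (.leaf 1))) (.node 198105366530 (.leaf 1) (.leaf 1)))) (.node 196494753794 (.node 4713 (.node 194884141058 (.leaf 1) (.leaf 1)) (.leaf 1)) (.node 4713 (.node 198105366530 (.leaf 1) (.leaf 1)) (.leaf 1)))) (.node 4505 (.node 202937204738 (.node 4313 (.node 201326592002 (.node 4217 (.node 200521285634 (.leaf 1) (.leaf 1)) (.leaf 1)) (.node 4217 (.node 202131898370 (.leaf 1) (.leaf 1)) (.leaf 1))) (.node 201326592002 (.leaf 1) (.leaf 1))) (.node 4313 (.node 204547817474 (.node 4217 (.node 203742511106 (.node 17901423689729 (.leaf 1) (.leaf 1)) (.node 17901423689729 (.leaf 1) (.leaf 1))) (.leaf 1)) (.node 4217 (.node 205353123842 (.leaf 1) (.leaf 1)) (.node 205353123842 (.leaf 1) (.leaf 1)))) (.node 204547817474 (.node 4409 (.leaf 1) (.leaf 1)) (.node 4409 (.leaf 1) (.leaf 1))))) (.node 202937204738 (.node 4713 (.node 201326592002 (.leaf 1) (.leaf 1)) (.leaf 1)) (.node 4713 (.node 204547817474 (.leaf 1) (.leaf 1)) (.leaf 1))))) (.node 199715979266 (.node 5497 (.node 196494753794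 (.leaf 1) (.leaf 1)) (.node 196494753794 (.leaf 1) (.leaf 1))) (.node 5497 (.node 202937204738
    (.leaf 1) (.leaf 1)) (.node 202937204738 (.leaf 1) (.leaf 1)))))))
    ⟨25769803776, 25769803776, 1108101562368, 1657857376256, 11274289152, 12884901888, 4294967296, 4294967296, 4294967296, 4294967296, 0⟩ = true := by decide +kernel

theorem rt6_15 : Tr.run2 ce0 pRT
    (.comp 1 26815820446798664049041291280378310868015920977621035021733419444851970215133727419570426788911990334436344178333058160217609138708224173114451131033976832 (.comp 65 13408012516855876413056724534599748578596260163967988043049001952232036132741165884610929012828129624955984961024048658716481550929070786570733272724144128 (.node 12393 (.node 193273528322 (.node 8265 (.node 186831077378 (.leaf 3) (.leaf 3)) (.leaf 3)) (.node 8265 (.node 199715979266 (.node 7081 (.leaf 1) (.leaf 1)) (.node 7081 (.leaf 1) (.leaf 1))) (.node 199715979266 (.leaf 1) (.leaf 1)))) (.node 193273528322 (.leaf 3) (.node 24809 (.node 199715979266 (.leaf 1) (.leaf 1)) (.leaf 1))))))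
    ⟨25769803776, 25769803776, 1662152343552, 0, 11274289152, 12884901888, 4294967296, 4294967296, 4294967296, 4294967296, 0⟩ = true := by decide +kernel

theorem rt6_16 : Tr.run2 ce0 pRT
    (.node 309237645314 (.comp 1 26815820446798664049041291280378310868015920977621035021733419444851970215133727419570426788911990334436344178333058160217609138708224173114451131033976832 (.node 257698037762 (.node 6185 (.node 231928233986 (.node 4121 (.comp 65 26815820446798616414938655843485131827530847229355871621493205440775571607391918125104803673070263658194635913216172300100327509883947663406790885014241280 (.node 219043332098 (.comp 143 26815820446798664049041291280378310868015920977621035021733419444851970215133727419570426788911990334436344178333058160217609138708224173114451131033976832 (.setw 1757401608801397247117970065350872981046291397189372151184321376737818720018996371618607233283952919409546722700506896714106658883806551003965299898332093613310 (.setw 1757401608801394125369419749358641599449061604023066402586178711766667860862036746246868413518332799103443659208535067859375063687754394069027447440293316527359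 (.node 3529 (.node 212600881154 (.node 3289 (.node 209379655682 (.node 3177 (.node 207769042946 (.node 3129 (.node 206963736578 (.node 206561083394 (.node 3097 (.leaf 5) (.node 206359756802 (.node 3113 (.leaf 5) (.leaf 5)) (.node 3113 (.leaf 5) (.leaf 5)))) (.node 3097 (.leaf 5) (.node 206762409986 (.node 3113 (.leaf 5) (.leaf 5)) (.node 3113 (.leaf 5) (.leaf 5))))) (.node 207366389762 (.node 3097 (.leaf 5) (.node 207165063170 (.node 3113 (.leaf 5) (.leaf 5)) (.node 3113 (.leaf 5) (.leaf 5)))) (.node 3097 (.leaf 5) (.node 207567716354 (.node 3113 (.leaf 5) (.leaf 5)) (.node 3113 (.leaf 5) (.leaf 5)))))) (.node 206963736578 (.node 206561083394 (.node 3145 (.leaf 5) (.node 206359756802 (.node 3161 (.leaf 5) (.leaf 5)) (.node 3161 (.leaf 5) (.leaf 5)))) (.node 3145 (.leaf 5) (.node 206762409986 (.node 3161 (.leaf 5) (.leaf 5)) (.node 3161 (.leaf 5) (.leaf 5))))) (.node 207366389762 (.node 3145 (.leaf 5) (.node 207165063170 (.node 3161 (.leaf 5) (.leaf 5)) (.node 3161 (.leaf 5) (.leaf 5)))) (.node 3145 (.leaf 5) (.node 207567716354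 (.node 3161
    (.leaf 5) (.leaf 5)) (.node 3161 (.leaf 5) (.leaf 5))))))) (.node 3129 (.node 208574349314 (.node 208171696130 (.node 3097 (.leaf 5) (.node 207970369538 (.node 3113 (.leaf 5) (.leaf 5)) (.leaf 254))) (.node 3097 (.leaf 5) (.leaf 254))) (.node 208977002498 (.node 3097 (.leaf 5) (.node 208775675906 (.node 3113 (.leaf 5) (.leaf 5)) (.leaf 254))) (.node 3097 (.leaf 5) (.node 209178329090 (.node 13365938225153 (.leaf 5) (.leaf 5)) (.node 13365938225153 (.leaf 5) (.leaf 5)))))) (.node 208574349314 (.node 208171696130 (.node 3145 (.leaf 5) (.node 207970369538 (.node 3161 (.leaf 5) (.leaf 5)) (.node 3161 (.leaf 5) (.leaf 5)))) (.node 3145 (.leaf 5) (.node 208373022722 (.node 3161 (.leaf 5) (.leaf 5)) (.node 3161 (.leaf 5) (.leaf 5))))) (.node 208977002498 (.node 3145 (.leaf 5) (.node 208775675906 (.node 3161 (.leaf 5) (.leaf 5)) (.node 3161 (.leaf 5) (.leaf 5)))) (.node 3145 (.leaf 5) (.node 13572096655361 (.leaf 5) (.leaf 5))))))) (.node 207769042946 (.node 3225 (.node 206963736578 (.node 206561083394 (.node 3193 (.leaf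 5) (.leaf 5)) (.node 3193 (.leaf 5) (.leaf 5))) (.node 207366389762 (.node 3193 (.leaf 5) (.node 207165063170 (.leaf 5) (.node 3209 (.leaf 5) (.leaf 5)))) (.node 3193 (.leaf 254) (.node 207567716354 (.node 3209 (.leaf 5) (.leaf 5)) (.node 3209 (.leaf 5) (.leaf 5)))))) (.node 206963736578 (.node 3257 (.node 206561083394 (.node 206359756802 (.leaf 5) (.node 3241 (.leaf 5) (.leaf 5))) (.leaf 5)) (.node 206561083394 (.node 206359756802 (.leaf 5) (.node 3273 (.leaf 5) (.leaf 5))) (.leaf 5))) (.node 3257 (.leaf 5) (.leaf 5)))) (.node 3225 (.node 208574349314 (.node 208171696130 (.node 3193 (.leaf 254) (.node 207970369538 (.node 3209 (.leaf 5) (.leaf 5)) (.node 3209 (.leaf 5) (.leaf 5)))) (.node 3193 (.leaf 5) (.node 208373022722 (.node 3209 (.leaf 5) (.leaf 5)) (.node 3209 (.leaf 5) (.leaf 5))))) (.node 208977002498 (.node 3193 (.leaf 5) (.node 208775675906 (.node 3209 (.leaf 5) (.leaf 5)) (.node 3209 (.leaf 5) (.leaf 5)))) (.node 13743895347201 (.node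
    13709535608833 (.leaf 5) (.leaf 5)) (.node 13778255085569 (.leaf 5) (.leaf 5))))) (.node 208574349314 (.node 3257 (.node 208171696130 (.leaf 5) (.node 208373022722 (.leaf 5) (.node 3241 (.leaf 5) (.leaf 5)))) (.leaf 5)) (.node 3257 (.node 208977002498 (.node 208775675906 (.node 3241 (.leaf 5) (.leaf 5)) (.node 3241 (.leaf 5) (.leaf 5))) (.node 13915694039041 (.leaf 5) (.leaf 5))) (.leaf 5)))))) (.node 3177 (.node 210990268418 (.leaf 3) (.leaf 3)) (.node 210990268418 (.leaf 3) (.leaf 3)))) (.node 209379655682 (.node 3401 (.node 207769042946 (.node 3337 (.node 206963736578 (.node 206561083394 (.node 3305 (.leaf 5) (.node 206359756802 (.node 3321 (.leaf 5) (.leaf 5)) (.node 3321 (.leaf 5) (.leaf 5)))) (.node 3305 (.leaf 5) (.node 206762409986 (.node 3321 (.leaf 5) (.leaf 5)) (.node 3321 (.leaf 5) (.leaf 5))))) (.node 207366389762 (.node 3305 (.leaf 5) (.node 207165063170 (.node 3321 (.leaf 5) (.leaf 5)) (.node 14259291422721 (.leaf 5) (.leaf 5)))) (.node 3305 (.leaf 5) (.node 207567716354 (.node 3321 (.leaf 5) (.leaf 5)) (.node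 3321 (.leaf 5) (.leaf 5)))))) (.node 206963736578 (.node 3369 (.node 206561083394 (.node 206359756802 (.leaf 5) (.node 3353 (.leaf 5) (.leaf 5))) (.node 206762409986 (.leaf 255) (.node 3353 (.leaf 5) (.leaf 5)))) (.leaf 254)) (.node 3369 (.node 207366389762 (.node 207165063170 (.node 3353 (.leaf 5) (.leaf 5)) (.node 3353 (.leaf 5) (.leaf 5))) (.node 207567716354 (.node 3353 (.leaf 5) (.leaf 5)) (.leaf 255))) (.leaf 254)))) (.node 3337 (.node 208574349314 (.node 208171696130 (.node 3305 (.leaf 5) (.node 207970369538 (.node 3321 (.leaf 5) (.leaf 5)) (.node 3321 (.leaf 5) (.leaf 5)))) (.node 3305 (.leaf 5) (.node 208373022722 (.node 3321 (.leaf 5) (.leaf 5)) (.node 3321 (.leaf 5) (.leaf 5))))) (.node 208977002498 (.node 3305 (.leaf 5) (.node 208775675906 (.node 3321 (.leaf 5) (.leaf 5)) (.node 3321 (.leaf 5) (.leaf 5)))) (.node 14224931684353 (.node 14190571945985 (.leaf 5) (.leaf 5)) (.node 14259291422721 (.leaf 5) (.leaf 5))))) (.node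
    208574349314 (.node 3369 (.node 208171696130 (.leaf 255) (.node 208373022722 (.leaf 255) (.node 14396730376193 (.leaf 5) (.leaf 5)))) (.node 208171696130 (.node 207970369538 (.node 3385 (.leaf 5) (.leaf 5)) (.node 3385 (.leaf 5) (.leaf 5))) (.node 208373022722 (.node 3385 (.leaf 5) (.leaf 5)) (.node 3385 (.leaf 5) (.leaf 5))))) (.node 3369 (.node 208977002498 (.node 208775675906 (.node 3353 (.leaf 5) (.leaf 5)) (.node 3353 (.leaf 5) (.leaf 5))) (.node 14396730376193 (.leaf 5) (.leaf 5))) (.node 208977002498 (.node 208775675906 (.node 3385 (.leaf 5) (.leaf 5)) (.node 14534169329665 (.leaf 5) (.leaf 5))) (.node 14534169329665 (.leaf 5) (.leaf 5))))))) (.node 207769042946 (.node 3465 (.node 206963736578 (.node 3433 (.node 206561083394 (.node 206359756802 (.leaf 5) (.node 3417 (.leaf 5) (.leaf 5))) (.leaf 5)) (.node 206561083394 (.node 14809047236609 (.leaf 5) (.leaf 5)) (.node 206762409986 (.node 3449 (.leaf 5) (.leaf 5)) (.node 3449 (.leaf 5) (.leaf 5))))) (.node 3433 (.node 207366389762 (.leaf 5) (.leaf 5)) (.node 207366389762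 (.node 207165063170 (.node 3449 (.leaf 5) (.leaf 5)) (.leaf 254)) (.node 207567716354 (.leaf 254) (.node 3449 (.leaf 5) (.leaf 5)))))) (.node 206963736578 (.node 206561083394 (.node 3497 (.leaf 255) (.node 15083925143553 (.leaf 5) (.leaf 5))) (.node 3497 (.leaf 255) (.node 206762409986 (.node 3513 (.leaf 5) (.leaf 5)) (.node 3513 (.leaf 5) (.leaf 5))))) (.node 207366389762 (.node 3497 (.leaf 255) (.node 207165063170 (.node 3513 (.leaf 5) (.leaf 5)) (.node 3513 (.leaf 5) (.leaf 5)))) (.node 3497 (.node 14946486190081 (.leaf 5) (.leaf 5)) (.node 207567716354 (.node 3513 (.leaf 5) (.leaf 5)) (.node 3513 (.leaf 5) (.leaf 5))))))) (.node 3465 (.node 208574349314 (.node 3433 (.leaf 5) (.leaf 254)) (.node 3433 (.node 208977002498 (.leaf 5) (.node 14671608283137 (.leaf 5) (.leaf 5))) (.leaf 254))) (.comp 207 0 (.node 208574349314 (.node 208171696130 (.node 3497 (.node 207970369538 (.node 3481 (.leaf 7) (.leaf 7)) (.node 3481 (.leaf 7) (.leaf 7)))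
    (.node 207970369538 (.node 3513 (.leaf 7) (.leaf 7)) (.node 3513 (.leaf 7) (.leaf 7)))) (.comp 271 0 (.node 3497 (.node 208373022722 (.node 3481 (.leaf 9) (.leaf 9)) (.node 3481 (.leaf 9) (.leaf 9))) (.node 208373022722 (.node 3513 (.leaf 9) (.leaf 9)) (.node 15083925143553 (.leaf 9) (.leaf 9)))))) (.node 208977002498 (.node 3497 (.node 208775675906 (.node 3481 (.leaf 7) (.leaf 7)) (.node 14946486190081 (.leaf 7) (.leaf 7))) (.node 15083925143553 (.leaf 7) (.leaf 7))) (.node 15015205666817 (.node 14963666059265 (.leaf 7) (.leaf 7)) (.node 15066745274369 (.leaf 7) (.leaf 7))))))))) (.node 3401 (.leaf 3) (.leaf 3)))) (.leaf 3)) (.node 212600881154 (.setw 1757401608801397247117970065350872981046291397189372151184321376737818720019003960168967490038136198557620252071235299588021232514382179409228669323442705662717 (.node 3801 (.node 209379655682 (.setw 1757401608801397247117970065350872981046291397189372151184321376737818720018996371618607233283952919409546722700506896714106658883806551003965299898332093612796 (.node 3657 (.node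 207769042946 (.node 3593 (.node 206963736578 (.node 206561083394 (.node 3561 (.leaf 5) (.leaf 254)) (.node 3561 (.leaf 5) (.leaf 254))) (.node 207366389762 (.node 3561 (.leaf 5) (.leaf 5)) (.node 3561 (.node 15221364097025 (.leaf 5) (.leaf 5)) (.leaf 5)))) (.node 206963736578 (.node 206561083394 (.node 3625 (.leaf 252) (.node 206359756802 (.node 3641 (.leaf 252) (.leaf 5)) (.node 3641 (.leaf 252) (.leaf 5)))) (.node 3625 (.node 15496242003969 (.node 15479062134785 (.leaf 252) (.leaf 252)) (.leaf 252)) (.node 206762409986 (.node 3641 (.leaf 252) (.leaf 3)) (.leaf 3)))) (.node 207366389762 (.node 3625 (.node 15496242003969 (.node 207165063170 (.leaf 3) (.leaf 253)) (.leaf 3)) (.leaf 252)) (.node 3625 (.node 15496242003969 (.leaf 253) (.node 207567716354 (.leaf 3) (.leaf 253))) (.leaf 252))))) (.node 3593 (.node 208574349314 (.node 208171696130 (.node 3561 (.leaf 255) (.leaf 253)) (.node 3561 (.leaf 255) (.leaf 253))) (.node 208977002498 (.node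
    3561 (.leaf 255) (.leaf 253)) (.leaf 3))) (.node 208574349314 (.node 208171696130 (.node 3625 (.node 15496242003969 (.leaf 253) (.leaf 253)) (.leaf 252)) (.node 3625 (.leaf 253) (.node 208373022722 (.node 15633680957441 (.node 15616501088257 (.leaf 3) (.leaf 252)) (.leaf 252)) (.leaf 254)))) (.node 208977002498 (.node 3625 (.leaf 253) (.node 208775675906 (.node 15633680957441 (.leaf 3) (.leaf 3)) (.leaf 3))) (.leaf 3))))) (.node 207769042946 (.node 3721 (.node 206963736578 (.node 206561083394 (.leaf 253) (.node 3689 (.leaf 3) (.leaf 253))) (.node 207366389762 (.node 3689 (.leaf 5) (.leaf 253)) (.node 3689 (.leaf 5) (.leaf 253)))) (.node 206963736578 (.node 3753 (.node 206561083394 (.leaf 3) (.leaf 253)) (.node 206561083394 (.leaf 3) (.leaf 252))) (.node 3753 (.leaf 253) (.node 207366389762 (.leaf 252) (.leaf 3))))) (.node 3721 (.node 208574349314 (.node 208171696130 (.node 3689 (.leaf 5) (.leaf 3432451204315140944733345496391497139213179240643450430405028854902075380727448004609996380250447271342364097631927410588678712723274697032862678714681393156))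 (.node 3689 (.leaf 5) (.node 208373022722 (.node 3705 (.leaf 5) (.leaf 5)) (.node 15908558864385 (.leaf 5) (.leaf 5))))) (.node 208977002498 (.node 3689 (.leaf 3) (.leaf 3)) (.leaf 3))) (.node 208574349314 (.node 3753 (.leaf 253) (.node 208171696130 (.node 3769 (.leaf 5) (.leaf 3)) (.leaf 253))) (.node 3753 (.leaf 3) (.node 208977002498 (.leaf 3) (.leaf 3)))))))) (.leaf 3)) (.node 209379655682 (.node 3961 (.node 207769042946 (.node 3881 (.node 206963736578 (.node 3833 (.leaf 3) (.leaf 253)) (.node 3833 (.node 207366389762 (.leaf 3) (.leaf 3)) (.node 207366389762 (.node 3849 (.leaf 3) (.leaf 253)) (.leaf 3)))) (.node 206963736578 (.node 3913 (.leaf 3) (.leaf 3)) (.leaf 253))) (.node 3881 (.node 208574349314 (.node 3833 (.leaf 3) (.node 208171696130 (.leaf 3) (.leaf 3))) (.node 3833 (.leaf 3) (.leaf 3))) (.node 208574349314 (.leaf 253) (.leaf 3)))) (.node 207769042946 (.node 4041 (.node 206963736578 (.node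
    206561083394 (.node 3993 (.node 17076789968897 (.leaf 3) (.node 206359756802 (.leaf 253) (.leaf 3))) (.leaf 253)) (.node 3993 (.leaf 3) (.leaf 253))) (.node 207366389762 (.node 3993 (.leaf 3) (.node 207165063170 (.node 4009 (.leaf 3) (.leaf 253)) (.node 4009 (.leaf 3) (.leaf 253)))) (.node 3993 (.leaf 3) (.node 207567716354 (.node 4009 (.leaf 3) (.leaf 253)) (.node 4009 (.leaf 3) (.node 17282948399105 (.leaf 3) (.leaf 253))))))) (.node 206963736578 (.leaf 3) (.leaf 253))) (.node 4041 (.node 208574349314 (.node 208171696130 (.node 3993 (.leaf 3) (.node 207970369538 (.node 4009 (.leaf 3) (.node 17282948399105 (.leaf 3) (.leaf 253))) (.leaf 3))) (.leaf 3)) (.leaf 3)) (.node 208574349314 (.leaf 253) (.leaf 3))))) (.leaf 3)))) (.leaf 3)))))) (.leaf 3))) (.node 219043332098 (.node 4953 (.node 212600881154 (.node 4505 (.node 209379655682 (.node 4313 (.node 207769042946 (.node 4217 (.node 206963736578 (.node 206561083394 (.leaf 1) (.leaf 1)) (.node 207366389762 (.leaf 1) (.node 17901423689729 (.leaf 1) (.leaf 1)))) (.node 206963736578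 (.leaf 1) (.leaf 1))) (.node 4217 (.node 208574349314 (.node 208171696130 (.node 207970369538 (.leaf 1) (.leaf 1)) (.node 208373022722 (.leaf 1) (.leaf 1))) (.leaf 1)) (.node 208574349314 (.leaf 1) (.leaf 1)))) (.node 207769042946 (.leaf 1) (.node 4409 (.leaf 1) (.leaf 1)))) (.leaf 1)) (.node 209379655682 (.node 4713 (.node 207769042946 (.leaf 1) (.leaf 1)) (.node 207769042946 (.leaf 1) (.leaf 1))) (.leaf 1))) (.leaf 1)) (.node 212600881154 (.node 5497 (.node 209379655682 (.leaf 1) (.leaf 1)) (.node 209379655682 (.leaf 1) (.leaf 1))) (.leaf 1))) (.leaf 1))) (.leaf 1)) (.node 231928233986 (.node 12393 (.node 219043332098 (.node 8265 (.node 212600881154 (.node 7081 (.leaf 1) (.leaf 1)) (.leaf 1)) (.node 212600881154 (.leaf 1) (.leaf 1))) (.leaf 1)) (.node 219043332098 (.node 24809 (.node 212600881154 (.leaf 1) (.leaf 1)) (.leaf 1)) (.leaf 1))) (.leaf 1))) (.leaf 1))) (.comp 1 0 (.leaf 1)))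
    ⟨25769803776, 25769803776, 828928688128, 0, 12884901888, 25769803776, 4294967296, 4294967296, 4294967296, 4294967296, 0⟩ = true := by decide +kernel

theorem bk6_0 : Tr.run2 ce0 pBK
    (.comp 1 0 (.leaf 1))
    ⟨25769803776, 25769803776, 828928688128, 0, 2147483648, 3221225472, 4294967296, 4294967296, 4294967296, 4294967296, 0⟩ = true := by decide +kernel

theorem bk6_1 : Tr.run2 ce0 pBK
    (.comp 1 0 (.leaf 1))
    ⟨25769803776, 25769803776, 828928688128, 0, 3221225472, 3758096384, 4294967296, 4294967296, 4294967296, 4294967296, 0⟩ = true := by decide +kernel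

theorem bk6_2 : Tr.run2 ce0 pBK
    (.comp 1 0 (.leaf 1))
    ⟨25769803776, 25769803776, 828928688128, 1657857376256, 3758096384, 4026531840, 4294967296, 4294967296, 4294967296, 4294967296, 0⟩ = true := by decide +kernel

theorem bk6_3 : Tr.run2 ce0 pBK
    (.comp 1 878707508304666716606085499099529122846884506105806064389259391941478719995325047413861843784704303101115430405672052897643334921687583068718022505323219124224 (.node 3529 (.node 65498251266 (.leaf 1) (.node 3289 (.node 66035122178 (.leaf 1) (.node 3177 (.leaf 1) (.leaf 1))) (.leaf 1))) (.leaf 1)))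
    ⟨25769803776, 25769803776, 828928688128, 1103806595072, 4026531840, 4160749568, 4294967296, 4294967296, 4294967296, 4294967296, 0⟩ = true := by decide +kernel

end Pool.Agent.Work.MP_f4b644_ag.Mid
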