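import Pool.Agent.Work.MP_f4b644_ag.Mid.PTop
import Pool.Agent.Work.MP_f4b644_ag.Mid.Dom2

namespace Pool.Agent.Work.MP_f4b644_ag.Mid

theorem bk6_4 : Tr.run2 ce0 pBK
    (.comp 15 878707508304666716606085499099529122846884506105806064389259391941478719995325047413861843784704303101115430405672052897643334921687583068718022505323219124224 (.setw 57586975264254637939496419268986740594893422992150106235814503510276749393613622307314849794274381208034700847066167504038983212096161655376450148943880866079179007 (.node 67645734914 (.comp 65 878707508304666716606085499099529122846884506105806064389259391941478719995325047413861843784704303101115430405672052897643334921687583068718022505323219124224 (.node 3289 (.node 67108864002 (.node 3177 (.node 66840428546 (.leaf 3) (.node 3129 (.leaf 3) (.leaf 3))) (.node 66840428546 (.leaf 3) (.node 3225 (.leaf 3) (.leaf 3)))) (.node 3177 (.node 67377299458 (.node 3129 (.node 67243081730 (.leaf 3) (.node 3097 (.leaf 3)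 (.leaf 3))) (.node 67243081730 (.leaf 3) (.node 3145 (.leaf 3) (.leaf 3)))) (.node 3129 (.node 67511517186 (.node 3097 (.leaf 1) (.node 67444408322 (.node 13365938225153 (.leaf 1) (.leaf 1)) (.node 3113 (.leaf 1) (.leaf 1)))) (.node 3097 (.leaf 1) (.node 67578626050 (.node 3113 (.leaf 1) (.leaf 1)) (.node 3113 (.leaf 1) (.leaf 1))))) (.node 67511517186 (.node 3145 (.leaf 1) (.leaf 255)) (.node 3145 (.leaf 1) (.leaf 255))))) (.node 67377299458 (.node 3225 (.node 67243081730 (.node 13743895347201 (.leaf 255) (.leaf 255)) (.node 3193 (.leaf 1) (.node 13778255085569 (.leaf 1) (.leaf 1)))) (.node 67243081730 (.node 13984413515777 (.node 13932873908225 (.leaf 1) (.leaf 1)) (.node 14035953123329 (.leaf 1) (.leaf 1))) (.node 3257 (.node 13915694039041 (.leaf 1) (.leaf 1)) (.node 14053132992513 (.leaf 1) (.leaf 1))))) (.node 3225 (.node 67511517186 (.node 3193 (.leaf 1) (.leaf 255)) (.node 3193 (.leaf 1) (.leaf 255))) (.node 67511517186 (.node 3257 (.node 67444408322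 (.node 13915694039041 (.leaf 1) (.leaf 1)) (.node 3241 (.leaf 1) (.leaf 1))) (.node 67444408322 (.node 14053132992513 (.leaf 1) (.leaf 1)) (.node 14053132992513 (.leaf 1) (.leaf 1)))) (.node 3257 (.node 67578626050 (.node 3241
    (.leaf 1) (.leaf 1)) (.node 3241 (.leaf 1) (.leaf 1))) (.node 67578626050 (.node 3273 (.leaf 1) (.leaf 1)) (.node 3273 (.leaf 1) (.leaf 1))))))))) (.node 67108864002 (.node 3401 (.node 66840428546 (.leaf 3) (.node 3337 (.leaf 3) (.leaf 3))) (.node 66840428546 (.leaf 3) (.node 3465 (.leaf 3) (.leaf 3)))) (.node 3401 (.node 67377299458 (.node 3337 (.node 67243081730 (.leaf 3) (.leaf 3)) (.node 67243081730 (.leaf 3) (.leaf 3))) (.node 3337 (.node 67511517186 (.node 67444408322 (.leaf 3) (.node 3305 (.leaf 3) (.leaf 3))) (.node 67578626050 (.node 3305 (.leaf 1) (.node 67545071618 (.node 14259291422721 (.leaf 1) (.leaf 1)) (.node 3321 (.leaf 1) (.leaf 1)))) (.node 3305 (.leaf 1) (.node 67612180482 (.node 3321 (.leaf 1) (.leaf 1))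 (.node 3321 (.leaf 1) (.leaf 1)))))) (.node 67511517186 (.node 3369 (.node 67444408322 (.leaf 3) (.leaf 3)) (.node 67444408322 (.leaf 3) (.leaf 3))) (.node 3369 (.leaf 255) (.node 67578626050 (.node 67545071618 (.leaf 3) (.leaf 3)) (.node 67612180482 (.node 3385 (.leaf 3) (.leaf 3)) (.node 3385 (.node 67628957698 (.leaf 3) (.leaf 3)) (.node 67628957698 (.leaf 3) (.leaf 3))))))))) (.node 67377299458 (.node 3465 (.node 67243081730 (.leaf 3) (.leaf 3)) (.node 67243081730 (.leaf 3) (.leaf 3))) (.node 3465 (.node 67511517186 (.node 3433 (.node 67444408322 (.leaf 3) (.leaf 3)) (.leaf 3)) (.node 3433 (.node 67578626050 (.node 67545071618 (.leaf 3) (.leaf 3)) (.node 67612180482 (.node 3417 (.leaf 3) (.leaf 3)) (.node 3417 (.leaf 3) (.leaf 3)))) (.leaf 255))) (.node 67511517186 (.node 3497 (.leaf 3) (.leaf 3)) (.node 3497 (.node 67578626050 (.leaf 3) (.node 67612180482 (.leaf 3) (.node 3481 (.leaf 3) (.leaf 3)))) (.node 67578626050 (.leaf 3) (.node 67612180482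 (.leaf 3) (.node 3513 (.leaf 3) (.leaf 3)))))))))))) (.node 3289 (.node 68182605826 (.node 3177 (.node 67914170370 (.node 3129 (.node 67779952642 (.node 3097 (.leaf 1) (.node 67712843778 (.node 3113 (.leaf 1) (.leaf 1)) (.node 3113 (.leaf 1) (.leaf 1)))) (.node 3097 (.leaf 1) (.node 67847061506
    (.node 3113 (.leaf 1) (.leaf 1)) (.node 3113 (.leaf 1) (.leaf 1))))) (.node 67779952642 (.node 3145 (.leaf 1) (.node 67712843778 (.node 3161 (.leaf 1) (.leaf 1)) (.node 3161 (.leaf 1) (.leaf 1)))) (.node 3145 (.leaf 1) (.node 67847061506 (.node 3161 (.leaf 1) (.leaf 1)) (.node 3161 (.leaf 1) (.leaf 1)))))) (.node 3129 (.node 68048388098 (.node 3097 (.leaf 1) (.node 67981279234 (.node 3113 (.leaf 1) (.leaf 1)) (.node 3113 (.leaf 1) (.leaf 1)))) (.node 3097 (.leaf 1) (.node 68115496962 (.node 3113 (.leaf 1) (.leaf 1)) (.node 3113 (.leaf 1) (.leaf 1))))) (.node 68048388098 (.node 3145 (.leaf 1) (.node 67981279234 (.node 3161 (.leaf 1) (.leaf 1)) (.node 3161 (.leaf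 1) (.leaf 1)))) (.node 3145 (.leaf 1) (.node 68115496962 (.node 3161 (.leaf 1) (.leaf 1)) (.node 3161 (.leaf 1) (.leaf 1))))))) (.node 67914170370 (.node 3225 (.node 67779952642 (.node 3193 (.leaf 1) (.node 67712843778 (.node 3209 (.leaf 1) (.leaf 1)) (.node 3209 (.leaf 1) (.leaf 1)))) (.node 3193 (.leaf 1) (.node 67847061506 (.node 3209 (.leaf 1) (.leaf 1)) (.node 3209 (.leaf 1) (.leaf 1))))) (.node 67779952642 (.node 3257 (.node 67712843778 (.node 3241 (.leaf 1) (.leaf 1)) (.node 3241 (.leaf 1) (.leaf 1))) (.node 67712843778 (.node 3273 (.leaf 1) (.leaf 1)) (.node 3273 (.leaf 1) (.leaf 1)))) (.node 3257 (.node 67847061506 (.node 3241 (.leaf 1) (.leaf 1)) (.node 3241 (.leaf 1) (.leaf 1))) (.node 67847061506 (.node 3273 (.leaf 1) (.leaf 1)) (.node 3273 (.leaf 1) (.leaf 1)))))) (.node 3225 (.node 68048388098 (.node 3193 (.leaf 1) (.node 67981279234 (.node 3209 (.leaf 1) (.leaf 1)) (.node 3209 (.leaf 1) (.leaf 1)))) (.node 3193 (.leaf 1) (.node 68115496962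 (.node 3209 (.leaf 1) (.leaf 1)) (.node 3209 (.leaf 1) (.leaf 1))))) (.node 68048388098 (.node 3257 (.node 67981279234 (.node 3241 (.leaf 1) (.leaf 1)) (.node 3241 (.leaf 1) (.leaf 1))) (.node 67981279234 (.node 3273 (.leaf 1) (.leaf 1)) (.node 3273 (.leaf 1) (.leaf 1)))) (.node 3257 (.node 68115496962 (.node 3241 (.leaf 1) (.leaf 1)) (.node 3241 (.leaf
    1) (.leaf 1))) (.node 68115496962 (.node 3273 (.leaf 1) (.leaf 1)) (.node 3273 (.leaf 1) (.leaf 1)))))))) (.node 3177 (.node 68451041282 (.node 3129 (.node 68316823554 (.node 3097 (.leaf 1) (.node 68249714690 (.node 3113 (.leaf 1) (.leaf 1)) (.node 3113 (.leaf 1) (.leaf 1)))) (.node 3097 (.leaf 1) (.node 68383932418 (.node 3113 (.leaf 1) (.leaf 1)) (.node 3113 (.leaf 1) (.leaf 1))))) (.node 68316823554 (.node 3145 (.leaf 1) (.node 68249714690 (.node 3161 (.leaf 1) (.leaf 1)) (.node 3161 (.leaf 1) (.leaf 1)))) (.node 3145 (.leaf 1) (.node 68383932418 (.node 3161 (.leaf 1) (.leaf 1)) (.node 3161 (.leaf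 1) (.leaf 1)))))) (.node 3129 (.node 68585259010 (.node 3097 (.leaf 1) (.node 68518150146 (.node 3113 (.leaf 1) (.leaf 1)) (.node 3113 (.leaf 1) (.leaf 1)))) (.node 3097 (.leaf 1) (.node 68652367874 (.node 3113 (.leaf 1) (.leaf 1)) (.node 3113 (.leaf 1) (.leaf 1))))) (.node 68585259010 (.node 3145 (.leaf 1) (.node 68518150146 (.node 3161 (.leaf 1) (.leaf 1)) (.node 3161 (.leaf 1) (.leaf 1)))) (.node 3145 (.leaf 1) (.node 68652367874 (.node 3161 (.leaf 1) (.leaf 1)) (.node 3161 (.leaf 1) (.leaf 1))))))) (.node 68451041282 (.node 3225 (.node 68316823554 (.node 3193 (.leaf 1) (.node 68249714690 (.node 3209 (.leaf 1) (.leaf 1)) (.node 3209 (.leaf 1) (.leaf 1)))) (.node 3193 (.leaf 1) (.node 68383932418 (.node 3209 (.leaf 1) (.leaf 1)) (.node 3209 (.leaf 1) (.leaf 1))))) (.node 68316823554 (.node 3257 (.node 68249714690 (.node 3241 (.leaf 1) (.leaf 1)) (.node 3241 (.leaf 1) (.leaf 1))) (.node 68249714690 (.node 3273 (.leaf 1) (.leaf 1)) (.node 3273 (.leaf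 1) (.leaf 1)))) (.node 3257 (.node 68383932418 (.node 3241 (.leaf 1) (.leaf 1)) (.node 3241 (.leaf 1) (.leaf 1))) (.node 68383932418 (.node 3273 (.leaf 1) (.leaf 1)) (.node 3273 (.leaf 1) (.leaf 1)))))) (.node 3225 (.node 68585259010 (.node 3193 (.leaf 1) (.node 68518150146 (.node 3209 (.leaf 1) (.leaf 1)) (.node 3209 (.leaf 1) (.leaf 1)))) (.node 3193 (.leaf 1) (.node 68652367874 (.node 3209 (.leaf 1) (.leaf 1)) (.node
    3209 (.leaf 1) (.leaf 1))))) (.node 68585259010 (.node 3257 (.node 68518150146 (.node 3241 (.leaf 1) (.leaf 1)) (.node 3241 (.leaf 1) (.leaf 1))) (.node 68518150146 (.node 3273 (.leaf 1) (.leaf 1)) (.node 3273 (.leaf 1) (.leaf 1)))) (.node 3257 (.node 68652367874 (.node 3241 (.leaf 1) (.leaf 1)) (.node 3241 (.leaf 1) (.leaf 1))) (.node 68652367874 (.node 3273 (.leaf 1) (.leaf 1)) (.node 3273 (.leaf 1) (.leaf 1))))))))) (.node 68182605826 (.node 3401 (.node 67914170370 (.node 3337 (.node 67779952642 (.node 67712843778 (.node 3305 (.leaf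 1) (.node 67679289346 (.node 3321 (.leaf 1) (.leaf 1)) (.node 3321 (.leaf 1) (.leaf 1)))) (.node 3305 (.leaf 1) (.node 67746398210 (.node 3321 (.leaf 1) (.leaf 1)) (.node 3321 (.leaf 1) (.leaf 1))))) (.node 67847061506 (.node 3305 (.leaf 1) (.node 67813507074 (.node 3321 (.leaf 1) (.leaf 1)) (.node 3321 (.leaf 1) (.leaf 1)))) (.node 3305 (.leaf 1) (.node 67880615938 (.node 3321 (.leaf 1) (.leaf 1)) (.node 3321 (.leaf 1) (.leaf 1)))))) (.node 67779952642 (.node 3369 (.node 67712843778 (.leaf 255) (.node 67746398210 (.node 3353 (.leaf 1) (.leaf 1)) (.node 3353 (.leaf 1) (.leaf 1)))) (.node 67712843778 (.node 67679289346 (.node 3385 (.leaf 1) (.leaf 1)) (.node 3385 (.leaf 1) (.leaf 1))) (.node 67746398210 (.node 3385 (.leaf 1) (.leaf 1)) (.node 3385 (.leaf 1) (.leaf 1))))) (.node 3369 (.node 67847061506 (.node 67813507074 (.node 3353 (.leaf 1) (.leaf 1)) (.node 3353 (.leaf 1) (.leaf 1))) (.node 67880615938 (.node 3353 (.leaf 1) (.leaf 1)) (.node 3353 (.leaf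 1) (.leaf 1)))) (.node 67847061506 (.node 67813507074 (.node 3385 (.leaf 1) (.leaf 1)) (.node 3385 (.leaf 1) (.leaf 1))) (.node 67880615938 (.node 3385 (.leaf 1) (.leaf 1)) (.node 3385 (.leaf 1) (.leaf 1))))))) (.node 3337 (.node 68048388098 (.node 67981279234 (.node 3305 (.leaf 1) (.node 67947724802 (.node 3321 (.leaf 1) (.leaf 1)) (.node 3321 (.leaf 1) (.leaf 1)))) (.node 3305 (.leaf 1) (.node 68014833666 (.node 3321 (.leaf 1) (.leaf 1)) (.node 3321 (.leaf 1) (.leaf 1)))))
    (.node 3305 (.leaf 1) (.node 68115496962 (.node 68081942530 (.node 3321 (.leaf 1) (.leaf 1)) (.node 3321 (.leaf 1) (.leaf 1))) (.node 68149051394 (.node 3321 (.leaf 1) (.leaf 1)) (.node 3321 (.leaf 1) (.leaf 1)))))) (.node 68048388098 (.node 3369 (.node 67981279234 (.node 67947724802 (.node 3353 (.leaf 1) (.leaf 1)) (.node 3353 (.leaf 1) (.leaf 1))) (.node 68014833666 (.node 3353 (.leaf 1) (.leaf 1)) (.node 3353 (.leaf 1) (.leaf 1)))) (.node 67981279234 (.node 67947724802 (.node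 3385 (.leaf 1) (.leaf 1)) (.node 3385 (.leaf 1) (.leaf 1))) (.node 68014833666 (.node 3385 (.leaf 1) (.leaf 1)) (.node 3385 (.leaf 1) (.leaf 1))))) (.node 3369 (.node 68115496962 (.node 68081942530 (.node 3353 (.leaf 1) (.leaf 1)) (.node 3353 (.leaf 1) (.leaf 1))) (.node 68149051394 (.node 3353 (.leaf 1) (.leaf 1)) (.node 3353 (.leaf 1) (.leaf 1)))) (.node 68115496962 (.node 68081942530 (.node 3385 (.leaf 1) (.leaf 1)) (.node 3385 (.leaf 1) (.leaf 1))) (.node 68149051394 (.node 3385 (.leaf 1) (.leaf 1)) (.node 3385 (.leaf 1) (.leaf 1)))))))) (.node 67914170370 (.node 3465 (.node 67779952642 (.node 3433 (.node 67712843778 (.node 67679289346 (.node 3417 (.leaf 1) (.leaf 1)) (.node 3417 (.leaf 1) (.leaf 1))) (.node 67746398210 (.node 3417 (.leaf 1) (.leaf 1)) (.node 3417 (.leaf 1) (.leaf 1)))) (.node 67712843778 (.leaf 255) (.node 67746398210 (.leaf 255) (.node 3449 (.leaf 1) (.leaf 1))))) (.node 3433 (.node 67847061506 (.node 67813507074 (.node 3417 (.leaf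 1) (.leaf 1)) (.node 3417 (.leaf 1) (.leaf 1))) (.node 67880615938 (.node 3417 (.leaf 1) (.leaf 1)) (.node 3417 (.leaf 1) (.leaf 1)))) (.node 67847061506 (.node 67813507074 (.node 3449 (.leaf 1) (.leaf 1)) (.node 3449 (.leaf 1) (.leaf 1))) (.node 67880615938 (.node 3449 (.leaf 1) (.leaf 1)) (.node 3449 (.leaf 1) (.leaf 1)))))) (.node 67779952642 (.node 3497 (.node 67712843778 (.node 67679289346 (.node 3481 (.leaf 1) (.leaf 1)) (.node 3481 (.leaf 1) (.leaf 1))) (.node 67746398210 (.node 3481 (.leaf 1) (.leaf 1)) (.node 3481 (.leaf 1)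
    (.leaf 1)))) (.node 67712843778 (.node 67679289346 (.node 3513 (.leaf 1) (.leaf 1)) (.node 3513 (.leaf 1) (.leaf 1))) (.node 67746398210 (.node 3513 (.leaf 1) (.leaf 1)) (.node 3513 (.leaf 1) (.leaf 1))))) (.node 3497 (.node 67847061506 (.node 67813507074 (.node 3481 (.leaf 1) (.leaf 1)) (.node 3481 (.leaf 1) (.leaf 1))) (.node 67880615938 (.node 3481 (.leaf 1) (.leaf 1)) (.node 3481 (.leaf 1) (.leaf 1)))) (.node 67847061506 (.node 67813507074 (.node 3513 (.leaf 1) (.leaf 1)) (.node 3513 (.leaf 1) (.leaf 1))) (.node 67880615938 (.node 3513 (.leaf 1) (.leaf 1)) (.node 3513 (.leaf 1) (.leaf 1))))))) (.node 3465 (.node 68048388098 (.node 3433 (.node 67981279234 (.node 67947724802 (.node 3417 (.leaf 1) (.leaf 1)) (.node 3417 (.leaf 1) (.leaf 1))) (.node 68014833666 (.node 3417 (.leaf 1) (.leaf 1)) (.node 3417 (.leaf 1) (.leaf 1)))) (.node 67981279234 (.node 67947724802 (.node 3449 (.leaf 1) (.leaf 1)) (.node 3449 (.leaf 1) (.leaf 1))) (.node 68014833666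 (.node 3449 (.leaf 1) (.leaf 1)) (.node 3449 (.leaf 1) (.leaf 1))))) (.node 3433 (.node 68115496962 (.node 68081942530 (.node 3417 (.leaf 1) (.leaf 1)) (.node 3417 (.leaf 1) (.leaf 1))) (.node 68149051394 (.node 3417 (.leaf 1) (.leaf 1)) (.node 3417 (.leaf 1) (.leaf 1)))) (.node 68115496962 (.node 68081942530 (.node 3449 (.leaf 1) (.leaf 1)) (.node 3449 (.leaf 1) (.leaf 1))) (.node 68149051394 (.node 3449 (.leaf 1) (.leaf 1)) (.node 3449 (.leaf 1) (.leaf 1)))))) (.node 68048388098 (.node 3497 (.node 67981279234 (.node 67947724802 (.node 3481 (.leaf 1) (.leaf 1)) (.node 3481 (.leaf 1) (.leaf 1))) (.node 68014833666 (.node 3481 (.leaf 1) (.leaf 1)) (.node 3481 (.leaf 1) (.leaf 1)))) (.node 67981279234 (.node 67947724802 (.node 3513 (.leaf 1) (.leaf 1)) (.node 3513 (.leaf 1) (.leaf 1))) (.node 68014833666 (.node 3513 (.leaf 1) (.leaf 1)) (.node 3513 (.leaf 1) (.leaf 1))))) (.node 3497 (.node 68115496962 (.node 68081942530 (.node 3481 (.leaf 1) (.leaf 1))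 (.node 3481 (.leaf 1) (.leaf 1))) (.node 68149051394 (.node 3481
    (.leaf 1) (.leaf 1)) (.node 3481 (.leaf 1) (.leaf 1)))) (.node 68115496962 (.node 68081942530 (.node 3513 (.leaf 1) (.leaf 1)) (.node 3513 (.leaf 1) (.leaf 1))) (.node 68149051394 (.node 3513 (.leaf 1) (.leaf 1)) (.node 3513 (.leaf 1) (.leaf 1))))))))) (.node 3401 (.node 68451041282 (.node 3337 (.node 68316823554 (.node 3305 (.leaf 1) (.node 68249714690 (.node 68216160258 (.node 3321 (.leaf 1) (.leaf 1)) (.node 3321 (.leaf 1) (.leaf 1))) (.node 68283269122 (.node 3321 (.leaf 1) (.leaf 1)) (.node 3321 (.leaf 1) (.leaf 1))))) (.node 3305 (.leaf 1) (.node 68383932418 (.node 3321 (.leaf 1) (.leaf 1)) (.node 3321 (.leaf 1) (.leaf 1))))) (.node 68316823554 (.node 3369 (.node 68249714690 (.node 68216160258 (.node 3353 (.leaf 1) (.leaf 1)) (.node 3353 (.leaf 1) (.leaf 1))) (.node 68283269122 (.node 3353 (.leaf 1) (.leaf 1)) (.node 3353 (.leaf 1) (.leaf 1)))) (.node 68249714690 (.node 68216160258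 (.node 3385 (.leaf 1) (.leaf 1)) (.node 3385 (.leaf 1) (.leaf 1))) (.node 68283269122 (.node 3385 (.leaf 1) (.leaf 1)) (.node 3385 (.leaf 1) (.leaf 1))))) (.node 3369 (.node 68383932418 (.node 68350377986 (.node 3353 (.leaf 1) (.leaf 1)) (.node 3353 (.leaf 1) (.leaf 1))) (.node 68417486850 (.node 3353 (.leaf 1) (.leaf 1)) (.node 3353 (.leaf 1) (.leaf 1)))) (.node 68383932418 (.node 68350377986 (.node 3385 (.leaf 1) (.leaf 1)) (.node 3385 (.leaf 1) (.leaf 1))) (.node 68417486850 (.node 3385 (.leaf 1) (.leaf 1)) (.node 3385 (.leaf 1) (.leaf 1))))))) (.node 3337 (.node 68585259010 (.node 3305 (.leaf 1) (.node 68518150146 (.node 3321 (.leaf 1) (.leaf 1)) (.node 3321 (.leaf 1) (.leaf 1)))) (.node 3305 (.leaf 1) (.node 68652367874 (.node 3321 (.leaf 1) (.leaf 1)) (.node 3321 (.leaf 1) (.leaf 1))))) (.node 68585259010 (.node 3369 (.node 68518150146 (.node 68484595714 (.node 3353 (.leaf 1) (.leaf 1)) (.node 3353 (.leaf 1) (.leaf 1))) (.node 68551704578 (.node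 3353 (.leaf 1) (.leaf 1)) (.node 3353 (.leaf 1) (.leaf 1)))) (.node 68518150146 (.node 68484595714 (.node 3385 (.leaf 1) (.leaf
    1)) (.node 3385 (.leaf 1) (.leaf 1))) (.node 68551704578 (.node 3385 (.leaf 1) (.leaf 1)) (.node 3385 (.leaf 1) (.leaf 1))))) (.node 3369 (.node 68652367874 (.node 68618813442 (.node 3353 (.leaf 1) (.leaf 1)) (.node 3353 (.leaf 1) (.leaf 1))) (.node 68685922306 (.node 3353 (.leaf 1) (.leaf 1)) (.node 3353 (.leaf 1) (.leaf 1)))) (.node 68652367874 (.node 68618813442 (.node 3385 (.leaf 1) (.leaf 1)) (.node 3385 (.leaf 1) (.leaf 1))) (.node 68685922306 (.node 3385 (.leaf 1) (.leaf 1)) (.node 3385 (.leaf 1) (.leaf 1)))))))) (.node 68451041282 (.node 3465 (.node 68316823554 (.node 3433 (.node 68249714690 (.node 68216160258 (.node 3417 (.leaf 1) (.leaf 1)) (.node 3417 (.leaf 1) (.leaf 1))) (.node 68283269122 (.node 3417 (.leaf 1) (.leaf 1)) (.node 3417 (.leaf 1) (.leaf 1)))) (.node 68249714690 (.node 68216160258 (.node 3449 (.leaf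 1) (.leaf 1)) (.node 3449 (.leaf 1) (.leaf 1))) (.node 68283269122 (.node 3449 (.leaf 1) (.leaf 1)) (.node 3449 (.leaf 1) (.leaf 1))))) (.node 3433 (.node 68383932418 (.node 68350377986 (.node 3417 (.leaf 1) (.leaf 1)) (.node 3417 (.leaf 1) (.leaf 1))) (.node 68417486850 (.node 3417 (.leaf 1) (.leaf 1)) (.node 3417 (.leaf 1) (.leaf 1)))) (.node 68383932418 (.node 68350377986 (.node 3449 (.leaf 1) (.leaf 1)) (.node 3449 (.leaf 1) (.leaf 1))) (.node 68417486850 (.node 3449 (.leaf 1) (.leaf 1)) (.node 3449 (.leaf 1) (.leaf 1)))))) (.node 68316823554 (.node 3497 (.node 68249714690 (.node 68216160258 (.node 3481 (.leaf 1) (.leaf 1)) (.node 3481 (.leaf 1) (.leaf 1))) (.node 68283269122 (.node 3481 (.leaf 1) (.leaf 1)) (.node 3481 (.leaf 1) (.leaf 1)))) (.node 68249714690 (.node 68216160258 (.node 3513 (.leaf 1) (.leaf 1)) (.node 3513 (.leaf 1) (.leaf 1))) (.node 68283269122 (.node 3513 (.leaf 1) (.leaf 1)) (.node 3513 (.leaf 1) (.leaf 1))))) (.node 3497 (.node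 68383932418 (.node 68350377986 (.node 3481 (.leaf 1) (.leaf 1)) (.node 3481 (.leaf 1) (.leaf 1))) (.node 68417486850 (.node 3481 (.leaf 1) (.leaf 1)) (.node 3481 (.leaf 1) (.leaf 1))))
    (.node 68383932418 (.node 68350377986 (.node 3513 (.leaf 1) (.leaf 1)) (.node 3513 (.leaf 1) (.leaf 1))) (.node 68417486850 (.node 3513 (.leaf 1) (.leaf 1)) (.node 3513 (.leaf 1) (.leaf 1))))))) (.node 3465 (.node 68585259010 (.node 3433 (.node 68518150146 (.node 68484595714 (.node 3417 (.leaf 1) (.leaf 1)) (.node 3417 (.leaf 1) (.leaf 1))) (.node 68551704578 (.node 3417 (.leaf 1) (.leaf 1)) (.node 3417 (.leaf 1) (.leaf 1)))) (.node 68518150146 (.node 68484595714 (.node 3449 (.leaf 1) (.leaf 1)) (.node 3449 (.leaf 1) (.leaf 1))) (.node 68551704578 (.node 3449 (.leaf 1) (.leaf 1)) (.node 3449 (.leaf 1) (.leaf 1))))) (.node 3433 (.node 68652367874 (.node 68618813442 (.node 3417 (.leaf 1) (.leaf 1)) (.node 3417 (.leaf 1) (.leaf 1))) (.node 68685922306 (.node 3417 (.leaf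 1) (.leaf 1)) (.node 3417 (.leaf 1) (.leaf 1)))) (.node 68652367874 (.node 68618813442 (.node 3449 (.leaf 1) (.leaf 1)) (.node 3449 (.leaf 1) (.leaf 1))) (.node 68685922306 (.node 3449 (.leaf 1) (.leaf 1)) (.node 3449 (.leaf 1) (.leaf 1)))))) (.node 68585259010 (.node 3497 (.node 68518150146 (.node 68484595714 (.node 3481 (.leaf 1) (.leaf 1)) (.node 3481 (.leaf 1) (.leaf 1))) (.node 68551704578 (.node 3481 (.leaf 1) (.leaf 1)) (.node 3481 (.leaf 1) (.leaf 1)))) (.node 68518150146 (.node 68484595714 (.node 3513 (.leaf 1) (.leaf 1)) (.node 3513 (.leaf 1) (.leaf 1))) (.node 68551704578 (.node 3513 (.leaf 1) (.leaf 1)) (.node 3513 (.leaf 1) (.leaf 1))))) (.node 3497 (.node 68652367874 (.node 68618813442 (.node 3481 (.leaf 1) (.leaf 1)) (.node 3481 (.leaf 1) (.leaf 1))) (.node 68685922306 (.node 3481 (.leaf 1) (.leaf 1)) (.node 3481 (.leaf 1) (.leaf 1)))) (.node 68652367874 (.node 68618813442 (.node 3513 (.leaf 1) (.leaf 1)) (.node 3513 (.leaf 1) (.leaf 1)))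 (.node 68685922306 (.node 3513 (.leaf 1) (.leaf 1)) (.node 3513 (.leaf 1) (.leaf 1))))))))))))))
    ⟨25769803776, 25769803776, 828928688128, 944892805120, 4160749568, 4294967296, 4294967296, 4294967296, 4294967296, 4294967296, 0⟩ = true := by decide +kernel

theorem bk6_5 : Tr.run2 ce0 pBK
    (.comp 1 878707508304666716606085499099529122846884506105806064389259391941478719995325047413861843784704303101115430405672052897643334921687583068718022505323219124224 (.node 3801 (.node 67108864002 (.node 3657 (.node 66840428546 (.leaf 1) (.leaf 1)) (.node 66840428546 (.leaf 1) (.leaf 1))) (.node 3657 (.node 67377299458 (.node 3593 (.node 67243081730 (.leaf 1) (.leaf 1)) (.node 67243081730 (.leaf 1) (.leaf 1))) (.node 3593 (.node 67511517186 (.node 3561 (.leaf 1) (.leaf 1)) (.node 3561 (.node 67578626050 (.leaf 1) (.node 67612180482 (.leaf 1) (.node 3545 (.leaf 1) (.leaf 1)))) (.node 67578626050 (.leaf 1) (.node 67612180482 (.leaf 1) (.leaf 1))))) (.node 67511517186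 (.node 3625 (.leaf 1) (.leaf 1)) (.node 3625 (.node 67578626050 (.leaf 1) (.node 67612180482 (.leaf 1) (.leaf 1))) (.node 67578626050 (.leaf 1) (.node 67612180482 (.leaf 1) (.leaf 1))))))) (.node 67377299458 (.node 3721 (.node 67243081730 (.leaf 1) (.leaf 1)) (.node 67243081730 (.leaf 1) (.leaf 1))) (.node 3721 (.node 67511517186 (.node 3689 (.leaf 1) (.leaf 1)) (.node 3689 (.node 67578626050 (.leaf 1) (.leaf 1)) (.node 67578626050 (.leaf 1) (.leaf 1)))) (.node 67511517186 (.node 3753 (.leaf 1) (.leaf 1)) (.node 3753 (.node 67578626050 (.leaf 1) (.leaf 1)) (.node 67578626050 (.leaf 1) (.node 3769 (.leaf 1) (.leaf 1))))))))) (.node 67108864002 (.node 3961 (.node 66840428546 (.leaf 1) (.leaf 1)) (.node 66840428546 (.leaf 1) (.leaf 1))) (.node 3961 (.node 67377299458 (.node 3881 (.leaf 1) (.leaf 1)) (.node 3881 (.node 67511517186 (.leaf 1) (.node 3833 (.node 67578626050 (.leaf 1) (.leaf 1)) (.node 67578626050 (.leaf 1) (.leaf 1)))) (.node 67511517186 (.leaf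 1) (.node 3913 (.leaf 1) (.node 67578626050 (.leaf 1) (.leaf 1)))))) (.node 67377299458 (.node 4041 (.leaf 1) (.leaf 1)) (.node 4041 (.node 67511517186 (.leaf 1) (.node 3993 (.leaf 1) (.node 67578626050 (.leaf 1) (.leaf 1)))) (.node 67511517186 (.leaf 1) (.node 4073 (.leaf 1) (.leaf 1)))))))))
    ⟨25769803776, 25769803776, 949187772416, 1103806595072, 4160749568, 4227858432, 4294967296, 4294967296, 4294967296, 4294967296, 0⟩ = true := by decide +kernel

theorem bk6_6 : Tr.run2 ce0 pBK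
    (.comp 15 878707508304666716606085499099529122846884506105806064389259391941478719995325047413861843784704303101115430405672721924422961610354029165290071852781385285632 (.node 68182605826 (.node 3657 (.node 67914170370 (.node 3593 (.node 67779952642 (.node 3561 (.node 67712843778 (.node 67679289346 (.node 3545 (.leaf 1) (.leaf 1)) (.node 3545 (.leaf 1) (.leaf 1))) (.node 67746398210 (.node 3545 (.leaf 1) (.leaf 1)) (.node 3545 (.leaf 1) (.leaf 1)))) (.node 67712843778 (.node 67679289346 (.node 3577 (.leaf 1) (.leaf 1)) (.node 3577 (.leaf 1) (.leaf 1))) (.node 67746398210 (.node 3577 (.leaf 1) (.leaf 1)) (.node 3577 (.leaf 1) (.leaf 1))))) (.node 3561 (.node 67847061506 (.node 67813507074 (.node 3545 (.leaf 1) (.leaf 1)) (.node 3545 (.leaf 1) (.leaf 1))) (.node 67880615938 (.node 3545 (.leaf 1) (.leaf 1)) (.node 3545 (.leaf 1) (.leaf 1)))) (.node 67847061506 (.node 67813507074 (.node 3577 (.leaf 1) (.leaf 1)) (.node 3577 (.leaf 1) (.leaf 1))) (.node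 67880615938 (.node 3577 (.leaf 1) (.leaf 1)) (.node 3577 (.leaf 1) (.leaf 1)))))) (.node 67779952642 (.node 3625 (.node 67712843778 (.node 67679289346 (.node 3609 (.leaf 1) (.leaf 1)) (.node 3609 (.leaf 1) (.leaf 1))) (.node 67746398210 (.node 3609 (.leaf 1) (.leaf 1)) (.node 3609 (.leaf 1) (.leaf 1)))) (.leaf 1)) (.node 3625 (.node 67847061506 (.node 67813507074 (.node 3609 (.leaf 1) (.leaf 1)) (.node 3609 (.leaf 1) (.leaf 1))) (.node 67880615938 (.node 3609 (.leaf 1) (.leaf 1)) (.node 3609 (.leaf 1) (.leaf 1)))) (.node 67847061506 (.node 67813507074 (.leaf 1) (.node 3641 (.leaf 1) (.leaf 1))) (.node 67880615938 (.node 3641 (.leaf 1) (.leaf 1)) (.node 3641 (.leaf 1) (.leaf 1))))))) (.node 3593 (.node 68048388098 (.node 3561 (.node 67981279234 (.node 67947724802 (.node 3545 (.leaf 1) (.leaf 1)) (.node 3545 (.leaf 1) (.leaf 1))) (.node 68014833666 (.node 3545 (.leaf 1) (.leaf 1)) (.node 3545 (.leaf 1) (.leaf 1)))) (.node 67981279234 (.node 67947724802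 (.node 3577 (.leaf 1) (.leaf 1)) (.node 3577 (.leaf 1) (.leaf 1)))
    (.node 68014833666 (.node 3577 (.leaf 1) (.leaf 1)) (.node 3577 (.leaf 1) (.leaf 1))))) (.node 3561 (.node 68115496962 (.node 68081942530 (.node 3545 (.leaf 1) (.leaf 1)) (.node 3545 (.leaf 1) (.leaf 1))) (.node 68149051394 (.node 3545 (.leaf 1) (.leaf 1)) (.node 3545 (.leaf 1) (.leaf 1)))) (.node 68115496962 (.node 68081942530 (.node 3577 (.leaf 1) (.leaf 1)) (.node 3577 (.leaf 1) (.leaf 1))) (.node 68149051394 (.node 3577 (.leaf 1) (.leaf 1)) (.node 3577 (.leaf 1) (.leaf 1)))))) (.node 68048388098 (.node 3625 (.node 67981279234 (.node 67947724802 (.node 3609 (.leaf 1) (.leaf 1)) (.node 3609 (.leaf 1) (.leaf 1))) (.node 68014833666 (.node 3609 (.leaf 1) (.leaf 1)) (.node 3609 (.leaf 1) (.leaf 1)))) (.node 67981279234 (.node 67947724802 (.node 3641 (.leaf 1) (.leaf 1)) (.node 3641 (.leaf 1) (.leaf 1))) (.node 68014833666 (.node 3641 (.leaf 1) (.leaf 1)) (.node 3641 (.leaf 1) (.leaf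 1))))) (.node 3625 (.node 68115496962 (.node 68081942530 (.node 3609 (.leaf 1) (.leaf 1)) (.node 3609 (.leaf 1) (.leaf 1))) (.node 68149051394 (.node 3609 (.leaf 1) (.leaf 1)) (.node 3609 (.leaf 1) (.leaf 1)))) (.node 68115496962 (.node 68081942530 (.node 3641 (.leaf 1) (.leaf 1)) (.node 3641 (.leaf 1) (.leaf 1))) (.node 68149051394 (.node 3641 (.leaf 1) (.leaf 1)) (.node 3641 (.leaf 1) (.leaf 1)))))))) (.node 67914170370 (.node 3721 (.node 67779952642 (.node 3689 (.node 67712843778 (.node 67679289346 (.node 15771119910913 (.leaf 1) (.leaf 1)) (.node 3673 (.leaf 1) (.leaf 1))) (.node 67746398210 (.node 3673 (.leaf 1) (.leaf 1)) (.node 3673 (.leaf 1) (.leaf 1)))) (.node 67712843778 (.node 67679289346 (.node 15908558864385 (.leaf 1) (.leaf 1)) (.node 3705 (.leaf 1) (.leaf 1))) (.node 67746398210 (.node 3705 (.leaf 1) (.leaf 1)) (.node 3705 (.leaf 1) (.leaf 1))))) (.node 3689 (.node 67847061506 (.node 67813507074 (.node 3673 (.leaf 1) (.leaf 1)) (.node 3673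 (.leaf 1) (.leaf 1))) (.node 67880615938 (.node 3673 (.leaf 1) (.leaf 1)) (.node 3673 (.leaf 1) (.leaf 1)))) (.node 67847061506
    (.node 67813507074 (.node 3705 (.leaf 1) (.leaf 1)) (.node 3705 (.leaf 1) (.leaf 1))) (.node 67880615938 (.node 3705 (.leaf 1) (.leaf 1)) (.node 3705 (.leaf 1) (.leaf 1)))))) (.node 67779952642 (.node 3753 (.node 67712843778 (.node 67679289346 (.node 16045997817857 (.leaf 1) (.leaf 1)) (.node 3737 (.leaf 1) (.leaf 1))) (.node 67746398210 (.node 3737 (.leaf 1) (.leaf 1)) (.node 3737 (.leaf 1) (.leaf 1)))) (.node 67712843778 (.node 3769 (.leaf 1) (.leaf 1)) (.node 3769 (.leaf 1) (.leaf 1)))) (.node 3753 (.node 67847061506 (.node 67813507074 (.node 3737 (.leaf 1) (.leaf 1)) (.node 3737 (.leaf 1) (.leaf 1))) (.node 67880615938 (.node 3737 (.leaf 1) (.leaf 1)) (.node 3737 (.leaf 1) (.leaf 1)))) (.node 67847061506 (.node 3769 (.leaf 1) (.leaf 1)) (.node 3769 (.leaf 1) (.node 67880615938 (.node 3785 (.leaf 1) (.leaf 1)) (.node 3785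 (.leaf 1) (.leaf 1)))))))) (.node 3721 (.node 68048388098 (.node 3689 (.node 67981279234 (.node 67947724802 (.node 3673 (.leaf 1) (.leaf 1)) (.node 3673 (.leaf 1) (.leaf 1))) (.node 68014833666 (.node 3673 (.leaf 1) (.leaf 1)) (.node 3673 (.leaf 1) (.leaf 1)))) (.node 67981279234 (.node 67947724802 (.node 3705 (.leaf 1) (.leaf 1)) (.node 3705 (.leaf 1) (.leaf 1))) (.node 68014833666 (.node 3705 (.leaf 1) (.leaf 1)) (.node 3705 (.leaf 1) (.leaf 1))))) (.node 3689 (.node 68115496962 (.node 68081942530 (.node 3673 (.leaf 1) (.leaf 1)) (.node 3673 (.leaf 1) (.leaf 1))) (.node 68149051394 (.node 3673 (.leaf 1) (.leaf 1)) (.node 3673 (.leaf 1) (.leaf 1)))) (.node 68115496962 (.node 68081942530 (.node 3705 (.leaf 1) (.leaf 1)) (.node 3705 (.leaf 1) (.leaf 1))) (.node 68149051394 (.node 3705 (.leaf 1) (.leaf 1)) (.node 3705 (.leaf 1) (.leaf 1)))))) (.node 68048388098 (.node 3753 (.node 67981279234 (.node 67947724802 (.node 3737 (.leaf 1) (.leaf 1)) (.node 3737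 (.leaf 1) (.leaf 1))) (.node 68014833666 (.node 3737 (.leaf 1) (.leaf 1)) (.node 3737 (.leaf 1) (.leaf 1)))) (.node 67981279234 (.node 3769 (.leaf 1) (.node 67947724802 (.node 3785 (.leaf 1)
    (.leaf 1)) (.node 3785 (.leaf 1) (.leaf 1)))) (.node 3769 (.leaf 1) (.node 68014833666 (.node 3785 (.leaf 1) (.leaf 1)) (.node 3785 (.leaf 1) (.leaf 1)))))) (.node 3753 (.node 68115496962 (.node 68081942530 (.node 3737 (.leaf 1) (.leaf 1)) (.node 3737 (.leaf 1) (.leaf 1))) (.node 68149051394 (.node 3737 (.leaf 1) (.leaf 1)) (.node 3737 (.leaf 1) (.leaf 1)))) (.node 68115496962 (.node 3769 (.leaf 1) (.node 68081942530 (.node 3785 (.leaf 1) (.leaf 1)) (.node 3785 (.leaf 1) (.leaf 1)))) (.node 3769 (.leaf 1) (.node 68149051394 (.node 3785 (.leaf 1) (.leaf 1)) (.node 3785 (.leaf 1) (.leaf 1)))))))))) (.node 3657 (.node 68451041282 (.node 3593 (.node 68316823554 (.node 3561 (.node 68249714690 (.node 68216160258 (.node 3545 (.leaf 1) (.leaf 1)) (.node 3545 (.leaf 1)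 (.leaf 1))) (.node 68283269122 (.node 3545 (.leaf 1) (.leaf 1)) (.node 3545 (.leaf 1) (.leaf 1)))) (.node 68249714690 (.node 68216160258 (.node 3577 (.leaf 1) (.leaf 1)) (.node 3577 (.leaf 1) (.leaf 1))) (.node 68283269122 (.node 3577 (.leaf 1) (.leaf 1)) (.node 3577 (.leaf 1) (.leaf 1))))) (.node 3561 (.node 68383932418 (.node 68350377986 (.node 3545 (.leaf 1) (.leaf 1)) (.node 3545 (.leaf 1) (.leaf 1))) (.node 68417486850 (.node 3545 (.leaf 1) (.leaf 1)) (.node 3545 (.leaf 1) (.leaf 1)))) (.node 68383932418 (.node 68350377986 (.node 3577 (.leaf 1) (.leaf 1)) (.node 3577 (.leaf 1) (.leaf 1))) (.node 68417486850 (.node 3577 (.leaf 1) (.leaf 1)) (.node 3577 (.leaf 1) (.leaf 1)))))) (.node 68316823554 (.node 3625 (.node 68249714690 (.node 68216160258 (.node 3609 (.leaf 1) (.leaf 1)) (.node 3609 (.leaf 1) (.leaf 1))) (.node 68283269122 (.node 3609 (.leaf 1) (.leaf 1)) (.node 3609 (.leaf 1) (.leaf 1)))) (.node 68249714690 (.node 68216160258 (.node 3641 (.leaf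 1) (.leaf 1)) (.node 3641 (.leaf 1) (.leaf 1))) (.node 68283269122 (.node 3641 (.leaf 1) (.leaf 1)) (.node 3641 (.leaf 1) (.leaf 1))))) (.node 3625 (.node 68383932418 (.node 68350377986 (.node 3609 (.leaf 1) (.leaf 1)) (.node 3609 (.leaf 1) (.leaf 1)))
    (.node 68417486850 (.node 3609 (.leaf 1) (.leaf 1)) (.node 3609 (.leaf 1) (.leaf 1)))) (.node 68383932418 (.node 68350377986 (.node 3641 (.leaf 1) (.leaf 1)) (.node 3641 (.leaf 1) (.leaf 1))) (.node 68417486850 (.node 3641 (.leaf 1) (.leaf 1)) (.node 3641 (.leaf 1) (.leaf 1))))))) (.node 3593 (.node 68585259010 (.node 3561 (.node 68518150146 (.node 68484595714 (.node 3545 (.leaf 1) (.leaf 1)) (.node 3545 (.leaf 1) (.leaf 1))) (.node 68551704578 (.node 3545 (.leaf 1) (.leaf 1)) (.node 3545 (.leaf 1) (.leaf 1)))) (.node 68518150146 (.node 68484595714 (.node 3577 (.leaf 1) (.leaf 1)) (.node 3577 (.leaf 1) (.leaf 1))) (.node 68551704578 (.node 3577 (.leaf 1) (.leaf 1)) (.node 3577 (.leaf 1) (.leaf 1)))))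 (.node 3561 (.node 68652367874 (.node 68618813442 (.node 3545 (.leaf 1) (.leaf 1)) (.node 3545 (.leaf 1) (.leaf 1))) (.node 68685922306 (.node 3545 (.leaf 1) (.leaf 1)) (.node 3545 (.leaf 1) (.leaf 1)))) (.node 68652367874 (.node 68618813442 (.node 3577 (.leaf 1) (.leaf 1)) (.node 3577 (.leaf 1) (.leaf 1))) (.node 68685922306 (.node 3577 (.leaf 1) (.leaf 1)) (.node 3577 (.leaf 1) (.leaf 1)))))) (.node 68585259010 (.node 3625 (.node 68518150146 (.node 68484595714 (.node 3609 (.leaf 1) (.leaf 1)) (.node 3609 (.leaf 1) (.leaf 1))) (.node 68551704578 (.node 3609 (.leaf 1) (.leaf 1)) (.node 3609 (.leaf 1) (.leaf 1)))) (.node 68518150146 (.node 68484595714 (.node 3641 (.leaf 1) (.leaf 1)) (.node 3641 (.leaf 1) (.leaf 1))) (.node 68551704578 (.node 3641 (.leaf 1) (.leaf 1)) (.node 3641 (.leaf 1) (.leaf 1))))) (.node 3625 (.node 68652367874 (.node 68618813442 (.node 3609 (.leaf 1) (.leaf 1)) (.node 3609 (.leaf 1) (.leaf 1))) (.node 68685922306 (.node 3609 (.leaf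 1) (.leaf 1)) (.node 3609 (.leaf 1) (.leaf 1)))) (.node 68652367874 (.node 68618813442 (.node 3641 (.leaf 1) (.leaf 1)) (.node 3641 (.leaf 1) (.leaf 1))) (.node 68685922306 (.node 3641 (.leaf 1) (.leaf 1)) (.node 3641 (.leaf 1) (.leaf 1)))))))) (.node 68451041282 (.node 3721 (.node 68316823554 (.node 3689 (.node
    68249714690 (.node 68216160258 (.node 3673 (.leaf 1) (.leaf 1)) (.node 3673 (.leaf 1) (.leaf 1))) (.node 68283269122 (.node 3673 (.leaf 1) (.leaf 1)) (.node 3673 (.leaf 1) (.leaf 1)))) (.node 68249714690 (.node 68216160258 (.node 3705 (.leaf 1) (.leaf 1)) (.node 3705 (.leaf 1) (.leaf 1))) (.node 68283269122 (.node 3705 (.leaf 1) (.leaf 1)) (.node 3705 (.leaf 1) (.leaf 1))))) (.node 3689 (.node 68383932418 (.node 68350377986 (.node 3673 (.leaf 1) (.leaf 1)) (.node 3673 (.leaf 1) (.leaf 1))) (.node 68417486850 (.node 3673 (.leaf 1) (.leaf 1)) (.node 3673 (.leaf 1) (.leaf 1)))) (.node 68383932418 (.node 68350377986 (.node 3705 (.leaf 1) (.leaf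 1)) (.node 3705 (.leaf 1) (.leaf 1))) (.node 68417486850 (.node 3705 (.leaf 1) (.leaf 1)) (.node 3705 (.leaf 1) (.leaf 1)))))) (.node 68316823554 (.node 3753 (.node 68249714690 (.node 68216160258 (.node 3737 (.leaf 1) (.leaf 1)) (.node 3737 (.leaf 1) (.leaf 1))) (.node 68283269122 (.node 3737 (.leaf 1) (.leaf 1)) (.node 3737 (.leaf 1) (.leaf 1)))) (.node 68249714690 (.node 3769 (.leaf 1) (.node 68216160258 (.node 3785 (.leaf 1) (.leaf 1)) (.node 3785 (.leaf 1) (.leaf 1)))) (.node 3769 (.leaf 1) (.node 68283269122 (.node 3785 (.leaf 1) (.leaf 1)) (.node 3785 (.leaf 1) (.leaf 1)))))) (.node 3753 (.node 68383932418 (.node 68350377986 (.node 3737 (.leaf 1) (.leaf 1)) (.node 3737 (.leaf 1) (.leaf 1))) (.node 68417486850 (.node 3737 (.leaf 1) (.leaf 1)) (.node 3737 (.leaf 1) (.leaf 1)))) (.node 68383932418 (.node 3769 (.leaf 1) (.node 68350377986 (.node 3785 (.leaf 1) (.leaf 1)) (.node 3785 (.leaf 1) (.leaf 1)))) (.node 3769 (.leaf 1) (.node 68417486850 (.node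 3785 (.leaf 1) (.leaf 1)) (.node 3785 (.leaf 1) (.leaf 1)))))))) (.node 3721 (.node 68585259010 (.node 3689 (.node 68518150146 (.node 68484595714 (.node 3673 (.leaf 1) (.leaf 1)) (.node 3673 (.leaf 1) (.leaf 1))) (.node 68551704578 (.node 3673 (.leaf 1) (.leaf 1)) (.node 3673 (.leaf 1) (.leaf 1)))) (.node 68518150146 (.node 68484595714 (.node 3705 (.leaf 1) (.leaf 1)) (.node
    3705 (.leaf 1) (.leaf 1))) (.node 68551704578 (.node 3705 (.leaf 1) (.leaf 1)) (.node 3705 (.leaf 1) (.leaf 1))))) (.node 3689 (.node 68652367874 (.node 68618813442 (.node 3673 (.leaf 1) (.leaf 1)) (.node 3673 (.leaf 1) (.leaf 1))) (.node 68685922306 (.node 3673 (.leaf 1) (.leaf 1)) (.node 3673 (.leaf 1) (.leaf 1)))) (.node 68652367874 (.node 68618813442 (.node 3705 (.leaf 1) (.leaf 1)) (.node 3705 (.leaf 1) (.leaf 1))) (.node 68685922306 (.node 3705 (.leaf 1) (.leaf 1)) (.node 3705 (.leaf 1) (.leaf 1)))))) (.node 68585259010 (.node 3753 (.node 68518150146 (.node 68484595714 (.node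 3737 (.leaf 1) (.leaf 1)) (.node 3737 (.leaf 1) (.leaf 1))) (.node 68551704578 (.node 3737 (.leaf 1) (.leaf 1)) (.node 3737 (.leaf 1) (.leaf 1)))) (.node 68518150146 (.node 3769 (.leaf 1) (.node 68484595714 (.node 3785 (.leaf 1) (.leaf 1)) (.node 3785 (.leaf 1) (.leaf 1)))) (.node 3769 (.leaf 1) (.node 68551704578 (.node 3785 (.leaf 1) (.leaf 1)) (.node 3785 (.leaf 1) (.leaf 1)))))) (.node 3753 (.node 68652367874 (.node 68618813442 (.node 3737 (.leaf 1) (.leaf 1)) (.node 3737 (.leaf 1) (.leaf 1))) (.node 68685922306 (.node 3737 (.leaf 1) (.leaf 1)) (.node 3737 (.leaf 1) (.leaf 1)))) (.node 68652367874 (.node 3769 (.leaf 1) (.node 68618813442 (.node 3785 (.leaf 1) (.leaf 1)) (.node 3785 (.leaf 1) (.leaf 1)))) (.node 3769 (.leaf 1) (.node 68685922306 (.node 3785 (.leaf 1) (.leaf 1)) (.node 3785 (.leaf 1) (.leaf 1))))))))))))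
    ⟨25769803776, 25769803776, 949187772416, 1017907249152, 4227858432, 4294967296, 4294967296, 4294967296, 4294967296, 4294967296, 0⟩ = true := by decide +kernel

theorem bk6_7 : Tr.run2 ce0 pBK
    (.comp 1 878707508304657351360434551122834978055195126606888818594831397028026142524423405647564614225294104738585843379513965947812123235182620836780755942339034218496 (.node 68182605826 (.setw 57586975264254637939496419268986740594893422992150106235814503510276749393613622307314849794274381208034700847066123658699953597427717443991504322908862488525144319 (.node 3961 (.node 67914170370 (.node 3881 (.node 67779952642 (.node 3833 (.node 67712843778 (.node 67679289346 (.leaf 255) (.leaf 255)) (.node 67746398210 (.node 3817 (.leaf 1) (.leaf 1)) (.node 3817 (.leaf 1) (.leaf 1)))) (.node 67712843778 (.node 3849 (.leaf 255) (.leaf 1)) (.node 3849 (.node 67746398210 (.leaf 1) (.leaf 1)) (.leaf 1)))) (.node 3833 (.node 67847061506 (.node 67813507074 (.node 3817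 (.leaf 1) (.leaf 1)) (.node 3817 (.leaf 1) (.leaf 1))) (.node 67880615938 (.node 3817 (.leaf 1) (.leaf 1)) (.node 3817 (.leaf 1) (.leaf 1)))) (.node 67847061506 (.node 3849 (.node 67813507074 (.leaf 1) (.leaf 1)) (.node 67813507074 (.leaf 1) (.node 3865 (.leaf 1) (.leaf 1)))) (.node 3849 (.node 67880615938 (.leaf 1) (.leaf 1)) (.node 67880615938 (.node 3865 (.leaf 1) (.leaf 1)) (.node 3865 (.leaf 1) (.leaf 1))))))) (.node 67779952642 (.node 3913 (.node 67712843778 (.leaf 1) (.leaf 1)) (.node 67712843778 (.node 3929 (.leaf 1) (.leaf 255)) (.node 3929 (.leaf 1) (.node 67746398210 (.leaf 1) (.leaf 1))))) (.node 3913 (.node 67847061506 (.leaf 1) (.leaf 1)) (.node 67847061506 (.node 3929 (.leaf 1) (.node 67813507074 (.leaf 1) (.leaf 1))) (.node 3929 (.leaf 1) (.node 67880615938 (.leaf 1) (.leaf 1))))))) (.node 3881 (.node 68048388098 (.node 3833 (.node 67981279234 (.node 67947724802 (.node 3817 (.leaf 1) (.leaf 1)) (.node 3817 (.leaf 1) (.leaf 1))) (.node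 68014833666 (.node 3817 (.leaf 1) (.leaf 1)) (.node 3817 (.leaf 1) (.leaf 1)))) (.node 67981279234 (.node 3849 (.node 67947724802 (.leaf 1) (.leaf 1)) (.node 67947724802 (.node 3865 (.leaf 1) (.leaf 1)) (.node 3865 (.leaf 1) (.leaf 1)))) (.node 3849 (.node
    68014833666 (.leaf 1) (.leaf 1)) (.node 68014833666 (.node 3865 (.leaf 1) (.leaf 1)) (.node 3865 (.leaf 1) (.leaf 1)))))) (.node 3833 (.node 68115496962 (.node 68081942530 (.node 3817 (.leaf 1) (.leaf 1)) (.node 3817 (.leaf 1) (.leaf 1))) (.node 68149051394 (.node 3817 (.leaf 1) (.leaf 1)) (.node 3817 (.leaf 1) (.leaf 1)))) (.node 68115496962 (.node 3849 (.node 68081942530 (.leaf 1) (.leaf 1)) (.node 68081942530 (.node 3865 (.leaf 1) (.leaf 1)) (.node 3865 (.leaf 1) (.leaf 1)))) (.node 3849 (.node 68149051394 (.leaf 1) (.leaf 1)) (.node 68149051394 (.node 3865 (.leaf 1) (.leaf 1)) (.node 3865 (.leaf 1) (.leaf 1))))))) (.node 68048388098 (.node 3913 (.node 67981279234 (.leaf 1) (.leaf 1)) (.node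 67981279234 (.node 3929 (.leaf 1) (.node 67947724802 (.leaf 1) (.leaf 1))) (.node 3929 (.leaf 1) (.leaf 1)))) (.node 3913 (.node 68115496962 (.leaf 1) (.node 68149051394 (.node 3897 (.leaf 1) (.leaf 1)) (.node 3897 (.leaf 1) (.leaf 1)))) (.node 68115496962 (.node 3929 (.leaf 1) (.leaf 1)) (.node 3929 (.leaf 1) (.leaf 1))))))) (.node 67914170370 (.node 4041 (.node 67779952642 (.node 3993 (.node 67712843778 (.node 67679289346 (.leaf 1) (.leaf 1)) (.node 67746398210 (.leaf 1) (.leaf 1))) (.node 67712843778 (.node 4009 (.leaf 1) (.leaf 255)) (.node 4009 (.leaf 1) (.node 67746398210 (.leaf 255) (.node 4025 (.leaf 1) (.leaf 1)))))) (.node 3993 (.node 67847061506 (.node 67813507074 (.leaf 1) (.leaf 1)) (.node 67880615938 (.leaf 1) (.leaf 1))) (.node 67847061506 (.node 4009 (.leaf 1) (.node 67813507074 (.node 4025 (.leaf 1) (.leaf 1)) (.leaf 1))) (.node 4009 (.leaf 1) (.node 67880615938 (.leaf 1) (.leaf 1)))))) (.node 67779952642 (.node 4073 (.node 67712843778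 (.leaf 255) (.node 67746398210 (.leaf 255) (.leaf 255))) (.node 67712843778 (.leaf 255) (.node 4089 (.leaf 1) (.node 67746398210 (.leaf 1) (.leaf 255))))) (.node 4073 (.node 67847061506 (.node 67813507074 (.node 4057 (.leaf 1) (.leaf 1)) (.node 4057 (.leaf 1) (.leaf 1))) (.node 67880615938 (.node 4057 (.leaf 1) (.leaf 1))
    (.node 4057 (.leaf 1) (.leaf 1)))) (.node 67847061506 (.node 4089 (.leaf 1) (.node 67813507074 (.node 4105 (.leaf 1) (.leaf 1)) (.node 4105 (.leaf 1) (.leaf 1)))) (.node 4089 (.leaf 1) (.node 67880615938 (.node 4105 (.leaf 1) (.leaf 1)) (.node 4105 (.leaf 1) (.leaf 1)))))))) (.node 4041 (.node 68048388098 (.node 3993 (.node 67981279234 (.node 67947724802 (.leaf 1) (.leaf 1)) (.node 68014833666 (.leaf 1) (.leaf 1))) (.node 67981279234 (.node 4009 (.leaf 1) (.node 67947724802 (.leaf 1) (.leaf 1))) (.node 4009 (.leaf 1) (.node 68014833666 (.leaf 1) (.leaf 1))))) (.node 3993 (.node 68115496962 (.node 68081942530 (.leaf 1) (.leaf 1))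 (.node 68149051394 (.leaf 1) (.leaf 1))) (.node 68115496962 (.node 4009 (.leaf 1) (.node 68081942530 (.leaf 1) (.leaf 1))) (.node 4009 (.leaf 1) (.node 68149051394 (.leaf 1) (.leaf 1)))))) (.node 68048388098 (.node 4073 (.node 67981279234 (.node 67947724802 (.node 4057 (.leaf 1) (.leaf 1)) (.node 4057 (.leaf 1) (.leaf 1))) (.node 68014833666 (.node 4057 (.leaf 1) (.leaf 1)) (.leaf 1))) (.node 67981279234 (.node 4089 (.leaf 1) (.node 67947724802 (.node 4105 (.leaf 1) (.leaf 1)) (.node 4105 (.leaf 1) (.leaf 1)))) (.node 4089 (.leaf 1) (.node 68014833666 (.node 4105 (.leaf 1) (.leaf 1)) (.node 4105 (.leaf 1) (.leaf 1)))))) (.node 4073 (.node 68115496962 (.node 68081942530 (.leaf 1) (.leaf 1)) (.node 68149051394 (.leaf 1) (.leaf 1))) (.node 68115496962 (.node 4089 (.leaf 1) (.node 68081942530 (.node 4105 (.leaf 1) (.leaf 1)) (.node 4105 (.leaf 1) (.leaf 1)))) (.node 4089 (.leaf 1) (.node 68149051394 (.node 4105 (.leaf 1) (.leaf 1)) (.node 4105 (.leaf 1) (.leaf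 1))))))))))) (.node 3961 (.node 68451041282 (.node 3881 (.node 68316823554 (.node 3833 (.node 68249714690 (.node 68216160258 (.node 3817 (.leaf 1) (.leaf 1)) (.node 3817 (.leaf 1) (.leaf 1))) (.node 68283269122 (.node 3817 (.leaf 1) (.leaf 1)) (.node 3817 (.leaf 1) (.leaf 1)))) (.node 68249714690 (.node 3849 (.node 68216160258 (.leaf 1) (.leaf 1)) (.node 68216160258 (.node 3865 (.leaf
    1) (.leaf 1)) (.node 3865 (.leaf 1) (.leaf 1)))) (.node 3849 (.node 68283269122 (.leaf 1) (.leaf 1)) (.node 68283269122 (.node 3865 (.leaf 1) (.leaf 1)) (.node 3865 (.leaf 1) (.leaf 1)))))) (.node 3833 (.node 68383932418 (.node 68350377986 (.node 3817 (.leaf 1) (.leaf 1)) (.node 3817 (.leaf 1) (.leaf 1))) (.node 68417486850 (.node 3817 (.leaf 1) (.leaf 1)) (.node 3817 (.leaf 1) (.leaf 1)))) (.node 68383932418 (.node 3849 (.node 68350377986 (.leaf 1) (.leaf 1)) (.node 68350377986 (.node 3865 (.leaf 1) (.leaf 1)) (.node 3865 (.leaf 1) (.leaf 1)))) (.node 3849 (.node 68417486850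 (.leaf 1) (.leaf 1)) (.node 68417486850 (.node 3865 (.leaf 1) (.leaf 1)) (.node 3865 (.leaf 1) (.leaf 1))))))) (.node 68316823554 (.node 3913 (.node 68249714690 (.node 68216160258 (.node 3897 (.leaf 1) (.leaf 1)) (.node 3897 (.leaf 1) (.leaf 1))) (.node 68283269122 (.node 3897 (.leaf 1) (.leaf 1)) (.node 3897 (.leaf 1) (.leaf 1)))) (.node 68249714690 (.node 3929 (.leaf 1) (.leaf 1)) (.node 3929 (.leaf 1) (.leaf 1)))) (.node 3913 (.node 68383932418 (.node 68350377986 (.node 3897 (.leaf 1) (.leaf 1)) (.node 3897 (.leaf 1) (.leaf 1))) (.node 68417486850 (.node 3897 (.leaf 1) (.leaf 1)) (.node 3897 (.leaf 1) (.leaf 1)))) (.node 68383932418 (.node 3929 (.leaf 1) (.leaf 1)) (.node 3929 (.node 68417486850 (.leaf 1) (.leaf 1)) (.leaf 1)))))) (.node 3881 (.comp 79 878707508304657351360434551122834978055195126606888818594831397028026142524423405647564614225294104738585843379513965947812123235182620836780755942339034218496 (.node 68585259010 (.node 3833 (.node 68518150146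 (.node 68484595714 (.node 3817 (.leaf 1) (.leaf 1)) (.node 3817 (.leaf 1) (.leaf 1))) (.node 68551704578 (.node 3817 (.leaf 1) (.leaf 1)) (.node 3817 (.leaf 3) (.leaf 1)))) (.node 68518150146 (.node 3849 (.leaf 1) (.node 68484595714 (.node 3865 (.leaf 1) (.leaf 1)) (.node 3865 (.leaf 1) (.leaf 1)))) (.node 3849 (.leaf 1) (.node 68551704578 (.node 3865 (.leaf 1) (.leaf 1)) (.node 3865 (.leaf 1) (.leaf 1)))))) (.node 3833 (.node
    68652367874 (.node 68618813442 (.node 3817 (.leaf 3) (.leaf 3)) (.node 3817 (.leaf 3) (.leaf 3))) (.node 68685922306 (.node 3817 (.leaf 3) (.leaf 3)) (.node 3817 (.leaf 3) (.leaf 3)))) (.node 68652367874 (.node 3849 (.leaf 1) (.node 68618813442 (.node 3865 (.leaf 1) (.leaf 1)) (.node 3865 (.leaf 1) (.leaf 1)))) (.node 3849 (.leaf 1) (.node 68685922306 (.node 3865 (.leaf 1) (.leaf 1)) (.node 3865 (.leaf 1) (.leaf 1)))))))) (.node 68585259010 (.node 3913 (.node 68518150146 (.node 68484595714 (.node 3897 (.leaf 1) (.leaf 1)) (.node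 3897 (.leaf 1) (.leaf 1))) (.node 68551704578 (.node 3897 (.leaf 1) (.leaf 1)) (.node 3897 (.leaf 1) (.leaf 1)))) (.node 68518150146 (.node 3929 (.node 68484595714 (.leaf 1) (.leaf 1)) (.leaf 1)) (.node 3929 (.node 68551704578 (.leaf 1) (.leaf 1)) (.node 68551704578 (.node 3945 (.leaf 1) (.leaf 1)) (.node 3945 (.leaf 1) (.leaf 1)))))) (.node 3913 (.node 68652367874 (.node 68618813442 (.node 3897 (.leaf 1) (.leaf 1)) (.node 3897 (.leaf 1) (.leaf 1))) (.node 68685922306 (.node 3897 (.leaf 1) (.leaf 1)) (.node 3897 (.leaf 1) (.leaf 1)))) (.node 68652367874 (.node 3929 (.node 68618813442 (.leaf 1) (.leaf 1)) (.node 68618813442 (.node 3945 (.leaf 1) (.leaf 1)) (.node 3945 (.leaf 1) (.leaf 1)))) (.node 3929 (.node 68685922306 (.leaf 1) (.leaf 1)) (.node 68685922306 (.node 3945 (.leaf 1) (.leaf 1)) (.node 3945 (.leaf 1) (.leaf 1))))))))) (.node 68451041282 (.node 4041 (.node 68316823554 (.node 3993 (.node 68249714690 (.node 68216160258 (.leaf 1) (.leaf 1)) (.leaf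 1)) (.node 68249714690 (.node 4009 (.leaf 1) (.node 68216160258 (.leaf 1) (.leaf 1))) (.node 4009 (.leaf 1) (.node 68283269122 (.leaf 1) (.leaf 1))))) (.node 3993 (.node 68383932418 (.leaf 1) (.leaf 1)) (.node 68383932418 (.node 4009 (.leaf 1) (.node 68350377986 (.leaf 1) (.leaf 1))) (.node 4009 (.leaf 1) (.node 68417486850 (.leaf 1) (.leaf 1)))))) (.node 68316823554 (.node 4073 (.node 68249714690 (.node 68216160258 (.leaf 1) (.leaf 1)) (.node 68283269122 (.leaf 1) (.leaf 1))) (.node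
    68249714690 (.node 4089 (.leaf 1) (.node 68216160258 (.node 4105 (.leaf 1) (.leaf 1)) (.node 4105 (.leaf 1) (.leaf 1)))) (.node 4089 (.leaf 1) (.node 68283269122 (.node 4105 (.leaf 1) (.leaf 1)) (.node 4105 (.leaf 1) (.leaf 1)))))) (.node 4073 (.node 68383932418 (.node 68350377986 (.leaf 1) (.leaf 1)) (.node 68417486850 (.leaf 1) (.leaf 1))) (.node 68383932418 (.node 4089 (.leaf 1) (.node 68350377986 (.node 4105 (.leaf 1) (.leaf 1)) (.leaf 1))) (.node 4089 (.leaf 1) (.node 68417486850 (.leaf 1) (.leaf 1))))))) (.node 4041 (.node 68585259010 (.node 3993 (.node 68518150146 (.leaf 1) (.leaf 1)) (.node 68518150146 (.node 4009 (.leaf 1) (.node 68484595714 (.leaf 1) (.leaf 1))) (.node 4009 (.leaf 1) (.node 68551704578 (.leaf 1) (.leaf 1))))) (.node 3993 (.node 68652367874 (.leaf 1) (.leaf 1)) (.node 68652367874 (.node 4009 (.leaf 1) (.leaf 1)) (.node 4009 (.leaf 1) (.leaf 1))))) (.node 68585259010 (.node 4073 (.node 68518150146 (.node 68484595714 (.leaf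 1) (.leaf 1)) (.node 68551704578 (.leaf 1) (.leaf 1))) (.node 68518150146 (.node 4089 (.leaf 1) (.node 68484595714 (.leaf 1) (.leaf 1))) (.node 4089 (.leaf 1) (.node 68551704578 (.leaf 1) (.leaf 1))))) (.node 4073 (.node 68652367874 (.node 68618813442 (.leaf 1) (.leaf 1)) (.node 68685922306 (.leaf 1) (.leaf 1))) (.node 68652367874 (.node 4089 (.leaf 1) (.node 68618813442 (.leaf 1) (.leaf 1))) (.node 4089 (.leaf 1) (.node 68685922306 (.leaf 1) (.leaf 1)))))))))))
    ⟨25769803776, 25769803776, 1022202216448, 1103806595072, 4227858432, 4294967296, 4294967296, 4294967296, 4294967296, 4294967296, 0⟩ = true := by decide +kernel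

theorem bk6_8 : Tr.run2 ce0 pBK
    (.comp 1 878707508304666716606085499099529122846884506105806064389259391941478719995325047413861843784704303101115430405672052897643334921687583068718022505323219124224 (.node 66571993090 (.leaf 1) (.node 4953 (.node 67645734914 (.node 4505 (.node 67108864002 (.node 4313 (.node 66840428546 (.leaf 1) (.leaf 1)) (.leaf 1)) (.node 4313 (.node 67377299458 (.node 4217 (.leaf 1) (.leaf 1)) (.node 4217 (.node 67511517186 (.leaf 1) (.node 4169 (.leaf 1) (.leaf 1))) (.node 67511517186 (.leaf 1) (.node 4265 (.leaf 1) (.leaf 1))))) (.node 67377299458 (.node 4409 (.leaf 1) (.leaf 1)) (.node 4409 (.node 67511517186 (.leaf 1) (.node 4361 (.leaf 1) (.leaf 1))) (.node 67511517186 (.leaf 1) (.leaf 1)))))) (.node 67108864002 (.leaf 1) (.node 4713 (.node 67377299458 (.node 4601 (.leaf 1) (.leaf 1)) (.node 4601 (.node 67511517186 (.leaf 1) (.leaf 1)) (.node 67511517186 (.leaf 1) (.leaf 1)))) (.node 67377299458 (.leaf 1) (.node 4825 (.node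 67511517186 (.leaf 1) (.leaf 1)) (.node 67511517186 (.leaf 1) (.leaf 1))))))) (.setw 57586975264254024178757438742386113121825267817309065615430870435628721276480612312518794557868874448147961831719827272355815308340928239159263621437130946543354111 (.node 4505 (.node 68182605826 (.node 4313 (.node 67914170370 (.node 4217 (.node 67779952642 (.node 4169 (.node 67712843778 (.leaf 1) (.node 4137 (.leaf 1) (.leaf 255))) (.node 67712843778 (.leaf 1) (.node 4185 (.leaf 1) (.leaf 1)))) (.node 4169 (.node 67847061506 (.node 4137 (.leaf 255) (.leaf 255)) (.node 4137 (.leaf 255) (.leaf 255))) (.node 67847061506 (.node 4185 (.leaf 255) (.leaf 255)) (.node 4185 (.leaf 255) (.leaf 255))))) (.node 67779952642 (.node 4265 (.node 67712843778 (.leaf 1) (.node 4233 (.leaf 1) (.leaf 1))) (.node 67712843778 (.leaf 1) (.node 4281 (.leaf 1) (.leaf 1)))) (.node 4265 (.node 67847061506 (.node 4233 (.leaf 255) (.leaf 255)) (.node 4233 (.leaf 255) (.leaf 255))) (.node 67847061506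 (.leaf 255) (.leaf 255))))) (.node 4217 (.node 68048388098 (.node 4169 (.node 67981279234
    (.node 4137 (.leaf 255) (.leaf 255)) (.node 4137 (.leaf 255) (.leaf 255))) (.node 67981279234 (.node 4185 (.leaf 255) (.leaf 255)) (.node 4185 (.leaf 255) (.leaf 255)))) (.node 4169 (.node 68115496962 (.node 4137 (.leaf 255) (.leaf 255)) (.node 4137 (.leaf 255) (.node 68149051394 (.leaf 255) (.node 4153 (.leaf 255) (.leaf 255))))) (.node 68115496962 (.node 4185 (.leaf 255) (.leaf 255)) (.node 4185 (.leaf 255) (.leaf 255))))) (.node 68048388098 (.node 4265 (.node 67981279234 (.node 4233 (.leaf 255) (.leaf 255)) (.node 4233 (.leaf 255) (.leaf 255))) (.node 67981279234 (.leaf 255) (.leaf 255))) (.node 4265 (.node 68115496962 (.node 4233 (.leaf 255) (.leaf 255)) (.node 4233 (.leaf 255) (.leaf 255))) (.node 68115496962 (.leaf 255) (.node 4281 (.leaf 255) (.leaf 255))))))) (.node 67914170370 (.node 4409 (.node 67779952642 (.node 4361 (.node 67712843778 (.leaf 1) (.leaf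 1)) (.node 67712843778 (.leaf 1) (.leaf 1))) (.node 4361 (.node 67847061506 (.leaf 255) (.leaf 255)) (.node 67847061506 (.leaf 255) (.leaf 255)))) (.node 67779952642 (.node 4457 (.node 67712843778 (.leaf 1) (.leaf 1)) (.node 67712843778 (.leaf 1) (.leaf 1))) (.node 4457 (.node 67847061506 (.leaf 255) (.leaf 255)) (.node 67847061506 (.node 4473 (.leaf 1) (.leaf 1)) (.leaf 255))))) (.node 4409 (.node 68048388098 (.node 4361 (.node 67981279234 (.leaf 255) (.leaf 255)) (.node 67981279234 (.leaf 255) (.leaf 255))) (.node 4361 (.node 68115496962 (.leaf 255) (.leaf 255)) (.node 68115496962 (.leaf 255) (.leaf 255)))) (.node 68048388098 (.node 4457 (.node 67981279234 (.leaf 255) (.leaf 255)) (.node 67981279234 (.leaf 255) (.leaf 255))) (.node 4457 (.node 68115496962 (.leaf 255) (.leaf 255)) (.node 68115496962 (.leaf 255) (.leaf 255))))))) (.node 4313 (.node 68451041282 (.node 4217 (.node 68316823554 (.node 4169 (.node 68249714690 (.node 4137 (.leaf 255) (.node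 68216160258 (.node 4153 (.leaf 255) (.leaf 255)) (.node 4153 (.leaf 255) (.leaf 255)))) (.node 4137 (.leaf 255) (.node 68283269122 (.node 4153 (.leaf 255)
    (.leaf 255)) (.node 4153 (.leaf 255) (.leaf 255))))) (.node 68249714690 (.node 4185 (.leaf 255) (.leaf 255)) (.node 4185 (.leaf 255) (.leaf 255)))) (.node 4169 (.node 68383932418 (.node 4137 (.leaf 255) (.node 68350377986 (.node 4153 (.leaf 255) (.leaf 255)) (.node 4153 (.leaf 255) (.leaf 255)))) (.node 4137 (.leaf 255) (.node 68417486850 (.node 4153 (.leaf 255) (.leaf 255)) (.node 4153 (.leaf 255) (.leaf 255))))) (.node 68383932418 (.node 4185 (.leaf 255) (.leaf 255)) (.node 4185 (.leaf 255) (.leaf 255))))) (.node 68316823554 (.node 4265 (.node 68249714690 (.node 4233 (.leaf 255) (.leaf 255)) (.node 4233 (.leaf 255) (.leaf 255))) (.node 68249714690 (.node 4281 (.leaf 255) (.leaf 255)) (.node 4281 (.leaf 255) (.leaf 255)))) (.node 4265 (.node 68383932418 (.node 4233 (.leaf 255) (.leaf 255)) (.node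 4233 (.leaf 255) (.leaf 255))) (.node 68383932418 (.node 4281 (.leaf 255) (.leaf 255)) (.node 4281 (.leaf 255) (.leaf 255)))))) (.node 4217 (.node 68585259010 (.node 4169 (.node 68518150146 (.node 4137 (.leaf 255) (.node 68484595714 (.node 4153 (.leaf 255) (.leaf 255)) (.node 4153 (.leaf 255) (.leaf 255)))) (.node 4137 (.leaf 255) (.node 68551704578 (.node 4153 (.leaf 255) (.leaf 255)) (.node 4153 (.leaf 255) (.leaf 255))))) (.node 68518150146 (.node 4185 (.leaf 255) (.leaf 255)) (.node 4185 (.leaf 255) (.node 68551704578 (.leaf 255) (.node 4201 (.leaf 255) (.leaf 255)))))) (.node 4169 (.node 68652367874 (.node 4137 (.leaf 255) (.node 68618813442 (.node 4153 (.leaf 255) (.leaf 255)) (.node 4153 (.leaf 255) (.leaf 255)))) (.node 4137 (.leaf 255) (.node 68685922306 (.node 4153 (.leaf 255) (.leaf 255)) (.leaf 255)))) (.node 68652367874 (.node 4185 (.leaf 255) (.node 68618813442 (.node 4201 (.leaf 255) (.leaf 255)) (.node 4201 (.leaf 255) (.leaf 255)))) (.node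 4185 (.leaf 255) (.node 68685922306 (.node 4201 (.leaf 255) (.leaf 255)) (.node 4201 (.leaf 255) (.leaf 255))))))) (.node 68585259010 (.node 4265 (.node 68518150146 (.node 4233 (.leaf 255) (.leaf 255)) (.node 4233
    (.leaf 255) (.leaf 255))) (.node 68518150146 (.node 4281 (.leaf 255) (.leaf 255)) (.node 4281 (.leaf 255) (.leaf 255)))) (.node 4265 (.node 68652367874 (.node 4233 (.leaf 255) (.leaf 255)) (.node 4233 (.leaf 255) (.leaf 255))) (.node 68652367874 (.node 4281 (.leaf 255) (.leaf 255)) (.node 4281 (.leaf 255) (.leaf 255))))))) (.node 68451041282 (.node 4409 (.node 68316823554 (.node 4361 (.node 68249714690 (.leaf 255) (.leaf 255)) (.node 68249714690 (.leaf 255) (.leaf 255))) (.node 4361 (.node 68383932418 (.leaf 255) (.leaf 255)) (.node 68383932418 (.leaf 255) (.leaf 255)))) (.node 68316823554 (.node 4457 (.node 68249714690 (.leaf 255) (.leaf 255)) (.node 68249714690 (.leaf 255) (.leaf 255))) (.node 4457 (.node 68383932418 (.leaf 255) (.leaf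 255)) (.node 68383932418 (.leaf 255) (.leaf 255))))) (.node 4409 (.node 68585259010 (.node 4361 (.node 68518150146 (.leaf 255) (.node 4329 (.leaf 255) (.leaf 255))) (.node 68518150146 (.leaf 255) (.leaf 255))) (.node 4361 (.node 68652367874 (.node 4329 (.leaf 255) (.leaf 255)) (.node 4329 (.leaf 255) (.leaf 255))) (.node 68652367874 (.leaf 255) (.leaf 255)))) (.node 68585259010 (.node 4457 (.node 68518150146 (.leaf 255) (.leaf 255)) (.node 68518150146 (.leaf 255) (.leaf 255))) (.node 4457 (.node 68652367874 (.leaf 255) (.leaf 255)) (.node 68652367874 (.leaf 255) (.leaf 255)))))))) (.node 68182605826 (.node 4713 (.node 67914170370 (.node 4601 (.node 67779952642 (.node 4553 (.node 67712843778 (.leaf 1) (.leaf 1)) (.leaf 255)) (.node 4553 (.leaf 255) (.leaf 255))) (.node 67779952642 (.node 4649 (.leaf 1) (.node 67712843778 (.leaf 1) (.leaf 1))) (.node 4649 (.node 67847061506 (.leaf 255) (.leaf 255)) (.leaf 255)))) (.node 4601 (.node 68048388098 (.node 4553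 (.leaf 255) (.leaf 255)) (.node 4553 (.node 68115496962 (.node 4521 (.leaf 255) (.leaf 255)) (.leaf 255)) (.leaf 255))) (.node 68048388098 (.node 4649 (.leaf 255) (.leaf 255)) (.node 4649 (.leaf 255) (.leaf 255))))) (.node 67914170370 (.node 4825 (.node 67779952642 (.node 4761
    (.leaf 1) (.leaf 1)) (.node 4761 (.leaf 255) (.leaf 255))) (.node 67779952642 (.node 4889 (.leaf 1) (.leaf 1)) (.node 4889 (.node 67847061506 (.leaf 1) (.leaf 255)) (.leaf 255)))) (.node 4825 (.node 68048388098 (.node 4761 (.leaf 255) (.leaf 255)) (.node 4761 (.leaf 255) (.leaf 255))) (.node 68048388098 (.node 4889 (.node 67981279234 (.leaf 255) (.leaf 255)) (.leaf 255)) (.node 4889 (.node 68115496962 (.leaf 255) (.leaf 255)) (.node 68115496962 (.leaf 255) (.leaf 255))))))) (.node 4713 (.node 68451041282 (.node 4601 (.node 68316823554 (.node 4553 (.node 68249714690 (.leaf 255) (.leaf 255)) (.leaf 255)) (.node 4553 (.node 68383932418 (.leaf 255) (.leaf 255)) (.node 68383932418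 (.leaf 255) (.leaf 255)))) (.node 68316823554 (.node 4649 (.leaf 255) (.node 68249714690 (.leaf 255) (.leaf 255))) (.node 4649 (.leaf 255) (.node 68383932418 (.leaf 255) (.leaf 255))))) (.node 4601 (.node 68585259010 (.node 4553 (.node 68518150146 (.leaf 255) (.leaf 255)) (.node 68518150146 (.leaf 255) (.leaf 255))) (.node 4553 (.node 68652367874 (.leaf 255) (.leaf 255)) (.node 68652367874 (.leaf 255) (.leaf 255)))) (.node 68585259010 (.node 4649 (.leaf 255) (.node 68518150146 (.leaf 255) (.leaf 255))) (.node 4649 (.leaf 255) (.node 68652367874 (.leaf 255) (.leaf 255)))))) (.node 68451041282 (.node 4825 (.node 68316823554 (.node 4761 (.leaf 255) (.leaf 255)) (.node 4761 (.leaf 255) (.leaf 255))) (.node 68316823554 (.node 4889 (.leaf 255) (.node 68249714690 (.leaf 255) (.leaf 255))) (.node 4889 (.leaf 255) (.node 68383932418 (.leaf 255) (.leaf 255))))) (.node 4825 (.node 68585259010 (.node 4761 (.leaf 255) (.leaf 255)) (.node 4761 (.leaf 255) (.leaf 255)))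 (.node 68585259010 (.node 4889 (.leaf 255) (.node 68518150146 (.leaf 255) (.leaf 255))) (.node 4889 (.leaf 255) (.leaf 255)))))))))) (.comp 65 878707508304657351360434551122834978055195126606888818594831397028026142524423405647564614225294104738585843379513965947812123235182620836780755942339034218496 (.setw
    57586975264254637939496419268986740594893422992150106235814503510276749393613622307314849794274381208034700847066123658699953597427717443991504322908862488525144831 (.node 67645734914 (.node 5497 (.node 67108864002 (.leaf 3) (.node 5209 (.node 67377299458 (.leaf 3) (.node 5081 (.node 67511517186 (.leaf 255) (.leaf 255)) (.node 67511517186 (.leaf 255) (.leaf 255)))) (.node 67377299458 (.leaf 3) (.node 5353 (.node 67511517186 (.leaf 255) (.leaf 255)) (.leaf 255))))) (.node 67108864002 (.leaf 3) (.node 5817 (.node 67377299458 (.leaf 3) (.node 5657 (.leaf 255) (.leaf 255))) (.node 67377299458 (.leaf 3) (.node 5993 (.leaf 255) (.leaf 255)))))) (.node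 5497 (.node 68182605826 (.node 5209 (.node 67914170370 (.node 5081 (.node 67779952642 (.node 5017 (.leaf 255) (.leaf 3)) (.node 5017 (.node 21406117003265 (.leaf 3) (.leaf 3)) (.leaf 3))) (.node 67779952642 (.node 5145 (.leaf 3) (.leaf 3)) (.node 5145 (.leaf 3) (.leaf 3)))) (.node 5081 (.node 68048388098 (.node 5017 (.node 21406117003265 (.leaf 3) (.leaf 3)) (.leaf 3)) (.node 5017 (.node 68115496962 (.leaf 3) (.leaf 3)) (.node 21680994910209 (.leaf 3) (.leaf 3)))) (.node 68048388098 (.node 5145 (.leaf 3) (.leaf 3)) (.node 5145 (.leaf 3) (.leaf 3))))) (.node 67914170370 (.node 5353 (.node 67779952642 (.node 5273 (.leaf 3) (.leaf 3)) (.node 5273 (.leaf 3) (.leaf 3))) (.node 67779952642 (.leaf 255) (.node 5417 (.leaf 3) (.leaf 3)))) (.node 5353 (.node 68048388098 (.node 5273 (.leaf 3) (.leaf 3)) (.node 5273 (.leaf 3) (.leaf 3))) (.node 68048388098 (.node 5417 (.leaf 3) (.leaf 3)) (.node 5417 (.leaf 3) (.leaf 3)))))) (.node 5209 (.node 68451041282 (.node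 5081 (.node 68316823554 (.node 5017 (.node 68249714690 (.leaf 3) (.leaf 3)) (.node 21680994910209 (.leaf 3) (.leaf 3))) (.node 5017 (.node 68383932418 (.leaf 3) (.leaf 3)) (.node 21680994910209 (.leaf 3) (.leaf 3)))) (.node 68316823554 (.node 5145 (.leaf 3) (.leaf 3)) (.node 5145 (.leaf 3) (.leaf 3)))) (.node 5081 (.node 68585259010 (.node 5017 (.node 68518150146 (.leaf 3)
    (.leaf 3)) (.node 68518150146 (.leaf 3) (.leaf 3))) (.node 5017 (.node 68652367874 (.leaf 3) (.leaf 3)) (.node 68652367874 (.leaf 3) (.leaf 3)))) (.node 68585259010 (.node 5145 (.leaf 3) (.leaf 3)) (.node 5145 (.node 21955872817153 (.leaf 3) (.leaf 3)) (.leaf 3))))) (.node 68451041282 (.node 5353 (.node 68316823554 (.node 5273 (.leaf 3) (.leaf 3)) (.node 5273 (.leaf 3) (.leaf 3))) (.node 68316823554 (.node 5417 (.leaf 3) (.leaf 3)) (.node 5417 (.leaf 3) (.leaf 3)))) (.node 5353 (.node 68585259010 (.node 5273 (.leaf 3) (.leaf 3)) (.node 5273 (.leaf 3) (.leaf 3))) (.node 68585259010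 (.node 5417 (.leaf 3) (.leaf 3)) (.node 5417 (.leaf 3) (.leaf 3))))))) (.setw 57586975264254024178757438742386113121825267817309065615430870435628721276480612312518794557868874448147974385923298045717342979919774654492095826148019874612380414 (.node 68182605826 (.node 5817 (.node 67914170370 (.node 5657 (.node 67779952642 (.leaf 255) (.node 5577 (.leaf 3) (.leaf 3))) (.node 67779952642 (.leaf 255) (.node 5737 (.leaf 3) (.leaf 3)))) (.node 5657 (.node 68048388098 (.node 5577 (.leaf 3) (.leaf 3)) (.node 5577 (.leaf 3) (.leaf 3))) (.node 68048388098 (.node 5737 (.leaf 3) (.leaf 3)) (.node 5737 (.leaf 3) (.leaf 3))))) (.node 67914170370 (.node 5993 (.node 67779952642 (.leaf 255) (.leaf 254)) (.node 67779952642 (.leaf 254) (.leaf 254))) (.node 5993 (.node 68048388098 (.node 5897 (.leaf 3) (.leaf 3)) (.node 5897 (.leaf 3) (.leaf 3))) (.node 68048388098 (.leaf 254) (.leaf 254))))) (.node 5817 (.node 68451041282 (.node 5657 (.node 68316823554 (.node 5577 (.leaf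 3) (.leaf 3)) (.node 5577 (.leaf 3) (.leaf 3))) (.node 68316823554 (.node 5737 (.leaf 3) (.leaf 3)) (.node 5737 (.leaf 3) (.leaf 3)))) (.node 5657 (.node 68585259010 (.node 5577 (.leaf 3) (.leaf 3)) (.node 5577 (.leaf 3) (.leaf 3))) (.node 68585259010 (.node 5737 (.leaf 3) (.leaf 3)) (.node 5737 (.leaf 3) (.leaf 3))))) (.node 68451041282 (.node 5993 (.node 68316823554 (.node 5897 (.leaf 3) (.leaf 3)) (.node 5897 (.leaf 3) (.leaf 3)))
    (.node 68316823554 (.leaf 254) (.leaf 254))) (.node 5993 (.node 68585259010 (.node 5897 (.leaf 3) (.leaf 3)) (.node 5897 (.leaf 3) (.leaf 3))) (.node 68585259010 (.leaf 254) (.leaf 254))))))))))))))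
    ⟨25769803776, 25769803776, 1108101562368, 1657857376256, 4026531840, 4294967296, 4294967296, 4294967296, 4294967296, 4294967296, 0⟩ = true := by decide +kernel

theorem bk6_9 : Tr.run2 ce0 pBK
    (.comp 1 878707508304657351360434551122834978055195126606888818594831397028026142524423405647564614225294104738586034941456574183919418028561014625428708284729307168768 (.node 64424509442 (.leaf 1) (.node 12393 (.node 66571993090 (.leaf 1) (.node 8265 (.node 67645734914 (.node 7081 (.node 67108864002 (.leaf 1) (.node 6601 (.node 67377299458 (.leaf 1) (.leaf 1)) (.leaf 1))) (.leaf 1)) (.node 7081 (.node 68182605826 (.node 6601 (.node 67914170370 (.node 6393 (.leaf 1) (.leaf 1)) (.node 6393 (.node 68048388098 (.leaf 1) (.leaf 1)) (.leaf 1))) (.node 67914170370 (.leaf 1) (.leaf 1))) (.node 6601 (.node 68451041282 (.node 6393 (.node 68316823554 (.leaf 1) (.leaf 1)) (.leaf 1)) (.node 6393 (.node 68585259010 (.leaf 1) (.leaf 1)) (.leaf 1))) (.node 68451041282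 (.leaf 1) (.node 6841 (.leaf 1) (.leaf 1))))) (.node 68182605826 (.node 7625 (.node 67914170370 (.leaf 1) (.leaf 1)) (.leaf 1)) (.node 7625 (.node 68451041282 (.leaf 1) (.leaf 1)) (.leaf 1))))) (.node 67645734914 (.leaf 1) (.node 9913 (.node 68182605826 (.leaf 1) (.node 9017 (.leaf 1) (.leaf 1))) (.node 68182605826 (.leaf 1) (.leaf 1)))))) (.node 66571993090 (.leaf 1) (.node 24809 (.node 67645734914 (.leaf 1) (.node 16537 (.leaf 1) (.leaf 1))) (.node 67645734914 (.leaf 1) (.node 49641 (.leaf 1) (.leaf 1))))))))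
    ⟨25769803776, 25769803776, 1662152343552, 0, 3758096384, 4294967296, 4294967296, 4294967296, 4294967296, 4294967296, 0⟩ = true := by decide +kernel

theorem bk6_10 : Tr.run2 ce0 pBK
    (.comp 15 878707508304657351360434551122834978055195126606888818594831397028026142524423405647564614225294104738585843379513965947812123235182620836780755942339034218496 (.node 69793218562 (.node 3289 (.node 69256347650 (.node 3177 (.node 68987912194 (.node 3129 (.node 68853694466 (.node 3097 (.leaf 1) (.node 68786585602 (.node 3113 (.leaf 1) (.leaf 1)) (.node 3113 (.leaf 1) (.leaf 1)))) (.node 3097 (.leaf 1) (.node 68920803330 (.node 3113 (.leaf 1) (.leaf 1)) (.node 3113 (.leaf 1) (.leaf 1))))) (.node 68853694466 (.node 3145 (.leaf 1) (.node 68786585602 (.node 3161 (.leaf 1) (.leaf 1)) (.node 3161 (.leaf 1) (.leaf 1)))) (.node 3145 (.leaf 1) (.node 68920803330 (.node 3161 (.leaf 1) (.leaf 1)) (.node 3161 (.leaf 1) (.leaf 1)))))) (.node 3129 (.node 69122129922 (.node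 3097 (.leaf 1) (.node 69055021058 (.node 3113 (.leaf 1) (.leaf 1)) (.node 3113 (.leaf 1) (.leaf 1)))) (.node 3097 (.leaf 1) (.node 69189238786 (.node 3113 (.leaf 1) (.leaf 1)) (.node 3113 (.leaf 1) (.leaf 1))))) (.node 69122129922 (.node 3145 (.leaf 1) (.node 69055021058 (.node 3161 (.leaf 1) (.leaf 1)) (.node 3161 (.leaf 1) (.leaf 1)))) (.node 3145 (.leaf 1) (.node 69189238786 (.node 3161 (.leaf 1) (.leaf 1)) (.node 3161 (.leaf 1) (.leaf 1))))))) (.node 68987912194 (.node 3225 (.node 68853694466 (.node 3193 (.leaf 1) (.node 68786585602 (.node 3209 (.leaf 1) (.leaf 1)) (.node 3209 (.leaf 1) (.leaf 1)))) (.node 3193 (.leaf 1) (.node 68920803330 (.node 3209 (.leaf 1) (.leaf 1)) (.node 3209 (.leaf 1) (.leaf 1))))) (.node 68853694466 (.node 3257 (.node 68786585602 (.node 3241 (.leaf 1) (.leaf 1)) (.node 3241 (.leaf 1) (.leaf 1))) (.node 68786585602 (.node 3273 (.leaf 1) (.leaf 1)) (.node 3273 (.leaf 1) (.leaf 1)))) (.node 3257 (.node 68920803330 (.node 3241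 (.leaf 1) (.leaf 1)) (.node 3241 (.leaf 1) (.leaf 1))) (.node 68920803330 (.node 3273 (.leaf 1) (.leaf 1)) (.node 3273 (.leaf 1) (.leaf 1)))))) (.node 3225 (.node 69122129922 (.node 3193 (.leaf 1) (.node 69055021058 (.node 3209 (.leaf 1) (.leaf 1))
    (.node 3209 (.leaf 1) (.leaf 1)))) (.node 3193 (.leaf 1) (.node 69189238786 (.node 3209 (.leaf 1) (.leaf 1)) (.node 3209 (.leaf 1) (.leaf 1))))) (.node 69122129922 (.node 3257 (.node 69055021058 (.node 3241 (.leaf 1) (.leaf 1)) (.node 3241 (.leaf 1) (.leaf 1))) (.node 69055021058 (.node 3273 (.leaf 1) (.leaf 1)) (.node 3273 (.leaf 1) (.leaf 1)))) (.node 3257 (.node 69189238786 (.node 3241 (.leaf 1) (.leaf 1)) (.node 3241 (.leaf 1) (.leaf 1))) (.node 69189238786 (.node 3273 (.leaf 1) (.leaf 1)) (.node 3273 (.leaf 1) (.leaf 1)))))))) (.node 3177 (.node 69524783106 (.node 3129 (.node 69390565378 (.node 3097 (.leaf 1) (.node 69323456514 (.node 3113 (.leaf 1) (.leaf 1)) (.node 3113 (.leaf 1) (.leaf 1)))) (.node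 3097 (.leaf 1) (.node 69457674242 (.node 3113 (.leaf 1) (.leaf 1)) (.node 3113 (.leaf 1) (.leaf 1))))) (.node 69390565378 (.node 3145 (.leaf 1) (.node 69323456514 (.node 3161 (.leaf 1) (.leaf 1)) (.node 3161 (.leaf 1) (.leaf 1)))) (.node 3145 (.leaf 1) (.node 69457674242 (.node 3161 (.leaf 1) (.leaf 1)) (.node 3161 (.leaf 1) (.leaf 1)))))) (.node 3129 (.node 69659000834 (.node 3097 (.leaf 1) (.node 69591891970 (.node 3113 (.leaf 1) (.leaf 1)) (.node 3113 (.leaf 1) (.leaf 1)))) (.node 3097 (.leaf 1) (.node 69726109698 (.node 3113 (.leaf 1) (.leaf 1)) (.node 3113 (.leaf 1) (.leaf 1))))) (.node 69659000834 (.node 3145 (.leaf 1) (.node 69591891970 (.node 3161 (.leaf 1) (.leaf 1)) (.node 3161 (.leaf 1) (.leaf 1)))) (.node 3145 (.leaf 1) (.node 69726109698 (.node 3161 (.leaf 1) (.leaf 1)) (.node 3161 (.leaf 1) (.leaf 1))))))) (.node 69524783106 (.node 3225 (.node 69390565378 (.node 3193 (.leaf 1) (.node 69323456514 (.node 3209 (.leaf 1) (.leaf 1)) (.node 3209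 (.leaf 1) (.leaf 1)))) (.node 3193 (.leaf 1) (.node 69457674242 (.node 3209 (.leaf 1) (.leaf 1)) (.node 3209 (.leaf 1) (.leaf 1))))) (.node 69390565378 (.node 3257 (.node 69323456514 (.node 3241 (.leaf 1) (.leaf 1)) (.node 3241 (.leaf 1) (.leaf 1))) (.node 69323456514 (.node 3273 (.leaf 1) (.leaf 1)) (.node
    3273 (.leaf 1) (.leaf 1)))) (.node 3257 (.node 69457674242 (.node 3241 (.leaf 1) (.leaf 1)) (.node 3241 (.leaf 1) (.leaf 1))) (.node 69457674242 (.node 3273 (.leaf 1) (.leaf 1)) (.node 3273 (.leaf 1) (.leaf 1)))))) (.node 3225 (.node 69659000834 (.node 3193 (.leaf 1) (.node 69591891970 (.node 3209 (.leaf 1) (.leaf 1)) (.node 3209 (.leaf 1) (.leaf 1)))) (.node 3193 (.leaf 1) (.node 69726109698 (.node 3209 (.leaf 1) (.leaf 1)) (.node 3209 (.leaf 1) (.leaf 1))))) (.node 69659000834 (.node 3257 (.node 69591891970 (.node 3241 (.leaf 1) (.leaf 1)) (.node 3241 (.leaf 1) (.leaf 1))) (.node 69591891970 (.node 3273 (.leaf 1) (.leaf 1)) (.node 3273 (.leaf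 1) (.leaf 1)))) (.node 3257 (.node 69726109698 (.node 3241 (.leaf 1) (.leaf 1)) (.node 3241 (.leaf 1) (.leaf 1))) (.node 69726109698 (.node 3273 (.leaf 1) (.leaf 1)) (.node 3273 (.leaf 1) (.leaf 1))))))))) (.node 69256347650 (.node 3401 (.node 68987912194 (.node 3337 (.node 68853694466 (.node 3305 (.leaf 1) (.node 68786585602 (.node 3321 (.leaf 1) (.leaf 1)) (.node 3321 (.leaf 1) (.leaf 1)))) (.node 3305 (.leaf 1) (.node 68920803330 (.node 3321 (.leaf 1) (.leaf 1)) (.node 3321 (.leaf 1) (.leaf 1))))) (.node 68853694466 (.node 3369 (.node 68786585602 (.node 68753031170 (.node 3353 (.leaf 1) (.leaf 1)) (.node 3353 (.leaf 1) (.leaf 1))) (.node 68820140034 (.node 3353 (.leaf 1) (.leaf 1)) (.node 3353 (.leaf 1) (.leaf 1)))) (.node 68786585602 (.node 68753031170 (.node 3385 (.leaf 1) (.leaf 1)) (.node 3385 (.leaf 1) (.leaf 1))) (.node 68820140034 (.node 3385 (.leaf 1) (.leaf 1)) (.node 3385 (.leaf 1) (.leaf 1))))) (.node 3369 (.node 68920803330 (.node 68887248898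 (.node 3353 (.leaf 1) (.leaf 1)) (.node 3353 (.leaf 1) (.leaf 1))) (.node 68954357762 (.node 3353 (.leaf 1) (.leaf 1)) (.node 3353 (.leaf 1) (.leaf 1)))) (.node 68920803330 (.node 68887248898 (.node 3385 (.leaf 1) (.leaf 1)) (.node 3385 (.leaf 1) (.leaf 1))) (.node 68954357762 (.node 3385 (.leaf 1) (.leaf 1)) (.node 3385 (.leaf 1) (.leaf 1))))))) (.node 3337 (.node
    69122129922 (.node 3305 (.leaf 1) (.node 69055021058 (.node 3321 (.leaf 1) (.leaf 1)) (.node 3321 (.leaf 1) (.leaf 1)))) (.node 3305 (.leaf 1) (.node 69189238786 (.node 3321 (.leaf 1) (.leaf 1)) (.node 3321 (.leaf 1) (.leaf 1))))) (.node 69122129922 (.node 3369 (.node 69055021058 (.node 69021466626 (.node 3353 (.leaf 1) (.leaf 1)) (.node 3353 (.leaf 1) (.leaf 1))) (.node 69088575490 (.node 3353 (.leaf 1) (.leaf 1)) (.node 3353 (.leaf 1) (.leaf 1)))) (.node 69055021058 (.node 69021466626 (.node 3385 (.leaf 1) (.leaf 1)) (.node 3385 (.leaf 1) (.leaf 1))) (.node 69088575490 (.node 3385 (.leaf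 1) (.leaf 1)) (.node 3385 (.leaf 1) (.leaf 1))))) (.node 3369 (.node 69189238786 (.node 69155684354 (.node 3353 (.leaf 1) (.leaf 1)) (.node 3353 (.leaf 1) (.leaf 1))) (.node 69222793218 (.node 3353 (.leaf 1) (.leaf 1)) (.node 3353 (.leaf 1) (.leaf 1)))) (.node 69189238786 (.node 69155684354 (.node 3385 (.leaf 1) (.leaf 1)) (.node 3385 (.leaf 1) (.leaf 1))) (.node 69222793218 (.node 3385 (.leaf 1) (.leaf 1)) (.node 3385 (.leaf 1) (.leaf 1)))))))) (.node 68987912194 (.node 3465 (.node 68853694466 (.node 3433 (.node 68786585602 (.node 68753031170 (.node 3417 (.leaf 1) (.leaf 1)) (.node 3417 (.leaf 1) (.leaf 1))) (.node 68820140034 (.node 3417 (.leaf 1) (.leaf 1)) (.node 3417 (.leaf 1) (.leaf 1)))) (.node 68786585602 (.node 68753031170 (.node 3449 (.leaf 1) (.leaf 1)) (.node 3449 (.leaf 1) (.leaf 1))) (.node 68820140034 (.node 3449 (.leaf 1) (.leaf 1)) (.node 3449 (.leaf 1) (.leaf 1))))) (.node 3433 (.node 68920803330 (.node 68887248898 (.node 3417 (.leaf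 1) (.leaf 1)) (.node 3417 (.leaf 1) (.leaf 1))) (.node 68954357762 (.node 3417 (.leaf 1) (.leaf 1)) (.node 3417 (.leaf 1) (.leaf 1)))) (.node 68920803330 (.node 68887248898 (.node 3449 (.leaf 1) (.leaf 1)) (.node 3449 (.leaf 1) (.leaf 1))) (.node 68954357762 (.node 3449 (.leaf 1) (.leaf 1)) (.node 3449 (.leaf 1) (.leaf 1)))))) (.node 68853694466 (.node 3497 (.node 68786585602 (.node 68753031170 (.node 3481 (.leaf 1) (.leaf 1))
    (.node 3481 (.leaf 1) (.leaf 1))) (.node 68820140034 (.node 3481 (.leaf 1) (.leaf 1)) (.node 3481 (.leaf 1) (.leaf 1)))) (.node 68786585602 (.node 68753031170 (.node 3513 (.leaf 1) (.leaf 1)) (.node 3513 (.leaf 1) (.leaf 1))) (.node 68820140034 (.node 3513 (.leaf 1) (.leaf 1)) (.node 3513 (.leaf 1) (.leaf 1))))) (.node 3497 (.node 68920803330 (.node 68887248898 (.node 3481 (.leaf 1) (.leaf 1)) (.node 3481 (.leaf 1) (.leaf 1))) (.node 68954357762 (.node 3481 (.leaf 1) (.leaf 1)) (.node 3481 (.leaf 1) (.leaf 1)))) (.node 68920803330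 (.node 68887248898 (.node 3513 (.leaf 1) (.leaf 1)) (.node 3513 (.leaf 1) (.leaf 1))) (.node 68954357762 (.node 3513 (.leaf 1) (.leaf 1)) (.node 3513 (.leaf 1) (.leaf 1))))))) (.node 3465 (.node 69122129922 (.node 3433 (.node 69055021058 (.node 69021466626 (.node 3417 (.leaf 1) (.leaf 1)) (.node 3417 (.leaf 1) (.leaf 1))) (.node 69088575490 (.node 3417 (.leaf 1) (.leaf 1)) (.node 3417 (.leaf 1) (.leaf 1)))) (.node 69055021058 (.node 69021466626 (.node 3449 (.leaf 1) (.leaf 1)) (.node 3449 (.leaf 1) (.leaf 1))) (.node 69088575490 (.node 3449 (.leaf 1) (.leaf 1)) (.node 3449 (.leaf 1) (.leaf 1))))) (.node 3433 (.node 69189238786 (.node 69155684354 (.node 3417 (.leaf 1) (.leaf 1)) (.node 3417 (.leaf 1) (.leaf 1))) (.node 69222793218 (.node 3417 (.leaf 1) (.leaf 1)) (.node 3417 (.leaf 1) (.leaf 1)))) (.node 69189238786 (.node 69155684354 (.node 3449 (.leaf 1) (.leaf 1)) (.node 3449 (.leaf 1) (.leaf 1))) (.node 69222793218 (.node 3449 (.leaf 1) (.leaf 1))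 (.node 3449 (.leaf 1) (.leaf 1)))))) (.node 69122129922 (.node 3497 (.node 69055021058 (.node 69021466626 (.node 3481 (.leaf 1) (.leaf 1)) (.node 3481 (.leaf 1) (.leaf 1))) (.node 69088575490 (.node 3481 (.leaf 1) (.leaf 1)) (.node 3481 (.leaf 1) (.leaf 1)))) (.node 69055021058 (.node 69021466626 (.node 3513 (.leaf 1) (.leaf 1)) (.node 3513 (.leaf 1) (.leaf 1))) (.node 69088575490 (.node 3513 (.leaf 1) (.leaf 1)) (.node 3513 (.leaf 1) (.leaf 1))))) (.node 3497 (.node 69189238786 (.node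
    69155684354 (.node 3481 (.leaf 1) (.leaf 1)) (.node 3481 (.leaf 1) (.leaf 1))) (.node 69222793218 (.node 3481 (.leaf 1) (.leaf 1)) (.node 3481 (.leaf 1) (.leaf 1)))) (.node 69189238786 (.node 69155684354 (.node 3513 (.leaf 1) (.leaf 1)) (.node 3513 (.leaf 1) (.leaf 1))) (.node 69222793218 (.node 3513 (.leaf 1) (.leaf 1)) (.node 3513 (.leaf 1) (.leaf 1))))))))) (.node 3401 (.node 69524783106 (.node 3337 (.node 69390565378 (.node 3305 (.leaf 1) (.node 69323456514 (.node 3321 (.leaf 1) (.leaf 1)) (.node 3321 (.leaf 1) (.leaf 1)))) (.node 3305 (.leaf 1) (.node 69457674242 (.node 3321 (.leaf 1) (.leaf 1)) (.node 3321 (.leaf 1) (.leaf 1))))) (.node 69390565378 (.node 3369 (.node 69323456514 (.node 3353 (.leaf 1) (.leaf 1)) (.node 3353 (.leaf 1) (.leaf 1))) (.node 69323456514 (.node 69289902082 (.node 3385 (.leaf 1) (.leaf 1)) (.node 3385 (.leaf 1) (.leaf 1))) (.node 69357010946 (.node 3385 (.leaf 1) (.leaf 1)) (.node 3385 (.leaf 1) (.leaf 1))))) (.node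 3369 (.node 69457674242 (.node 3353 (.leaf 1) (.leaf 1)) (.node 3353 (.leaf 1) (.leaf 1))) (.node 69457674242 (.node 69424119810 (.node 3385 (.leaf 1) (.leaf 1)) (.node 3385 (.leaf 1) (.leaf 1))) (.node 69491228674 (.node 3385 (.leaf 1) (.leaf 1)) (.node 3385 (.leaf 1) (.leaf 1))))))) (.node 3337 (.node 69659000834 (.node 3305 (.leaf 1) (.node 69591891970 (.node 3321 (.leaf 1) (.leaf 1)) (.node 3321 (.leaf 1) (.leaf 1)))) (.node 3305 (.leaf 1) (.node 69726109698 (.node 3321 (.leaf 1) (.leaf 1)) (.node 3321 (.leaf 1) (.leaf 1))))) (.node 69659000834 (.node 3369 (.node 69591891970 (.node 3353 (.leaf 1) (.leaf 1)) (.node 3353 (.leaf 1) (.leaf 1))) (.node 69591891970 (.node 69558337538 (.node 3385 (.leaf 1) (.leaf 1)) (.node 3385 (.leaf 1) (.leaf 1))) (.node 69625446402 (.node 3385 (.leaf 1) (.leaf 1)) (.node 3385 (.leaf 1) (.leaf 1))))) (.node 3369 (.node 69726109698 (.node 3353 (.leaf 1) (.leaf 1)) (.node 3353 (.leaf 1) (.leaf 1))) (.node 69726109698 (.node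 69692555266 (.node 3385 (.leaf 1) (.leaf 1)) (.node 3385 (.leaf
    1) (.leaf 1))) (.node 69759664130 (.node 3385 (.leaf 1) (.leaf 1)) (.node 3385 (.leaf 1) (.leaf 1)))))))) (.node 69524783106 (.node 3465 (.node 69390565378 (.node 3433 (.node 69323456514 (.node 69289902082 (.node 3417 (.leaf 1) (.leaf 1)) (.node 3417 (.leaf 1) (.leaf 1))) (.node 69357010946 (.node 3417 (.leaf 1) (.leaf 1)) (.node 3417 (.leaf 1) (.leaf 1)))) (.node 69323456514 (.node 69289902082 (.node 3449 (.leaf 1) (.leaf 1)) (.node 3449 (.leaf 1) (.leaf 1))) (.node 69357010946 (.node 3449 (.leaf 1) (.leaf 1)) (.node 3449 (.leaf 1) (.leaf 1))))) (.node 3433 (.node 69457674242 (.node 69424119810 (.node 3417 (.leaf 1) (.leaf 1)) (.node 3417 (.leaf 1) (.leaf 1))) (.node 69491228674 (.node 3417 (.leaf 1) (.leaf 1)) (.node 3417 (.leaf 1) (.leaf 1)))) (.node 69457674242 (.node 69424119810 (.node 3449 (.leaf 1) (.leaf 1)) (.node 3449 (.leaf 1) (.leaf 1))) (.node 69491228674 (.node 3449 (.leaf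 1) (.leaf 1)) (.node 3449 (.leaf 1) (.leaf 1)))))) (.node 69390565378 (.node 3497 (.node 69323456514 (.node 69289902082 (.node 3481 (.leaf 1) (.leaf 1)) (.node 3481 (.leaf 1) (.leaf 1))) (.node 69357010946 (.node 3481 (.leaf 1) (.leaf 1)) (.node 3481 (.leaf 1) (.leaf 1)))) (.node 69323456514 (.node 69289902082 (.node 3513 (.leaf 1) (.leaf 1)) (.node 3513 (.leaf 1) (.leaf 1))) (.node 69357010946 (.node 3513 (.leaf 1) (.leaf 1)) (.node 3513 (.leaf 1) (.leaf 1))))) (.node 3497 (.node 69457674242 (.node 69424119810 (.node 3481 (.leaf 1) (.leaf 1)) (.node 3481 (.leaf 1) (.leaf 1))) (.node 69491228674 (.node 3481 (.leaf 1) (.leaf 1)) (.node 3481 (.leaf 1) (.leaf 1)))) (.node 69457674242 (.node 69424119810 (.node 3513 (.leaf 1) (.leaf 1)) (.node 3513 (.leaf 1) (.leaf 1))) (.node 69491228674 (.node 3513 (.leaf 1) (.leaf 1)) (.node 3513 (.leaf 1) (.leaf 1))))))) (.node 3465 (.node 69659000834 (.node 3433 (.node 69591891970 (.node 69558337538 (.node 3417 (.leaf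 1) (.leaf 1)) (.node 3417 (.leaf 1) (.leaf 1))) (.node 69625446402 (.node 3417 (.leaf 1) (.leaf 1)) (.node 3417 (.leaf 1) (.leaf
    1)))) (.node 69591891970 (.node 69558337538 (.node 3449 (.leaf 1) (.leaf 1)) (.node 3449 (.leaf 1) (.leaf 1))) (.node 69625446402 (.node 3449 (.leaf 1) (.leaf 1)) (.node 3449 (.leaf 1) (.leaf 1))))) (.node 3433 (.node 69726109698 (.node 69692555266 (.node 3417 (.leaf 1) (.leaf 1)) (.node 3417 (.leaf 1) (.leaf 1))) (.node 69759664130 (.node 3417 (.leaf 1) (.leaf 1)) (.node 3417 (.leaf 1) (.leaf 1)))) (.node 69726109698 (.node 69692555266 (.node 3449 (.leaf 1) (.leaf 1)) (.node 3449 (.leaf 1) (.leaf 1))) (.node 69759664130 (.node 3449 (.leaf 1) (.leaf 1)) (.node 3449 (.leaf 1) (.leaf 1)))))) (.node 69659000834 (.node 3497 (.node 69591891970 (.node 69558337538 (.node 3481 (.leaf 1) (.leaf 1)) (.node 3481 (.leaf 1) (.leaf 1))) (.node 69625446402 (.node 3481 (.leaf 1) (.leaf 1)) (.node 3481 (.leaf 1) (.leaf 1)))) (.node 69591891970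 (.node 69558337538 (.node 3513 (.leaf 1) (.leaf 1)) (.node 3513 (.leaf 1) (.leaf 1))) (.node 69625446402 (.node 3513 (.leaf 1) (.leaf 1)) (.node 3513 (.leaf 1) (.leaf 1))))) (.node 3497 (.node 69726109698 (.node 69692555266 (.node 3481 (.leaf 1) (.leaf 1)) (.node 3481 (.leaf 1) (.leaf 1))) (.node 69759664130 (.node 3481 (.leaf 1) (.leaf 1)) (.node 3481 (.leaf 1) (.leaf 1)))) (.node 69726109698 (.node 69692555266 (.node 3513 (.leaf 1) (.leaf 1)) (.node 3513 (.leaf 1) (.leaf 1))) (.node 69759664130 (.node 3513 (.leaf 1) (.leaf 1)) (.node 3513 (.leaf 1) (.leaf 1))))))))))) (.node 3289 (.node 70330089474 (.node 3177 (.node 70061654018 (.node 3129 (.node 69927436290 (.node 3097 (.leaf 1) (.node 69860327426 (.node 3113 (.leaf 1) (.leaf 1)) (.node 3113 (.leaf 1) (.leaf 1)))) (.node 3097 (.leaf 1) (.node 69994545154 (.node 3113 (.leaf 1) (.leaf 1)) (.node 3113 (.leaf 1) (.leaf 1))))) (.node 69927436290 (.node 3145 (.leaf 1) (.node 69860327426 (.node 3161 (.leaf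 1) (.leaf 1)) (.node 3161 (.leaf 1) (.leaf 1)))) (.node 3145 (.leaf 1) (.node 69994545154 (.node 3161 (.leaf 1) (.leaf 1)) (.node 3161 (.leaf 1) (.leaf 1)))))) (.node 3129 (.node
    70195871746 (.node 3097 (.leaf 1) (.node 70128762882 (.node 3113 (.leaf 1) (.leaf 1)) (.node 3113 (.leaf 1) (.leaf 1)))) (.node 3097 (.leaf 1) (.node 70262980610 (.node 3113 (.leaf 1) (.leaf 1)) (.node 3113 (.leaf 1) (.leaf 1))))) (.node 70195871746 (.node 3145 (.leaf 1) (.node 70128762882 (.node 3161 (.leaf 1) (.leaf 1)) (.node 3161 (.leaf 1) (.leaf 1)))) (.node 3145 (.leaf 1) (.node 70262980610 (.node 3161 (.leaf 1) (.leaf 1)) (.node 3161 (.leaf 1) (.leaf 1))))))) (.node 70061654018 (.node 3225 (.node 69927436290 (.node 3193 (.leaf 1) (.node 69860327426 (.node 3209 (.leaf 1) (.leaf 1)) (.node 3209 (.leaf 1) (.leaf 1)))) (.node 3193 (.leaf 1) (.node 69994545154 (.node 3209 (.leaf 1) (.leaf 1)) (.node 3209 (.leaf 1) (.leaf 1))))) (.node 69927436290 (.node 3257 (.node 69860327426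 (.node 3241 (.leaf 1) (.leaf 1)) (.node 3241 (.leaf 1) (.leaf 1))) (.node 69860327426 (.node 3273 (.leaf 1) (.leaf 1)) (.node 3273 (.leaf 1) (.leaf 1)))) (.node 3257 (.node 69994545154 (.node 3241 (.leaf 1) (.leaf 1)) (.node 3241 (.leaf 1) (.leaf 1))) (.node 69994545154 (.node 3273 (.leaf 1) (.leaf 1)) (.node 3273 (.leaf 1) (.leaf 1)))))) (.node 3225 (.node 70195871746 (.node 3193 (.leaf 1) (.node 70128762882 (.node 3209 (.leaf 1) (.leaf 1)) (.node 3209 (.leaf 1) (.leaf 1)))) (.node 3193 (.leaf 1) (.node 70262980610 (.node 3209 (.leaf 1) (.leaf 1)) (.node 3209 (.leaf 1) (.leaf 1))))) (.node 70195871746 (.node 3257 (.node 70128762882 (.node 3241 (.leaf 1) (.leaf 1)) (.node 3241 (.leaf 1) (.leaf 1))) (.node 70128762882 (.node 3273 (.leaf 1) (.leaf 1)) (.node 3273 (.leaf 1) (.leaf 1)))) (.node 3257 (.node 70262980610 (.node 3241 (.leaf 1) (.leaf 1)) (.node 3241 (.leaf 1) (.leaf 1))) (.node 70262980610 (.node 3273 (.leaf 1) (.leaf 1)) (.node 3273 (.leaf 1)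 (.leaf 1)))))))) (.node 3177 (.node 70598524930 (.node 3129 (.node 70464307202 (.node 3097 (.leaf 1) (.node 70397198338 (.node 3113 (.leaf 1) (.leaf 1)) (.node 3113 (.leaf 1) (.leaf 1)))) (.node 3097 (.leaf 1) (.node 70531416066 (.node
    3113 (.leaf 1) (.leaf 1)) (.node 3113 (.leaf 1) (.leaf 1))))) (.node 70464307202 (.node 3145 (.leaf 1) (.node 70397198338 (.node 3161 (.leaf 1) (.leaf 1)) (.node 3161 (.leaf 1) (.leaf 1)))) (.node 3145 (.leaf 1) (.node 70531416066 (.node 3161 (.leaf 1) (.leaf 1)) (.node 3161 (.leaf 1) (.leaf 1)))))) (.node 3129 (.node 70732742658 (.node 3097 (.leaf 1) (.node 70665633794 (.node 3113 (.leaf 1) (.leaf 1)) (.node 3113 (.leaf 1) (.leaf 1)))) (.node 3097 (.leaf 1) (.node 70799851522 (.node 3113 (.leaf 1) (.leaf 1)) (.node 3113 (.leaf 1) (.leaf 1))))) (.node 70732742658 (.node 3145 (.leaf 1) (.node 70665633794 (.node 3161 (.leaf 1) (.leaf 1)) (.node 3161 (.leaf 1) (.leaf 1)))) (.node 3145 (.leaf 1) (.node 70799851522 (.node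 3161 (.leaf 1) (.leaf 1)) (.node 3161 (.leaf 1) (.leaf 1))))))) (.node 70598524930 (.node 3225 (.node 70464307202 (.node 3193 (.leaf 1) (.node 70397198338 (.node 3209 (.leaf 1) (.leaf 1)) (.node 3209 (.leaf 1) (.leaf 1)))) (.node 3193 (.leaf 1) (.node 70531416066 (.node 3209 (.leaf 1) (.leaf 1)) (.node 3209 (.leaf 1) (.leaf 1))))) (.node 70464307202 (.node 3257 (.node 70397198338 (.node 3241 (.leaf 1) (.leaf 1)) (.node 3241 (.leaf 1) (.leaf 1))) (.node 70397198338 (.node 3273 (.leaf 1) (.leaf 1)) (.node 3273 (.leaf 1) (.leaf 1)))) (.node 3257 (.node 70531416066 (.node 3241 (.leaf 1) (.leaf 1)) (.node 3241 (.leaf 1) (.leaf 1))) (.node 70531416066 (.node 3273 (.leaf 1) (.leaf 1)) (.node 3273 (.leaf 1) (.leaf 1)))))) (.node 3225 (.node 70732742658 (.node 3193 (.leaf 1) (.node 70665633794 (.node 3209 (.leaf 1) (.leaf 1)) (.node 3209 (.leaf 1) (.leaf 1)))) (.node 3193 (.leaf 1) (.node 70799851522 (.node 3209 (.leaf 1) (.leaf 1)) (.node 3209 (.leaf 1) (.leaf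 1))))) (.node 70732742658 (.node 3257 (.node 70665633794 (.node 3241 (.leaf 1) (.leaf 1)) (.node 3241 (.leaf 1) (.leaf 1))) (.node 70665633794 (.node 3273 (.leaf 1) (.leaf 1)) (.node 3273 (.leaf 1) (.leaf 1)))) (.node 3257 (.node 70799851522 (.node 3241 (.leaf 1) (.leaf 1)) (.node 3241 (.leaf 1)
    (.leaf 1))) (.node 70799851522 (.node 3273 (.leaf 1) (.leaf 1)) (.node 3273 (.leaf 1) (.leaf 1))))))))) (.node 70330089474 (.node 3401 (.node 70061654018 (.node 3337 (.node 69927436290 (.node 3305 (.leaf 1) (.node 69860327426 (.node 3321 (.leaf 1) (.leaf 1)) (.node 3321 (.leaf 1) (.leaf 1)))) (.node 3305 (.leaf 1) (.node 69994545154 (.node 3321 (.leaf 1) (.leaf 1)) (.node 3321 (.leaf 1) (.leaf 1))))) (.node 69927436290 (.node 3369 (.node 69860327426 (.node 3353 (.leaf 1) (.leaf 1)) (.node 3353 (.leaf 1) (.leaf 1))) (.node 69860327426 (.node 69826772994 (.node 3385 (.leaf 1) (.leaf 1)) (.node 3385 (.leaf 1) (.leaf 1))) (.node 69893881858 (.node 3385 (.leaf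 1) (.leaf 1)) (.node 3385 (.leaf 1) (.leaf 1))))) (.node 3369 (.node 69994545154 (.node 3353 (.leaf 1) (.leaf 1)) (.node 3353 (.leaf 1) (.leaf 1))) (.node 69994545154 (.node 69960990722 (.node 3385 (.leaf 1) (.leaf 1)) (.node 3385 (.leaf 1) (.leaf 1))) (.node 70028099586 (.node 3385 (.leaf 1) (.leaf 1)) (.node 3385 (.leaf 1) (.leaf 1))))))) (.node 3337 (.node 70195871746 (.node 3305 (.leaf 1) (.node 70128762882 (.node 3321 (.leaf 1) (.leaf 1)) (.node 3321 (.leaf 1) (.leaf 1)))) (.node 3305 (.leaf 1) (.node 70262980610 (.node 3321 (.leaf 1) (.leaf 1)) (.node 3321 (.leaf 1) (.leaf 1))))) (.node 70195871746 (.node 3369 (.node 70128762882 (.node 3353 (.leaf 1) (.leaf 1)) (.node 3353 (.leaf 1) (.leaf 1))) (.node 70128762882 (.node 70095208450 (.node 3385 (.leaf 1) (.leaf 1)) (.node 3385 (.leaf 1) (.leaf 1))) (.node 70162317314 (.node 3385 (.leaf 1) (.leaf 1)) (.node 3385 (.leaf 1) (.leaf 1))))) (.node 3369 (.node 70262980610 (.node 3353 (.leaf 1) (.leaf 1))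 (.node 3353 (.leaf 1) (.leaf 1))) (.node 70262980610 (.node 3385 (.leaf 1) (.leaf 1)) (.node 3385 (.leaf 1) (.leaf 1))))))) (.node 70061654018 (.node 3465 (.node 69927436290 (.node 3433 (.node 69860327426 (.node 69826772994 (.node 3417 (.leaf 1) (.leaf 1)) (.node 3417 (.leaf 1) (.leaf 1))) (.node 69893881858 (.node 3417 (.leaf 1) (.leaf 1)) (.node 3417 (.leaf 1)
    (.leaf 1)))) (.node 69860327426 (.node 69826772994 (.node 3449 (.leaf 1) (.leaf 1)) (.node 3449 (.leaf 1) (.leaf 1))) (.node 69893881858 (.node 3449 (.leaf 1) (.leaf 1)) (.node 3449 (.leaf 1) (.leaf 1))))) (.node 3433 (.node 69994545154 (.node 69960990722 (.node 3417 (.leaf 1) (.leaf 1)) (.node 3417 (.leaf 1) (.leaf 1))) (.node 70028099586 (.node 3417 (.leaf 1) (.leaf 1)) (.node 3417 (.leaf 1) (.leaf 1)))) (.node 69994545154 (.node 69960990722 (.node 3449 (.leaf 1) (.leaf 1)) (.node 3449 (.leaf 1) (.leaf 1))) (.node 70028099586 (.node 3449 (.leaf 1) (.leaf 1)) (.node 3449 (.leaf 1) (.leaf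 1)))))) (.node 69927436290 (.node 3497 (.node 69860327426 (.node 69826772994 (.node 3481 (.leaf 1) (.leaf 1)) (.node 3481 (.leaf 1) (.leaf 1))) (.node 69893881858 (.node 3481 (.leaf 1) (.leaf 1)) (.node 3481 (.leaf 1) (.leaf 1)))) (.node 69860327426 (.node 69826772994 (.node 3513 (.leaf 1) (.leaf 1)) (.node 3513 (.leaf 1) (.leaf 1))) (.node 69893881858 (.node 3513 (.leaf 1) (.leaf 1)) (.node 3513 (.leaf 1) (.leaf 1))))) (.node 3497 (.node 69994545154 (.node 69960990722 (.node 3481 (.leaf 1) (.leaf 1)) (.node 3481 (.leaf 1) (.leaf 1))) (.node 70028099586 (.node 3481 (.leaf 1) (.leaf 1)) (.node 3481 (.leaf 1) (.leaf 1)))) (.node 69994545154 (.node 69960990722 (.node 3513 (.leaf 1) (.leaf 1)) (.node 3513 (.leaf 1) (.leaf 1))) (.node 70028099586 (.node 3513 (.leaf 1) (.leaf 1)) (.node 3513 (.leaf 1) (.leaf 1))))))) (.node 3465 (.node 70195871746 (.node 3433 (.node 70128762882 (.node 70095208450 (.node 3417 (.leaf 1) (.leaf 1)) (.node 3417 (.leaf 1) (.leaf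 1))) (.node 70162317314 (.node 3417 (.leaf 1) (.leaf 1)) (.node 3417 (.leaf 1) (.leaf 1)))) (.node 70128762882 (.node 70095208450 (.node 3449 (.leaf 1) (.leaf 1)) (.node 3449 (.leaf 1) (.leaf 1))) (.node 70162317314 (.node 3449 (.leaf 1) (.leaf 1)) (.node 3449 (.leaf 1) (.leaf 1))))) (.node 3433 (.node 70262980610 (.node 70229426178 (.node 3417 (.leaf 1) (.leaf 1)) (.node 3417 (.leaf 1) (.leaf 1))) (.node 70296535042 (.node 3417
    (.leaf 1) (.leaf 1)) (.node 3417 (.leaf 1) (.leaf 1)))) (.node 70262980610 (.node 70229426178 (.node 3449 (.leaf 1) (.leaf 1)) (.node 3449 (.leaf 1) (.leaf 1))) (.node 70296535042 (.node 3449 (.leaf 1) (.leaf 1)) (.node 3449 (.leaf 1) (.leaf 1)))))) (.node 70195871746 (.node 3497 (.node 70128762882 (.node 70095208450 (.node 3481 (.leaf 1) (.leaf 1)) (.node 3481 (.leaf 1) (.leaf 1))) (.node 70162317314 (.node 3481 (.leaf 1) (.leaf 1)) (.node 3481 (.leaf 1) (.leaf 1)))) (.node 70128762882 (.node 70095208450 (.node 3513 (.leaf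 1) (.leaf 1)) (.node 3513 (.leaf 1) (.leaf 1))) (.node 70162317314 (.node 3513 (.leaf 1) (.leaf 1)) (.node 3513 (.leaf 1) (.leaf 1))))) (.node 3497 (.node 70262980610 (.node 70229426178 (.node 3481 (.leaf 1) (.leaf 1)) (.node 3481 (.leaf 1) (.leaf 1))) (.node 70296535042 (.node 3481 (.leaf 1) (.leaf 1)) (.node 3481 (.leaf 1) (.leaf 1)))) (.node 70262980610 (.node 70229426178 (.node 3513 (.leaf 1) (.leaf 1)) (.node 3513 (.leaf 1) (.leaf 1))) (.node 70296535042 (.node 3513 (.leaf 1) (.leaf 1)) (.node 3513 (.leaf 1) (.leaf 1))))))))) (.node 3401 (.node 70598524930 (.node 3337 (.node 70464307202 (.node 3305 (.leaf 1) (.node 70397198338 (.node 3321 (.leaf 1) (.leaf 1)) (.node 3321 (.leaf 1) (.leaf 1)))) (.node 3305 (.leaf 1) (.node 70531416066 (.node 3321 (.leaf 1) (.leaf 1)) (.node 3321 (.leaf 1) (.leaf 1))))) (.node 70464307202 (.node 3369 (.node 70397198338 (.node 3353 (.leaf 1) (.leaf 1)) (.node 3353 (.leaf 1) (.leaf 1))) (.node 70397198338 (.node 3385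 (.leaf 1) (.leaf 1)) (.node 3385 (.leaf 1) (.leaf 1)))) (.node 3369 (.node 70531416066 (.node 3353 (.leaf 1) (.leaf 1)) (.node 3353 (.leaf 1) (.leaf 1))) (.node 70531416066 (.node 3385 (.leaf 1) (.leaf 1)) (.node 3385 (.leaf 1) (.leaf 1)))))) (.node 3337 (.node 70732742658 (.node 3305 (.leaf 1) (.node 70665633794 (.node 3321 (.leaf 1) (.leaf 1)) (.node 3321 (.leaf 1) (.leaf 1)))) (.node 3305 (.leaf 1) (.leaf
    224949122125992281948271245087445797705093923049249632559703130809280523680974823253228846741014913029489406908073083810691658762090117943290496431628531886194688))) (.node 70732742658 (.node 3369 (.node 70665633794 (.node 3353 (.leaf 1) (.leaf 1)) (.node 3353 (.leaf 1) (.leaf 1))) (.node 70665633794 (.node 3385 (.leaf 1) (.leaf 1)) (.node 3385 (.leaf 1) (.leaf 1)))) (.node 3369 (.node 70799851522 (.node 3353 (.leaf 1) (.leaf 1)) (.node 3353 (.leaf 1) (.leaf 1))) (.node 70799851522 (.node 3385 (.leaf 1) (.leaf 1)) (.node 3385 (.leaf 1) (.leaf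 1))))))) (.node 70598524930 (.node 3465 (.node 70464307202 (.node 3433 (.node 70397198338 (.node 70363643906 (.node 3417 (.leaf 1) (.leaf 1)) (.node 3417 (.leaf 1) (.leaf 1))) (.node 70430752770 (.node 3417 (.leaf 1) (.leaf 1)) (.node 3417 (.leaf 1) (.leaf 1)))) (.node 70397198338 (.node 70363643906 (.node 3449 (.leaf 1) (.leaf 1)) (.node 3449 (.leaf 1) (.leaf 1))) (.node 70430752770 (.node 3449 (.leaf 1) (.leaf 1)) (.node 3449 (.leaf 1) (.leaf 1))))) (.node 3433 (.node 70531416066 (.node 70497861634 (.node 3417 (.leaf 1) (.leaf 1)) (.node 3417 (.leaf 1) (.leaf 1))) (.node 70564970498 (.node 3417 (.leaf 1) (.leaf 1)) (.node 3417 (.leaf 1) (.leaf 1)))) (.node 70531416066 (.node 70497861634 (.node 3449 (.leaf 1) (.leaf 1)) (.node 3449 (.leaf 1) (.leaf 1))) (.node 70564970498 (.node 3449 (.leaf 1) (.leaf 1)) (.node 3449 (.leaf 1) (.leaf 1)))))) (.node 70464307202 (.node 3497 (.node 70397198338 (.node 70363643906 (.node 3481 (.leaf 1) (.leaf 1)) (.node 3481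 (.leaf 1) (.leaf 1))) (.node 70430752770 (.node 3481 (.leaf 1) (.leaf 1)) (.node 3481 (.leaf 1) (.leaf 1)))) (.node 70397198338 (.node 70363643906 (.node 3513 (.leaf 1) (.leaf 1)) (.node 3513 (.leaf 1) (.leaf 1))) (.node 70430752770 (.node 3513 (.leaf 1) (.leaf 1)) (.node 3513 (.leaf 1) (.leaf 1))))) (.node 3497 (.node 70531416066 (.node 70497861634 (.node 3481 (.leaf 1) (.leaf 1)) (.node 3481 (.leaf 1) (.leaf 1))) (.node 70564970498 (.node 3481 (.leaf 1) (.leaf 1)) (.node
    3481 (.leaf 1) (.leaf 1)))) (.node 70531416066 (.node 70497861634 (.node 3513 (.leaf 1) (.leaf 1)) (.node 3513 (.leaf 1) (.leaf 1))) (.node 70564970498 (.node 3513 (.leaf 1) (.leaf 1)) (.node 3513 (.leaf 1) (.leaf 1))))))) (.node 3465 (.node 70732742658 (.node 3433 (.node 70665633794 (.node 70632079362 (.node 3417 (.leaf 1) (.leaf 1)) (.node 3417 (.leaf 1) (.leaf 1))) (.node 70699188226 (.node 3417 (.leaf 1) (.leaf 1)) (.node 3417 (.leaf 1) (.leaf 1)))) (.node 70665633794 (.node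 70632079362 (.node 3449 (.leaf 1) (.leaf 1)) (.node 3449 (.leaf 1) (.leaf 1))) (.node 70699188226 (.node 3449 (.leaf 1) (.leaf 1)) (.node 3449 (.leaf 1) (.leaf 1))))) (.node 3433 (.node 70799851522 (.node 70766297090 (.node 3417 (.leaf 1) (.leaf 1)) (.node 3417 (.leaf 1) (.leaf 1))) (.node 70833405954 (.node 3417 (.leaf 1) (.leaf 1)) (.node 3417 (.leaf 1) (.leaf 1)))) (.node 70799851522 (.node 70766297090 (.node 3449 (.leaf 1) (.leaf 1)) (.node 3449 (.leaf 1) (.leaf 1))) (.node 70833405954 (.node 3449 (.leaf 1) (.leaf 1)) (.node 3449 (.leaf 1) (.leaf 1)))))) (.node 70732742658 (.node 3497 (.node 70665633794 (.node 70632079362 (.node 3481 (.leaf 1) (.leaf 1)) (.node 3481 (.leaf 1) (.leaf 1))) (.node 70699188226 (.node 3481 (.leaf 1) (.leaf 1)) (.node 3481 (.leaf 1) (.leaf 1)))) (.node 70665633794 (.node 70632079362 (.node 3513 (.leaf 1) (.leaf 1)) (.node 3513 (.leaf 1) (.leaf 1))) (.node 70699188226 (.node 3513 (.leaf 1) (.leaf 1)) (.node 3513 (.leaf 1)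 (.leaf 1))))) (.node 3497 (.node 70799851522 (.node 70766297090 (.node 3481 (.leaf 1) (.leaf 1)) (.node 3481 (.leaf 1) (.leaf 1))) (.node 70833405954 (.node 3481 (.leaf 1) (.leaf 1)) (.node 3481 (.leaf 1) (.leaf 1)))) (.node 70799851522 (.node 70766297090 (.node 3513 (.leaf 1) (.leaf 1)) (.node 3513 (.leaf 1) (.leaf 1))) (.node 70833405954 (.node 3513 (.leaf 1) (.leaf 1)) (.node 3513 (.leaf 1) (.leaf 1)))))))))))))
    ⟨25769803776, 25769803776, 828928688128, 944892805120, 4294967296, 4429185024, 4294967296, 4294967296, 4294967296, 4294967296, 0⟩ = true := by decide +kernel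

theorem bk6_11 : Tr.run2 ce0 pBK
    (.comp 15 878707508304657351360434551122834978055195126606888818594831397028026142524423405647564614225294104738585843379513965947812123235182620836780755942339034218496 (.node 3801 (.node 69256347650 (.node 3657 (.node 68987912194 (.node 3593 (.node 68853694466 (.node 3561 (.node 68786585602 (.node 68753031170 (.node 3545 (.leaf 1) (.leaf 1)) (.node 3545 (.leaf 1) (.leaf 1))) (.node 68820140034 (.node 3545 (.leaf 1) (.leaf 1)) (.node 3545 (.leaf 1) (.leaf 1)))) (.node 68786585602 (.node 68753031170 (.node 3577 (.leaf 1) (.leaf 1)) (.node 3577 (.leaf 1) (.leaf 1))) (.node 68820140034 (.node 3577 (.leaf 1) (.leaf 1)) (.node 3577 (.leaf 1) (.leaf 1))))) (.node 3561 (.node 68920803330 (.node 68887248898 (.node 3545 (.leaf 1) (.leaf 1)) (.node 3545 (.leaf 1) (.leaf 1))) (.node 68954357762 (.node 3545 (.leaf 1) (.leaf 1)) (.node 3545 (.leaf 1) (.leaf 1)))) (.node 68920803330 (.node 68887248898 (.node 3577 (.leaf 1) (.leaf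 1)) (.node 3577 (.leaf 1) (.leaf 1))) (.node 68954357762 (.node 3577 (.leaf 1) (.leaf 1)) (.node 3577 (.leaf 1) (.leaf 1)))))) (.node 68853694466 (.node 3625 (.node 68786585602 (.node 68753031170 (.node 3609 (.leaf 1) (.leaf 1)) (.node 3609 (.leaf 1) (.leaf 1))) (.node 68820140034 (.node 3609 (.leaf 1) (.leaf 1)) (.node 3609 (.leaf 1) (.leaf 1)))) (.node 68786585602 (.node 68753031170 (.node 3641 (.leaf 1) (.leaf 1)) (.node 3641 (.leaf 1) (.leaf 1))) (.node 68820140034 (.node 3641 (.leaf 1) (.leaf 1)) (.node 3641 (.leaf 1) (.leaf 1))))) (.node 3625 (.node 68920803330 (.node 68887248898 (.node 3609 (.leaf 1) (.leaf 1)) (.node 3609 (.leaf 1) (.leaf 1))) (.node 68954357762 (.node 3609 (.leaf 1) (.leaf 1)) (.node 3609 (.leaf 1) (.leaf 1)))) (.node 68920803330 (.node 68887248898 (.node 3641 (.leaf 1) (.leaf 1)) (.node 3641 (.leaf 1) (.leaf 1))) (.node 68954357762 (.node 3641 (.leaf 1) (.leaf 1)) (.node 3641 (.leaf 1) (.leaf 1))))))) (.node 3593 (.node 69122129922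 (.node 3561 (.node 69055021058 (.node 69021466626 (.node 3545 (.leaf 1) (.leaf 1)) (.node
    3545 (.leaf 1) (.leaf 1))) (.node 69088575490 (.node 3545 (.leaf 1) (.leaf 1)) (.node 3545 (.leaf 1) (.leaf 1)))) (.node 69055021058 (.node 69021466626 (.node 3577 (.leaf 1) (.leaf 1)) (.node 3577 (.leaf 1) (.leaf 1))) (.node 69088575490 (.node 3577 (.leaf 1) (.leaf 1)) (.node 3577 (.leaf 1) (.leaf 1))))) (.node 3561 (.node 69189238786 (.node 69155684354 (.node 3545 (.leaf 1) (.leaf 1)) (.node 3545 (.leaf 1) (.leaf 1))) (.node 69222793218 (.node 3545 (.leaf 1) (.leaf 1)) (.node 3545 (.leaf 1) (.leaf 1)))) (.node 69189238786 (.node 69155684354 (.node 3577 (.leaf 1) (.leaf 1)) (.node 3577 (.leaf 1) (.leaf 1))) (.node 69222793218 (.node 3577 (.leaf 1) (.leaf 1)) (.node 3577 (.leaf 1) (.leaf 1)))))) (.node 69122129922 (.node 3625 (.node 69055021058 (.node 69021466626 (.node 3609 (.leaf 1) (.leaf 1)) (.node 3609 (.leaf 1) (.leaf 1))) (.node 69088575490 (.node 3609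 (.leaf 1) (.leaf 1)) (.node 3609 (.leaf 1) (.leaf 1)))) (.node 69055021058 (.node 69021466626 (.node 3641 (.leaf 1) (.leaf 1)) (.node 3641 (.leaf 1) (.leaf 1))) (.node 69088575490 (.node 3641 (.leaf 1) (.leaf 1)) (.node 3641 (.leaf 1) (.leaf 1))))) (.node 3625 (.node 69189238786 (.node 69155684354 (.node 3609 (.leaf 1) (.leaf 1)) (.node 3609 (.leaf 1) (.leaf 1))) (.node 69222793218 (.node 3609 (.leaf 1) (.leaf 1)) (.node 3609 (.leaf 1) (.leaf 1)))) (.node 69189238786 (.node 69155684354 (.node 3641 (.leaf 1) (.leaf 1)) (.node 3641 (.leaf 1) (.leaf 1))) (.node 69222793218 (.node 3641 (.leaf 1) (.leaf 1)) (.node 3641 (.leaf 1) (.leaf 1)))))))) (.node 68987912194 (.node 3721 (.node 68853694466 (.node 3689 (.node 68786585602 (.node 68753031170 (.node 3673 (.leaf 1) (.leaf 1)) (.node 3673 (.leaf 1) (.leaf 1))) (.node 68820140034 (.node 3673 (.leaf 1) (.leaf 1)) (.node 3673 (.leaf 1) (.leaf 1)))) (.node 68786585602 (.node 68753031170 (.node 3705 (.leaf 1) (.leaf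 1)) (.node 3705 (.leaf 1) (.leaf 1))) (.node 68820140034 (.node 3705 (.leaf 1) (.leaf 1)) (.node 3705 (.leaf 1) (.leaf 1))))) (.node 3689 (.node
    68920803330 (.node 68887248898 (.node 3673 (.leaf 1) (.leaf 1)) (.node 3673 (.leaf 1) (.leaf 1))) (.node 68954357762 (.node 3673 (.leaf 1) (.leaf 1)) (.node 3673 (.leaf 1) (.leaf 1)))) (.node 68920803330 (.node 68887248898 (.node 3705 (.leaf 1) (.leaf 1)) (.node 3705 (.leaf 1) (.leaf 1))) (.node 68954357762 (.node 3705 (.leaf 1) (.leaf 1)) (.node 3705 (.leaf 1) (.leaf 1)))))) (.node 68853694466 (.node 3753 (.node 68786585602 (.node 68753031170 (.node 3737 (.leaf 1) (.leaf 1)) (.node 3737 (.leaf 1) (.leaf 1))) (.node 68820140034 (.node 3737 (.leaf 1) (.leaf 1)) (.node 3737 (.leaf 1) (.leaf 1)))) (.node 68786585602 (.node 3769 (.leaf 1) (.node 68753031170 (.node 3785 (.leaf 1) (.leaf 1)) (.node 3785 (.leaf 1) (.leaf 1)))) (.node 3769 (.leaf 1) (.node 68820140034 (.node 3785 (.leaf 1) (.leaf 1)) (.node 3785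 (.leaf 1) (.leaf 1)))))) (.node 3753 (.node 68920803330 (.node 68887248898 (.node 3737 (.leaf 1) (.leaf 1)) (.node 3737 (.leaf 1) (.leaf 1))) (.node 68954357762 (.node 3737 (.leaf 1) (.leaf 1)) (.node 3737 (.leaf 1) (.leaf 1)))) (.node 68920803330 (.node 3769 (.leaf 1) (.node 68887248898 (.node 3785 (.leaf 1) (.leaf 1)) (.node 3785 (.leaf 1) (.leaf 1)))) (.node 3769 (.leaf 1) (.node 68954357762 (.node 3785 (.leaf 1) (.leaf 1)) (.node 3785 (.leaf 1) (.leaf 1)))))))) (.node 3721 (.node 69122129922 (.node 3689 (.node 69055021058 (.node 69021466626 (.node 3673 (.leaf 1) (.leaf 1)) (.node 3673 (.leaf 1) (.leaf 1))) (.node 69088575490 (.node 3673 (.leaf 1) (.leaf 1)) (.node 3673 (.leaf 1) (.leaf 1)))) (.node 69055021058 (.node 69021466626 (.node 3705 (.leaf 1) (.leaf 1)) (.node 3705 (.leaf 1) (.leaf 1))) (.node 69088575490 (.node 3705 (.leaf 1) (.leaf 1)) (.node 3705 (.leaf 1) (.leaf 1))))) (.node 3689 (.node 69189238786 (.node 69155684354 (.node 3673 (.leaf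 1) (.leaf 1)) (.node 3673 (.leaf 1) (.leaf 1))) (.node 69222793218 (.node 3673 (.leaf 1) (.leaf 1)) (.node 3673 (.leaf 1) (.leaf 1)))) (.node 69189238786 (.node 69155684354 (.node 3705 (.leaf 1) (.leaf 1)) (.node
    3705 (.leaf 1) (.leaf 1))) (.node 69222793218 (.node 3705 (.leaf 1) (.leaf 1)) (.node 3705 (.leaf 1) (.leaf 1)))))) (.node 69122129922 (.node 3753 (.node 69055021058 (.node 69021466626 (.node 3737 (.leaf 1) (.leaf 1)) (.node 3737 (.leaf 1) (.leaf 1))) (.node 69088575490 (.node 3737 (.leaf 1) (.leaf 1)) (.node 3737 (.leaf 1) (.leaf 1)))) (.node 69055021058 (.node 3769 (.leaf 1) (.node 69021466626 (.node 3785 (.leaf 1) (.leaf 1)) (.node 3785 (.leaf 1) (.leaf 1)))) (.node 3769 (.leaf 1) (.node 69088575490 (.node 3785 (.leaf 1) (.leaf 1)) (.node 3785 (.leaf 1) (.leaf 1)))))) (.node 3753 (.node 69189238786 (.node 69155684354 (.node 3737 (.leaf 1) (.leaf 1)) (.node 3737 (.leaf 1) (.leaf 1))) (.node 69222793218 (.node 3737 (.leaf 1) (.leaf 1)) (.node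 3737 (.leaf 1) (.leaf 1)))) (.node 69189238786 (.node 3769 (.leaf 1) (.node 69155684354 (.node 3785 (.leaf 1) (.leaf 1)) (.node 3785 (.leaf 1) (.leaf 1)))) (.node 3769 (.leaf 1) (.node 69222793218 (.node 3785 (.leaf 1) (.leaf 1)) (.node 3785 (.leaf 1) (.leaf 1)))))))))) (.node 3657 (.node 69524783106 (.node 3593 (.node 69390565378 (.node 3561 (.node 69323456514 (.node 69289902082 (.node 3545 (.leaf 1) (.leaf 1)) (.node 3545 (.leaf 1) (.leaf 1))) (.node 69357010946 (.node 3545 (.leaf 1) (.leaf 1)) (.node 3545 (.leaf 1) (.leaf 1)))) (.node 69323456514 (.node 69289902082 (.node 3577 (.leaf 1) (.leaf 1)) (.node 3577 (.leaf 1) (.leaf 1))) (.node 69357010946 (.node 3577 (.leaf 1) (.leaf 1)) (.node 3577 (.leaf 1) (.leaf 1))))) (.node 3561 (.node 69457674242 (.node 69424119810 (.node 3545 (.leaf 1) (.leaf 1)) (.node 3545 (.leaf 1) (.leaf 1))) (.node 69491228674 (.node 3545 (.leaf 1) (.leaf 1)) (.node 3545 (.leaf 1) (.leaf 1)))) (.node 69457674242 (.node 69424119810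 (.node 3577 (.leaf 1) (.leaf 1)) (.node 3577 (.leaf 1) (.leaf 1))) (.node 69491228674 (.node 3577 (.leaf 1) (.leaf 1)) (.node 3577 (.leaf 1) (.leaf 1)))))) (.node 69390565378 (.node 3625 (.node 69323456514 (.node 69289902082 (.node 3609 (.leaf 1) (.leaf 1)) (.node 3609
    (.leaf 1) (.leaf 1))) (.node 69357010946 (.node 3609 (.leaf 1) (.leaf 1)) (.node 3609 (.leaf 1) (.leaf 1)))) (.node 69323456514 (.node 69289902082 (.node 3641 (.leaf 1) (.leaf 1)) (.node 3641 (.leaf 1) (.leaf 1))) (.node 69357010946 (.node 3641 (.leaf 1) (.leaf 1)) (.node 3641 (.leaf 1) (.leaf 1))))) (.node 3625 (.node 69457674242 (.node 69424119810 (.node 3609 (.leaf 1) (.leaf 1)) (.node 3609 (.leaf 1) (.leaf 1))) (.node 69491228674 (.node 3609 (.leaf 1) (.leaf 1)) (.node 3609 (.leaf 1) (.leaf 1)))) (.node 69457674242 (.node 69424119810 (.node 3641 (.leaf 1) (.leaf 1)) (.node 3641 (.leaf 1) (.leaf 1))) (.node 69491228674 (.node 3641 (.leaf 1) (.leaf 1)) (.node 3641 (.leaf 1) (.leaf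 1))))))) (.node 3593 (.node 69659000834 (.node 3561 (.node 69591891970 (.node 69558337538 (.node 3545 (.leaf 1) (.leaf 1)) (.node 3545 (.leaf 1) (.leaf 1))) (.node 69625446402 (.node 3545 (.leaf 1) (.leaf 1)) (.node 3545 (.leaf 1) (.leaf 1)))) (.node 69591891970 (.node 69558337538 (.node 3577 (.leaf 1) (.leaf 1)) (.node 3577 (.leaf 1) (.leaf 1))) (.node 69625446402 (.node 3577 (.leaf 1) (.leaf 1)) (.node 3577 (.leaf 1) (.leaf 1))))) (.node 3561 (.node 69726109698 (.node 69692555266 (.node 3545 (.leaf 1) (.leaf 1)) (.node 3545 (.leaf 1) (.leaf 1))) (.node 69759664130 (.node 3545 (.leaf 1) (.leaf 1)) (.node 3545 (.leaf 1) (.leaf 1)))) (.node 69726109698 (.node 69692555266 (.node 3577 (.leaf 1) (.leaf 1)) (.node 3577 (.leaf 1) (.leaf 1))) (.node 69759664130 (.node 3577 (.leaf 1) (.leaf 1)) (.node 3577 (.leaf 1) (.leaf 1)))))) (.node 69659000834 (.node 3625 (.node 69591891970 (.node 69558337538 (.node 3609 (.leaf 1) (.leaf 1)) (.node 3609 (.leaf 1) (.leaf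 1))) (.node 69625446402 (.node 3609 (.leaf 1) (.leaf 1)) (.node 3609 (.leaf 1) (.leaf 1)))) (.node 69591891970 (.node 69558337538 (.node 3641 (.leaf 1) (.leaf 1)) (.node 3641 (.leaf 1) (.leaf 1))) (.node 69625446402 (.node 3641 (.leaf 1) (.leaf 1)) (.node 3641 (.leaf 1) (.leaf 1))))) (.node 3625 (.node 69726109698 (.node 69692555266
    (.node 3609 (.leaf 1) (.leaf 1)) (.node 3609 (.leaf 1) (.leaf 1))) (.node 69759664130 (.node 3609 (.leaf 1) (.leaf 1)) (.node 3609 (.leaf 1) (.leaf 1)))) (.node 69726109698 (.node 69692555266 (.node 3641 (.leaf 1) (.leaf 1)) (.node 3641 (.leaf 1) (.leaf 1))) (.node 69759664130 (.node 3641 (.leaf 1) (.leaf 1)) (.node 3641 (.leaf 1) (.leaf 1)))))))) (.node 69524783106 (.node 3721 (.node 69390565378 (.node 3689 (.node 69323456514 (.node 69289902082 (.node 3673 (.leaf 1) (.leaf 1)) (.node 3673 (.leaf 1) (.leaf 1))) (.node 69357010946 (.node 3673 (.leaf 1) (.leaf 1)) (.node 3673 (.leaf 1) (.leaf 1)))) (.node 69323456514 (.node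 69289902082 (.node 3705 (.leaf 1) (.leaf 1)) (.node 3705 (.leaf 1) (.leaf 1))) (.node 69357010946 (.node 3705 (.leaf 1) (.leaf 1)) (.node 3705 (.leaf 1) (.leaf 1))))) (.node 3689 (.node 69457674242 (.node 69424119810 (.node 3673 (.leaf 1) (.leaf 1)) (.node 3673 (.leaf 1) (.leaf 1))) (.node 69491228674 (.node 3673 (.leaf 1) (.leaf 1)) (.node 3673 (.leaf 1) (.leaf 1)))) (.node 69457674242 (.node 69424119810 (.node 3705 (.leaf 1) (.leaf 1)) (.node 3705 (.leaf 1) (.leaf 1))) (.node 69491228674 (.node 3705 (.leaf 1) (.leaf 1)) (.node 3705 (.leaf 1) (.leaf 1)))))) (.node 69390565378 (.node 3753 (.node 69323456514 (.node 69289902082 (.node 3737 (.leaf 1) (.leaf 1)) (.node 3737 (.leaf 1) (.leaf 1))) (.node 69357010946 (.node 3737 (.leaf 1) (.leaf 1)) (.node 3737 (.leaf 1) (.leaf 1)))) (.node 69323456514 (.node 3769 (.leaf 1) (.node 69289902082 (.node 3785 (.leaf 1) (.leaf 1)) (.node 3785 (.leaf 1) (.leaf 1)))) (.node 3769 (.leaf 1) (.node 69357010946 (.node 3785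 (.leaf 1) (.leaf 1)) (.node 3785 (.leaf 1) (.leaf 1)))))) (.node 3753 (.node 69457674242 (.node 69424119810 (.node 3737 (.leaf 1) (.leaf 1)) (.node 3737 (.leaf 1) (.leaf 1))) (.node 69491228674 (.node 3737 (.leaf 1) (.leaf 1)) (.node 3737 (.leaf 1) (.leaf 1)))) (.node 69457674242 (.node 3769 (.leaf 1) (.node 69424119810 (.node 3785 (.leaf 1) (.leaf 1)) (.node 3785 (.leaf 1) (.leaf 1)))) (.node
    3769 (.leaf 1) (.node 69491228674 (.node 3785 (.leaf 1) (.leaf 1)) (.node 3785 (.leaf 1) (.leaf 1)))))))) (.node 3721 (.node 69659000834 (.node 3689 (.node 69591891970 (.node 69558337538 (.node 3673 (.leaf 1) (.leaf 1)) (.node 3673 (.leaf 1) (.leaf 1))) (.node 69625446402 (.node 3673 (.leaf 1) (.leaf 1)) (.node 3673 (.leaf 1) (.leaf 1)))) (.node 69591891970 (.node 69558337538 (.node 3705 (.leaf 1) (.leaf 1)) (.node 3705 (.leaf 1) (.leaf 1))) (.node 69625446402 (.node 3705 (.leaf 1) (.leaf 1)) (.node 3705 (.leaf 1) (.leaf 1))))) (.node 3689 (.node 69726109698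 (.node 69692555266 (.node 3673 (.leaf 1) (.leaf 1)) (.node 3673 (.leaf 1) (.leaf 1))) (.node 69759664130 (.node 3673 (.leaf 1) (.leaf 1)) (.node 3673 (.leaf 1) (.leaf 1)))) (.node 69726109698 (.node 69692555266 (.node 3705 (.leaf 1) (.leaf 1)) (.node 3705 (.leaf 1) (.leaf 1))) (.node 69759664130 (.node 3705 (.leaf 1) (.leaf 1)) (.node 3705 (.leaf 1) (.leaf 1)))))) (.node 69659000834 (.node 3753 (.node 69591891970 (.node 69558337538 (.node 3737 (.leaf 1) (.leaf 1)) (.node 3737 (.leaf 1) (.leaf 1))) (.node 69625446402 (.node 3737 (.leaf 1) (.leaf 1)) (.node 3737 (.leaf 1) (.leaf 1)))) (.node 69591891970 (.node 3769 (.leaf 1) (.node 69558337538 (.node 3785 (.leaf 1) (.leaf 1)) (.node 3785 (.leaf 1) (.leaf 1)))) (.node 3769 (.leaf 1) (.node 69625446402 (.node 3785 (.leaf 1) (.leaf 1)) (.node 3785 (.leaf 1) (.leaf 1)))))) (.node 3753 (.node 69726109698 (.node 69692555266 (.node 3737 (.leaf 1) (.leaf 1)) (.node 3737 (.leaf 1) (.leaf 1))) (.node 69759664130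 (.node 3737 (.leaf 1) (.leaf 1)) (.node 3737 (.leaf 1) (.leaf 1)))) (.node 69726109698 (.node 3769 (.leaf 1) (.node 69692555266 (.node 3785 (.leaf 1) (.leaf 1)) (.node 3785 (.leaf 1) (.leaf 1)))) (.node 3769 (.leaf 1) (.node 69759664130 (.node 3785 (.leaf 1) (.leaf 1)) (.node 3785 (.leaf 1) (.leaf 1))))))))))) (.comp 65
    878707508304657351360434551122834978055195126606888818594831397028026142524423405647564614225294104738585843379513965947812123235182620836780755942339034218496 (.node 69256347650 (.node 3961 (.node 68987912194 (.node 3881 (.node 68853694466 (.node 3833 (.node 68786585602 (.node 68753031170 (.node 3817 (.leaf 1) (.leaf 1)) (.node 3817 (.leaf 1) (.leaf 1))) (.node 68820140034 (.node 3817 (.leaf 1) (.leaf 1)) (.node 3817 (.leaf 1) (.leaf 1)))) (.node 68786585602 (.node 3849 (.leaf 1) (.node 68753031170 (.node 3865 (.leaf 1) (.leaf 1)) (.node 3865 (.leaf 1) (.leaf 1)))) (.node 3849 (.leaf 1) (.node 68820140034 (.node 3865 (.leaf 1) (.leaf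 1)) (.node 3865 (.leaf 1) (.leaf 1)))))) (.node 3833 (.node 68920803330 (.node 68887248898 (.node 3817 (.leaf 1) (.leaf 1)) (.node 3817 (.leaf 1) (.leaf 1))) (.node 68954357762 (.node 3817 (.leaf 1) (.leaf 1)) (.node 3817 (.leaf 1) (.leaf 1)))) (.node 68920803330 (.node 3849 (.leaf 1) (.node 68887248898 (.node 3865 (.leaf 1) (.leaf 1)) (.node 3865 (.leaf 1) (.leaf 1)))) (.node 3849 (.leaf 1) (.node 68954357762 (.node 3865 (.leaf 1) (.leaf 1)) (.node 3865 (.leaf 1) (.leaf 1))))))) (.node 68853694466 (.node 3913 (.node 68786585602 (.node 68753031170 (.node 3897 (.leaf 3) (.leaf 3)) (.node 3897 (.leaf 3) (.leaf 3))) (.node 68820140034 (.node 3897 (.leaf 3) (.leaf 3)) (.node 3897 (.leaf 3) (.leaf 3)))) (.node 68786585602 (.node 3929 (.node 68753031170 (.leaf 3) (.leaf 3)) (.node 68753031170 (.node 3945 (.leaf 3) (.leaf 3)) (.node 3945 (.leaf 3) (.leaf 3)))) (.node 3929 (.node 68820140034 (.leaf 3) (.leaf 3)) (.node 68820140034 (.node 3945 (.leaf 3) (.leaf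 3)) (.node 3945 (.leaf 3) (.leaf 3)))))) (.node 3913 (.node 68920803330 (.node 68887248898 (.node 3897 (.leaf 3) (.leaf 3)) (.node 3897 (.leaf 3) (.leaf 3))) (.node 68954357762 (.node 3897 (.leaf 3) (.leaf 3)) (.node 3897 (.leaf 3) (.leaf 3)))) (.node 68920803330 (.node 3929 (.node 68887248898 (.leaf 3) (.leaf 3)) (.node 68887248898 (.node 3945 (.leaf 3) (.leaf 3)) (.node 3945 (.leaf
    3) (.leaf 3)))) (.node 3929 (.node 68954357762 (.leaf 3) (.leaf 3)) (.node 68954357762 (.node 3945 (.leaf 3) (.leaf 3)) (.node 3945 (.leaf 3) (.leaf 3)))))))) (.node 3881 (.node 69122129922 (.node 3833 (.node 69055021058 (.node 69021466626 (.node 3817 (.leaf 1) (.leaf 1)) (.node 3817 (.leaf 1) (.leaf 1))) (.node 69088575490 (.node 3817 (.leaf 1) (.leaf 1)) (.node 3817 (.leaf 1) (.leaf 1)))) (.node 69055021058 (.node 3849 (.leaf 1) (.node 69021466626 (.node 3865 (.leaf 1) (.leaf 1)) (.node 3865 (.leaf 1) (.leaf 1)))) (.node 3849 (.leaf 1) (.node 69088575490 (.node 3865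 (.leaf 1) (.leaf 1)) (.node 3865 (.leaf 1) (.leaf 1)))))) (.node 3833 (.node 69189238786 (.node 69155684354 (.node 3817 (.leaf 1) (.leaf 1)) (.node 3817 (.leaf 1) (.leaf 1))) (.node 69222793218 (.node 3817 (.leaf 1) (.leaf 1)) (.node 3817 (.leaf 1) (.leaf 1)))) (.node 69189238786 (.node 3849 (.leaf 1) (.node 69155684354 (.node 3865 (.leaf 1) (.leaf 1)) (.node 3865 (.leaf 1) (.leaf 1)))) (.node 3849 (.leaf 1) (.node 69222793218 (.node 3865 (.leaf 1) (.leaf 1)) (.node 3865 (.leaf 1) (.leaf 1))))))) (.node 69122129922 (.node 3913 (.node 69055021058 (.node 69021466626 (.node 3897 (.leaf 3) (.leaf 3)) (.node 3897 (.leaf 3) (.leaf 3))) (.node 69088575490 (.node 3897 (.leaf 3) (.leaf 3)) (.node 3897 (.leaf 3) (.leaf 3)))) (.node 69055021058 (.node 3929 (.node 69021466626 (.leaf 3) (.leaf 3)) (.node 69021466626 (.node 3945 (.leaf 3) (.leaf 3)) (.node 3945 (.leaf 3) (.leaf 3)))) (.node 3929 (.node 69088575490 (.leaf 3) (.leaf 3)) (.node 69088575490 (.node 3945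 (.leaf 3) (.leaf 3)) (.node 3945 (.leaf 3) (.leaf 3)))))) (.node 3913 (.node 69189238786 (.node 69155684354 (.node 3897 (.leaf 3) (.leaf 3)) (.node 3897 (.leaf 3) (.leaf 3))) (.node 69222793218 (.node 3897 (.leaf 3) (.leaf 3)) (.node 3897 (.leaf 3) (.leaf 3)))) (.node 69189238786 (.node 3929 (.leaf 3) (.node 69155684354 (.node 3945 (.leaf 3) (.leaf 3)) (.node 3945 (.leaf 3) (.leaf 3)))) (.node 3929 (.leaf 3) (.node 69222793218 (.node 3945 (.leaf 3)
    (.leaf 3)) (.node 3945 (.leaf 3) (.leaf 3))))))))) (.node 68987912194 (.node 4041 (.node 68853694466 (.node 3993 (.node 68786585602 (.leaf 3) (.node 68820140034 (.leaf 3) (.node 3977 (.leaf 3) (.leaf 3)))) (.node 68786585602 (.node 4009 (.leaf 3) (.leaf 3)) (.node 4009 (.leaf 3) (.leaf 3)))) (.node 3993 (.node 68920803330 (.node 68887248898 (.node 3977 (.leaf 3) (.leaf 3)) (.node 3977 (.leaf 3) (.leaf 3))) (.node 68954357762 (.node 3977 (.leaf 3) (.leaf 3)) (.node 3977 (.leaf 3) (.leaf 3)))) (.node 68920803330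 (.node 4009 (.leaf 3) (.leaf 3)) (.node 4009 (.leaf 3) (.leaf 3))))) (.node 68853694466 (.node 4073 (.node 68786585602 (.node 68753031170 (.leaf 3) (.leaf 3)) (.leaf 3)) (.node 68786585602 (.node 4089 (.leaf 3) (.node 68753031170 (.leaf 3) (.leaf 3))) (.node 4089 (.leaf 3) (.node 68820140034 (.leaf 3) (.leaf 3))))) (.node 4073 (.node 68920803330 (.leaf 3) (.leaf 3)) (.node 68920803330 (.node 4089 (.leaf 3) (.node 68887248898 (.leaf 3) (.leaf 3))) (.node 4089 (.leaf 3) (.node 68954357762 (.leaf 3) (.leaf 3))))))) (.node 4041 (.node 69122129922 (.node 3993 (.node 69055021058 (.node 69021466626 (.node 3977 (.leaf 3) (.leaf 3)) (.node 3977 (.leaf 3) (.leaf 3))) (.node 69088575490 (.node 3977 (.leaf 3) (.leaf 3)) (.node 3977 (.leaf 3) (.leaf 3)))) (.node 69055021058 (.node 4009 (.leaf 3) (.leaf 3)) (.node 4009 (.node 69088575490 (.leaf 3) (.leaf 3)) (.leaf 3)))) (.node 3993 (.node 69189238786 (.node 69155684354 (.node 3977 (.leaf 3) (.leaf 3)) (.node 3977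 (.leaf 3) (.leaf 3))) (.node 69222793218 (.node 3977 (.leaf 3) (.leaf 3)) (.node 3977 (.leaf 3) (.leaf 3)))) (.node 69189238786 (.node 4009 (.node 69155684354 (.leaf 3) (.leaf 3)) (.leaf 3)) (.node 4009 (.node 69222793218 (.leaf 3) (.leaf 3)) (.node 69222793218 (.leaf 3) (.node 4025 (.leaf 3) (.leaf 3))))))) (.node 69122129922 (.node 4073 (.node 69055021058 (.leaf 3) (.leaf 3)) (.node 69055021058 (.node 4089 (.leaf 3) (.node 69021466626 (.leaf 3) (.leaf 3))) (.node 4089 (.leaf 3) (.node 69088575490 (.leaf 3)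
    (.leaf 3))))) (.node 4073 (.node 69189238786 (.leaf 3) (.leaf 3)) (.node 69189238786 (.node 4089 (.leaf 3) (.node 69155684354 (.leaf 3) (.leaf 3))) (.node 4089 (.leaf 3) (.leaf 3)))))))) (.node 3961 (.node 69524783106 (.node 3881 (.node 69390565378 (.node 3833 (.node 69323456514 (.node 69289902082 (.node 3817 (.leaf 1) (.leaf 1)) (.node 3817 (.leaf 1) (.leaf 1))) (.node 69357010946 (.node 3817 (.leaf 1) (.leaf 1)) (.node 3817 (.leaf 1) (.leaf 1)))) (.node 69323456514 (.node 3849 (.leaf 1) (.node 69289902082 (.node 3865 (.leaf 1) (.leaf 1)) (.node 3865 (.leaf 1) (.leaf 1)))) (.node 3849 (.leaf 1) (.node 69357010946 (.node 3865 (.leaf 1) (.leaf 1)) (.node 3865 (.leaf 1) (.leaf 1)))))) (.node 3833 (.node 69457674242 (.node 69424119810 (.node 3817 (.leaf 1) (.leaf 1)) (.node 3817 (.leaf 1) (.leaf 1))) (.node 69491228674 (.node 3817 (.leaf 1) (.leaf 1)) (.node 3817 (.leaf 1) (.leaf 1)))) (.node 69457674242 (.node 3849 (.leaf 1) (.node 69424119810 (.node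 3865 (.leaf 1) (.leaf 1)) (.node 3865 (.leaf 1) (.leaf 1)))) (.node 3849 (.leaf 1) (.node 69491228674 (.node 3865 (.leaf 1) (.leaf 1)) (.node 3865 (.leaf 1) (.leaf 1))))))) (.node 69390565378 (.node 3913 (.node 69323456514 (.node 69289902082 (.node 3897 (.leaf 1) (.leaf 1)) (.node 3897 (.leaf 1) (.leaf 1))) (.node 69357010946 (.node 3897 (.leaf 1) (.leaf 1)) (.node 3897 (.leaf 1) (.leaf 1)))) (.node 69323456514 (.node 3929 (.leaf 1) (.node 69289902082 (.node 3945 (.leaf 1) (.leaf 1)) (.node 3945 (.leaf 1) (.leaf 1)))) (.node 3929 (.leaf 1) (.node 69357010946 (.node 3945 (.leaf 1) (.leaf 1)) (.node 3945 (.leaf 1) (.leaf 1)))))) (.node 3913 (.node 69457674242 (.node 69424119810 (.node 3897 (.leaf 1) (.leaf 1)) (.node 3897 (.leaf 1) (.leaf 1))) (.node 69491228674 (.node 3897 (.leaf 1) (.leaf 1)) (.node 3897 (.leaf 1) (.leaf 1)))) (.node 69457674242 (.node 3929 (.leaf 1) (.node 69424119810 (.node 3945 (.leaf 1) (.leaf 1)) (.node 3945 (.leaf 1) (.leaf 1))))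 (.node 3929 (.leaf 1) (.node 69491228674 (.node 3945 (.leaf 1)
    (.leaf 1)) (.node 3945 (.leaf 1) (.leaf 1)))))))) (.node 3881 (.node 69659000834 (.node 3833 (.node 69591891970 (.node 69558337538 (.node 3817 (.leaf 1) (.leaf 1)) (.node 3817 (.leaf 1) (.leaf 1))) (.node 69625446402 (.node 3817 (.leaf 1) (.leaf 1)) (.node 3817 (.leaf 1) (.leaf 1)))) (.node 69591891970 (.node 3849 (.leaf 1) (.node 69558337538 (.node 3865 (.leaf 1) (.leaf 1)) (.node 3865 (.leaf 1) (.leaf 1)))) (.node 3849 (.leaf 1) (.node 69625446402 (.node 3865 (.leaf 1) (.leaf 1)) (.node 3865 (.leaf 1) (.leaf 1)))))) (.node 3833 (.node 69726109698 (.node 69692555266 (.node 3817 (.leaf 1) (.leaf 1)) (.node 3817 (.leaf 1) (.leaf 1))) (.node 69759664130 (.node 3817 (.leaf 1) (.leaf 1)) (.node 3817 (.leaf 1) (.leaf 1)))) (.node 69726109698 (.node 3849 (.leaf 1) (.node 69692555266 (.node 3865 (.leaf 1) (.leaf 1)) (.node 3865 (.leaf 1) (.leaf 1)))) (.node 3849 (.leaf 1) (.node 69759664130 (.node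 3865 (.leaf 1) (.leaf 1)) (.node 3865 (.leaf 1) (.leaf 1))))))) (.node 69659000834 (.node 3913 (.node 69591891970 (.node 69558337538 (.node 3897 (.leaf 1) (.leaf 1)) (.node 3897 (.leaf 1) (.leaf 1))) (.node 69625446402 (.node 3897 (.leaf 1) (.leaf 1)) (.node 3897 (.leaf 1) (.leaf 1)))) (.node 69591891970 (.node 3929 (.leaf 1) (.node 69558337538 (.node 3945 (.leaf 1) (.leaf 1)) (.node 3945 (.leaf 1) (.leaf 1)))) (.node 3929 (.leaf 1) (.node 69625446402 (.node 3945 (.leaf 1) (.leaf 1)) (.node 3945 (.leaf 1) (.leaf 1)))))) (.node 3913 (.node 69726109698 (.node 69692555266 (.node 3897 (.leaf 1) (.leaf 1)) (.node 3897 (.leaf 1) (.leaf 1))) (.node 69759664130 (.node 3897 (.leaf 1) (.leaf 1)) (.node 3897 (.leaf 1) (.leaf 1)))) (.node 69726109698 (.node 3929 (.leaf 1) (.node 69692555266 (.node 3945 (.leaf 1) (.leaf 1)) (.node 3945 (.leaf 1) (.leaf 1)))) (.node 3929 (.leaf 1) (.node 69759664130 (.node 3945 (.leaf 1) (.leaf 1)) (.node 3945 (.leaf 1) (.leaf 1)))))))))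 (.node 69524783106 (.node 4041 (.node 69390565378 (.node 3993 (.node 69323456514 (.node 69289902082 (.node 3977 (.leaf
    3) (.leaf 3)) (.node 3977 (.leaf 3) (.leaf 3))) (.node 69357010946 (.node 3977 (.leaf 3) (.leaf 3)) (.node 3977 (.leaf 3) (.leaf 3)))) (.node 69323456514 (.node 4009 (.node 69289902082 (.leaf 3) (.leaf 3)) (.node 69289902082 (.node 4025 (.leaf 3) (.leaf 3)) (.node 4025 (.leaf 3) (.leaf 3)))) (.node 4009 (.node 69357010946 (.leaf 3) (.leaf 3)) (.node 69357010946 (.node 4025 (.leaf 3) (.leaf 3)) (.node 4025 (.leaf 3) (.leaf 3)))))) (.node 3993 (.node 69457674242 (.node 69424119810 (.node 3977 (.leaf 3) (.leaf 3)) (.node 3977 (.leaf 3) (.leaf 3))) (.node 69491228674 (.node 3977 (.leaf 3) (.leaf 3)) (.node 3977 (.leaf 3) (.leaf 3)))) (.node 69457674242 (.node 4009 (.node 69424119810 (.leaf 3) (.leaf 3)) (.node 69424119810 (.node 4025 (.leaf 3) (.leaf 3)) (.node 4025 (.leaf 3) (.leaf 3)))) (.node 4009 (.node 69491228674 (.leaf 3) (.leaf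 3)) (.node 69491228674 (.node 4025 (.leaf 3) (.leaf 3)) (.node 4025 (.leaf 3) (.leaf 3))))))) (.node 69390565378 (.node 4073 (.node 69323456514 (.leaf 3) (.leaf 3)) (.node 69323456514 (.node 4089 (.leaf 3) (.leaf 3)) (.node 4089 (.leaf 3) (.leaf 3)))) (.node 4073 (.node 69457674242 (.leaf 3) (.node 69491228674 (.leaf 3) (.node 4057 (.leaf 3) (.leaf 3)))) (.node 69457674242 (.node 4089 (.leaf 3) (.leaf 3)) (.node 4089 (.leaf 3) (.leaf 3)))))) (.node 4041 (.node 69659000834 (.node 3993 (.node 69591891970 (.node 69558337538 (.node 3977 (.leaf 3) (.leaf 3)) (.node 3977 (.leaf 3) (.leaf 3))) (.node 69625446402 (.node 3977 (.leaf 3) (.leaf 3)) (.node 3977 (.leaf 3) (.leaf 3)))) (.node 69591891970 (.node 4009 (.node 69558337538 (.leaf 3) (.leaf 3)) (.node 69558337538 (.node 4025 (.leaf 3) (.leaf 3)) (.node 4025 (.leaf 3) (.leaf 3)))) (.node 4009 (.node 69625446402 (.leaf 3) (.leaf 3)) (.node 69625446402 (.node 4025 (.leaf 3) (.leaf 3)) (.node 4025 (.leaf 3)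 (.leaf 3)))))) (.node 3993 (.node 69726109698 (.node 69692555266 (.node 3977 (.leaf 3) (.leaf 3)) (.node 3977 (.leaf 3) (.leaf 3))) (.node 69759664130 (.node 3977 (.leaf 3) (.leaf 3))
    (.node 3977 (.leaf 3) (.leaf 3)))) (.node 69726109698 (.node 4009 (.node 69692555266 (.leaf 3) (.leaf 3)) (.node 69692555266 (.node 4025 (.leaf 3) (.leaf 3)) (.node 4025 (.leaf 3) (.leaf 3)))) (.node 4009 (.node 69759664130 (.leaf 3) (.leaf 3)) (.node 69759664130 (.node 4025 (.leaf 3) (.leaf 3)) (.node 4025 (.leaf 3) (.leaf 3))))))) (.node 69659000834 (.node 4073 (.node 69591891970 (.node 69558337538 (.node 4057 (.leaf 3) (.leaf 3)) (.node 4057 (.leaf 3) (.leaf 3))) (.node 69625446402 (.node 4057 (.leaf 3) (.leaf 3)) (.node 4057 (.leaf 3) (.leaf 3)))) (.node 69591891970 (.node 4089 (.leaf 3) (.leaf 3)) (.node 4089 (.leaf 3) (.leaf 3)))) (.node 4073 (.node 69726109698 (.node 69692555266 (.node 4057 (.leaf 3) (.leaf 3)) (.node 4057 (.leaf 3) (.leaf 3))) (.node 69759664130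 (.node 4057 (.leaf 3) (.leaf 3)) (.node 4057 (.leaf 3) (.leaf 3)))) (.node 69726109698 (.node 4089 (.leaf 3) (.leaf 3)) (.node 4089 (.node 69759664130 (.leaf 3) (.leaf 3)) (.leaf 3))))))))))))
    ⟨25769803776, 25769803776, 949187772416, 1103806595072, 4294967296, 4362076160, 4294967296, 4294967296, 4294967296, 4294967296, 0⟩ = true := by decide +kernel

theorem bk6_12 : Tr.run2 ce0 pBK
    (.comp 15 878707508304657351360434551122834978055195126606888818594831397028026142524423405647564614225294104738585843379513965947812123235182620836780755942339034218496 (.setw 57586975264254024178757438742386124212504044300607905935284001487175814062329554752826584765699817735549288168466709455537064643095070193482367086496904162865840383 (.node 3801 (.node 70330089474 (.node 3657 (.node 70061654018 (.node 3593 (.node 69927436290 (.node 3561 (.node 69860327426 (.node 69826772994 (.node 3545 (.leaf 1) (.leaf 1)) (.node 3545 (.leaf 1) (.leaf 1))) (.node 69893881858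 (.node 3545 (.leaf 1) (.leaf 1)) (.node 3545 (.leaf 1) (.leaf 1)))) (.node 69860327426 (.node 69826772994 (.node 3577 (.leaf 1) (.leaf 1)) (.node 3577 (.leaf 1) (.leaf 1))) (.node 69893881858 (.node 3577 (.leaf 1) (.leaf 1)) (.node 3577 (.leaf 1) (.leaf 1))))) (.node 3561 (.node 69994545154 (.node 69960990722 (.node 3545 (.leaf 1) (.leaf 1)) (.node 3545 (.leaf 1) (.leaf 1))) (.node 70028099586 (.node 3545 (.leaf 1) (.leaf 1)) (.node 3545 (.leaf 1) (.leaf 1)))) (.node 69994545154 (.node 69960990722 (.node 3577 (.leaf 1) (.leaf 1)) (.node 3577 (.leaf 1) (.leaf 1))) (.node 70028099586 (.node 3577 (.leaf 1) (.leaf 1)) (.node 3577 (.leaf 1) (.leaf 1)))))) (.node 69927436290 (.node 3625 (.node 69860327426 (.node 69826772994 (.node 3609 (.leaf 1) (.leaf 1)) (.node 3609 (.leaf 1) (.leaf 1))) (.node 69893881858 (.node 3609 (.leaf 1) (.leaf 1)) (.node 3609 (.leaf 1) (.leaf 1)))) (.node 69860327426 (.node 69826772994 (.node 3641 (.leaf 1) (.leaf 1)) (.node 3641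 (.leaf 1) (.leaf 1))) (.node 69893881858 (.node 3641 (.leaf 1) (.leaf 1)) (.node 3641 (.leaf 1) (.leaf 1))))) (.node 3625 (.node 69994545154 (.node 69960990722 (.node 3609 (.leaf 1) (.leaf 1)) (.node 3609 (.leaf 1) (.leaf 1))) (.node 70028099586 (.node 3609 (.leaf 1) (.leaf 1)) (.node 3609 (.leaf 1) (.leaf 1)))) (.node 69994545154 (.node 69960990722 (.node 3641 (.leaf 1) (.leaf 1)) (.node 3641 (.leaf 1) (.leaf 1))) (.node 70028099586 (.node 3641 (.leaf 1)
    (.leaf 1)) (.node 3641 (.leaf 1) (.leaf 1))))))) (.node 3593 (.node 70195871746 (.node 3561 (.node 70128762882 (.node 70095208450 (.node 3545 (.leaf 1) (.leaf 1)) (.node 3545 (.leaf 1) (.leaf 1))) (.node 70162317314 (.node 3545 (.leaf 1) (.leaf 1)) (.node 3545 (.leaf 1) (.leaf 1)))) (.node 70128762882 (.node 70095208450 (.node 3577 (.leaf 1) (.leaf 1)) (.node 3577 (.leaf 1) (.leaf 1))) (.node 70162317314 (.node 3577 (.leaf 1) (.leaf 1)) (.node 3577 (.leaf 1) (.leaf 1))))) (.node 3561 (.node 70262980610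 (.node 70229426178 (.node 3545 (.leaf 1) (.leaf 1)) (.node 3545 (.leaf 1) (.leaf 1))) (.node 70296535042 (.node 3545 (.leaf 1) (.leaf 1)) (.node 3545 (.leaf 1) (.leaf 1)))) (.node 70262980610 (.node 70229426178 (.node 3577 (.leaf 1) (.leaf 1)) (.node 3577 (.leaf 1) (.leaf 1))) (.node 70296535042 (.node 3577 (.leaf 1) (.leaf 1)) (.node 3577 (.leaf 1) (.leaf 1)))))) (.node 70195871746 (.node 3625 (.node 70128762882 (.node 70095208450 (.node 3609 (.leaf 1) (.leaf 1)) (.node 3609 (.leaf 1) (.leaf 1))) (.node 70162317314 (.node 3609 (.leaf 1) (.leaf 1)) (.node 3609 (.leaf 1) (.leaf 1)))) (.node 70128762882 (.node 70095208450 (.node 3641 (.leaf 1) (.leaf 1)) (.node 3641 (.leaf 1) (.leaf 1))) (.node 70162317314 (.node 3641 (.leaf 1) (.leaf 1)) (.node 3641 (.leaf 1) (.leaf 1))))) (.node 3625 (.node 70262980610 (.node 70229426178 (.node 3609 (.leaf 1) (.leaf 1)) (.node 3609 (.leaf 1) (.leaf 1))) (.node 70296535042 (.node 3609 (.leaf 1) (.leaf 1)) (.node 3609 (.leaf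 1) (.leaf 1)))) (.node 70262980610 (.node 70229426178 (.node 3641 (.leaf 1) (.leaf 1)) (.node 3641 (.leaf 1) (.leaf 1))) (.node 70296535042 (.node 3641 (.leaf 1) (.leaf 1)) (.node 3641 (.leaf 1) (.leaf 1)))))))) (.node 70061654018 (.node 3721 (.node 69927436290 (.node 3689 (.node 69860327426 (.node 69826772994 (.node 3673 (.leaf 1) (.leaf 1)) (.node 3673 (.leaf 1) (.leaf 1))) (.node 69893881858 (.node 3673 (.leaf 1) (.leaf 1)) (.node 3673 (.leaf 1) (.leaf 1)))) (.node 69860327426 (.node 69826772994 (.node 3705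
    (.leaf 1) (.leaf 1)) (.node 3705 (.leaf 1) (.leaf 1))) (.node 69893881858 (.node 3705 (.leaf 1) (.leaf 1)) (.node 3705 (.leaf 1) (.leaf 1))))) (.node 3689 (.node 69994545154 (.node 69960990722 (.node 3673 (.leaf 1) (.leaf 1)) (.node 3673 (.leaf 1) (.leaf 1))) (.node 70028099586 (.node 3673 (.leaf 1) (.leaf 1)) (.node 3673 (.leaf 1) (.leaf 1)))) (.node 69994545154 (.node 69960990722 (.node 3705 (.leaf 1) (.leaf 1)) (.node 3705 (.leaf 1) (.leaf 1))) (.node 70028099586 (.node 3705 (.leaf 1) (.leaf 1)) (.node 3705 (.leaf 1) (.leaf 1)))))) (.node 69927436290 (.node 3753 (.node 69860327426 (.node 69826772994 (.node 3737 (.leaf 1) (.leaf 1)) (.node 3737 (.leaf 1) (.leaf 1))) (.node 69893881858 (.node 3737 (.leaf 1) (.leaf 1)) (.node 3737 (.leaf 1) (.leaf 1)))) (.node 69860327426 (.node 3769 (.leaf 1) (.node 69826772994 (.node 3785 (.leaf 1) (.leaf 1)) (.node 3785 (.leaf 1) (.leaf 1)))) (.node 3769 (.leaf 1) (.node 69893881858 (.node 3785 (.leaf 1) (.leaf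 1)) (.node 3785 (.leaf 1) (.leaf 1)))))) (.node 3753 (.node 69994545154 (.node 69960990722 (.node 3737 (.leaf 1) (.leaf 1)) (.node 3737 (.leaf 1) (.leaf 1))) (.node 70028099586 (.node 3737 (.leaf 1) (.leaf 1)) (.node 3737 (.leaf 1) (.leaf 1)))) (.node 69994545154 (.node 3769 (.leaf 1) (.node 69960990722 (.node 3785 (.leaf 1) (.leaf 1)) (.node 3785 (.leaf 1) (.leaf 1)))) (.node 3769 (.leaf 1) (.node 70028099586 (.node 3785 (.leaf 1) (.leaf 1)) (.node 3785 (.leaf 1) (.leaf 1)))))))) (.node 3721 (.node 70195871746 (.node 3689 (.node 70128762882 (.node 70095208450 (.node 3673 (.leaf 1) (.leaf 1)) (.node 3673 (.leaf 1) (.leaf 1))) (.node 70162317314 (.node 3673 (.leaf 1) (.leaf 1)) (.node 3673 (.leaf 1) (.leaf 1)))) (.node 70128762882 (.node 70095208450 (.node 3705 (.leaf 1) (.leaf 1)) (.node 3705 (.leaf 1) (.leaf 1))) (.node 70162317314 (.node 3705 (.leaf 1) (.leaf 1)) (.node 3705 (.leaf 1) (.leaf 1))))) (.node 3689 (.node 70262980610 (.node 70229426178 (.node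 3673 (.leaf 1) (.leaf 1)) (.node 3673 (.leaf 1) (.leaf 1)))
    (.node 70296535042 (.node 3673 (.leaf 1) (.leaf 1)) (.node 3673 (.leaf 1) (.leaf 1)))) (.node 70262980610 (.node 70229426178 (.node 3705 (.leaf 1) (.leaf 1)) (.node 3705 (.leaf 1) (.leaf 1))) (.node 70296535042 (.node 3705 (.leaf 1) (.leaf 1)) (.node 3705 (.leaf 1) (.leaf 1)))))) (.node 70195871746 (.node 3753 (.node 70128762882 (.node 70095208450 (.node 3737 (.leaf 1) (.leaf 1)) (.node 3737 (.leaf 1) (.leaf 1))) (.node 70162317314 (.node 3737 (.leaf 1) (.leaf 1)) (.node 3737 (.leaf 1) (.leaf 1)))) (.node 70128762882 (.node 3769 (.leaf 1) (.node 70095208450 (.node 3785 (.leaf 1) (.leaf 1)) (.node 3785 (.leaf 1) (.leaf 1)))) (.node 3769 (.leaf 1) (.node 70162317314 (.node 3785 (.leaf 1) (.leaf 1)) (.node 3785 (.leaf 1) (.leaf 1)))))) (.node 3753 (.node 70262980610 (.node 70229426178 (.node 3737 (.leaf 1) (.leaf 1)) (.node 3737 (.leaf 1) (.leaf 1))) (.node 70296535042 (.node 3737 (.leaf 1)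 (.leaf 1)) (.node 3737 (.leaf 1) (.leaf 1)))) (.node 70262980610 (.node 3769 (.leaf 1) (.node 70229426178 (.node 3785 (.leaf 1) (.leaf 1)) (.node 3785 (.leaf 1) (.leaf 1)))) (.node 3769 (.leaf 1) (.node 70296535042 (.node 3785 (.leaf 1) (.leaf 1)) (.node 3785 (.leaf 1) (.leaf 1)))))))))) (.node 3657 (.node 70598524930 (.node 3593 (.node 70464307202 (.node 3561 (.node 70397198338 (.node 70363643906 (.node 3545 (.leaf 1) (.leaf 1)) (.node 3545 (.leaf 1) (.leaf 1))) (.node 70430752770 (.node 3545 (.leaf 1) (.leaf 1)) (.node 3545 (.leaf 1) (.leaf 1)))) (.node 70397198338 (.node 70363643906 (.node 3577 (.leaf 1) (.leaf 1)) (.node 3577 (.leaf 1) (.leaf 1))) (.node 70430752770 (.node 3577 (.leaf 1) (.leaf 1)) (.node 3577 (.leaf 1) (.leaf 1))))) (.node 3561 (.node 70531416066 (.node 70497861634 (.node 3545 (.leaf 1) (.leaf 1)) (.node 3545 (.leaf 1) (.leaf 1))) (.node 70564970498 (.node 3545 (.leaf 1) (.leaf 1)) (.node 3545 (.leaf 1) (.leaf 1)))) (.node 70531416066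 (.node 70497861634 (.node 3577 (.leaf 1) (.leaf 1)) (.node 3577 (.leaf 1) (.leaf 1))) (.node 70564970498 (.node 3577 (.leaf
    1) (.leaf 1)) (.node 3577 (.leaf 1) (.leaf 1)))))) (.node 70464307202 (.node 3625 (.node 70397198338 (.node 70363643906 (.node 3609 (.leaf 1) (.leaf 1)) (.node 3609 (.leaf 1) (.leaf 1))) (.node 70430752770 (.node 3609 (.leaf 1) (.leaf 1)) (.node 3609 (.leaf 1) (.leaf 1)))) (.node 70397198338 (.node 70363643906 (.node 3641 (.leaf 1) (.leaf 1)) (.node 3641 (.leaf 1) (.leaf 1))) (.node 70430752770 (.node 3641 (.leaf 1) (.leaf 1)) (.node 3641 (.leaf 1) (.leaf 1))))) (.node 3625 (.node 70531416066 (.node 70497861634 (.node 3609 (.leaf 1) (.leaf 1)) (.node 3609 (.leaf 1) (.leaf 1))) (.node 70564970498 (.node 3609 (.leaf 1) (.leaf 1)) (.leaf 255))) (.node 70531416066 (.node 70497861634 (.node 3641 (.leaf 1) (.leaf 1)) (.node 3641 (.leaf 1) (.leaf 1))) (.node 70564970498 (.node 3641 (.leaf 1) (.leaf 1)) (.leaf 255)))))) (.node 3593 (.node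 70732742658 (.node 3561 (.node 70665633794 (.node 70632079362 (.node 3545 (.leaf 1) (.leaf 1)) (.node 3545 (.leaf 1) (.leaf 1))) (.node 70699188226 (.node 3545 (.leaf 1) (.leaf 1)) (.node 3545 (.leaf 1) (.leaf 1)))) (.node 70665633794 (.node 70632079362 (.node 3577 (.leaf 1) (.leaf 1)) (.node 3577 (.leaf 1) (.leaf 1))) (.node 70699188226 (.node 3577 (.leaf 1) (.leaf 1)) (.node 3577 (.leaf 1) (.leaf 1))))) (.node 3561 (.node 70799851522 (.node 70766297090 (.node 3545 (.leaf 1) (.leaf 1)) (.node 3545 (.leaf 1) (.leaf 1))) (.node 70833405954 (.node 3545 (.leaf 1) (.leaf 1)) (.node 3545 (.leaf 1) (.leaf 1)))) (.node 70799851522 (.node 70766297090 (.node 3577 (.leaf 1) (.leaf 1)) (.node 3577 (.leaf 1) (.leaf 1))) (.node 70833405954 (.node 3577 (.leaf 1) (.leaf 1)) (.node 3577 (.leaf 1) (.leaf 1)))))) (.node 70732742658 (.node 3625 (.leaf 255) (.leaf 255)) (.node 3625 (.leaf 255) (.node 70799851522 (.leaf 255) (.node 70833405954 (.node 3641 (.leaf 1) (.leaf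 1)) (.node 3641 (.leaf 1) (.leaf 1)))))))) (.node 70598524930 (.node 3721 (.node 70464307202 (.node 3689 (.node 70397198338 (.node 70363643906 (.node 3673 (.leaf 1) (.leaf 1)) (.node 3673
    (.leaf 1) (.leaf 1))) (.node 70430752770 (.node 3673 (.leaf 1) (.leaf 1)) (.node 3673 (.leaf 1) (.leaf 1)))) (.node 70397198338 (.node 70363643906 (.node 3705 (.leaf 1) (.leaf 1)) (.node 3705 (.leaf 1) (.leaf 1))) (.node 70430752770 (.node 3705 (.leaf 1) (.leaf 1)) (.node 3705 (.leaf 1) (.leaf 1))))) (.node 3689 (.node 70531416066 (.node 70497861634 (.node 3673 (.leaf 1) (.leaf 1)) (.node 3673 (.leaf 1) (.leaf 1))) (.leaf 255)) (.node 70531416066 (.node 70497861634 (.node 3705 (.leaf 1) (.leaf 1)) (.node 3705 (.leaf 1) (.leaf 1))) (.leaf 255)))) (.node 70464307202 (.node 3753 (.node 70397198338 (.node 70363643906 (.node 3737 (.leaf 1) (.leaf 1)) (.node 3737 (.leaf 1) (.leaf 1))) (.node 70430752770 (.node 3737 (.leaf 1) (.leaf 1)) (.node 3737 (.leaf 1) (.leaf 1))))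 (.node 70397198338 (.node 3769 (.leaf 1) (.node 70363643906 (.node 3785 (.leaf 1) (.leaf 1)) (.node 3785 (.leaf 1) (.leaf 1)))) (.node 3769 (.leaf 1) (.node 70430752770 (.node 3785 (.leaf 1) (.leaf 1)) (.node 3785 (.leaf 1) (.leaf 1)))))) (.node 3753 (.node 70531416066 (.node 70497861634 (.node 3737 (.leaf 1) (.leaf 1)) (.leaf 255)) (.leaf 255)) (.node 70531416066 (.node 3769 (.leaf 1) (.node 70497861634 (.node 3785 (.leaf 1) (.leaf 1)) (.node 3785 (.leaf 1) (.leaf 1)))) (.node 3769 (.leaf 1) (.node 70564970498 (.node 3785 (.leaf 1) (.leaf 1)) (.node 3785 (.leaf 1) (.leaf 1)))))))) (.node 3721 (.node 70732742658 (.node 3689 (.leaf 255) (.leaf 255)) (.node 3689 (.node 70799851522 (.leaf 255) (.node 70833405954 (.node 3673 (.leaf 1) (.leaf 1)) (.leaf 255))) (.leaf 255))) (.node 70732742658 (.node 3753 (.leaf 255) (.node 70665633794 (.node 3769 (.leaf 1) (.node 70632079362 (.node 3785 (.leaf 1) (.leaf 1)) (.node 3785 (.leaf 1) (.leaf 1)))) (.node 3769 (.leaf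 1) (.node 70699188226 (.node 3785 (.leaf 1) (.leaf 1)) (.node 3785 (.leaf 1) (.leaf 1)))))) (.node 3753 (.node 70799851522 (.node 70766297090 (.leaf 255) (.node 3737 (.leaf 1) (.leaf 1))) (.leaf 255)) (.node 70799851522 (.node 3769 (.leaf 1) (.node
    70766297090 (.node 3785 (.leaf 1) (.leaf 1)) (.node 16252156248065 (.leaf 1) (.leaf 1)))) (.node 3769 (.leaf 1) (.node 16252156248065 (.leaf 1) (.leaf 1)))))))))) (.node 70330089474 (.node 3961 (.node 70061654018 (.node 3881 (.node 69927436290 (.node 3833 (.node 69860327426 (.node 69826772994 (.node 3817 (.leaf 1) (.leaf 1)) (.node 3817 (.leaf 1) (.leaf 1))) (.node 69893881858 (.node 3817 (.leaf 1) (.leaf 1)) (.node 3817 (.leaf 1) (.leaf 1)))) (.node 69860327426 (.node 3849 (.leaf 1) (.node 69826772994 (.node 3865 (.leaf 1) (.leaf 1)) (.node 3865 (.leaf 1) (.leaf 1)))) (.node 3849 (.leaf 1) (.node 69893881858 (.node 3865 (.leaf 1) (.leaf 1)) (.node 3865 (.leaf 1) (.leaf 1)))))) (.node 3833 (.node 69994545154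 (.node 69960990722 (.node 3817 (.leaf 1) (.leaf 1)) (.node 3817 (.leaf 1) (.leaf 1))) (.node 70028099586 (.node 3817 (.leaf 1) (.leaf 1)) (.node 3817 (.leaf 1) (.leaf 1)))) (.node 69994545154 (.node 3849 (.leaf 1) (.node 69960990722 (.node 3865 (.leaf 1) (.leaf 1)) (.node 3865 (.leaf 1) (.leaf 1)))) (.node 3849 (.leaf 1) (.node 70028099586 (.node 3865 (.leaf 1) (.leaf 1)) (.node 3865 (.leaf 1) (.leaf 1))))))) (.node 69927436290 (.node 3913 (.node 69860327426 (.node 69826772994 (.node 3897 (.leaf 1) (.leaf 1)) (.node 3897 (.leaf 1) (.leaf 1))) (.node 69893881858 (.node 3897 (.leaf 1) (.leaf 1)) (.node 3897 (.leaf 1) (.leaf 1)))) (.node 69860327426 (.node 3929 (.leaf 1) (.node 69826772994 (.node 3945 (.leaf 1) (.leaf 1)) (.node 3945 (.leaf 1) (.leaf 1)))) (.node 3929 (.leaf 1) (.node 69893881858 (.node 3945 (.leaf 1) (.leaf 1)) (.node 3945 (.leaf 1) (.leaf 1)))))) (.node 3913 (.node 69994545154 (.node 69960990722 (.node 3897 (.leaf 1) (.leaf 1)) (.node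 3897 (.leaf 1) (.leaf 1))) (.node 70028099586 (.node 3897 (.leaf 1) (.leaf 1)) (.node 3897 (.leaf 1) (.leaf 1)))) (.node 69994545154 (.node 3929 (.leaf 1) (.node 69960990722 (.node 3945 (.leaf 1) (.leaf 1)) (.node 3945 (.leaf 1) (.leaf 1)))) (.node 3929 (.leaf 1) (.node 70028099586 (.node 3945 (.leaf 1) (.leaf
    1)) (.node 3945 (.leaf 1) (.leaf 1)))))))) (.node 3881 (.node 70195871746 (.node 3833 (.node 70128762882 (.node 70095208450 (.node 3817 (.leaf 1) (.leaf 1)) (.node 3817 (.leaf 1) (.leaf 1))) (.node 70162317314 (.node 3817 (.leaf 1) (.leaf 1)) (.node 3817 (.leaf 1) (.leaf 1)))) (.node 70128762882 (.node 3849 (.leaf 1) (.node 70095208450 (.node 3865 (.leaf 1) (.leaf 1)) (.node 3865 (.leaf 1) (.leaf 1)))) (.node 3849 (.leaf 1) (.node 70162317314 (.node 3865 (.leaf 1) (.leaf 1)) (.node 3865 (.leaf 1) (.leaf 1)))))) (.node 3833 (.node 70262980610 (.node 70229426178 (.node 3817 (.leaf 1) (.leaf 1)) (.node 3817 (.leaf 1) (.leaf 1))) (.node 70296535042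 (.node 3817 (.leaf 1) (.leaf 1)) (.node 3817 (.leaf 1) (.leaf 1)))) (.node 70262980610 (.node 3849 (.leaf 1) (.node 70229426178 (.node 3865 (.leaf 1) (.leaf 1)) (.node 3865 (.leaf 1) (.leaf 1)))) (.node 3849 (.leaf 1) (.node 70296535042 (.node 3865 (.leaf 1) (.leaf 1)) (.node 3865 (.leaf 1) (.leaf 1))))))) (.node 70195871746 (.node 3913 (.node 70128762882 (.node 70095208450 (.node 3897 (.leaf 1) (.leaf 1)) (.node 3897 (.leaf 1) (.leaf 1))) (.node 70162317314 (.node 3897 (.leaf 1) (.leaf 1)) (.node 3897 (.leaf 1) (.leaf 1)))) (.node 70128762882 (.node 3929 (.leaf 1) (.node 70095208450 (.node 3945 (.leaf 1) (.leaf 1)) (.node 3945 (.leaf 1) (.leaf 1)))) (.node 3929 (.leaf 1) (.node 70162317314 (.node 3945 (.leaf 1) (.leaf 1)) (.node 3945 (.leaf 1) (.leaf 1)))))) (.node 3913 (.node 70262980610 (.node 70229426178 (.node 3897 (.leaf 1) (.leaf 1)) (.node 3897 (.leaf 1) (.leaf 1))) (.node 70296535042 (.node 3897 (.leaf 1) (.leaf 1)) (.node 3897 (.leaf 1) (.leaf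 1)))) (.node 70262980610 (.node 3929 (.leaf 1) (.node 70229426178 (.node 3945 (.leaf 1) (.leaf 1)) (.node 3945 (.leaf 1) (.leaf 1)))) (.node 3929 (.leaf 1) (.node 70296535042 (.node 3945 (.leaf 1) (.leaf 1)) (.node 3945 (.leaf 1) (.leaf 1))))))))) (.node 70061654018 (.node 4041 (.node 69927436290 (.node 3993 (.node 69860327426 (.node 69826772994 (.node 3977 (.leaf 1)
    (.leaf 1)) (.node 3977 (.leaf 1) (.leaf 1))) (.node 69893881858 (.node 3977 (.leaf 1) (.leaf 1)) (.node 3977 (.leaf 1) (.leaf 1)))) (.node 69860327426 (.node 4009 (.leaf 1) (.node 69826772994 (.node 4025 (.leaf 1) (.leaf 1)) (.node 4025 (.leaf 1) (.leaf 1)))) (.node 4009 (.leaf 1) (.node 69893881858 (.node 4025 (.leaf 1) (.leaf 1)) (.node 4025 (.leaf 1) (.leaf 1)))))) (.node 3993 (.node 69994545154 (.node 69960990722 (.node 3977 (.leaf 1) (.leaf 1)) (.node 3977 (.leaf 1) (.leaf 1))) (.node 70028099586 (.node 3977 (.leaf 1) (.leaf 1)) (.node 3977 (.leaf 1) (.leaf 1)))) (.node 69994545154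 (.node 4009 (.leaf 1) (.node 69960990722 (.node 4025 (.leaf 1) (.leaf 1)) (.node 4025 (.leaf 1) (.leaf 1)))) (.node 4009 (.leaf 1) (.node 70028099586 (.node 4025 (.leaf 1) (.leaf 1)) (.node 4025 (.leaf 1) (.leaf 1))))))) (.node 69927436290 (.node 4073 (.node 69860327426 (.node 69826772994 (.node 4057 (.leaf 1) (.leaf 1)) (.node 4057 (.leaf 1) (.leaf 1))) (.node 69893881858 (.node 4057 (.leaf 1) (.leaf 1)) (.node 4057 (.leaf 1) (.leaf 1)))) (.node 69860327426 (.node 4089 (.leaf 1) (.node 17626545782785 (.leaf 1) (.leaf 1))) (.node 4089 (.leaf 1) (.node 69893881858 (.node 17626545782785 (.leaf 1) (.leaf 1)) (.node 4105 (.leaf 1) (.leaf 1)))))) (.node 4073 (.node 69994545154 (.node 69960990722 (.node 4057 (.leaf 1) (.leaf 1)) (.node 4057 (.leaf 1) (.leaf 1))) (.node 70028099586 (.node 4057 (.leaf 1) (.leaf 1)) (.node 4057 (.leaf 1) (.leaf 1)))) (.node 69994545154 (.node 4089 (.leaf 1) (.node 69960990722 (.node 4105 (.leaf 1) (.leaf 1)) (.node 4105 (.leaf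 1) (.leaf 1)))) (.node 4089 (.leaf 1) (.node 70028099586 (.node 4105 (.leaf 1) (.leaf 1)) (.node 4105 (.leaf 1) (.leaf 1)))))))) (.node 4041 (.node 70195871746 (.node 3993 (.node 70128762882 (.node 70095208450 (.node 3977 (.leaf 1) (.leaf 1)) (.node 3977 (.leaf 1) (.leaf 1))) (.node 70162317314 (.node 3977 (.leaf 1) (.leaf 1)) (.node 3977 (.leaf 1) (.leaf 1)))) (.node 70128762882 (.node 4009 (.leaf 1) (.node 70095208450 (.node 4025
    (.leaf 1) (.leaf 1)) (.node 4025 (.leaf 1) (.leaf 1)))) (.node 4009 (.leaf 1) (.node 70162317314 (.node 4025 (.leaf 1) (.leaf 1)) (.node 4025 (.leaf 1) (.leaf 1)))))) (.node 3993 (.node 70262980610 (.node 70229426178 (.node 3977 (.leaf 1) (.leaf 1)) (.node 3977 (.leaf 1) (.leaf 1))) (.node 70296535042 (.node 3977 (.leaf 1) (.leaf 1)) (.node 3977 (.leaf 1) (.leaf 1)))) (.node 70262980610 (.node 4009 (.leaf 1) (.node 70229426178 (.node 4025 (.leaf 1) (.leaf 1)) (.node 4025 (.leaf 1) (.leaf 1)))) (.node 4009 (.leaf 1) (.node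 70296535042 (.node 4025 (.leaf 1) (.leaf 1)) (.node 4025 (.leaf 1) (.leaf 1))))))) (.node 70195871746 (.node 4073 (.node 70128762882 (.node 70095208450 (.node 4057 (.leaf 1) (.leaf 1)) (.node 4057 (.leaf 1) (.leaf 1))) (.node 70162317314 (.node 4057 (.leaf 1) (.leaf 1)) (.node 4057 (.leaf 1) (.leaf 1)))) (.node 70128762882 (.node 4089 (.leaf 1) (.node 70095208450 (.node 4105 (.leaf 1) (.leaf 1)) (.node 4105 (.leaf 1) (.leaf 1)))) (.node 4089 (.leaf 1) (.node 70162317314 (.node 4105 (.leaf 1) (.leaf 1)) (.node 4105 (.leaf 1) (.leaf 1)))))) (.node 4073 (.node 70262980610 (.node 70229426178 (.node 4057 (.leaf 1) (.leaf 1)) (.node 4057 (.leaf 1) (.leaf 1))) (.node 70296535042 (.node 4057 (.leaf 1) (.leaf 1)) (.node 4057 (.leaf 1) (.leaf 1)))) (.node 70262980610 (.node 4089 (.leaf 1) (.node 70229426178 (.node 4105 (.leaf 1) (.leaf 1)) (.node 4105 (.leaf 1) (.leaf 1)))) (.node 4089 (.leaf 1) (.node 70296535042 (.node 4105 (.leaf 1) (.leaf 1)) (.node 4105 (.leaf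 1) (.leaf 1)))))))))) (.node 3961 (.node 70598524930 (.node 3881 (.node 70464307202 (.node 3833 (.node 70397198338 (.node 70363643906 (.node 3817 (.leaf 1) (.leaf 1)) (.node 3817 (.leaf 1) (.leaf 1))) (.node 70430752770 (.node 3817 (.leaf 1) (.leaf 1)) (.node 3817 (.leaf 1) (.leaf 1)))) (.node 70397198338 (.node 3849 (.leaf 1) (.node 70363643906 (.node 3865 (.leaf 1) (.leaf 1)) (.node 3865 (.leaf 1) (.leaf 1)))) (.node 3849 (.leaf 1) (.node 70430752770 (.node 3865 (.leaf 1) (.leaf 1)) (.node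
    3865 (.leaf 1) (.leaf 1)))))) (.node 3833 (.node 70531416066 (.node 70497861634 (.node 3817 (.leaf 1) (.leaf 1)) (.node 3817 (.leaf 1) (.leaf 1))) (.node 70564970498 (.node 3817 (.leaf 1) (.leaf 1)) (.node 3817 (.leaf 1) (.leaf 1)))) (.node 70531416066 (.node 3849 (.leaf 1) (.node 70497861634 (.node 3865 (.leaf 1) (.leaf 1)) (.node 3865 (.leaf 1) (.leaf 1)))) (.node 3849 (.leaf 1) (.node 70564970498 (.node 3865 (.leaf 1) (.leaf 1)) (.node 3865 (.leaf 1) (.leaf 1))))))) (.node 70464307202 (.node 3913 (.node 70397198338 (.node 70363643906 (.node 3897 (.leaf 1) (.leaf 1)) (.node 3897 (.leaf 1) (.leaf 1))) (.node 70430752770 (.node 3897 (.leaf 1) (.leaf 1)) (.node 3897 (.leaf 1) (.leaf 1)))) (.node 70397198338 (.node 3929 (.leaf 1) (.node 70363643906 (.node 3945 (.leaf 1) (.leaf 1)) (.node 3945 (.leaf 1) (.leaf 1)))) (.node 3929 (.leaf 1) (.leaf 255)))) (.node 3913 (.node 70531416066 (.node 70497861634 (.node 3897 (.leaf 1) (.leaf 1)) (.node 3897 (.leaf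 1) (.leaf 1))) (.node 70564970498 (.node 3897 (.leaf 1) (.leaf 1)) (.node 3897 (.leaf 1) (.leaf 1)))) (.node 70531416066 (.node 3929 (.leaf 1) (.leaf 255)) (.node 3929 (.leaf 1) (.leaf 255)))))) (.node 3881 (.node 70732742658 (.node 3833 (.node 70665633794 (.node 70632079362 (.node 3817 (.leaf 1) (.leaf 1)) (.node 3817 (.leaf 1) (.leaf 1))) (.node 70699188226 (.node 3817 (.leaf 1) (.leaf 1)) (.node 3817 (.leaf 1) (.leaf 1)))) (.node 70665633794 (.node 3849 (.leaf 1) (.node 70632079362 (.node 3865 (.leaf 1) (.leaf 1)) (.node 3865 (.leaf 1) (.leaf 1)))) (.node 3849 (.leaf 1) (.node 70699188226 (.node 3865 (.leaf 1) (.leaf 1)) (.node 3865 (.leaf 1) (.leaf 1)))))) (.node 3833 (.node 70799851522 (.node 70766297090 (.node 3817 (.leaf 1) (.leaf 1)) (.node 16389595201537 (.leaf 1) (.leaf 1))) (.node 16389595201537 (.leaf 1) (.leaf 1))) (.node 70799851522 (.node 3849 (.leaf 1) (.node 16595753631745 (.leaf 1) (.leaf 1))) (.node 3849 (.leaf 1) (.node 16595753631745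 (.leaf 1) (.leaf 1)))))) (.node 70732742658 (.node 3913 (.node
    70665633794 (.node 70632079362 (.node 3897 (.leaf 1) (.leaf 1)) (.node 3897 (.leaf 1) (.leaf 1))) (.node 70699188226 (.node 3897 (.leaf 1) (.leaf 1)) (.node 16733192585217 (.leaf 1) (.leaf 1)))) (.node 70665633794 (.node 3929 (.leaf 1) (.leaf 255)) (.node 3929 (.leaf 1) (.leaf 255)))) (.node 3913 (.node 16733192585217 (.leaf 1) (.leaf 1)) (.node 70799851522 (.node 3929 (.leaf 1) (.leaf 255)) (.node 3929 (.leaf 1) (.leaf 255))))))) (.node 70598524930 (.node 4041 (.node 70464307202 (.node 3993 (.node 70397198338 (.node 70363643906 (.node 3977 (.leaf 1) (.leaf 1)) (.node 3977 (.leaf 1) (.leaf 1))) (.leaf 255)) (.node 70397198338 (.node 4009 (.leaf 1) (.node 70363643906 (.node 4025 (.leaf 1) (.leaf 1)) (.node 4025 (.leaf 1) (.leaf 1)))) (.node 4009 (.leaf 1) (.node 70430752770 (.node 4025 (.leaf 1) (.leaf 1)) (.node 4025 (.leaf 1) (.leaf 1)))))) (.node 3993 (.leaf 255) (.node 70531416066 (.node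 4009 (.leaf 1) (.node 70497861634 (.node 4025 (.leaf 1) (.leaf 1)) (.node 4025 (.leaf 1) (.leaf 1)))) (.node 4009 (.leaf 1) (.node 70564970498 (.node 4025 (.leaf 1) (.leaf 1)) (.node 4025 (.leaf 1) (.leaf 1))))))) (.node 70464307202 (.node 4073 (.node 70397198338 (.node 70363643906 (.node 4057 (.leaf 1) (.leaf 1)) (.node 4057 (.leaf 1) (.leaf 1))) (.node 70430752770 (.node 4057 (.leaf 1) (.leaf 1)) (.node 4057 (.leaf 1) (.leaf 1)))) (.node 70397198338 (.node 4089 (.leaf 1) (.node 70363643906 (.node 4105 (.leaf 1) (.leaf 1)) (.leaf 255))) (.node 4089 (.leaf 1) (.leaf 255)))) (.node 4073 (.node 70531416066 (.node 70497861634 (.node 4057 (.leaf 1) (.leaf 1)) (.node 4057 (.leaf 1) (.leaf 1))) (.node 70564970498 (.node 4057 (.leaf 1) (.leaf 1)) (.node 4057 (.leaf 1) (.leaf 1)))) (.node 70531416066 (.node 4089 (.leaf 1) (.leaf 255)) (.node 4089 (.leaf 1) (.leaf 255)))))) (.node 4041 (.node 70732742658 (.node 3993 (.leaf 255) (.node 70665633794 (.node 4009 (.leaf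 1) (.node 70632079362 (.node 4025 (.leaf 1) (.leaf 1)) (.node 4025 (.leaf 1) (.leaf 1)))) (.node 4009 (.leaf 1) (.node
    70699188226 (.node 4025 (.leaf 1) (.leaf 1)) (.node 4025 (.leaf 1) (.leaf 1)))))) (.node 3993 (.leaf 255) (.node 70799851522 (.node 4009 (.leaf 1) (.node 70766297090 (.node 4025 (.leaf 1) (.leaf 1)) (.node 4025 (.leaf 1) (.leaf 1)))) (.node 4009 (.leaf 1) (.node 70833405954 (.node 4025 (.leaf 1) (.leaf 1)) (.node 4025 (.leaf 1) (.leaf 1))))))) (.node 70732742658 (.node 4073 (.node 70665633794 (.node 70632079362 (.node 4057 (.leaf 1) (.leaf 1)) (.node 4057 (.leaf 1) (.leaf 1))) (.node 70699188226 (.node 4057 (.leaf 1) (.leaf 1)) (.node 4057 (.leaf 1) (.leaf 1)))) (.node 70665633794 (.node 4089 (.leaf 1) (.leaf 255)) (.node 4089 (.leaf 1) (.leaf 255)))) (.node 4073 (.node 70799851522 (.node 70766297090 (.node 4057 (.leaf 1) (.leaf 1)) (.node 4057 (.leaf 1) (.leaf 1))) (.node 70833405954 (.node 4057 (.leaf 1) (.leaf 1)) (.node 4057 (.leaf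 1) (.leaf 1)))) (.node 70799851522 (.node 4089 (.leaf 1) (.leaf 255)) (.node 4089 (.leaf 1) (.leaf 255))))))))))))
    ⟨25769803776, 25769803776, 949187772416, 1103806595072, 4362076160, 4429185024, 4294967296, 4294967296, 4294967296, 4294967296, 0⟩ = true := by decide +kernel

theorem bk6_13 : Tr.run2 ce0 pBK
    (.comp 1 69617318994479544489843178514657935932170106125267997920069478441328732598048849434718954383499055293222523752248855904582839087957524269450907043878676145710501581036659895068009936453632 (.node 3529 (.comp 79 69617318994479544489843178514657935932170106125267997920069478441328732598048849434718954383499055293222523752248855904582839087957524269450907712905796054766088965596695319022899870826496 (.node 71940702210 (.setw 57586975264254637939496419268986751685572199475448946555667634561823842179462564747622640002105324495436027183813005841858902186978136478314537242067456847012430591 (.node 3289 (.setw 4562440617622211427686362547136622489250700075025563511689673339130919819545729396553741394476994087696631316627381020562740942468384310522734687872971949499951875826203488709212117572979262206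 (.node 71403831298 (.node 3177 (.node 71135395842 (.node 3129 (.node 71001178114 (.node 3097 (.leaf 3) (.node 70934069250 (.node 3113 (.leaf 3) (.leaf 3)) (.node 3113 (.leaf 3) (.leaf 3)))) (.node 3097 (.leaf 3) (.node 71068286978 (.node 3113 (.leaf 3) (.leaf 3)) (.node 3113 (.leaf 3) (.leaf 3))))) (.node 71001178114 (.node 3145 (.leaf 3) (.node 70934069250 (.node 3161 (.leaf 3) (.leaf 3)) (.node 3161 (.leaf 3) (.leaf 3)))) (.node 3145 (.leaf 3) (.node 71068286978 (.node 3161 (.leaf 3) (.leaf 3)) (.node 3161 (.leaf 3) (.leaf 3)))))) (.node 3129 (.node 71269613570 (.node 3097 (.leaf 3) (.node 71202504706 (.node 3113 (.leaf 3) (.leaf 3)) (.node 3113 (.leaf 3) (.leaf 3)))) (.node 3097 (.leaf 3) (.node 71336722434 (.node 3113 (.leaf 3) (.leaf 3)) (.node 3113 (.leaf 3) (.leaf 3))))) (.node 71269613570 (.node 3145 (.leaf 3) (.node 71202504706 (.node 3161 (.leaf 3) (.leaf 3)) (.leaf 3))) (.node 3145 (.leaf 3) (.leaf 3))))) (.node 71135395842 (.node 3225 (.node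 71001178114 (.node 3193 (.leaf 3) (.node 70934069250 (.node 3209 (.leaf 3) (.leaf 3)) (.node 3209 (.leaf 3) (.leaf 3)))) (.node 3193 (.leaf 3) (.node 71068286978 (.node 3209 (.leaf 3) (.leaf 3)) (.node 3209 (.leaf
    3) (.leaf 3))))) (.node 71001178114 (.node 3257 (.node 70934069250 (.node 3241 (.leaf 3) (.leaf 3)) (.node 3241 (.leaf 3) (.leaf 3))) (.node 70934069250 (.node 3273 (.leaf 3) (.leaf 3)) (.node 3273 (.leaf 3) (.leaf 3)))) (.node 3257 (.node 71068286978 (.node 3241 (.leaf 3) (.leaf 3)) (.node 3241 (.leaf 3) (.leaf 3))) (.node 71068286978 (.node 3273 (.leaf 3) (.leaf 3)) (.node 3273 (.leaf 3) (.leaf 3)))))) (.node 3225 (.node 71269613570 (.node 3193 (.leaf 3) (.leaf 254)) (.node 3193 (.leaf 3) (.leaf 254))) (.node 71269613570 (.node 3257 (.leaf 254) (.leaf 254)) (.node 3257 (.leaf 254) (.leaf 254)))))) (.node 3177 (.setw 4562440617622211427686362547136622489250700075025563511689673339130919819545729396553741394476994087696631316627381020562740942468384310522734644027632919885283431614818542883177099195425227517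 (.node 71672266754 (.node 3129 (.node 71538049026 (.node 3097 (.leaf 3) (.node 71470940162 (.node 3113 (.leaf 3) (.leaf 3)) (.node 3113 (.leaf 3) (.leaf 3)))) (.node 3097 (.leaf 3) (.node 71605157890 (.node 3113 (.leaf 3) (.leaf 3)) (.leaf 253)))) (.node 71538049026 (.node 3145 (.leaf 3) (.leaf 3)) (.node 3145 (.leaf 3) (.leaf 3)))) (.node 3129 (.node 71806484482 (.node 3097 (.leaf 3) (.leaf 253)) (.node 3097 (.leaf 3) (.leaf 253))) (.node 71806484482 (.node 3145 (.leaf 3) (.leaf 3)) (.node 3145 (.leaf 3) (.leaf 3)))))) (.node 71672266754 (.setw 57586975264254637939496419268986751685572199475448946555667634561823842179462067424386230215463169113187880362972905385708104839260696014337644082570444313636897533 (.node 3225 (.node 71538049026 (.node 3193 (.leaf 3) (.leaf 254)) (.leaf 253)) (.node 71538049026 (.node 3257 (.leaf 253) (.leaf 253)) (.node 3257 (.leaf 253) (.leaf 253))))) (.node 3225 (.leaf 255) (.node 71806484482 (.node 3257 (.leaf 255) (.leaf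 255)) (.node 3257 (.leaf 3) (.leaf 3)))))))) (.setw
    4562440617622211427686362547136622489250700075025563511689673339130919819545729396553741394476994087696631316627381020562740942468384310522734687873038851735547467695628095864030062657497203454 (.node 71403831298 (.node 3401 (.node 71135395842 (.node 3337 (.node 71001178114 (.node 3305 (.leaf 3) (.node 14259291422721 (.leaf 3) (.leaf 3))) (.node 3305 (.leaf 3) (.node 71068286978 (.node 3321 (.leaf 3) (.leaf 3)) (.leaf 3)))) (.node 71001178114 (.node 3369 (.node 70934069250 (.node 3353 (.leaf 3) (.leaf 3)) (.node 3353 (.leaf 3) (.leaf 3))) (.node 70934069250 (.node 3385 (.leaf 3) (.leaf 3)) (.node 3385 (.leaf 3) (.leaf 3)))) (.node 3369 (.node 71068286978 (.node 3353 (.leaf 3) (.leaf 3)) (.leaf 255)) (.leaf 255)))) (.node 3337 (.node 71269613570 (.node 3305 (.leaf 3) (.leaf 3)) (.node 3305 (.leaf 3) (.leaf 3))) (.node 71269613570 (.node 3369 (.leaf 255) (.leaf 255)) (.node 3369 (.leaf 255) (.leaf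 255))))) (.node 71135395842 (.node 3465 (.node 71001178114 (.node 3433 (.node 70934069250 (.node 70900514818 (.node 3417 (.leaf 3) (.leaf 3)) (.node 3417 (.leaf 3) (.leaf 3))) (.node 70967623682 (.node 3417 (.leaf 3) (.leaf 3)) (.node 3417 (.leaf 3) (.leaf 3)))) (.node 70934069250 (.node 70900514818 (.node 3449 (.leaf 3) (.leaf 3)) (.node 3449 (.leaf 3) (.leaf 3))) (.node 70967623682 (.node 3449 (.leaf 3) (.leaf 3)) (.leaf 255)))) (.node 3433 (.leaf 255) (.leaf 255))) (.node 71001178114 (.node 3497 (.node 70934069250 (.node 70900514818 (.node 3481 (.leaf 3) (.leaf 3)) (.node 3481 (.leaf 3) (.leaf 3))) (.node 70967623682 (.node 3481 (.leaf 3) (.leaf 3)) (.node 3481 (.leaf 3) (.leaf 3)))) (.node 70934069250 (.node 70900514818 (.node 3513 (.leaf 3) (.leaf 3)) (.node 3513 (.leaf 3) (.leaf 3))) (.node 70967623682 (.node 3513 (.leaf 3) (.leaf 3)) (.node 3513 (.leaf 3) (.leaf 3))))) (.node 3497 (.node 71068286978 (.node 71034732546 (.node 3481 (.leaf 3) (.leaf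 3)) (.node 3481 (.leaf 3) (.leaf 3))) (.node 71101841410 (.node 3481 (.leaf 3) (.leaf 3)) (.node 3481 (.leaf 3) (.leaf
    3)))) (.node 71068286978 (.node 71034732546 (.node 3513 (.leaf 3) (.leaf 3)) (.node 3513 (.leaf 3) (.leaf 3))) (.node 71101841410 (.node 3513 (.leaf 3) (.leaf 3)) (.node 3513 (.leaf 3) (.leaf 3))))))) (.node 3465 (.node 71269613570 (.node 3433 (.leaf 255) (.leaf 255)) (.node 3433 (.leaf 255) (.leaf 255))) (.node 71269613570 (.node 3497 (.node 71202504706 (.node 71168950274 (.node 3481 (.leaf 3) (.leaf 3)) (.node 3481 (.leaf 3) (.leaf 3))) (.node 71236059138 (.node 3481 (.leaf 3) (.leaf 3)) (.node 3481 (.leaf 3) (.leaf 3)))) (.node 71202504706 (.node 71168950274 (.node 3513 (.leaf 3) (.leaf 3)) (.node 3513 (.leaf 3) (.leaf 3))) (.node 71236059138 (.node 3513 (.leaf 3) (.leaf 3)) (.leaf 254)))) (.node 3497 (.leaf 254) (.leaf 254)))))) (.node 3401 (.node 71672266754 (.node 3337 (.node 71538049026 (.node 3305 (.leaf 3) (.leaf 3)) (.node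 3305 (.leaf 3) (.leaf 3))) (.node 71538049026 (.node 3369 (.leaf 254) (.leaf 254)) (.node 3369 (.leaf 254) (.leaf 254)))) (.node 3337 (.node 71806484482 (.node 3305 (.leaf 3) (.leaf 3)) (.node 14224931684353 (.leaf 3) (.leaf 3))) (.node 71806484482 (.node 3369 (.leaf 254) (.leaf 3)) (.node 14465449852929 (.leaf 3) (.node 14516989460481 (.leaf 3) (.leaf 3)))))) (.node 71672266754 (.node 3465 (.node 71538049026 (.node 3433 (.leaf 254) (.leaf 254)) (.node 3433 (.leaf 254) (.leaf 254))) (.node 71538049026 (.node 3497 (.leaf 254) (.leaf 254)) (.node 3497 (.leaf 254) (.leaf 254)))) (.node 3465 (.node 71806484482 (.node 3433 (.leaf 3) (.leaf 3)) (.node 14740327759873 (.leaf 3) (.leaf 3))) (.node 15015205666817 (.leaf 3) (.node 15066745274369 (.leaf 3) (.leaf 3)))))))))) (.node 3289 (.node 72477573122 (.node 3177 (.node 72209137666 (.node 3129 (.node 72074919938 (.node 3097 (.leaf 3) (.leaf 3)) (.leaf 1)) (.node 72074919938 (.node 3145 (.leaf 1) (.leaf 1)) (.leaf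 1))) (.leaf 1)) (.node 72209137666 (.node 3225 (.leaf 1) (.leaf 1)) (.leaf 1))) (.leaf 1)) (.node 72477573122 (.leaf 1) (.leaf 1))))) (.node 71940702210 (.comp 79
    69617318994479544489843178514657935932170106125267997920069478441328732598048849434718954383499055293222523752248855904582839087957524269450907712905796054766088965596695319022899870826496 (.setw 57586975264254637939496419268986751685572199475448946555667634561823842179462564747622640002105324495436027183813005841858902186978136478314537242067456847012430590 (.setw 4562440617622211427686362547136622489250700075025563511689673339130919819545729396553741394476994087696631316627381020562740942468384310522734687873038851735547467695628095864030062657497203455 (.node 3801 (.node 71403831298 (.node 3657 (.node 71135395842 (.node 3593 (.node 71001178114 (.node 3561 (.node 70934069250 (.node 70900514818 (.node 3545 (.leaf 3) (.leaf 3)) (.node 3545 (.leaf 3) (.leaf 3))) (.node 70967623682 (.node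 3545 (.leaf 3) (.leaf 3)) (.node 3545 (.leaf 3) (.leaf 3)))) (.node 70934069250 (.node 70900514818 (.node 3577 (.leaf 3) (.leaf 3)) (.node 3577 (.leaf 3) (.leaf 3))) (.node 70967623682 (.node 3577 (.leaf 3) (.leaf 3)) (.node 3577 (.leaf 3) (.leaf 3))))) (.node 3561 (.node 71068286978 (.node 71034732546 (.node 3545 (.leaf 3) (.leaf 3)) (.node 3545 (.leaf 3) (.leaf 3))) (.node 71101841410 (.node 3545 (.leaf 3) (.leaf 3)) (.node 3545 (.leaf 3) (.leaf 3)))) (.node 71068286978 (.node 71034732546 (.node 3577 (.leaf 3) (.leaf 3)) (.node 3577 (.leaf 3) (.leaf 3))) (.node 71101841410 (.node 3577 (.leaf 3) (.leaf 3)) (.node 3577 (.leaf 3) (.leaf 3)))))) (.node 71001178114 (.node 3625 (.leaf 3) (.leaf 3)) (.node 3625 (.leaf 3) (.leaf 3)))) (.node 3593 (.node 71269613570 (.node 3561 (.node 71202504706 (.node 71168950274 (.node 3545 (.leaf 3) (.leaf 3)) (.node 3545 (.leaf 3) (.leaf 3))) (.node 71236059138 (.node 3545 (.leaf 3) (.leaf 3)) (.leaf 255))) (.node 71202504706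 (.node 71168950274 (.node 3577 (.leaf 3) (.leaf 3)) (.node 3577 (.leaf 3) (.leaf 3))) (.node 71236059138 (.node 3577 (.leaf 3) (.leaf 3)) (.node 3577 (.leaf 3) (.leaf 3))))) (.node 3561 (.leaf 255) (.node 71336722434 (.node
    71303168002 (.node 3577 (.leaf 3) (.leaf 3)) (.node 3577 (.leaf 3) (.leaf 3))) (.node 71370276866 (.node 3577 (.leaf 3) (.leaf 3)) (.node 3577 (.leaf 3) (.leaf 3)))))) (.node 71269613570 (.node 3625 (.leaf 3) (.leaf 3)) (.node 3625 (.leaf 3) (.leaf 3))))) (.node 71135395842 (.node 3721 (.node 71001178114 (.node 3689 (.leaf 3) (.leaf 3)) (.node 3689 (.leaf 3) (.leaf 3))) (.node 71001178114 (.node 3753 (.leaf 3) (.node 70934069250 (.node 3769 (.leaf 3) (.leaf 254)) (.node 3769 (.leaf 3) (.leaf 254)))) (.node 3753 (.leaf 3) (.node 71068286978 (.node 3769 (.leaf 3) (.leaf 254)) (.node 3769 (.leaf 3) (.leaf 254)))))) (.node 3721 (.node 71269613570 (.node 3689 (.leaf 3) (.leaf 3)) (.node 3689 (.leaf 3) (.leaf 3))) (.node 71269613570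 (.node 3753 (.leaf 3) (.node 71202504706 (.node 3769 (.leaf 3) (.leaf 254)) (.node 3769 (.leaf 3) (.leaf 254)))) (.node 3753 (.leaf 3) (.node 71336722434 (.node 3769 (.leaf 3) (.leaf 254)) (.node 3769 (.leaf 3) (.leaf 254)))))))) (.node 3657 (.node 71672266754 (.node 3593 (.node 71538049026 (.node 3561 (.leaf 255) (.node 71470940162 (.node 71437385730 (.node 3577 (.leaf 3) (.leaf 3)) (.node 3577 (.leaf 3) (.leaf 3))) (.node 71504494594 (.node 3577 (.leaf 3) (.leaf 3)) (.leaf 3)))) (.node 3561 (.leaf 3) (.leaf 3))) (.node 71538049026 (.node 3625 (.leaf 3) (.leaf 3)) (.node 3625 (.leaf 3) (.leaf 3)))) (.leaf 1)) (.node 71672266754 (.node 3721 (.node 71538049026 (.node 3689 (.leaf 3) (.leaf 3)) (.leaf 1)) (.node 71538049026 (.node 3753 (.leaf 3) (.node 71470940162 (.node 3769 (.leaf 1) (.leaf 1)) (.leaf 1))) (.leaf 1))) (.leaf 1)))) (.node 71403831298 (.node 3961 (.node 71135395842 (.node 3881 (.node 71001178114 (.node 3833 (.leaf 254) (.node 70934069250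 (.node 3849 (.leaf 3) (.leaf 254)) (.node 3849 (.leaf 3) (.leaf 254)))) (.node 3833 (.leaf 254) (.node 71068286978 (.node 3849 (.leaf 3) (.leaf 254)) (.leaf 254)))) (.node 71001178114 (.node 3913 (.leaf 254) (.node 70934069250 (.node 3929 (.leaf 3) (.leaf 3)) (.node 3929 (.leaf 3) (.leaf
    3)))) (.node 3913 (.leaf 254) (.node 71068286978 (.node 3929 (.leaf 3) (.leaf 3)) (.node 3929 (.leaf 3) (.leaf 3)))))) (.node 3881 (.node 71269613570 (.node 3833 (.leaf 254) (.leaf 254)) (.node 3833 (.leaf 254) (.leaf 254))) (.node 71269613570 (.node 3913 (.leaf 254) (.node 71202504706 (.node 3929 (.leaf 3) (.leaf 3)) (.node 3929 (.leaf 3) (.leaf 3)))) (.node 3913 (.leaf 3) (.node 71336722434 (.node 3929 (.leaf 3) (.leaf 3)) (.node 16904991277057 (.leaf 3) (.leaf 3))))))) (.node 71135395842 (.node 4041 (.node 71001178114 (.node 3993 (.leaf 3) (.node 70934069250 (.node 4009 (.leaf 3) (.node 70900514818 (.node 4025 (.leaf 3) (.leaf 3)) (.node 4025 (.leaf 3) (.leaf 3))))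 (.node 4009 (.leaf 3) (.leaf 255)))) (.node 3993 (.leaf 3) (.node 71068286978 (.node 4009 (.leaf 3) (.leaf 255)) (.node 4009 (.leaf 3) (.leaf 255))))) (.node 71001178114 (.node 4073 (.node 70934069250 (.node 70900514818 (.node 4057 (.leaf 3) (.leaf 3)) (.leaf 255)) (.leaf 255)) (.node 70934069250 (.node 4089 (.leaf 3) (.leaf 3)) (.node 4089 (.leaf 3) (.leaf 3)))) (.node 4073 (.leaf 255) (.node 71068286978 (.node 4089 (.leaf 3) (.leaf 3)) (.node 4089 (.leaf 3) (.leaf 3)))))) (.node 4041 (.node 71269613570 (.node 3993 (.leaf 3) (.node 71202504706 (.node 4009 (.leaf 3) (.leaf 255)) (.node 4009 (.leaf 3) (.leaf 3)))) (.node 3993 (.leaf 3) (.node 17248588660737 (.leaf 3) (.leaf 3)))) (.node 71269613570 (.node 4073 (.leaf 255) (.node 71202504706 (.node 4089 (.leaf 3) (.leaf 3)) (.node 17592186044417 (.leaf 3) (.leaf 3)))) (.node 17523466567681 (.node 17454747090945 (.leaf 3) (.leaf 3)) (.node 17592186044417 (.leaf 3) (.leaf 3))))))) (.node 3961 (.node 71672266754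 (.node 3881 (.leaf 1) (.leaf 1)) (.leaf 1)) (.leaf 1))))))) (.leaf 1))))
    ⟨25769803776, 25769803776, 828928688128, 1103806595072, 4429185024, 4563402752, 4294967296, 4294967296, 4294967296, 4294967296, 0⟩ = true := by decide +kernel

end Pool.Agent.Work.MP_f4b644_ag.Mid
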