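import Pool.Agent.Work.MP_f4b644_ag.Mid.PTop
import Pool.Agent.Work.MP_f4b644_ag.Mid.Dom2

namespace Pool.Agent.Work.MP_f4b644_ag.Mid

theorem bk6_14 : Tr.run2 ce0 pBK
    (.comp 1 878707508304657351360434551122834978055195126606888818594831397028026142524423405647564614225294104738585843379513965947812123235182620836780755942339034218496 (.node 4505 (.node 69256347650 (.node 4313 (.comp 65 878707508304657351360434551122834978055195126606888818594831397028026142524423405647564614225294104738585843379513965947812123235182620836780755942339034218496 (.node 68987912194 (.node 4217 (.node 68853694466 (.node 4169 (.node 68786585602 (.node 4137 (.leaf 3) (.node 68753031170 (.leaf 3) (.leaf 3))) (.node 4137 (.leaf 3) (.node 68820140034 (.leaf 3) (.leaf 3)))) (.node 68786585602 (.node 4185 (.leaf 3) (.node 68753031170 (.node 4201 (.leaf 3) (.leaf 3)) (.node 4201 (.leaf 3) (.leaf 3)))) (.node 4185 (.leaf 3) (.node 68820140034 (.node 4201 (.leaf 3) (.leaf 3)) (.node 4201 (.leaf 3) (.leaf 3)))))) (.node 4169 (.node 68920803330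 (.node 4137 (.leaf 3) (.node 68887248898 (.leaf 3) (.leaf 3))) (.node 4137 (.leaf 3) (.node 68954357762 (.leaf 3) (.leaf 3)))) (.node 68920803330 (.node 4185 (.leaf 3) (.node 68887248898 (.node 4201 (.leaf 3) (.leaf 3)) (.node 4201 (.leaf 3) (.leaf 3)))) (.node 4185 (.leaf 3) (.node 68954357762 (.node 4201 (.leaf 3) (.leaf 3)) (.node 4201 (.leaf 3) (.leaf 3))))))) (.node 68853694466 (.node 4265 (.node 68786585602 (.node 4233 (.leaf 3) (.leaf 3)) (.node 4233 (.leaf 3) (.leaf 3))) (.node 68786585602 (.node 4281 (.leaf 3) (.leaf 3)) (.node 4281 (.leaf 3) (.leaf 3)))) (.node 4265 (.node 68920803330 (.node 4233 (.leaf 3) (.leaf 3)) (.node 4233 (.leaf 3) (.node 68954357762 (.node 4249 (.leaf 3) (.leaf 3)) (.node 4249 (.leaf 3) (.leaf 3))))) (.node 68920803330 (.node 4281 (.leaf 3) (.leaf 3)) (.node 4281 (.leaf 3) (.leaf 3)))))) (.node 4217 (.node 69122129922 (.node 4169 (.node 69055021058 (.node 4137 (.leaf 3) (.node 69021466626 (.leaf 3) (.leaf 3))) (.node 4137 (.leaf 3) (.node 69088575490 (.leaf 3) (.leaf 3))))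 (.node 69055021058 (.node 4185 (.leaf 3) (.node 69021466626 (.node 4201 (.leaf 3) (.leaf 3)) (.node 4201 (.leaf
    3) (.leaf 3)))) (.node 4185 (.leaf 3) (.node 69088575490 (.leaf 3) (.leaf 3))))) (.node 4169 (.node 69189238786 (.node 4137 (.leaf 3) (.node 69155684354 (.leaf 3) (.leaf 3))) (.node 4137 (.leaf 3) (.node 69222793218 (.leaf 3) (.leaf 3)))) (.node 69189238786 (.node 4185 (.leaf 3) (.node 69155684354 (.leaf 3) (.leaf 3))) (.node 4185 (.leaf 3) (.node 69222793218 (.leaf 3) (.leaf 3)))))) (.node 69122129922 (.node 4265 (.node 69055021058 (.node 4233 (.leaf 3) (.node 69021466626 (.node 4249 (.leaf 3) (.leaf 3)) (.node 4249 (.leaf 3) (.leaf 3)))) (.node 4233 (.leaf 3) (.node 69088575490 (.node 4249 (.leaf 3) (.leaf 3)) (.node 4249 (.leaf 3) (.leaf 3))))) (.node 69055021058 (.node 4281 (.leaf 3) (.leaf 3)) (.node 4281 (.leaf 3) (.leaf 3)))) (.node 4265 (.node 69189238786 (.node 4233 (.leaf 3) (.node 69155684354 (.node 4249 (.leaf 3) (.leaf 3)) (.node 4249 (.leaf 3) (.leaf 3)))) (.node 4233 (.leaf 3)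 (.node 69222793218 (.node 4249 (.leaf 3) (.leaf 3)) (.node 4249 (.leaf 3) (.leaf 3))))) (.node 69189238786 (.node 4281 (.leaf 3) (.leaf 3)) (.node 4281 (.leaf 3) (.leaf 3)))))))) (.node 68987912194 (.node 4409 (.node 68853694466 (.node 4361 (.node 68786585602 (.node 4329 (.leaf 1) (.leaf 1)) (.node 4329 (.leaf 1) (.leaf 1))) (.node 68786585602 (.node 4377 (.leaf 1) (.leaf 1)) (.node 4377 (.leaf 1) (.leaf 1)))) (.node 4361 (.node 68920803330 (.node 4329 (.leaf 1) (.leaf 1)) (.node 4329 (.leaf 1) (.leaf 1))) (.node 68920803330 (.node 4377 (.leaf 1) (.leaf 1)) (.node 4377 (.leaf 1) (.leaf 1))))) (.node 68853694466 (.node 4457 (.node 68786585602 (.node 4425 (.leaf 1) (.leaf 1)) (.node 4425 (.leaf 1) (.leaf 1))) (.node 68786585602 (.node 4473 (.leaf 1) (.leaf 1)) (.node 4473 (.leaf 1) (.node 68820140034 (.leaf 1) (.leaf 1))))) (.node 4457 (.node 68920803330 (.node 4425 (.leaf 1) (.leaf 1)) (.node 4425 (.leaf 1) (.leaf 1))) (.node 68920803330 (.node 4473 (.leaf 1) (.node 68887248898 (.leaf 1) (.leaf 1))) (.node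 4473 (.leaf 1) (.node 68954357762 (.leaf 1) (.leaf 1))))))) (.node
    4409 (.node 69122129922 (.node 4361 (.node 69055021058 (.node 4329 (.leaf 1) (.leaf 1)) (.node 4329 (.node 69088575490 (.leaf 1) (.leaf 1)) (.leaf 1))) (.node 69055021058 (.node 4377 (.leaf 1) (.leaf 1)) (.node 4377 (.leaf 1) (.leaf 1)))) (.node 4361 (.comp 65 878707508304657351360434551122834978055195126606888818594831397028026142524423405647564614225294104738585843379513965947812123235182620836780755942339034218496 (.node 69189238786 (.node 4329 (.leaf 3) (.leaf 3)) (.node 4329 (.leaf 3) (.leaf 3)))) (.node 69189238786 (.node 4377 (.leaf 1) (.leaf 1)) (.node 4377 (.leaf 1) (.leaf 1))))) (.node 69122129922 (.node 4457 (.node 69055021058 (.node 4425 (.leaf 1) (.leaf 1)) (.node 4425 (.leaf 1) (.leaf 1))) (.node 69055021058 (.node 4473 (.leaf 1) (.node 69021466626 (.leaf 1) (.leaf 1))) (.node 4473 (.leaf 1) (.leaf 1)))) (.node 4457 (.node 69189238786 (.node 4425 (.leaf 1) (.leaf 1)) (.node 4425 (.leaf 1) (.leaf 1))) (.node 69189238786 (.node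 4473 (.leaf 1) (.leaf 1)) (.node 4473 (.leaf 1) (.leaf 1)))))))) (.node 4313 (.comp 65 878707508304657351360434551122834978055195126606888818594831397028026142524423405647564614225294104738585843379513965947812123235182620836780755942339034218496 (.node 69524783106 (.node 4217 (.node 69390565378 (.node 4169 (.node 69323456514 (.node 4137 (.leaf 3) (.node 69289902082 (.leaf 3) (.leaf 3))) (.node 4137 (.leaf 3) (.node 69357010946 (.leaf 3) (.leaf 3)))) (.node 69323456514 (.node 4185 (.leaf 3) (.node 69289902082 (.leaf 3) (.leaf 3))) (.node 4185 (.leaf 3) (.node 69357010946 (.leaf 3) (.leaf 3))))) (.node 4169 (.node 69457674242 (.node 4137 (.leaf 3) (.node 69424119810 (.leaf 3) (.leaf 3))) (.node 4137 (.leaf 3) (.node 69491228674 (.leaf 3) (.leaf 3)))) (.node 69457674242 (.node 4185 (.leaf 3) (.node 69424119810 (.leaf 3) (.leaf 3))) (.node 4185 (.leaf 3) (.node 69491228674 (.leaf 3) (.leaf 3)))))) (.node 69390565378 (.node 4265 (.node 69323456514 (.node 4233 (.leaf 3) (.node 69289902082 (.node 4249 (.leaf 3)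 (.leaf 3)) (.node
    4249 (.leaf 3) (.leaf 3)))) (.node 4233 (.leaf 3) (.node 69357010946 (.node 4249 (.leaf 3) (.leaf 3)) (.node 4249 (.leaf 3) (.leaf 3))))) (.node 69323456514 (.node 4281 (.leaf 3) (.leaf 3)) (.node 4281 (.leaf 3) (.node 69357010946 (.node 4297 (.leaf 3) (.leaf 3)) (.node 4297 (.leaf 3) (.leaf 3)))))) (.node 4265 (.node 69457674242 (.node 4233 (.leaf 3) (.node 69424119810 (.node 4249 (.leaf 3) (.leaf 3)) (.node 4249 (.leaf 3) (.leaf 3)))) (.node 4233 (.leaf 3) (.node 69491228674 (.leaf 3) (.leaf 3)))) (.node 69457674242 (.node 4281 (.leaf 3) (.node 69424119810 (.node 4297 (.leaf 3) (.leaf 3)) (.node 4297 (.leaf 3) (.leaf 3)))) (.node 4281 (.leaf 3) (.node 69491228674 (.node 4297 (.leaf 3) (.leaf 3)) (.node 4297 (.leaf 3) (.leaf 3)))))))) (.node 4217 (.node 69659000834 (.node 4169 (.node 69591891970 (.node 4137 (.leaf 3) (.node 69558337538 (.leaf 3) (.leaf 3))) (.node 4137 (.leaf 3) (.leaf 3))) (.node 69591891970 (.node 4185 (.leaf 3) (.node 69558337538 (.leaf 3) (.leaf 3))) (.node 4185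 (.leaf 3) (.node 69625446402 (.leaf 3) (.leaf 3))))) (.node 4169 (.node 69726109698 (.node 4137 (.leaf 3) (.leaf 3)) (.node 4137 (.leaf 3) (.leaf 3))) (.node 69726109698 (.node 4185 (.leaf 3) (.node 69692555266 (.leaf 3) (.leaf 3))) (.node 4185 (.leaf 3) (.node 69759664130 (.leaf 3) (.leaf 3)))))) (.node 69659000834 (.node 4265 (.node 69591891970 (.node 4233 (.leaf 3) (.node 69558337538 (.leaf 3) (.leaf 3))) (.node 4233 (.leaf 3) (.node 69625446402 (.leaf 3) (.leaf 3)))) (.node 69591891970 (.node 4281 (.leaf 3) (.node 69558337538 (.node 4297 (.leaf 3) (.leaf 3)) (.node 4297 (.leaf 3) (.leaf 3)))) (.node 4281 (.leaf 3) (.node 69625446402 (.node 4297 (.leaf 3) (.leaf 3)) (.node 4297 (.leaf 3) (.leaf 3)))))) (.node 4265 (.node 69726109698 (.node 4233 (.leaf 3) (.node 69692555266 (.leaf 3) (.leaf 3))) (.node 4233 (.leaf 3) (.node 69759664130 (.leaf 3) (.leaf 3)))) (.node 69726109698 (.node 4281 (.leaf 3) (.node 69692555266 (.node 4297 (.leaf 3) (.leaf 3)) (.node 4297 (.leaf 3) (.leaf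
    3)))) (.node 4281 (.leaf 3) (.node 69759664130 (.node 4297 (.leaf 3) (.leaf 3)) (.node 4297 (.leaf 3) (.leaf 3)))))))))) (.node 69524783106 (.node 4409 (.node 69390565378 (.node 4361 (.comp 65 878707508304657351360434551122834978055195126606888818594831397028026142524423405647564614225294104738585843379513965947812123235182620836780755942339034218496 (.node 69323456514 (.node 4329 (.leaf 3) (.leaf 3)) (.node 4329 (.leaf 3) (.leaf 3)))) (.node 69323456514 (.node 4377 (.leaf 1) (.leaf 1)) (.node 4377 (.leaf 1) (.leaf 1)))) (.node 4361 (.node 69457674242 (.node 4329 (.leaf 1) (.node 69424119810 (.node 18657337933825 (.leaf 1) (.leaf 1)) (.node 18657337933825 (.leaf 1) (.leaf 1)))) (.node 4329 (.leaf 1) (.node 69491228674 (.node 18657337933825 (.leaf 1) (.leaf 1)) (.node 18657337933825 (.leaf 1) (.leaf 1))))) (.node 69457674242 (.node 4377 (.leaf 1) (.leaf 1)) (.node 4377 (.node 69491228674 (.leaf 1) (.leaf 1)) (.leaf 1))))) (.node 69390565378 (.node 4457 (.node 69323456514 (.node 4425 (.leaf 1) (.leaf 1))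 (.node 4425 (.leaf 1) (.leaf 1))) (.node 69323456514 (.node 4473 (.leaf 1) (.leaf 1)) (.node 4473 (.leaf 1) (.leaf 1)))) (.node 4457 (.node 69457674242 (.node 4425 (.leaf 1) (.leaf 1)) (.node 4425 (.leaf 1) (.leaf 1))) (.node 69457674242 (.node 4473 (.leaf 1) (.leaf 1)) (.node 4473 (.leaf 1) (.leaf 1)))))) (.node 4409 (.comp 65 878707508304657351360434551122834978055195126606888818594831397028026142524423405647564614225294104738585843379513965947812123235182620836780755942339034218496 (.node 69659000834 (.node 4361 (.node 69591891970 (.node 4329 (.leaf 3) (.leaf 3)) (.node 4329 (.leaf 3) (.leaf 3))) (.node 69591891970 (.node 4377 (.leaf 3) (.leaf 3)) (.node 4377 (.leaf 3) (.leaf 3)))) (.node 4361 (.node 69726109698 (.node 4329 (.leaf 3) (.node 69692555266 (.leaf 3) (.node 4345 (.leaf 3) (.leaf 3)))) (.node 4329 (.leaf 3) (.node 69759664130 (.node 4345 (.leaf 3) (.leaf 3)) (.node 4345 (.leaf 3) (.leaf 3))))) (.node 69726109698 (.node 4377 (.leaf 3) (.leaf 3))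
    (.node 4377 (.leaf 3) (.leaf 3)))))) (.node 69659000834 (.node 4457 (.node 69591891970 (.node 4425 (.leaf 1) (.leaf 1)) (.node 4425 (.leaf 1) (.leaf 1))) (.node 69591891970 (.node 4473 (.leaf 1) (.leaf 1)) (.node 4473 (.leaf 1) (.leaf 1)))) (.node 4457 (.node 69726109698 (.node 4425 (.leaf 1) (.leaf 1)) (.node 4425 (.leaf 1) (.leaf 1))) (.node 69726109698 (.node 4473 (.leaf 1) (.leaf 1)) (.node 4473 (.leaf 1) (.leaf 1))))))))) (.node 69256347650 (.node 4713 (.node 68987912194 (.node 4601 (.node 68853694466 (.node 4553 (.node 68786585602 (.leaf 1) (.leaf 1)) (.node 68786585602 (.leaf 1) (.leaf 1))) (.node 4553 (.node 68920803330 (.leaf 1) (.leaf 1)) (.node 68920803330 (.leaf 1) (.leaf 1)))) (.node 68853694466 (.node 4649 (.node 68786585602 (.leaf 1) (.leaf 1)) (.node 68786585602 (.node 4681 (.leaf 1) (.leaf 1)) (.node 4681 (.leaf 1) (.leaf 1)))) (.node 4649 (.node 68920803330 (.leaf 1) (.leaf 1)) (.node 68920803330 (.node 4681 (.leaf 1) (.leaf 1)) (.node 4681 (.leaf 1) (.leaf 1)))))) (.node 4601 (.node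 69122129922 (.node 4553 (.node 69055021058 (.node 4521 (.leaf 1) (.leaf 1)) (.node 4521 (.leaf 1) (.leaf 1))) (.node 69055021058 (.leaf 1) (.leaf 1))) (.node 4553 (.node 69189238786 (.node 4521 (.leaf 1) (.node 69155684354 (.leaf 1) (.leaf 1))) (.node 4521 (.leaf 1) (.node 69222793218 (.leaf 1) (.leaf 1)))) (.node 69189238786 (.leaf 1) (.leaf 1)))) (.node 69122129922 (.node 4649 (.node 69055021058 (.leaf 1) (.leaf 1)) (.node 69055021058 (.node 4681 (.leaf 1) (.leaf 1)) (.node 4681 (.leaf 1) (.leaf 1)))) (.node 4649 (.node 69189238786 (.leaf 1) (.leaf 1)) (.node 69189238786 (.node 4681 (.leaf 1) (.leaf 1)) (.node 4681 (.leaf 1) (.leaf 1))))))) (.node 68987912194 (.node 4825 (.node 68853694466 (.node 4761 (.leaf 1) (.node 68786585602 (.leaf 1) (.leaf 1))) (.node 4761 (.leaf 1) (.node 68920803330 (.leaf 1) (.leaf 1)))) (.node 68853694466 (.node 4889 (.node 68786585602 (.node 4857 (.leaf 1) (.leaf 1)) (.node 4857 (.leaf 1) (.leaf 1))) (.leaf 1)) (.node 4889 (.node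
    68920803330 (.node 4857 (.leaf 1) (.leaf 1)) (.node 4857 (.leaf 1) (.leaf 1))) (.node 68920803330 (.leaf 1) (.node 4921 (.leaf 1) (.leaf 1)))))) (.node 4825 (.node 69122129922 (.node 4761 (.node 69055021058 (.leaf 1) (.node 69088575490 (.leaf 1) (.leaf 1))) (.node 69055021058 (.leaf 1) (.leaf 1))) (.node 4761 (.node 69189238786 (.node 69155684354 (.leaf 1) (.leaf 1)) (.node 4729 (.leaf 1) (.leaf 1))) (.node 69189238786 (.leaf 1) (.leaf 1)))) (.node 69122129922 (.node 4889 (.node 69055021058 (.leaf 1) (.leaf 1)) (.node 69055021058 (.node 4921 (.leaf 1) (.leaf 1)) (.node 4921 (.leaf 1) (.leaf 1)))) (.node 4889 (.node 69189238786 (.leaf 1) (.leaf 1)) (.node 69189238786 (.node 4921 (.leaf 1) (.leaf 1)) (.node 4921 (.leaf 1) (.leaf 1)))))))) (.node 4713 (.node 69524783106 (.node 4601 (.node 69390565378 (.node 4553 (.node 69323456514 (.node 4521 (.leaf 1) (.node 69289902082 (.leaf 1) (.leaf 1))) (.node 4521 (.leaf 1) (.node 69357010946 (.leaf 1) (.leaf 1)))) (.node 69323456514 (.leaf 1) (.node 4569 (.leaf 1)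 (.leaf 1)))) (.node 4553 (.node 69457674242 (.node 4521 (.leaf 1) (.node 69424119810 (.leaf 1) (.leaf 1))) (.node 4521 (.leaf 1) (.leaf 1))) (.node 69457674242 (.node 4569 (.leaf 1) (.leaf 1)) (.node 4569 (.leaf 1) (.node 69491228674 (.leaf 1) (.leaf 1)))))) (.node 69390565378 (.node 4649 (.node 69323456514 (.leaf 1) (.leaf 1)) (.node 69323456514 (.node 4681 (.leaf 1) (.leaf 1)) (.node 4681 (.leaf 1) (.leaf 1)))) (.node 4649 (.node 69457674242 (.leaf 1) (.leaf 1)) (.node 69457674242 (.node 4681 (.leaf 1) (.leaf 1)) (.node 4681 (.leaf 1) (.leaf 1)))))) (.node 4601 (.node 69659000834 (.node 4553 (.node 69591891970 (.node 4521 (.leaf 1) (.leaf 1)) (.node 4521 (.leaf 1) (.leaf 1))) (.node 69591891970 (.node 4569 (.leaf 1) (.node 69558337538 (.leaf 1) (.leaf 1))) (.node 4569 (.leaf 1) (.node 69625446402 (.leaf 1) (.leaf 1))))) (.node 4553 (.node 69726109698 (.node 4521 (.leaf 1) (.leaf 1)) (.node 4521 (.leaf 1) (.leaf 1))) (.node 69726109698 (.node 4569 (.leaf 1)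
    (.node 69692555266 (.leaf 1) (.leaf 1))) (.node 4569 (.leaf 1) (.node 69759664130 (.leaf 1) (.leaf 1)))))) (.node 69659000834 (.node 4649 (.node 69591891970 (.leaf 1) (.leaf 1)) (.node 69591891970 (.node 4681 (.leaf 1) (.leaf 1)) (.node 4681 (.leaf 1) (.leaf 1)))) (.node 4649 (.node 69726109698 (.node 4617 (.leaf 1) (.leaf 1)) (.node 4617 (.leaf 1) (.leaf 1))) (.node 69726109698 (.node 4681 (.leaf 1) (.leaf 1)) (.node 4681 (.leaf 1) (.leaf 1))))))) (.node 69524783106 (.node 4825 (.node 69390565378 (.node 4761 (.node 69323456514 (.node 4729 (.leaf 1) (.leaf 1)) (.node 4729 (.leaf 1) (.leaf 1))) (.node 69323456514 (.leaf 1) (.leaf 1))) (.node 4761 (.node 69457674242 (.node 4729 (.leaf 1) (.leaf 1)) (.leaf 1)) (.node 69457674242 (.node 4793 (.leaf 1) (.leaf 1)) (.node 4793 (.leaf 1) (.leaf 1))))) (.node 69390565378 (.node 4889 (.node 69323456514 (.leaf 1) (.leaf 1)) (.node 69323456514 (.node 4921 (.leaf 1) (.leaf 1)) (.node 4921 (.leaf 1) (.leaf 1)))) (.node 4889 (.node 69457674242 (.leaf 1) (.leaf 1)) (.node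 69457674242 (.leaf 1) (.leaf 1))))) (.node 4825 (.node 69659000834 (.node 4761 (.node 69591891970 (.leaf 1) (.leaf 1)) (.node 69591891970 (.node 4793 (.leaf 1) (.leaf 1)) (.node 4793 (.leaf 1) (.leaf 1)))) (.node 4761 (.node 69726109698 (.leaf 1) (.leaf 1)) (.node 69726109698 (.node 4793 (.leaf 1) (.leaf 1)) (.node 4793 (.leaf 1) (.leaf 1))))) (.node 69659000834 (.node 4889 (.node 69591891970 (.leaf 1) (.leaf 1)) (.node 69591891970 (.leaf 1) (.leaf 1))) (.node 4889 (.node 69726109698 (.leaf 1) (.leaf 1)) (.node 69726109698 (.leaf 1) (.leaf 1))))))))))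
    ⟨25769803776, 25769803776, 1108101562368, 1327144894464, 4294967296, 4362076160, 4294967296, 4294967296, 4294967296, 4294967296, 0⟩ = true := by decide +kernel

theorem bk6_15 : Tr.run2 ce0 pBK
    (.node 4505 (.comp 15 878707508304657351360434551122835147285523136911131377186340354723752045628807903332925182582089504021442995734660483635514292039414523215978501686048952680448 (.node 70330089474 (.node 4313 (.comp 65 878707508304657351360434551122834978055195126606888818594831397028026142524423405647564614225294104738585843379513965947812123235182620836780755942339034218496 (.node 70061654018 (.node 4217 (.node 69927436290 (.node 4169 (.node 69860327426 (.node 4137 (.leaf 3) (.node 17832704212993 (.leaf 3) (.leaf 3))) (.node 4137 (.leaf 3) (.node 17832704212993 (.leaf 3) (.leaf 3)))) (.node 69860327426 (.node 4185 (.leaf 3) (.node 69826772994 (.leaf 3) (.leaf 3))) (.node 4185 (.leaf 3) (.node 69893881858 (.leaf 3) (.leaf 3))))) (.node 4169 (.node 69994545154 (.node 4137 (.leaf 3) (.node 17832704212993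 (.leaf 3) (.leaf 3))) (.node 4137 (.leaf 3) (.node 70028099586 (.leaf 3) (.leaf 3)))) (.node 69994545154 (.node 4185 (.leaf 3) (.node 69960990722 (.leaf 3) (.leaf 3))) (.node 4185 (.leaf 3) (.node 70028099586 (.leaf 3) (.leaf 3)))))) (.node 69927436290 (.node 4265 (.node 69860327426 (.node 4233 (.leaf 3) (.node 69826772994 (.leaf 3) (.leaf 3))) (.node 4233 (.leaf 3) (.node 69893881858 (.leaf 3) (.leaf 3)))) (.node 69860327426 (.node 4281 (.leaf 3) (.node 69826772994 (.node 4297 (.leaf 3) (.leaf 3)) (.node 4297 (.leaf 3) (.leaf 3)))) (.node 4281 (.leaf 3) (.node 69893881858 (.node 18451179503617 (.leaf 3) (.leaf 3)) (.node 18451179503617 (.leaf 3) (.leaf 3)))))) (.node 4265 (.node 69994545154 (.node 4233 (.leaf 3) (.node 69960990722 (.leaf 3) (.leaf 3))) (.node 4233 (.leaf 3) (.node 70028099586 (.leaf 3) (.leaf 3)))) (.node 69994545154 (.node 4281 (.leaf 3) (.node 69960990722 (.node 18451179503617 (.leaf 3) (.leaf 3)) (.node 4297 (.leaf 3) (.leaf 3)))) (.node 4281 (.leaf 3) (.node 70028099586 (.node 4297 (.leaf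 3) (.leaf 3)) (.node 4297 (.leaf 3) (.leaf 3)))))))) (.node 4217 (.node 70195871746 (.node 4169 (.node 70128762882 (.node 4137 (.leaf 3) (.node
    70095208450 (.leaf 3) (.leaf 3))) (.node 4137 (.node 70162317314 (.leaf 3) (.node 70179094530 (.leaf 3) (.leaf 3))) (.node 70162317314 (.leaf 3) (.leaf 3)))) (.node 70128762882 (.node 4185 (.leaf 3) (.node 70095208450 (.leaf 3) (.leaf 3))) (.node 4185 (.leaf 3) (.node 70162317314 (.leaf 3) (.leaf 3))))) (.node 4169 (.node 70262980610 (.node 4137 (.node 70229426178 (.node 70212648962 (.leaf 3) (.leaf 3)) (.node 70246203394 (.leaf 3) (.leaf 3))) (.node 70229426178 (.leaf 3) (.leaf 3))) (.node 4137 (.node 70296535042 (.node 70279757826 (.leaf 3) (.leaf 3)) (.node 70313312258 (.leaf 3) (.leaf 3))) (.node 70296535042 (.leaf 3) (.node 4153 (.node 70313312258 (.leaf 3) (.leaf 3)) (.leaf 3))))) (.node 70262980610 (.node 4185 (.leaf 3) (.node 70229426178 (.leaf 3) (.leaf 3))) (.node 4185 (.leaf 3) (.node 70296535042 (.leaf 3) (.leaf 3)))))) (.node 70195871746 (.node 4265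 (.node 70128762882 (.node 4233 (.leaf 3) (.node 70095208450 (.leaf 3) (.leaf 3))) (.node 4233 (.leaf 3) (.node 70162317314 (.leaf 3) (.leaf 3)))) (.node 70128762882 (.node 4281 (.leaf 3) (.node 70095208450 (.node 4297 (.leaf 3) (.leaf 3)) (.node 4297 (.leaf 3) (.leaf 3)))) (.node 4281 (.leaf 3) (.node 70162317314 (.node 4297 (.leaf 3) (.leaf 3)) (.node 4297 (.leaf 3) (.leaf 3)))))) (.node 4265 (.node 70262980610 (.node 4233 (.leaf 3) (.node 70229426178 (.leaf 3) (.leaf 3))) (.node 4233 (.leaf 3) (.node 70296535042 (.leaf 3) (.leaf 3)))) (.node 70262980610 (.node 4281 (.leaf 3) (.node 70229426178 (.node 4297 (.leaf 3) (.leaf 3)) (.node 4297 (.leaf 3) (.leaf 3)))) (.node 4281 (.leaf 3) (.node 70296535042 (.leaf 3) (.leaf 3))))))))) (.setw 57586975264254024178757438742386113121825267817309065615430870435628721276480612312518794557868874448147961831719827272355815308340928239159263621437130946543354111 (.node 70061654018 (.node 4409 (.node 69927436290 (.node 4361 (.node 69860327426 (.node 4329 (.leaf 255) (.node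 69826772994 (.node 4345 (.leaf 1) (.leaf 1)) (.node 4345 (.leaf 1) (.leaf 1)))) (.node 4329
    (.leaf 255) (.node 69893881858 (.node 4345 (.leaf 1) (.leaf 1)) (.node 4345 (.leaf 1) (.leaf 1))))) (.node 69860327426 (.node 4377 (.leaf 255) (.node 18863496364033 (.leaf 255) (.leaf 255))) (.node 4377 (.leaf 255) (.node 18863496364033 (.leaf 255) (.leaf 1))))) (.node 4361 (.node 69994545154 (.node 4329 (.leaf 255) (.node 69960990722 (.node 4345 (.leaf 1) (.leaf 1)) (.node 4345 (.leaf 255) (.leaf 255)))) (.node 4329 (.leaf 1) (.node 70028099586 (.node 4345 (.leaf 1) (.leaf 1)) (.node 4345 (.leaf 1) (.leaf 1))))) (.node 69994545154 (.node 4377 (.leaf 255) (.node 18863496364033 (.leaf 255) (.leaf 255))) (.node 4377 (.leaf 1) (.node 18863496364033 (.leaf 1) (.leaf 255)))))) (.node 69927436290 (.node 4457 (.node 69860327426 (.node 4425 (.leaf 1) (.node 19069654794241 (.leaf 255) (.leaf 255))) (.node 4425 (.leaf 1) (.node 19069654794241 (.leaf 255) (.leaf 255)))) (.node 69860327426 (.node 4473 (.leaf 1) (.node 19275813224449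 (.leaf 255) (.leaf 255))) (.node 4473 (.leaf 1) (.node 19275813224449 (.leaf 255) (.leaf 255))))) (.node 4457 (.node 69994545154 (.node 4425 (.leaf 255) (.node 19069654794241 (.leaf 255) (.leaf 255))) (.node 4425 (.leaf 1) (.node 19069654794241 (.leaf 1) (.leaf 255)))) (.node 69994545154 (.node 4473 (.leaf 255) (.node 19275813224449 (.leaf 255) (.leaf 255))) (.node 4473 (.leaf 1) (.node 19275813224449 (.leaf 1) (.leaf 255))))))) (.node 4409 (.node 70195871746 (.node 4361 (.node 70128762882 (.node 4329 (.leaf 1) (.node 70095208450 (.node 4345 (.leaf 1) (.leaf 1)) (.node 4345 (.leaf 1) (.leaf 1)))) (.node 4329 (.leaf 1) (.node 70162317314 (.node 4345 (.leaf 1) (.leaf 1)) (.node 4345 (.leaf 1) (.leaf 1))))) (.node 70128762882 (.node 4377 (.leaf 1) (.node 70095208450 (.node 4393 (.leaf 1) (.leaf 1)) (.node 4393 (.leaf 1) (.leaf 1)))) (.node 4377 (.leaf 1) (.node 70162317314 (.node 4393 (.leaf 1) (.leaf 1)) (.node 4393 (.leaf 1) (.leaf 1)))))) (.node 4361 (.node 70262980610 (.node 4329 (.leaf 1) (.node 70229426178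 (.node 4345 (.leaf 1) (.leaf 1))
    (.node 4345 (.leaf 1) (.leaf 1)))) (.node 4329 (.leaf 1) (.leaf 1))) (.node 70262980610 (.node 4377 (.leaf 1) (.node 70229426178 (.node 4393 (.leaf 1) (.leaf 1)) (.leaf 1))) (.node 4377 (.leaf 1) (.leaf 1))))) (.node 70195871746 (.node 4457 (.node 70128762882 (.node 4425 (.leaf 1) (.node 19069654794241 (.leaf 1) (.leaf 255))) (.node 4425 (.leaf 1) (.node 19069654794241 (.leaf 1) (.leaf 1)))) (.node 70128762882 (.node 4473 (.leaf 1) (.node 19275813224449 (.leaf 1) (.leaf 255))) (.node 4473 (.leaf 1) (.node 19275813224449 (.leaf 1) (.leaf 1))))) (.node 4457 (.node 70262980610 (.node 4425 (.leaf 1) (.node 70229426178 (.node 19069654794241 (.leaf 1) (.leaf 1)) (.node 19069654794241 (.leaf 1) (.leaf 1)))) (.node 4425 (.leaf 1) (.node 19069654794241 (.leaf 1) (.leaf 1)))) (.node 70262980610 (.node 4473 (.leaf 1) (.leaf 1)) (.node 4473 (.leaf 1) (.leaf 1))))))))) (.node 4313 (.node 70598524930 (.comp 65 878707508304657351360434551122834978055195126606888818594831397028026142524423405647564614225294104738585843379513965947812123235182620836780755942339034218496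 (.node 4217 (.node 70464307202 (.node 4169 (.node 70397198338 (.node 4137 (.leaf 1) (.leaf 1)) (.node 4137 (.leaf 1) (.leaf 1))) (.node 70397198338 (.node 4185 (.leaf 3) (.node 70363643906 (.leaf 3) (.leaf 3))) (.node 4185 (.leaf 3) (.node 70430752770 (.leaf 3) (.leaf 3))))) (.node 4169 (.node 70531416066 (.node 4137 (.leaf 1) (.leaf 1)) (.node 4137 (.leaf 1) (.leaf 1))) (.node 70531416066 (.node 4185 (.node 70497861634 (.leaf 3) (.leaf 3)) (.node 70497861634 (.leaf 3) (.leaf 3))) (.node 4185 (.node 70564970498 (.node 70548193282 (.leaf 3) (.leaf 3)) (.node 70581747714 (.leaf 3) (.leaf 3))) (.node 70564970498 (.leaf 3) (.leaf 3)))))) (.node 70464307202 (.node 4265 (.node 70397198338 (.node 4233 (.leaf 1) (.leaf 1)) (.node 4233 (.leaf 1) (.leaf 1))) (.node 70397198338 (.node 4281 (.node 70363643906 (.leaf 3) (.leaf 3)) (.node 70363643906 (.node 4297 (.leaf 3) (.leaf 3)) (.node 4297 (.leaf 3) (.leaf 3)))) (.node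
    4281 (.node 70430752770 (.leaf 3) (.leaf 3)) (.node 70430752770 (.node 4297 (.leaf 3) (.leaf 3)) (.node 4297 (.leaf 3) (.leaf 3)))))) (.node 4265 (.node 70531416066 (.node 4233 (.leaf 1) (.leaf 1)) (.node 4233 (.leaf 1) (.leaf 1))) (.node 70531416066 (.node 4281 (.leaf 3) (.node 70497861634 (.node 4297 (.leaf 3) (.leaf 3)) (.node 4297 (.leaf 3) (.leaf 3)))) (.node 4281 (.leaf 3) (.node 70564970498 (.node 70548193282 (.leaf 3) (.leaf 3)) (.node 70581747714 (.leaf 3) (.leaf 3))))))))) (.node 4217 (.node 70732742658 (.node 4169 (.node 70665633794 (.node 4137 (.leaf 1) (.leaf 1)) (.node 4137 (.leaf 1) (.leaf 1))) (.node 70665633794 (.node 4185 (.leaf 1) (.node 70632079362 (.node 18038862643201 (.leaf 1) (.leaf 1)) (.node 4201 (.leaf 1) (.leaf 1)))) (.node 4185 (.leaf 1) (.node 70699188226 (.node 4201 (.leaf 1) (.leaf 1)) (.node 4201 (.leaf 1) (.leaf 1)))))) (.node 4169 (.node 70799851522 (.node 4137 (.leaf 1) (.leaf 1)) (.node 4137 (.leaf 1) (.leaf 1))) (.node 70799851522 (.node 4185 (.leaf 1) (.node 70766297090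 (.node 4201 (.leaf 1) (.leaf 1)) (.node 4201 (.leaf 1) (.leaf 1)))) (.node 4185 (.leaf 1) (.node 70833405954 (.node 4201 (.leaf 1) (.leaf 1)) (.node 18038862643201 (.leaf 1) (.leaf 1))))))) (.node 70732742658 (.node 4265 (.node 70665633794 (.node 4233 (.leaf 1) (.leaf 1)) (.node 4233 (.leaf 1) (.leaf 1))) (.node 70665633794 (.node 4281 (.leaf 1) (.node 18451179503617 (.leaf 1) (.leaf 1))) (.node 4281 (.leaf 1) (.node 18451179503617 (.leaf 1) (.leaf 1))))) (.node 4265 (.node 70799851522 (.node 4233 (.leaf 1) (.leaf 1)) (.node 4233 (.leaf 1) (.leaf 1))) (.node 70799851522 (.node 4281 (.leaf 1) (.node 18451179503617 (.leaf 1) (.leaf 1))) (.node 4281 (.leaf 1) (.leaf 1))))))) (.node 70598524930 (.node 4409 (.node 70464307202 (.node 4361 (.node 70397198338 (.node 4329 (.leaf 1) (.leaf 1)) (.node 4329 (.leaf 1) (.leaf 1))) (.node 70397198338 (.node 4377 (.leaf 1) (.leaf 1)) (.node 4377 (.leaf 1) (.leaf 1)))) (.node 4361 (.node 70531416066 (.node 4329 (.leaf 1)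
    (.leaf 1)) (.node 4329 (.leaf 1) (.leaf 1))) (.node 70531416066 (.node 4377 (.leaf 1) (.leaf 1)) (.node 4377 (.leaf 1) (.leaf 1))))) (.node 70464307202 (.node 4457 (.node 70397198338 (.node 4425 (.leaf 1) (.node 19069654794241 (.leaf 1) (.leaf 1))) (.node 4425 (.leaf 1) (.node 70430752770 (.node 4441 (.leaf 1) (.leaf 1)) (.node 4441 (.leaf 1) (.leaf 1))))) (.node 70397198338 (.node 4473 (.leaf 1) (.leaf 1)) (.node 4473 (.leaf 1) (.leaf 1)))) (.node 4457 (.node 70531416066 (.node 4425 (.leaf 1) (.node 19069654794241 (.leaf 1) (.leaf 1))) (.node 4425 (.leaf 1) (.node 19069654794241 (.leaf 1) (.leaf 1)))) (.node 70531416066 (.node 4473 (.leaf 1) (.leaf 1)) (.node 4473 (.leaf 1) (.leaf 1)))))) (.node 4409 (.node 70732742658 (.node 4361 (.node 70665633794 (.node 4329 (.leaf 1) (.leaf 1)) (.node 4329 (.leaf 1) (.leaf 1))) (.node 70665633794 (.node 4377 (.leaf 1) (.leaf 1)) (.node 4377 (.leaf 1) (.leaf 1)))) (.node 4361 (.node 70799851522 (.node 4329 (.leaf 1) (.leaf 1)) (.node 4329 (.leaf 1) (.leaf 1))) (.node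 70799851522 (.node 4377 (.leaf 1) (.leaf 1)) (.node 4377 (.leaf 1) (.leaf 1))))) (.node 70732742658 (.node 4457 (.node 70665633794 (.node 4425 (.leaf 1) (.node 19069654794241 (.leaf 1) (.leaf 1))) (.node 4425 (.leaf 1) (.node 19069654794241 (.leaf 1) (.leaf 1)))) (.node 70665633794 (.node 4473 (.leaf 1) (.leaf 1)) (.node 4473 (.leaf 1) (.leaf 1)))) (.node 4457 (.node 70799851522 (.node 4425 (.leaf 1) (.node 19069654794241 (.leaf 1) (.leaf 1))) (.node 4425 (.leaf 1) (.node 19069654794241 (.leaf 1) (.leaf 1)))) (.node 19241453486081 (.node 19207093747713 (.leaf 1) (.leaf 1)) (.leaf 1))))))))) (.comp 15 878707508304657351360434551122835147285523136911131377186340354723752045628807903332925182582089504021442995734660483635514292039414523215978501686048952680448 (.node 70330089474 (.comp 65 878707508304657351360434551122834978055195126606888818594831397028026142524423405647564614225294104738585843379513965947812123235182620836780755942339034218496 (.node 4713 (.node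
    70061654018 (.node 4601 (.node 69927436290 (.node 4553 (.node 69860327426 (.node 4521 (.leaf 3) (.node 19481971654657 (.leaf 3) (.leaf 3))) (.node 4521 (.leaf 3) (.node 19481971654657 (.leaf 3) (.leaf 3)))) (.node 69860327426 (.node 4569 (.leaf 3) (.node 69826772994 (.leaf 3) (.leaf 3))) (.node 4569 (.leaf 3) (.node 19688130084865 (.leaf 3) (.leaf 3))))) (.node 4553 (.node 69994545154 (.node 4521 (.leaf 3) (.node 69960990722 (.leaf 3) (.leaf 3))) (.node 4521 (.leaf 3) (.node 70028099586 (.leaf 3) (.leaf 3)))) (.node 69994545154 (.node 4569 (.leaf 3) (.node 69960990722 (.leaf 3) (.leaf 3))) (.node 4569 (.leaf 3) (.node 70028099586 (.leaf 3) (.leaf 3)))))) (.node 69927436290 (.node 4649 (.node 69860327426 (.node 4617 (.leaf 3) (.leaf 3)) (.node 4617 (.leaf 3) (.node 69893881858 (.leaf 3) (.leaf 3)))) (.node 69860327426 (.node 4681 (.leaf 3) (.leaf 3)) (.node 4681 (.leaf 3) (.leaf 3)))) (.node 4649 (.node 69994545154 (.node 4617 (.leaf 3) (.node 69960990722 (.leaf 3) (.leaf 3))) (.node 4617 (.leaf 3) (.node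 70028099586 (.leaf 3) (.leaf 3)))) (.node 69994545154 (.node 4681 (.leaf 3) (.leaf 3)) (.node 4681 (.leaf 3) (.leaf 3)))))) (.node 4601 (.node 70195871746 (.node 4553 (.node 70128762882 (.node 4521 (.leaf 3) (.node 70095208450 (.leaf 3) (.leaf 3))) (.node 4521 (.leaf 3) (.node 70162317314 (.leaf 3) (.leaf 3)))) (.node 70128762882 (.node 4569 (.leaf 3) (.node 70095208450 (.leaf 3) (.leaf 3))) (.node 4569 (.leaf 3) (.node 70162317314 (.leaf 3) (.leaf 3))))) (.node 4553 (.node 70262980610 (.node 4521 (.leaf 3) (.leaf 3)) (.node 4521 (.leaf 3) (.leaf 3))) (.node 70262980610 (.node 4569 (.leaf 1) (.leaf 1)) (.node 4569 (.leaf 1) (.leaf 1))))) (.node 70195871746 (.node 4649 (.node 70128762882 (.node 4617 (.leaf 3) (.node 70095208450 (.leaf 3) (.leaf 3))) (.node 4617 (.leaf 3) (.node 70162317314 (.leaf 3) (.leaf 3)))) (.node 70128762882 (.node 4681 (.node 70095208450 (.leaf 3) (.leaf 3)) (.leaf 3)) (.node 4681 (.node 70162317314 (.leaf 3) (.leaf 3)) (.leaf 3)))) (.node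
    4649 (.node 70262980610 (.node 4617 (.leaf 1) (.leaf 1)) (.node 4617 (.leaf 1) (.leaf 1))) (.node 70262980610 (.node 4681 (.leaf 1) (.leaf 1)) (.node 4681 (.leaf 1) (.leaf 1))))))) (.node 70061654018 (.node 4825 (.node 69927436290 (.node 4761 (.node 69860327426 (.node 20340965113857 (.leaf 3) (.leaf 3)) (.node 4729 (.leaf 3) (.leaf 3))) (.node 69860327426 (.node 4793 (.leaf 3) (.leaf 3)) (.node 4793 (.leaf 3) (.leaf 3)))) (.node 4761 (.node 69994545154 (.node 4729 (.leaf 3) (.leaf 3)) (.node 4729 (.leaf 3) (.leaf 3))) (.node 69994545154 (.node 4793 (.leaf 3) (.leaf 3)) (.node 4793 (.leaf 3) (.leaf 3))))) (.node 69927436290 (.node 4889 (.node 69860327426 (.leaf 3) (.node 4857 (.leaf 3) (.leaf 3))) (.node 69860327426 (.node 4921 (.leaf 3) (.leaf 3)) (.node 4921 (.leaf 3) (.leaf 3)))) (.node 4889 (.node 69994545154 (.node 4857 (.leaf 3) (.leaf 3)) (.node 4857 (.leaf 3) (.leaf 3))) (.node 69994545154 (.node 4921 (.leaf 3) (.leaf 3)) (.node 4921 (.leaf 3) (.leaf 3)))))) (.node 4825 (.node 70195871746 (.node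 4761 (.node 70128762882 (.node 4729 (.leaf 3) (.leaf 3)) (.node 4729 (.leaf 3) (.leaf 3))) (.node 70128762882 (.node 4793 (.leaf 3) (.leaf 3)) (.node 4793 (.leaf 3) (.leaf 3)))) (.node 4761 (.node 70262980610 (.leaf 3) (.leaf 3)) (.node 70262980610 (.node 4793 (.leaf 3) (.leaf 3)) (.node 4793 (.leaf 3) (.leaf 3))))) (.node 70195871746 (.node 4889 (.node 70128762882 (.node 4857 (.leaf 3) (.leaf 3)) (.node 4857 (.leaf 3) (.leaf 3))) (.node 70128762882 (.leaf 3) (.leaf 3))) (.node 4889 (.node 70262980610 (.node 4857 (.leaf 3) (.leaf 3)) (.node 4857 (.leaf 3) (.leaf 3))) (.node 70262980610 (.leaf 3) (.node 4921 (.leaf 3) (.leaf 3))))))))) (.comp 65 878707508304657351360434551122834978055195126606888818594831397028026142524423405647564614225294104738585843379513965947812123235182620836780755942339034218496 (.node 4713 (.node 70598524930 (.node 4601 (.node 70464307202 (.node 4553 (.node 70397198338 (.node 4521 (.leaf 3) (.node 70363643906 (.leaf 3) (.leaf 3))) (.node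
    4521 (.leaf 3) (.node 70430752770 (.leaf 3) (.leaf 3)))) (.node 70397198338 (.node 4569 (.leaf 3) (.node 19688130084865 (.node 19670950215681 (.leaf 3) (.leaf 3)) (.node 19705309954049 (.leaf 3) (.leaf 3)))) (.node 4569 (.leaf 3) (.node 19688130084865 (.node 19670950215681 (.leaf 3) (.leaf 3)) (.node 19705309954049 (.leaf 3) (.leaf 3)))))) (.node 4553 (.node 70531416066 (.node 4521 (.node 70497861634 (.leaf 3) (.node 70514638850 (.leaf 3) (.leaf 3))) (.node 70497861634 (.leaf 3) (.leaf 3))) (.node 4521 (.node 70564970498 (.node 70548193282 (.leaf 3) (.leaf 3)) (.node 70581747714 (.leaf 3) (.leaf 3))) (.node 70564970498 (.leaf 3) (.leaf 3)))) (.node 70531416066 (.node 4569 (.leaf 3) (.node 19688130084865 (.node 19670950215681 (.leaf 3) (.leaf 3)) (.node 19705309954049 (.leaf 3) (.leaf 3)))) (.node 4569 (.leaf 3) (.node 19688130084865 (.node 19670950215681 (.leaf 3) (.leaf 3)) (.node 19705309954049 (.leaf 3) (.leaf 3))))))) (.node 70464307202 (.node 4649 (.node 70397198338 (.node 4617 (.leaf 1) (.leaf 1))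 (.node 4617 (.leaf 1) (.leaf 1))) (.node 70397198338 (.node 4681 (.leaf 1) (.leaf 1)) (.node 4681 (.leaf 1) (.leaf 1)))) (.node 4649 (.node 70531416066 (.node 4617 (.leaf 1) (.leaf 1)) (.node 4617 (.leaf 1) (.leaf 1))) (.node 70531416066 (.node 4681 (.leaf 1) (.leaf 1)) (.node 4681 (.leaf 1) (.leaf 1)))))) (.node 4601 (.node 70732742658 (.node 4553 (.node 70665633794 (.node 4521 (.leaf 1) (.node 70632079362 (.node 19481971654657 (.leaf 1) (.leaf 1)) (.node 19481971654657 (.leaf 1) (.leaf 1)))) (.node 4521 (.leaf 1) (.leaf 1))) (.node 70665633794 (.node 4569 (.leaf 1) (.leaf 1)) (.node 4569 (.leaf 1) (.leaf 1)))) (.node 4553 (.node 70799851522 (.node 4521 (.leaf 1) (.leaf 1)) (.node 4521 (.leaf 1) (.leaf 1))) (.node 70799851522 (.node 4569 (.leaf 1) (.leaf 1)) (.node 4569 (.leaf 1) (.leaf 1))))) (.node 70732742658 (.node 4649 (.node 70665633794 (.node 4617 (.leaf 1) (.leaf 1)) (.node 19859928776705 (.leaf 1) (.leaf 1))) (.node 70665633794 (.node 4681 (.leaf 1)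
    (.leaf 1)) (.node 4681 (.leaf 1) (.leaf 1)))) (.node 4649 (.node 19859928776705 (.leaf 1) (.leaf 1)) (.node 70799851522 (.node 4681 (.leaf 1) (.leaf 1)) (.node 4681 (.leaf 1) (.leaf 1))))))) (.node 70598524930 (.node 4825 (.node 70464307202 (.node 4761 (.node 70397198338 (.node 4729 (.leaf 3) (.leaf 3)) (.node 4729 (.leaf 3) (.leaf 3))) (.node 70397198338 (.node 4793 (.leaf 3) (.leaf 3)) (.node 4793 (.leaf 3) (.leaf 3)))) (.node 4761 (.node 70531416066 (.node 4729 (.leaf 3) (.leaf 3)) (.node 4729 (.node 70564970498 (.leaf 3) (.leaf 3)) (.leaf 3))) (.node 70531416066 (.node 4793 (.leaf 3) (.leaf 3)) (.node 4793 (.leaf 3) (.leaf 3))))) (.node 70464307202 (.node 4889 (.node 70397198338 (.node 4857 (.node 20787641712641 (.leaf 1) (.leaf 1)) (.leaf 1)) (.node 4857 (.node 20787641712641 (.leaf 1) (.leaf 1)) (.leaf 1))) (.node 70397198338 (.node 4921 (.leaf 1) (.leaf 1)) (.node 4921 (.leaf 1) (.leaf 1)))) (.node 4889 (.node 70531416066 (.node 4857 (.node 20787641712641 (.leaf 1) (.leaf 1)) (.leaf 1)) (.node 4857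 (.node 20787641712641 (.leaf 1) (.leaf 1)) (.leaf 1))) (.node 70531416066 (.node 4921 (.leaf 1) (.leaf 1)) (.node 4921 (.leaf 1) (.leaf 1)))))) (.node 4825 (.node 70732742658 (.node 4761 (.node 20340965113857 (.leaf 1) (.leaf 1)) (.node 70665633794 (.node 4793 (.leaf 1) (.leaf 1)) (.node 4793 (.leaf 1) (.leaf 1)))) (.node 4761 (.node 20340965113857 (.leaf 1) (.leaf 1)) (.node 70799851522 (.node 4793 (.leaf 1) (.leaf 1)) (.node 4793 (.leaf 1) (.leaf 1))))) (.node 70732742658 (.node 4889 (.node 70665633794 (.node 4857 (.leaf 1) (.leaf 1)) (.node 4857 (.leaf 1) (.leaf 1))) (.node 70665633794 (.node 4921 (.leaf 1) (.leaf 1)) (.node 4921 (.leaf 1) (.leaf 1)))) (.node 4889 (.node 70799851522 (.node 4857 (.leaf 1) (.leaf 1)) (.node 4857 (.leaf 1) (.leaf 1))) (.node 70799851522 (.node 4921 (.leaf 1) (.leaf 1)) (.node 21131239096321 (.leaf 1) (.leaf 1))))))))))))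
    ⟨25769803776, 25769803776, 1108101562368, 1327144894464, 4362076160, 4429185024, 4294967296, 4294967296, 4294967296, 4294967296, 0⟩ = true := by decide +kernel

theorem bk6_16 : Tr.run2 ce0 pBK
    (.comp 1 878707508304657351360434551122834978055195126606888818594831397028026142524423405647564614225294104738585843379513965947812123235182620836780755942339034218496 (.node 69793218562 (.comp 65 878707508304657351360434551122834978055195126606888818594831397028026142524423405647564614225294104738585843379513965947812123235182620836780755942339034218496 (.node 5497 (.node 69256347650 (.node 5209 (.node 68987912194 (.node 5081 (.node 68853694466 (.node 5017 (.node 68786585602 (.leaf 3) (.leaf 3)) (.node 68786585602 (.leaf 3) (.leaf 3))) (.node 5017 (.node 68920803330 (.leaf 3) (.leaf 3)) (.node 68920803330 (.leaf 3) (.leaf 3)))) (.node 68853694466 (.node 5145 (.node 21955872817153 (.leaf 3) (.leaf 3)) (.leaf 3)) (.node 5145 (.node 68920803330 (.leaf 3) (.leaf 3)) (.leaf 3)))) (.node 5081 (.node 69122129922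 (.node 5017 (.node 21406117003265 (.leaf 3) (.leaf 3)) (.node 69055021058 (.leaf 3) (.leaf 3))) (.node 5017 (.node 21406117003265 (.leaf 3) (.leaf 3)) (.node 69189238786 (.leaf 3) (.leaf 3)))) (.node 69122129922 (.node 5145 (.node 69055021058 (.leaf 3) (.leaf 3)) (.leaf 3)) (.node 5145 (.node 69189238786 (.leaf 3) (.leaf 3)) (.node 22230750724097 (.leaf 3) (.leaf 3)))))) (.node 68987912194 (.node 5353 (.node 68853694466 (.node 5273 (.leaf 3) (.node 68786585602 (.leaf 3) (.leaf 3))) (.node 5273 (.leaf 3) (.node 68920803330 (.leaf 3) (.leaf 3)))) (.node 68853694466 (.node 5417 (.leaf 3) (.leaf 3)) (.node 5417 (.leaf 3) (.leaf 3)))) (.node 5353 (.node 69122129922 (.node 5273 (.leaf 3) (.node 69055021058 (.leaf 3) (.leaf 3))) (.node 5273 (.leaf 3) (.node 69189238786 (.leaf 3) (.leaf 3)))) (.node 69122129922 (.node 5417 (.leaf 3) (.leaf 3)) (.node 5417 (.leaf 3) (.leaf 3)))))) (.node 5209 (.node 69524783106 (.node 5081 (.node 69390565378 (.node 5017 (.node 69323456514 (.leaf 3) (.leaf 3)) (.node 69323456514 (.leaf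 3) (.leaf 3))) (.node 5017 (.node 69457674242 (.leaf 3) (.leaf 3)) (.node 21680994910209 (.leaf 3) (.leaf 3)))) (.node 69390565378 (.node 5145 (.node
    69323456514 (.leaf 3) (.leaf 3)) (.node 69323456514 (.leaf 3) (.leaf 3))) (.node 5145 (.node 69457674242 (.leaf 3) (.leaf 3)) (.node 69457674242 (.leaf 3) (.leaf 3))))) (.node 5081 (.node 69659000834 (.node 5017 (.node 69591891970 (.leaf 3) (.node 4985 (.leaf 3) (.leaf 3))) (.node 21680994910209 (.leaf 3) (.leaf 3))) (.node 5017 (.node 69726109698 (.node 4985 (.leaf 3) (.leaf 3)) (.node 4985 (.leaf 3) (.leaf 3))) (.node 21680994910209 (.leaf 3) (.leaf 3)))) (.node 69659000834 (.node 5145 (.node 69591891970 (.leaf 3) (.leaf 3)) (.node 69591891970 (.leaf 3) (.leaf 3))) (.node 5145 (.node 69726109698 (.leaf 3) (.leaf 3)) (.node 69726109698 (.leaf 3) (.leaf 3)))))) (.node 69524783106 (.node 5353 (.node 69390565378 (.node 5273 (.leaf 3) (.node 69323456514 (.leaf 3) (.leaf 3))) (.node 5273 (.leaf 3) (.node 69457674242 (.leaf 3) (.leaf 3)))) (.node 69390565378 (.node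 5417 (.leaf 3) (.leaf 3)) (.node 5417 (.leaf 3) (.leaf 3)))) (.node 5353 (.node 69659000834 (.node 5273 (.node 22505628631041 (.leaf 3) (.leaf 3)) (.node 69591891970 (.leaf 3) (.leaf 3))) (.node 5273 (.node 69726109698 (.leaf 3) (.leaf 3)) (.node 69726109698 (.leaf 3) (.leaf 3)))) (.node 69659000834 (.node 5417 (.leaf 3) (.leaf 3)) (.node 5417 (.leaf 3) (.node 69726109698 (.leaf 3) (.leaf 3)))))))) (.node 69256347650 (.node 5817 (.node 68987912194 (.node 5657 (.node 68853694466 (.node 5577 (.leaf 3) (.leaf 3)) (.node 5577 (.leaf 3) (.leaf 3))) (.node 68853694466 (.node 5737 (.leaf 3) (.leaf 3)) (.node 5737 (.leaf 3) (.leaf 3)))) (.node 5657 (.node 69122129922 (.node 5577 (.leaf 3) (.leaf 3)) (.node 5577 (.leaf 3) (.leaf 3))) (.node 69122129922 (.node 5737 (.leaf 3) (.leaf 3)) (.node 5737 (.leaf 3) (.leaf 3))))) (.node 68987912194 (.node 5993 (.node 68853694466 (.node 5897 (.leaf 3) (.leaf 3)) (.node 5897 (.leaf 3) (.leaf 3))) (.node 68853694466 (.node 26147760898049 (.leaf 3) (.leaf 3)) (.node 6089 (.leaf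 3) (.leaf 3)))) (.node 5993 (.node 69122129922 (.node 5897 (.leaf 3) (.leaf 3)) (.node 5897 (.leaf 3)
    (.leaf 3))) (.node 69122129922 (.node 6089 (.leaf 3) (.leaf 3)) (.node 6089 (.leaf 3) (.leaf 3)))))) (.node 5817 (.node 69524783106 (.node 5657 (.node 69390565378 (.node 5577 (.leaf 3) (.leaf 3)) (.node 5577 (.leaf 3) (.leaf 3))) (.node 69390565378 (.node 5737 (.leaf 3) (.leaf 3)) (.node 5737 (.leaf 3) (.leaf 3)))) (.node 5657 (.node 69659000834 (.node 5577 (.leaf 3) (.leaf 3)) (.node 5577 (.leaf 3) (.leaf 3))) (.node 69659000834 (.node 5737 (.leaf 3) (.leaf 3)) (.node 5737 (.leaf 3) (.leaf 3))))) (.node 69524783106 (.node 5993 (.node 69390565378 (.node 5897 (.leaf 3) (.leaf 3)) (.node 5897 (.leaf 3) (.leaf 3))) (.node 69390565378 (.node 6089 (.leaf 3) (.leaf 3)) (.node 6089 (.leaf 3) (.leaf 3)))) (.node 5993 (.node 69659000834 (.node 5897 (.leaf 3) (.leaf 3)) (.node 5897 (.leaf 3) (.leaf 3))) (.node 69659000834 (.node 6089 (.leaf 3) (.leaf 3)) (.node 6089 (.leaf 3) (.leaf 3))))))))) (.comp 65 69617318994479544489843178514657935932170106125267997920069478441328732598048849434718954383499055293222523752248855904582839087957524269450907043878676145710501581036659895068009936453632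 (.node 5497 (.node 70330089474 (.node 5209 (.node 70061654018 (.node 5081 (.node 69927436290 (.node 5017 (.node 69860327426 (.node 4985 (.leaf 1) (.leaf 1)) (.node 4985 (.leaf 1) (.leaf 1))) (.node 69860327426 (.node 5049 (.leaf 1) (.leaf 1)) (.node 5049 (.leaf 1) (.leaf 1)))) (.node 5017 (.node 69994545154 (.node 4985 (.leaf 1) (.leaf 1)) (.node 4985 (.leaf 1) (.leaf 1))) (.node 69994545154 (.node 5049 (.leaf 1) (.leaf 1)) (.node 5049 (.leaf 1) (.leaf 1))))) (.node 69927436290 (.node 5145 (.node 69860327426 (.leaf 1) (.node 21955872817153 (.leaf 1) (.leaf 1))) (.node 69860327426 (.leaf 1) (.leaf 1))) (.node 5145 (.node 69994545154 (.node 21955872817153 (.leaf 1) (.leaf 1)) (.node 21955872817153 (.leaf 1) (.leaf 1))) (.node 69994545154 (.leaf 1) (.leaf 1))))) (.node 5081 (.node 70195871746 (.node 5017 (.node 70128762882 (.node 4985 (.leaf 1) (.leaf 1)) (.node 4985 (.leaf 1) (.leaf 1)))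
    (.node 70128762882 (.node 5049 (.leaf 1) (.leaf 1)) (.node 5049 (.leaf 1) (.leaf 1)))) (.node 5017 (.node 70262980610 (.node 4985 (.leaf 1) (.leaf 1)) (.node 4985 (.leaf 1) (.leaf 1))) (.node 70262980610 (.node 5049 (.leaf 1) (.leaf 1)) (.node 5049 (.leaf 1) (.leaf 1))))) (.node 70195871746 (.node 5145 (.node 70128762882 (.node 21955872817153 (.leaf 1) (.leaf 1)) (.node 21955872817153 (.leaf 1) (.leaf 1))) (.node 70128762882 (.leaf 1) (.leaf 1))) (.node 5145 (.node 70262980610 (.node 5113 (.leaf 1) (.leaf 1)) (.node 5113 (.leaf 1) (.leaf 1))) (.node 70262980610 (.node 22230750724097 (.leaf 1) (.leaf 1)) (.node 22230750724097 (.leaf 1) (.leaf 1))))))) (.node 70061654018 (.node 5353 (.node 69927436290 (.node 5273 (.node 69860327426 (.leaf 1) (.leaf 1)) (.node 69860327426 (.leaf 1) (.leaf 1))) (.node 5273 (.node 69994545154 (.leaf 1) (.leaf 1)) (.node 69994545154 (.node 22814866276353 (.leaf 1) (.leaf 1)) (.node 22814866276353 (.leaf 1) (.leaf 1))))) (.node 69927436290 (.node 5417 (.node 69860327426 (.leaf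 1) (.leaf 1)) (.node 69860327426 (.leaf 1) (.leaf 1))) (.node 5417 (.node 69994545154 (.leaf 1) (.leaf 1)) (.node 69994545154 (.leaf 1) (.leaf 1))))) (.node 5353 (.node 70195871746 (.node 5273 (.node 70128762882 (.leaf 1) (.leaf 1)) (.node 70128762882 (.node 5305 (.leaf 1) (.leaf 1)) (.node 5305 (.leaf 1) (.leaf 1)))) (.node 5273 (.node 70262980610 (.leaf 1) (.leaf 1)) (.node 70262980610 (.node 5305 (.leaf 1) (.leaf 1)) (.node 5305 (.leaf 1) (.leaf 1))))) (.node 70195871746 (.node 5417 (.node 70128762882 (.leaf 1) (.leaf 1)) (.node 70128762882 (.leaf 1) (.leaf 1))) (.node 5417 (.node 70262980610 (.leaf 1) (.leaf 1)) (.node 70262980610 (.leaf 1) (.leaf 1))))))) (.node 5209 (.node 70598524930 (.node 5081 (.node 70464307202 (.node 5017 (.node 70397198338 (.node 4985 (.leaf 1) (.leaf 1)) (.node 4985 (.leaf 1) (.leaf 1))) (.node 70397198338 (.node 5049 (.leaf 1) (.leaf 1)) (.node 5049 (.leaf 1) (.leaf 1)))) (.node 5017 (.node 70531416066 (.node 4985 (.leaf 1) (.leaf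
    1)) (.node 4985 (.leaf 1) (.leaf 1))) (.node 70531416066 (.node 5049 (.leaf 1) (.leaf 1)) (.node 5049 (.leaf 1) (.leaf 1))))) (.node 70464307202 (.node 5145 (.node 70397198338 (.node 5113 (.leaf 1) (.leaf 1)) (.node 5113 (.leaf 1) (.leaf 1))) (.node 70397198338 (.node 22230750724097 (.leaf 1) (.leaf 1)) (.node 22230750724097 (.leaf 1) (.leaf 1)))) (.node 5145 (.node 70531416066 (.node 5113 (.leaf 1) (.leaf 1)) (.node 5113 (.leaf 1) (.leaf 1))) (.node 70531416066 (.node 22230750724097 (.leaf 1) (.leaf 1)) (.node 22230750724097 (.leaf 1) (.leaf 1)))))) (.node 5081 (.node 70732742658 (.node 5017 (.node 70665633794 (.node 4985 (.leaf 1) (.leaf 1)) (.node 4985 (.leaf 1) (.leaf 1))) (.node 70665633794 (.node 5049 (.leaf 1) (.leaf 1)) (.node 5049 (.leaf 1) (.leaf 1)))) (.node 5017 (.node 70799851522 (.node 4985 (.leaf 1) (.leaf 3)) (.leaf 3)) (.leaf 3))) (.node 70732742658 (.node 5145 (.node 70665633794 (.node 5113 (.leaf 1) (.leaf 1)) (.node 5113 (.leaf 1) (.leaf 1))) (.node 70665633794 (.node 5177 (.leaf 1)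 (.leaf 1)) (.node 5177 (.leaf 1) (.leaf 1)))) (.leaf 3)))) (.node 70598524930 (.node 5353 (.node 70464307202 (.node 5273 (.node 70397198338 (.leaf 1) (.leaf 1)) (.node 70397198338 (.node 5305 (.leaf 1) (.leaf 1)) (.node 5305 (.leaf 1) (.leaf 1)))) (.node 5273 (.node 70531416066 (.leaf 1) (.node 22505628631041 (.leaf 1) (.leaf 1))) (.node 70531416066 (.node 5305 (.leaf 1) (.leaf 1)) (.node 5305 (.leaf 1) (.leaf 1))))) (.node 70464307202 (.node 5417 (.node 70397198338 (.leaf 1) (.leaf 1)) (.node 70397198338 (.leaf 1) (.leaf 1))) (.node 5417 (.node 70531416066 (.leaf 1) (.leaf 1)) (.node 70531416066 (.leaf 1) (.leaf 1))))) (.node 5353 (.node 70732742658 (.node 5273 (.node 70665633794 (.node 22505628631041 (.leaf 1) (.leaf 1)) (.node 22505628631041 (.leaf 1) (.leaf 1))) (.node 70665633794 (.node 5305 (.leaf 1) (.leaf 1)) (.node 70699188226 (.leaf 1) (.leaf 1)))) (.leaf 3)) (.node 70732742658 (.node 5417 (.node 70665633794 (.node 5385 (.leaf 3) (.leaf 3)) (.leaf 3))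
    (.leaf 3)) (.leaf 3)))))) (.node 70330089474 (.node 5817 (.node 70061654018 (.node 5657 (.node 69927436290 (.node 5577 (.node 69860327426 (.leaf 1) (.leaf 1)) (.node 69860327426 (.leaf 1) (.leaf 1))) (.node 5577 (.node 69994545154 (.leaf 1) (.leaf 1)) (.node 69994545154 (.leaf 1) (.leaf 1)))) (.node 69927436290 (.node 5737 (.node 69860327426 (.leaf 1) (.leaf 1)) (.leaf 1)) (.node 5737 (.node 69994545154 (.leaf 1) (.leaf 1)) (.leaf 1)))) (.node 5657 (.node 70195871746 (.node 5577 (.node 70128762882 (.leaf 1) (.leaf 1)) (.node 70128762882 (.leaf 1) (.leaf 1))) (.node 5577 (.node 70262980610 (.leaf 1) (.leaf 1)) (.node 70262980610 (.leaf 1) (.leaf 1)))) (.node 70195871746 (.node 5737 (.node 70128762882 (.leaf 1) (.leaf 1)) (.leaf 1)) (.node 5737 (.node 70262980610 (.leaf 1) (.leaf 1)) (.node 70262980610 (.leaf 1) (.leaf 1)))))) (.node 70061654018 (.node 5993 (.node 69927436290 (.node 5897 (.leaf 1) (.leaf 1)) (.node 5897 (.leaf 1) (.leaf 1))) (.node 69927436290 (.node 6089 (.leaf 1) (.leaf 1)) (.node 6089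 (.leaf 1) (.leaf 1)))) (.node 5993 (.node 70195871746 (.node 5897 (.leaf 1) (.node 70128762882 (.leaf 1) (.leaf 1))) (.node 5897 (.leaf 1) (.node 70262980610 (.leaf 1) (.leaf 1)))) (.node 70195871746 (.node 6089 (.leaf 1) (.leaf 1)) (.node 6089 (.leaf 1) (.leaf 1)))))) (.node 5817 (.node 70598524930 (.node 5657 (.node 70464307202 (.node 5577 (.node 70397198338 (.leaf 1) (.leaf 1)) (.node 70397198338 (.leaf 1) (.leaf 1))) (.node 5577 (.node 70531416066 (.leaf 1) (.leaf 1)) (.node 70531416066 (.leaf 1) (.leaf 1)))) (.node 70464307202 (.node 5737 (.node 70397198338 (.leaf 1) (.leaf 1)) (.node 70397198338 (.leaf 1) (.leaf 1))) (.node 5737 (.node 70531416066 (.leaf 1) (.leaf 1)) (.node 70531416066 (.leaf 1) (.leaf 1))))) (.node 5657 (.leaf 3) (.leaf 3))) (.node 70598524930 (.node 5993 (.node 70464307202 (.node 5897 (.leaf 1) (.node 70397198338 (.leaf 1) (.leaf 1))) (.node 5897 (.leaf 1) (.node 70531416066 (.leaf 1) (.leaf 1)))) (.node 70464307202 (.node 6089 (.leaf 1)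
    (.leaf 1)) (.leaf 3))) (.leaf 3))))))))
    ⟨25769803776, 25769803776, 1331439861760, 1657857376256, 4294967296, 4429185024, 4294967296, 4294967296, 4294967296, 4294967296, 0⟩ = true := by decide +kernel

theorem bk6_17 : Tr.run2 ce0 pBK
    (.comp 1 69617318994479544489843178514657935932170106125267997920069478441328732598048849434718954383499055293222523752248855904582839087957524269450907043878676145710501581036659895068009936453632 (.node 4953 (.node 71940702210 (.comp 79 878707508304666716606085499099529292077212516410048622980768349637204623099709545099222412141499702383972582760818570585005221358919318821938129304007825424384 (.node 4505 (.node 71403831298 (.setw 4562440617622211427686362547136622489250700075025563511689673339130919819545729396553741394476994087696631316627381020562740942468384310522734644027632919885283431614818542883177099195425227518 (.setw 4562440617622195218641171605757878300157482531427317369321578642111779211509285292441196812804547213840971367003184582289746367074676566791675799545702352321648524445391300408198049674326704895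 (.node 4313 (.node 71135395842 (.node 4217 (.node 71001178114 (.node 4169 (.node 70934069250 (.node 4137 (.leaf 3) (.leaf 3)) (.node 4137 (.leaf 3) (.leaf 3))) (.node 70934069250 (.node 4185 (.leaf 3) (.leaf 254)) (.node 4185 (.leaf 3) (.leaf 254)))) (.node 4169 (.node 71068286978 (.node 4137 (.leaf 3) (.leaf 3)) (.node 4137 (.leaf 3) (.leaf 3))) (.node 71068286978 (.node 4185 (.leaf 3) (.leaf 254)) (.node 4185 (.leaf 3) (.leaf 254))))) (.node 71001178114 (.node 4265 (.node 70934069250 (.node 4233 (.leaf 3) (.node 18245021073409 (.leaf 3) (.leaf 3))) (.node 4233 (.leaf 3) (.node 18245021073409 (.leaf 3) (.leaf 3)))) (.node 70934069250 (.node 4281 (.leaf 3) (.leaf 3)) (.node 4281 (.leaf 3) (.leaf 3)))) (.node 4265 (.node 71068286978 (.node 4233 (.leaf 3) (.node 18245021073409 (.leaf 3) (.leaf 3))) (.node 4233 (.leaf 3) (.node 18245021073409 (.leaf 3) (.leaf 3)))) (.node 71068286978 (.node 4281 (.leaf 3) (.leaf 3)) (.node 4281 (.leaf 3) (.leaf 3)))))) (.node 4217 (.node 71269613570 (.node 4169 (.node 71202504706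 (.node 4137 (.leaf 3) (.leaf 3)) (.node 17798344474625 (.leaf 254) (.leaf 3))) (.leaf 255)) (.node 17901423689729 (.node 17815524343809
    (.leaf 254) (.leaf 3)) (.node 17987323035649 (.leaf 3) (.leaf 254)))) (.node 18313740550145 (.node 18227841204225 (.leaf 3) (.leaf 3)) (.node 18399639896065 (.leaf 3) (.leaf 3))))) (.node 71135395842 (.node 4409 (.node 71001178114 (.node 4361 (.node 70934069250 (.node 4329 (.leaf 3) (.leaf 255)) (.node 4329 (.leaf 3) (.leaf 255))) (.node 70934069250 (.node 4377 (.leaf 3) (.leaf 255)) (.node 4377 (.leaf 3) (.leaf 255)))) (.node 4361 (.node 71068286978 (.node 4329 (.leaf 3) (.leaf 255)) (.node 18622978195457 (.leaf 3) (.leaf 3))) (.node 71068286978 (.node 4377 (.leaf 3) (.leaf 254)) (.node 18829136625665 (.leaf 3) (.leaf 254))))) (.node 71001178114 (.node 4457 (.node 70934069250 (.node 4425 (.leaf 3) (.leaf 3)) (.node 4425 (.leaf 3) (.leaf 3))) (.leaf 3)) (.node 4457 (.leaf 255) (.leaf 3)))) (.leaf 1))))) (.leaf 1)) (.node 71403831298 (.node 4713 (.node 71135395842 (.node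 4601 (.node 71001178114 (.node 4553 (.node 70934069250 (.node 4521 (.leaf 3) (.node 19481971654657 (.leaf 3) (.leaf 3))) (.node 4521 (.leaf 3) (.node 19481971654657 (.leaf 3) (.leaf 3)))) (.node 70934069250 (.node 4569 (.leaf 3) (.leaf 3)) (.node 19653770346497 (.leaf 3) (.leaf 3)))) (.leaf 1)) (.node 71001178114 (.node 4649 (.leaf 3) (.node 70934069250 (.node 4681 (.leaf 3) (.leaf 3)) (.node 20100446945281 (.leaf 3) (.leaf 3)))) (.leaf 1))) (.leaf 1)) (.node 71135395842 (.node 4825 (.node 71001178114 (.node 4761 (.leaf 1) (.leaf 1)) (.leaf 1)) (.leaf 1)) (.leaf 1))) (.leaf 1)))) (.leaf 1)) (.node 71940702210 (.node 5497 (.node 71403831298 (.node 5209 (.leaf 1) (.leaf 1)) (.leaf 1)) (.leaf 1)) (.leaf 1))))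
    ⟨25769803776, 25769803776, 1108101562368, 1657857376256, 4429185024, 4563402752, 4294967296, 4294967296, 4294967296, 4294967296, 0⟩ = true := by decide +kernel

theorem bk6_18 : Tr.run2 ce0 pBK
    (.comp 1 69617318994479544489843178514657935932170118612262199184038403967717651770714072429111525043383658729850392607937252210662052685774230640901707970793260821017012722397446335856533783445504 (.node 4121 (.leaf 1) (.leaf 1)))
    ⟨25769803776, 25769803776, 828928688128, 1657857376256, 4563402752, 4831838208, 4294967296, 4294967296, 4294967296, 4294967296, 0⟩ = true := by decide +kernel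

theorem bk6_19 : Tr.run2 ce0 pBK
    (.comp 1 69617318994479544489843178514657935932170118612262199184038403967717651770714072429111525043383658729850392607937252210662052685774230640901707970793260821017012722397446335856533783445504 (.node 73014444034 (.comp 65 878707508304657351360434551122834978055195126606888818594831397028026142524423405647564614225294104738586034941456574183919418028561014625428708284729307168768 (.node 12393 (.node 70866960386 (.node 8265 (.node 69793218562 (.comp 129 878707508304657351360434551122834978055195126606888818594831397028026142524423405647564614225294104738586034941456574183919418028561014625428708284729307168768 (.node 7081 (.node 69256347650 (.node 6601 (.node 68987912194 (.node 6393 (.node 68853694466 (.leaf 5) (.leaf 5)) (.node 27900107554817 (.leaf 5) (.leaf 5))) (.node 6393 (.node 69122129922 (.leaf 5) (.leaf 5)) (.node 69122129922 (.leaf 5) (.leaf 5)))) (.node 68987912194 (.node 6841 (.leaf 5) (.leaf 5)) (.node 6841 (.leaf 5) (.leaf 5)))) (.node 6601 (.node 69524783106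 (.node 6393 (.node 69390565378 (.leaf 5) (.node 6281 (.leaf 5) (.leaf 5))) (.node 69390565378 (.leaf 5) (.leaf 5))) (.node 6393 (.node 69659000834 (.node 6281 (.leaf 5) (.leaf 5)) (.node 6281 (.leaf 5) (.leaf 5))) (.node 69659000834 (.leaf 5) (.leaf 5)))) (.node 69524783106 (.node 6841 (.node 69390565378 (.leaf 5) (.leaf 5)) (.leaf 5)) (.node 6841 (.node 69659000834 (.leaf 5) (.leaf 5)) (.leaf 5))))) (.node 69256347650 (.node 7625 (.node 68987912194 (.leaf 5) (.leaf 5)) (.node 68987912194 (.leaf 5) (.leaf 5))) (.node 7625 (.node 69524783106 (.leaf 5) (.leaf 5)) (.node 69524783106 (.leaf 5) (.leaf 5)))))) (.node 7081 (.node 70330089474 (.node 6601 (.setw 57586975264254024178757438742386113121825267817309065615430870435628721276480612312518794557868874448147961831719827272355815308340928239159263621437130946543354623 (.node 70061654018 (.node 6393 (.node 69927436290 (.node 6281 (.node 69860327426 (.leaf 3) (.leaf 3)) (.node 69860327426 (.leaf 3) (.leaf 3))) (.node 6281 (.node 69994545154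
    (.leaf 3) (.leaf 3)) (.node 69994545154 (.leaf 3) (.leaf 3)))) (.node 69927436290 (.node 6489 (.leaf 3) (.leaf 3)) (.node 6489 (.leaf 255) (.leaf 3)))) (.node 6393 (.node 70195871746 (.node 6281 (.node 70128762882 (.leaf 3) (.leaf 3)) (.node 70128762882 (.leaf 3) (.leaf 3))) (.node 6281 (.node 70262980610 (.leaf 3) (.leaf 3)) (.node 70262980610 (.leaf 3) (.leaf 3)))) (.node 70195871746 (.node 6489 (.leaf 255) (.leaf 3)) (.node 6489 (.leaf 255) (.leaf 3)))))) (.node 70061654018 (.node 6841 (.node 69927436290 (.leaf 3) (.leaf 3)) (.node 69927436290 (.leaf 3) (.leaf 3))) (.node 6841 (.node 70195871746 (.node 6713 (.leaf 3) (.leaf 3)) (.node 6713 (.leaf 3) (.leaf 3))) (.node 70195871746 (.leaf 3) (.leaf 3))))) (.node 6601 (.node 70598524930 (.node 6393 (.node 70464307202 (.node 6281 (.node 70397198338 (.leaf 3) (.leaf 3)) (.leaf 1)) (.leaf 1)) (.leaf 1)) (.leaf 1)) (.leaf 1))) (.node 70330089474 (.node 7625 (.node 70061654018 (.node 7337 (.node 69927436290 (.leaf 3) (.leaf 3)) (.node 69927436290 (.leaf 3)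 (.leaf 3))) (.node 7337 (.node 70195871746 (.leaf 3) (.leaf 3)) (.node 70195871746 (.leaf 3) (.leaf 3)))) (.node 70061654018 (.node 7929 (.leaf 3) (.leaf 3)) (.node 7929 (.leaf 3) (.leaf 3)))) (.leaf 1)))) (.node 69793218562 (.node 9913 (.node 69256347650 (.node 9017 (.node 68987912194 (.leaf 3) (.leaf 3)) (.node 68987912194 (.leaf 3) (.leaf 3))) (.node 9017 (.node 69524783106 (.leaf 3) (.leaf 3)) (.node 69524783106 (.leaf 3) (.leaf 3)))) (.node 69256347650 (.node 68987912194 (.leaf 3) (.leaf 3)) (.node 11017 (.node 69524783106 (.leaf 3) (.leaf 3)) (.leaf 3)))) (.node 9913 (.node 70330089474 (.node 9017 (.node 70061654018 (.leaf 3) (.leaf 3)) (.node 70061654018 (.leaf 3) (.leaf 3))) (.node 70598524930 (.node 70464307202 (.leaf 3) (.leaf 3)) (.node 70732742658 (.leaf 3) (.leaf 3)))) (.node 70330089474 (.node 11017 (.node 70061654018 (.leaf 3) (.leaf 3)) (.leaf 3)) (.node 70598524930 (.leaf 3) (.leaf 3)))))) (.node 8265 (.leaf 1) (.leaf 1))) (.node 70866960386 (.node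
    24809 (.node 69793218562 (.node 16537 (.node 69256347650 (.leaf 3) (.node 14169 (.leaf 3) (.leaf 3))) (.node 69256347650 (.leaf 3) (.leaf 3))) (.node 16537 (.node 70330089474 (.node 70061654018 (.leaf 3) (.leaf 3)) (.node 70598524930 (.leaf 3) (.leaf 3))) (.node 70330089474 (.leaf 3) (.leaf 3)))) (.node 69793218562 (.node 49641 (.node 69256347650 (.leaf 3) (.leaf 3)) (.node 69256347650 (.leaf 3) (.leaf 3))) (.node 70330089474 (.leaf 3) (.leaf 3)))) (.leaf 1)))) (.leaf 1)))
    ⟨25769803776, 25769803776, 1662152343552, 0, 4294967296, 4831838208, 4294967296, 4294967296, 4294967296, 4294967296, 0⟩ = true := by decide +kernel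

theorem bk6_20 : Tr.run2 ce0 pBK
    (.comp 1 69617318994479544489843178514657935932170115490513648868046172586120421977547766680513382378412507870693425394015153134142249286320054048039007739064614652190464165219759378310977938259968 (.node 6185 (.node 4121 (.node 81604378626 (.leaf 1) (.leaf 1)) (.leaf 1)) (.leaf 1)))
    ⟨25769803776, 25769803776, 828928688128, 0, 4831838208, 5368709120, 4294967296, 4294967296, 4294967296, 4294967296, 0⟩ = true := by decide +kernel

theorem bk6_21 : Tr.run2 ce0 pBK
    (.comp 1 69617318994479544489843178514657935932170115490513648868046172586120421977547766680513382378412507870693425394015153134142249286320054048039007739064614652190464165219759378310977938259968 (.node 6185 (.node 94489280514 (.node 4121 (.node 90194313218 (.leaf 1) (.leaf 1)) (.leaf 1)) (.node 4121 (.node 98784247810 (.leaf 1) (.leaf 1)) (.leaf 1))) (.node 94489280514 (.leaf 1) (.node 98784247810 (.leaf 1) (.leaf 1)))))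
    ⟨25769803776, 25769803776, 828928688128, 0, 5368709120, 6442450944, 4294967296, 4294967296, 4294967296, 4294967296, 0⟩ = true := by decide +kernel

theorem bk6_22 : Tr.run2 ce0 pBK
    (.comp 1 0 (.node 206158430210 (.node 154618822658 (.comp 65 878707508304660473108984867115066359652424919773194567192974061999177001681390619569663690745097504192762244680271589440350997268432012388315578739024440852480 (.node 128849018882 (.comp 129 878707508304660473108984867115066359652424919773194567192974061999177001681390619569663690745097504192762244680271589440350997268352784225801314401430896902144 (.setw 69617318994479297159441762996220432175777781710143288357462312788804890611477962178623645080704207029883236749442008990499219842976355415980861265303609210607701850856504884664532182500607 (.node 6185 (.node 115964116994 (.node 4121 (.node 109521666050 (.leaf 255) (.node 3529 (.node 112742891522 (.leaf 255) (.leaf 255)) (.node 112742891522 (.leaf 255) (.leaf 5)))) (.node 109521666050 (.leaf 255) (.node 4953 (.node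 112742891522 (.leaf 255) (.leaf 5)) (.node 112742891522 (.leaf 5) (.leaf 5))))) (.node 4121 (.node 122406567938 (.node 3529 (.node 119185342466 (.leaf 5) (.leaf 5)) (.node 119185342466 (.leaf 5) (.leaf 5))) (.node 3529 (.node 125627793410 (.leaf 5) (.leaf 5)) (.node 125627793410 (.leaf 5) (.leaf 5)))) (.node 122406567938 (.node 4953 (.node 119185342466 (.leaf 5) (.leaf 5)) (.node 119185342466 (.leaf 5) (.leaf 5))) (.node 4953 (.node 125627793410 (.leaf 5) (.leaf 5)) (.node 125627793410 (.leaf 5) (.leaf 5)))))) (.node 115964116994 (.node 12393 (.node 109521666050 (.leaf 255) (.node 8265 (.leaf 3) (.leaf 3))) (.node 109521666050 (.leaf 255) (.leaf 3))) (.node 12393 (.node 122406567938 (.node 8265 (.leaf 3) (.leaf 3)) (.node 8265 (.node 125627793410 (.leaf 3) (.leaf 3)) (.leaf 3))) (.node 122406567938 (.leaf 3) (.leaf 3))))))) (.setw 57586975264254024178757438742386113121825267817309065615430870435628721276480612312518794557868874448147949277516356498994287636762081823825222490906627389299622655 (.node 6185 (.node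 141733920770 (.node 4121 (.node 135291469826 (.node 3529 (.node 132070244354 (.leaf 3) (.leaf 3)) (.node 132070244354 (.leaf 3)
    (.leaf 3))) (.node 3529 (.node 138512695298 (.node 14156212207617 (.leaf 255) (.leaf 3)) (.leaf 255)) (.node 138512695298 (.leaf 3) (.leaf 255)))) (.node 135291469826 (.node 4953 (.node 132070244354 (.leaf 3) (.leaf 3)) (.node 132070244354 (.leaf 3) (.leaf 3))) (.node 4953 (.node 138512695298 (.leaf 3) (.leaf 255)) (.leaf 255)))) (.node 4121 (.node 148176371714 (.node 3529 (.node 144955146242 (.leaf 255) (.leaf 255)) (.node 144955146242 (.leaf 255) (.leaf 255))) (.node 3529 (.node 151397597186 (.leaf 255) (.leaf 255)) (.node 151397597186 (.leaf 255) (.leaf 255)))) (.node 148176371714 (.node 4953 (.leaf 255) (.leaf 255)) (.node 4953 (.node 151397597186 (.leaf 255) (.leaf 255)) (.node 151397597186 (.leaf 255) (.leaf 255)))))) (.node 141733920770 (.node 12393 (.node 135291469826 (.node 8265 (.node 132070244354 (.leaf 3) (.leaf 3)) (.node 132070244354 (.leaf 3) (.leaf 3))) (.node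 39582418599937 (.leaf 255) (.leaf 255))) (.node 135291469826 (.node 24809 (.leaf 3) (.leaf 3)) (.leaf 255))) (.node 12393 (.node 148176371714 (.leaf 255) (.node 8265 (.node 151397597186 (.leaf 255) (.leaf 255)) (.leaf 255))) (.node 148176371714 (.leaf 255) (.node 24809 (.leaf 255) (.leaf 255))))))))) (.node 180388626434 (.comp 65 878707508304654229611884235130603596457965333440583069996688732056875283367456191725465537705490705284409058954871125983058659615097213545398870635132118630400 (.comp 129 878707508304657351360434551122834978055195126606888818594831397028026142524423405647564614225294104738585651817571357711704828441804227048114356855875051716608 (.comp 193 18446744073709551616 (.node 6185 (.node 167503724546 (.node 4121 (.node 161061273602 (.node 3529 (.node 157840048130 (.node 3289 (.node 156229435394 (.leaf 5) (.leaf 5)) (.leaf 5)) (.node 3289 (.node 159450660866 (.leaf 3) (.leaf 3)) (.node 159450660866 (.leaf 3) (.leaf 3)))) (.node 157840048130 (.leaf 5) (.node 3801 (.node 159450660866 (.leaf 3)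 (.leaf 3)) (.node 16973710753793 (.leaf 3) (.leaf 3))))) (.node 3529 (.node
    164282499074 (.leaf 3) (.node 3289 (.node 165893111810 (.leaf 3) (.leaf 3)) (.node 165893111810 (.leaf 3) (.leaf 3)))) (.node 164282499074 (.leaf 3) (.node 3801 (.node 165893111810 (.leaf 3) (.leaf 3)) (.leaf 3))))) (.node 161061273602 (.node 4953 (.node 157840048130 (.leaf 5) (.node 159450660866 (.leaf 5) (.leaf 5))) (.node 157840048130 (.leaf 5) (.leaf 5))) (.node 4953 (.node 164282499074 (.leaf 3) (.node 4505 (.leaf 3) (.leaf 3))) (.node 164282499074 (.leaf 3) (.node 5497 (.leaf 3) (.leaf 3)))))) (.node 4121 (.node 3529 (.node 173946175490 (.node 170724950018 (.node 3289 (.node 169114337282 (.leaf 3) (.leaf 3)) (.node 169114337282 (.leaf 3) (.leaf 3))) (.node 3289 (.node 172335562754 (.node 3177 (.leaf 3) (.leaf 3)) (.node 173140869122 (.leaf 3) (.leaf 3))) (.node 172335562754 (.node 3401 (.leaf 3) (.leaf 3)) (.node 173140869122 (.leaf 3) (.leaf 3))))) (.node 3289 (.node 177167400962 (.leaf 7) (.leaf 7)) (.node 177167400962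 (.leaf 7) (.leaf 7)))) (.node 173946175490 (.node 170724950018 (.node 3801 (.node 169114337282 (.leaf 3) (.leaf 3)) (.node 169114337282 (.leaf 3) (.leaf 3))) (.node 3801 (.node 172335562754 (.leaf 3) (.node 173140869122 (.leaf 3) (.leaf 3))) (.node 172335562754 (.leaf 3) (.node 173140869122 (.leaf 3) (.leaf 3))))) (.node 3801 (.node 177167400962 (.leaf 7) (.leaf 7)) (.node 177167400962 (.leaf 7) (.leaf 7))))) (.node 4953 (.node 173946175490 (.node 170724950018 (.node 4505 (.node 169114337282 (.leaf 3) (.leaf 3)) (.node 169114337282 (.leaf 3) (.leaf 3))) (.node 4505 (.node 4313 (.node 172335562754 (.leaf 3) (.leaf 3)) (.node 172335562754 (.leaf 3) (.leaf 3))) (.node 172335562754 (.leaf 3) (.leaf 3)))) (.node 4505 (.node 177167400962 (.leaf 7) (.leaf 7)) (.node 177167400962 (.leaf 7) (.leaf 7)))) (.node 173946175490 (.node 170724950018 (.node 5497 (.node 169114337282 (.leaf 3) (.leaf 3)) (.node 169114337282 (.leaf 3) (.leaf 3))) (.node 5497 (.node 172335562754 (.leaf 3) (.leaf 3)) (.node 5817 (.node 172335562754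 (.leaf 3) (.leaf 3)) (.node
    172335562754 (.leaf 3) (.leaf 3))))) (.node 5497 (.node 177167400962 (.leaf 7) (.leaf 7)) (.node 177167400962 (.leaf 7) (.leaf 7))))))) (.node 167503724546 (.node 12393 (.node 161061273602 (.node 8265 (.node 157840048130 (.leaf 5) (.leaf 5)) (.node 157840048130 (.leaf 5) (.leaf 5))) (.node 8265 (.node 164282499074 (.node 162671886338 (.leaf 5) (.leaf 5)) (.node 165893111810 (.leaf 5) (.leaf 5))) (.node 164282499074 (.leaf 5) (.node 165893111810 (.leaf 5) (.leaf 5))))) (.node 161061273602 (.node 24809 (.node 157840048130 (.leaf 5) (.leaf 5)) (.node 157840048130 (.leaf 5) (.leaf 5))) (.node 24809 (.node 164282499074 (.leaf 5) (.node 165893111810 (.leaf 5) (.leaf 5))) (.node 164282499074 (.leaf 5) (.leaf 5))))) (.node 12393 (.node 8265 (.node 173946175490 (.node 7081 (.node 170724950018 (.node 6601 (.leaf 3) (.leaf 3)) (.node 6601 (.node 172335562754 (.leaf 3) (.leaf 3)) (.node 172335562754 (.leaf 3) (.leaf 3)))) (.node 170724950018 (.node 169114337282 (.leaf 3) (.leaf 3)) (.node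 7625 (.node 172335562754 (.leaf 3) (.leaf 3)) (.node 172335562754 (.leaf 3) (.leaf 3))))) (.node 7081 (.node 177167400962 (.leaf 7) (.leaf 7)) (.node 177167400962 (.leaf 7) (.leaf 7)))) (.node 173946175490 (.node 9913 (.node 170724950018 (.leaf 3) (.node 9017 (.node 172335562754 (.leaf 3) (.leaf 3)) (.node 172335562754 (.leaf 3) (.leaf 3)))) (.node 170724950018 (.leaf 3) (.node 11017 (.node 172335562754 (.leaf 3) (.leaf 3)) (.node 172335562754 (.leaf 3) (.leaf 3))))) (.node 9913 (.node 177167400962 (.leaf 7) (.leaf 7)) (.node 177167400962 (.leaf 7) (.leaf 7))))) (.setw 57586975264253819591844445233519237297469216092362052075302992744079378570769608980920109479067038861519057196073375659148787659692703817576924795365796382699946751 (.node 24809 (.node 173946175490 (.node 16537 (.node 170724950018 (.leaf 3) (.node 14169 (.leaf 255) (.leaf 255))) (.node 170724950018 (.leaf 3) (.node 19849 (.leaf 3) (.leaf 3)))) (.node 16537 (.node 177167400962 (.node 175556788226 (.leaf 3) (.leaf 3)) (.node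
    178778013698 (.leaf 3) (.node 179583320066 (.leaf 3) (.leaf 3)))) (.node 177167400962 (.node 175556788226 (.leaf 3) (.leaf 3)) (.node 178778013698 (.leaf 3) (.node 179583320066 (.leaf 3) (.leaf 3)))))) (.node 173946175490 (.node 49641 (.node 170724950018 (.leaf 3) (.leaf 255)) (.node 170724950018 (.leaf 3) (.leaf 255))) (.node 49641 (.leaf 7) (.leaf 7))))))))))) (.node 6185 (.node 4121 (.node 193273528322 (.comp 65 18446744073709551616 (.node 3529 (.node 186831077378 (.node 3289 (.node 183609851906 (.leaf 3) (.leaf 3)) (.node 183609851906 (.leaf 3) (.leaf 3))) (.node 3289 (.node 190052302850 (.leaf 3) (.leaf 3)) (.node 190052302850 (.leaf 3) (.leaf 3)))) (.node 186831077378 (.node 3801 (.leaf 3) (.leaf 3)) (.node 3801 (.node 190052302850 (.leaf 3) (.leaf 3)) (.node 190052302850 (.leaf 3) (.leaf 3)))))) (.node 3529 (.node 199715979266 (.comp 65 18446744073709551616 (.node 3289 (.node 196494753794 (.node 3177 (.node 194884141058 (.leaf 3) (.leaf 3)) (.node 194884141058 (.leaf 3) (.leaf 3))) (.node 3177 (.node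 198105366530 (.node 197300060162 (.leaf 3) (.leaf 3)) (.leaf 3)) (.node 198105366530 (.node 3225 (.node 197300060162 (.leaf 3) (.leaf 3)) (.node 197300060162 (.leaf 3) (.leaf 3))) (.leaf 3)))) (.node 196494753794 (.node 3401 (.node 194884141058 (.leaf 3) (.leaf 3)) (.node 194884141058 (.leaf 3) (.leaf 3))) (.node 3401 (.node 198105366530 (.node 3337 (.leaf 3) (.node 197300060162 (.leaf 3) (.leaf 3))) (.leaf 3)) (.node 198105366530 (.node 3465 (.node 197300060162 (.leaf 3) (.leaf 3)) (.leaf 3)) (.leaf 3)))))) (.leaf 1)) (.node 199715979266 (.comp 65 18446744073709551616 (.node 3801 (.node 196494753794 (.node 3657 (.node 194884141058 (.leaf 3) (.leaf 3)) (.node 194884141058 (.leaf 3) (.leaf 3))) (.node 3657 (.node 198105366530 (.node 3593 (.leaf 3) (.leaf 3)) (.leaf 3)) (.node 198105366530 (.node 3721 (.leaf 3) (.leaf 3)) (.leaf 3)))) (.node 196494753794 (.node 3961 (.node 194884141058 (.leaf 3) (.leaf 3)) (.node 194884141058 (.leaf 3) (.leaf 3))) (.node 3961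
    (.node 198105366530 (.leaf 3) (.leaf 3)) (.node 198105366530 (.leaf 3) (.leaf 3)))))) (.leaf 1)))) (.node 193273528322 (.comp 65 18446744073709551616 (.node 4953 (.node 186831077378 (.node 4505 (.leaf 3) (.leaf 3)) (.node 4505 (.node 190052302850 (.leaf 3) (.leaf 3)) (.node 190052302850 (.leaf 3) (.leaf 3)))) (.node 186831077378 (.leaf 3) (.node 5497 (.node 190052302850 (.leaf 3) (.leaf 3)) (.node 190052302850 (.leaf 3) (.leaf 3)))))) (.node 4953 (.node 199715979266 (.comp 65 18446744073709551616 (.node 4505 (.node 196494753794 (.node 4313 (.node 194884141058 (.leaf 3) (.leaf 3)) (.node 194884141058 (.leaf 3) (.leaf 3))) (.node 4313 (.node 198105366530 (.leaf 3) (.leaf 3)) (.node 198105366530 (.leaf 3) (.leaf 3)))) (.node 196494753794 (.node 4713 (.node 194884141058 (.leaf 3) (.leaf 3)) (.node 194884141058 (.leaf 3) (.leaf 3))) (.node 4713 (.node 198105366530 (.leaf 3) (.leaf 3)) (.node 198105366530 (.leaf 3) (.leaf 3)))))) (.leaf 1)) (.node 199715979266 (.comp 65 18446744073709551616 (.node 5497 (.node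 196494753794 (.node 5209 (.node 194884141058 (.leaf 3) (.leaf 3)) (.node 194884141058 (.leaf 3) (.leaf 3))) (.node 5209 (.node 198105366530 (.leaf 3) (.leaf 3)) (.node 198105366530 (.leaf 3) (.leaf 3)))) (.node 196494753794 (.node 5817 (.node 194884141058 (.leaf 3) (.leaf 3)) (.node 194884141058 (.leaf 3) (.leaf 3))) (.node 5817 (.node 198105366530 (.leaf 3) (.leaf 3)) (.node 198105366530 (.leaf 3) (.leaf 3)))))) (.leaf 1))))) (.node 12393 (.node 193273528322 (.comp 65 18446744073709551616 (.node 8265 (.node 186831077378 (.leaf 3) (.node 7081 (.node 190052302850 (.leaf 3) (.leaf 3)) (.node 190052302850 (.leaf 3) (.leaf 3)))) (.node 186831077378 (.leaf 3) (.node 9913 (.node 190052302850 (.leaf 3) (.leaf 3)) (.node 190052302850 (.leaf 3) (.leaf 3)))))) (.node 8265 (.node 199715979266 (.comp 65 18446744073709551616 (.node 7081 (.node 196494753794 (.node 6601 (.leaf 3) (.leaf 3)) (.node 6601 (.node 198105366530 (.leaf 3) (.leaf 3)) (.node 198105366530 (.leaf 3)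
    (.leaf 3)))) (.node 196494753794 (.node 7625 (.leaf 3) (.leaf 3)) (.node 7625 (.node 198105366530 (.leaf 3) (.leaf 3)) (.node 198105366530 (.leaf 3) (.leaf 3)))))) (.leaf 1)) (.node 199715979266 (.comp 65 18446744073709551616 (.node 9913 (.node 196494753794 (.leaf 3) (.node 9017 (.node 198105366530 (.leaf 3) (.leaf 3)) (.node 198105366530 (.leaf 3) (.leaf 3)))) (.node 196494753794 (.leaf 3) (.node 11017 (.node 198105366530 (.leaf 3) (.leaf 3)) (.node 198105366530 (.leaf 3) (.leaf 3)))))) (.leaf 1)))) (.node 193273528322 (.comp 65 18446744073709551616 (.node 24809 (.node 186831077378 (.leaf 3) (.node 16537 (.node 190052302850 (.leaf 3) (.leaf 3)) (.node 190052302850 (.leaf 3) (.leaf 3)))) (.node 186831077378 (.leaf 3) (.node 49641 (.node 190052302850 (.leaf 3) (.leaf 3)) (.node 190052302850 (.leaf 3) (.leaf 3)))))) (.node 24809 (.node 199715979266 (.comp 65 18446744073709551616 (.node 16537 (.node 196494753794 (.leaf 3) (.node 14169 (.node 198105366530 (.leaf 3) (.leaf 3)) (.node 198105366530 (.leaf 3)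 (.leaf 3)))) (.node 196494753794 (.leaf 3) (.node 19849 (.node 198105366530 (.leaf 3) (.leaf 3)) (.node 198105366530 (.leaf 3) (.leaf 3)))))) (.leaf 1)) (.node 199715979266 (.comp 65 18446744073709551616 (.node 49641 (.node 196494753794 (.leaf 3) (.node 33097 (.node 198105366530 (.leaf 3) (.leaf 3)) (.node 198105366530 (.leaf 3) (.leaf 3)))) (.node 196494753794 (.leaf 3) (.node 99305 (.node 198105366530 (.leaf 3) (.leaf 3)) (.node 198105366530 (.leaf 3) (.leaf 3)))))) (.leaf 1)))))))) (.node 309237645314 (.node 257698037762 (.node 6185 (.node 231928233986 (.leaf 1) (.leaf 1)) (.node 231928233986 (.leaf 1) (.leaf 1))) (.leaf 1)) (.leaf 1))))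
    ⟨25769803776, 25769803776, 828928688128, 0, 6442450944, 25769803776, 4294967296, 4294967296, 4294967296, 4294967296, 0⟩ = true := by decide +kernel

theorem px6_0 : Tr.run2 ce0 pPX
    (.comp 1 0 (.leaf 1))
    ⟨25769803776, 25769803776, 828928688128, 0, 2147483648, 6442450944, 1073741824, 3221225472, 4294967296, 4294967296, 0⟩ = true := by decide +kernel

theorem px6_1 : Tr.run2 ce0 pPX
    (.comp 1 0 (.leaf 1))
    ⟨25769803776, 25769803776, 828928688128, 0, 6442450944, 9663676416, 1073741824, 2147483648, 4294967296, 4294967296, 0⟩ = true := by decide +kernel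

theorem px6_2 : Tr.run2 ce0 pPX
    (.comp 1 0 (.leaf 1))
    ⟨25769803776, 25769803776, 828928688128, 0, 9663676416, 12884901888, 1073741824, 1342177280, 4294967296, 4294967296, 0⟩ = true := by decide +kernel

theorem px6_3 : Tr.run2 ce0 pPX
    (.comp 1 0 (.node 6185 (.node 23622320131 (.node 167503724546 (.leaf 1) (.leaf 1)) (.node 167503724546 (.leaf 1) (.leaf 1))) (.node 23622320131 (.node 167503724546 (.leaf 1) (.leaf 1)) (.node 167503724546 (.leaf 1) (.leaf 1)))))
    ⟨25769803776, 25769803776, 828928688128, 0, 9663676416, 11274289152, 1342177280, 1610612736, 4294967296, 4294967296, 0⟩ = true := by decide +kernel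

theorem px6_4 : Tr.run2 ce0 pPX
    (.comp 1 7588666152346153259154574548353147419070277102816127547549838366647130471452901376 (.node 22548578307 (.leaf 1) (.node 3529 (.node 186831077378 (.setw 497330824960157499991954197600871869256189680210157734956226207196604789321211054129407 (.node 23085449219 (.leaf 255) (.leaf 255))) (.node 23085449219 (.node 3289 (.node 190052302850 (.leaf 1) (.leaf 1)) (.node 190052302850 (.leaf 1) (.leaf 1))) (.node 3289 (.node 190052302850 (.leaf 1) (.leaf 1)) (.node 190052302850 (.leaf 1) (.leaf 1))))) (.node 186831077378 (.leaf 1) (.node 23085449219 (.node 3801 (.node 190052302850 (.leaf 1) (.leaf 1)) (.node 190052302850 (.leaf 1) (.leaf 1))) (.node 3801 (.node 190052302850 (.leaf 1) (.leaf 1)) (.node 190052302850 (.leaf 1) (.leaf 1))))))))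
    ⟨25769803776, 25769803776, 828928688128, 1103806595072, 11274289152, 12079595520, 1342177280, 1476395008, 4294967296, 4294967296, 0⟩ = true := by decide +kernel

theorem px6_5 : Tr.run2 ce0 pPX
    (.comp 1 0 (.leaf 1))
    ⟨25769803776, 25769803776, 828928688128, 1103806595072, 12079595520, 12884901888, 1342177280, 1409286144, 4294967296, 4294967296, 0⟩ = true := by decide +kernel

theorem px6_6 : Tr.run2 ce0 pPX
    (.comp 1 7588666152346153259154574548353147419070277102816127547549838366648256371359744000 (.comp 65 7588666152346153259154574548353147419070277102816127547549838366647411946429677568 (.setw 497330824960157499991954197600871869256189680210157734956226207196641682809358473232636 (.setw 497330824960157499991954197600871869256189680210157734956226207196604789321215349096701 (.setw 497330824960157499991954197600871869256189680210157734956226207196586342577137344578302 (.setw 497330824960157499991954197600871869256189680210157734956226207196586342577137344577791 (.node 23085449219 (.comp 129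 7588666152346153259154574548353147419070277102816127547549838366647974896383033344 (.comp 207 0 (.setw 497330824960157499991954197600871869256189680210157734956226207196586342577137344578811 (.node 3289 (.node 196494753794 (.node 22817013763 (.node 3177 (.node 194884141058 (.leaf 3) (.leaf 254)) (.node 194884141058 (.leaf 3) (.leaf 254))) (.node 3177 (.node 194884141058 (.leaf 3) (.leaf 254)) (.node 194884141058 (.leaf 3) (.leaf 254)))) (.node 22817013763 (.node 3177 (.node 198105366530 (.node 22682796035 (.node 13434657701889 (.leaf 7) (.leaf 7)) (.node 197300060162 (.node 13434657701889 (.leaf 7) (.leaf 7)) (.node 3129 (.leaf 7) (.leaf 7)))) (.node 22682796035 (.node 13434657701889 (.leaf 7) (.leaf 7)) (.node 198910672898 (.node 3129 (.leaf 7) (.leaf 7)) (.node 3129 (.leaf 7) (.leaf 7))))) (.node 198105366530 (.node 22682796035 (.node 13881334300673 (.leaf 7) (.leaf 7)) (.node 3225 (.leaf 7) (.node 197300060162 (.node 13984413515777 (.leaf 7) (.node 14035953123329 (.leaf 7) (.leaf 7))) (.node 13984413515777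 (.leaf 7) (.node 14035953123329 (.leaf 7) (.leaf 7)))))) (.node 22682796035 (.node 13881334300673 (.leaf 7) (.leaf 7)) (.node 3225 (.leaf 7) (.node 198910672898 (.node 22749904899 (.leaf 7) (.node 3257 (.leaf 7) (.node 14053132992513 (.leaf 7) (.leaf 7)))) (.node 22749904899 (.leaf 7) (.node 3257 (.leaf 7) (.node 14053132992513 (.leaf 7) (.leaf 7))))))))) (.node 3177 (.node
    198105366530 (.node 22951231491 (.node 197300060162 (.node 13434657701889 (.leaf 5) (.leaf 5)) (.node 3129 (.leaf 251) (.leaf 5))) (.node 197300060162 (.node 13434657701889 (.leaf 5) (.leaf 5)) (.node 3129 (.leaf 251) (.leaf 5)))) (.setw 497330824960157499991954197600871869256189680210157734956226207196604789321211054130426 (.node 22951231491 (.node 198910672898 (.node 3129 (.leaf 250) (.leaf 5)) (.node 3129 (.leaf 250) (.leaf 5))) (.node 198910672898 (.node 3129 (.leaf 250) (.leaf 5)) (.node 3129 (.leaf 250) (.leaf 5)))))) (.node 198105366530 (.node 22951231491 (.node 3225 (.leaf 253) (.node 197300060162 (.leaf 253) (.node 13984413515777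 (.leaf 255) (.leaf 255)))) (.node 3225 (.leaf 253) (.node 197300060162 (.leaf 253) (.node 13984413515777 (.leaf 255) (.leaf 255))))) (.node 22951231491 (.node 3225 (.leaf 253) (.node 198910672898 (.node 22884122627 (.node 3257 (.leaf 1) (.leaf 252)) (.node 3257 (.leaf 1) (.leaf 252))) (.node 22884122627 (.node 3257 (.leaf 1) (.leaf 1)) (.node 3257 (.leaf 1) (.leaf 1))))) (.node 3225 (.leaf 253) (.node 198910672898 (.node 23018340355 (.node 3257 (.leaf 1) (.leaf 252)) (.node 3257 (.leaf 1) (.leaf 252))) (.node 23018340355 (.node 3257 (.leaf 1) (.leaf 1)) (.node 3257 (.leaf 1) (.leaf 1)))))))))) (.setw 497330824960157499991954197600871869256189680210157734956226207196604789321215349097722 (.node 196494753794 (.node 22817013763 (.node 3401 (.node 194884141058 (.leaf 250) (.leaf 251)) (.node 194884141058 (.node 14877766713345 (.leaf 251) (.leaf 5)) (.node 14877766713345 (.leaf 251) (.node 14998025797633 (.leaf 251) (.leaf 5))))) (.node 3401 (.node 194884141058 (.node 14362370637825 (.leaf 5) (.leaf 5)) (.leaf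 251)) (.node 194884141058 (.node 14877766713345 (.leaf 251) (.leaf 5)) (.node 14877766713345 (.leaf 251) (.node 14998025797633 (.leaf 251) (.leaf 5)))))) (.node 22817013763 (.node 3401 (.node 198105366530 (.node 22682796035 (.leaf 5) (.node 3337 (.node 197300060162 (.leaf 251) (.leaf 251)) (.leaf 251))) (.node 22682796035
    (.leaf 5) (.node 3337 (.leaf 250) (.node 198910672898 (.leaf 251) (.node 22749904899 (.leaf 5) (.node 3369 (.leaf 7) (.leaf 7))))))) (.node 198105366530 (.node 22682796035 (.leaf 5) (.node 3465 (.node 197300060162 (.leaf 251) (.leaf 5)) (.node 15015205666817 (.leaf 251) (.node 15066745274369 (.leaf 251) (.leaf 5))))) (.node 22682796035 (.leaf 5) (.node 3465 (.node 198910672898 (.leaf 5) (.node 22749904899 (.leaf 5) (.node 199313326082 (.leaf 5) (.leaf 5)))) (.leaf 251))))) (.setw 994654061369944142147336445747692709356645831007505452396690184089782733077826729149689 (.node 3401 (.node 198105366530 (.node 22951231491 (.node 3337 (.node 197300060162 (.leaf 251) (.leaf 251)) (.leaf 251))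 (.node 3337 (.node 197300060162 (.leaf 251) (.leaf 251)) (.leaf 251))) (.node 22951231491 (.node 3337 (.leaf 250) (.node 198910672898 (.leaf 251) (.node 22884122627 (.node 3369 (.leaf 7) (.leaf 7)) (.node 3369 (.leaf 5) (.leaf 7))))) (.node 3337 (.leaf 250) (.node 198910672898 (.node 23018340355 (.leaf 249) (.leaf 249)) (.node 23018340355 (.node 3369 (.leaf 5) (.leaf 249)) (.leaf 249)))))) (.node 198105366530 (.node 22951231491 (.node 3465 (.node 197300060162 (.leaf 251) (.leaf 5)) (.node 15015205666817 (.leaf 251) (.node 15066745274369 (.leaf 251) (.leaf 5)))) (.node 3465 (.node 197300060162 (.leaf 251) (.leaf 5)) (.node 15015205666817 (.leaf 251) (.node 15066745274369 (.leaf 251) (.leaf 5))))) (.node 22951231491 (.node 3465 (.node 198910672898 (.leaf 5) (.node 22884122627 (.node 199313326082 (.leaf 5) (.leaf 5)) (.leaf 249))) (.node 198910672898 (.leaf 249) (.leaf 249))) (.node 3465 (.node 198910672898 (.leaf 5) (.leaf 249)) (.node 198910672898 (.leaf 249) (.leaf 249)))))))))))))) (.node 3289 (.node 196494753794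 (.node 23353884675 (.node 3177 (.node 194884141058 (.leaf 3) (.leaf 254)) (.node 194884141058 (.leaf 3) (.leaf 254))) (.node 3177 (.node 194884141058 (.leaf 3) (.leaf 254)) (.node 194884141058 (.leaf 3) (.leaf 254)))) (.node 23353884675 (.node 3177 (.node 198105366530
    (.node 23219666947 (.node 197300060162 (.node 13434657701889 (.leaf 255) (.leaf 1)) (.node 3129 (.leaf 255) (.node 13537736916993 (.node 13503377178625 (.leaf 255) (.leaf 1)) (.leaf 1)))) (.node 197300060162 (.node 13434657701889 (.leaf 255) (.leaf 1)) (.node 3129 (.leaf 255) (.node 13537736916993 (.node 13503377178625 (.leaf 255) (.leaf 1)) (.leaf 1))))) (.node 23219666947 (.node 198910672898 (.node 3129 (.leaf 253) (.leaf 252)) (.node 3129 (.leaf 253) (.leaf 252))) (.node 198910672898 (.node 3129 (.leaf 253) (.leaf 253)) (.node 3129 (.leaf 253) (.leaf 252))))) (.node 198105366530 (.node 23219666947 (.node 3225 (.leaf 253) (.node 197300060162 (.leaf 253) (.node 13984413515777 (.leaf 255) (.leaf 255)))) (.node 3225 (.leaf 253) (.node 197300060162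 (.leaf 253) (.node 13984413515777 (.leaf 255) (.leaf 255))))) (.node 23219666947 (.node 3225 (.leaf 253) (.node 198910672898 (.node 23152558083 (.node 3257 (.leaf 1) (.leaf 252)) (.node 3257 (.leaf 1) (.leaf 252))) (.node 23152558083 (.node 3257 (.leaf 1) (.leaf 1)) (.node 3257 (.leaf 1) (.leaf 1))))) (.node 3225 (.leaf 253) (.node 198910672898 (.node 23286775811 (.node 3257 (.leaf 1) (.leaf 253)) (.node 3257 (.leaf 1) (.leaf 253))) (.node 23286775811 (.node 3257 (.leaf 1) (.leaf 1)) (.node 3257 (.leaf 1) (.leaf 1)))))))) (.node 3177 (.node 198105366530 (.node 23488102403 (.node 197300060162 (.node 13434657701889 (.leaf 255) (.leaf 1)) (.node 3129 (.leaf 255) (.node 13537736916993 (.node 13503377178625 (.leaf 255) (.leaf 1)) (.leaf 1)))) (.leaf 253)) (.node 23488102403 (.node 198910672898 (.node 3129 (.leaf 253) (.leaf 253)) (.node 3129 (.leaf 253) (.leaf 253))) (.node 198910672898 (.node 3129 (.leaf 253) (.leaf 253)) (.node 3129 (.leaf 253) (.leaf 253))))) (.node 198105366530 (.node 23488102403 (.node 3225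 (.leaf 253) (.leaf 253)) (.node 3225 (.leaf 253) (.leaf 253))) (.node 23488102403 (.node 3225 (.leaf 253) (.node 198910672898 (.leaf 253) (.node 23420993539 (.node 3257 (.leaf 1) (.leaf 1)) (.leaf 253)))) (.node 3225
    (.leaf 253) (.leaf 253))))))) (.node 196494753794 (.node 23353884675 (.node 3401 (.node 194884141058 (.leaf 253) (.leaf 255)) (.node 194884141058 (.node 14877766713345 (.leaf 255) (.leaf 255)) (.node 14877766713345 (.leaf 1) (.node 14998025797633 (.leaf 255) (.leaf 255))))) (.node 3401 (.node 194884141058 (.node 14362370637825 (.leaf 255) (.leaf 255)) (.leaf 255)) (.node 194884141058 (.node 14877766713345 (.leaf 255) (.leaf 255)) (.node 14877766713345 (.leaf 1) (.node 14998025797633 (.leaf 255) (.leaf 255)))))) (.setw 994654061369944142147336445747692709356645831007505452396690184089782733077826729148667 (.node 23353884675 (.node 3401 (.node 198105366530 (.node 23219666947 (.node 3337 (.node 197300060162 (.leaf 1) (.leaf 1)) (.leaf 255)) (.node 3337 (.node 197300060162 (.leaf 1) (.leaf 1))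 (.leaf 255))) (.node 23219666947 (.node 3337 (.leaf 253) (.node 198910672898 (.node 23152558083 (.leaf 251) (.leaf 251)) (.node 23152558083 (.leaf 251) (.leaf 251)))) (.node 3337 (.leaf 253) (.node 198910672898 (.node 23286775811 (.leaf 251) (.node 198508019714 (.leaf 251) (.leaf 251))) (.node 23286775811 (.leaf 251) (.leaf 251)))))) (.node 198105366530 (.node 23219666947 (.node 3465 (.node 197300060162 (.leaf 255) (.node 14740327759873 (.node 14688788152321 (.leaf 255) (.leaf 255)) (.leaf 255))) (.node 15015205666817 (.leaf 1) (.leaf 1))) (.node 3465 (.node 197300060162 (.leaf 255) (.node 14740327759873 (.node 14688788152321 (.leaf 255) (.leaf 255)) (.leaf 255))) (.node 15015205666817 (.leaf 1) (.leaf 1)))) (.node 23219666947 (.node 3465 (.node 198910672898 (.node 23152558083 (.node 198508019714 (.node 14740327759873 (.leaf 255) (.leaf 255)) (.node 14740327759873 (.leaf 255) (.leaf 255))) (.node 198508019714 (.node 14740327759873 (.leaf 255) (.leaf 255)) (.node 14740327759873 (.leaf 255) (.leaf 255)))) (.leaf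 251)) (.node 198910672898 (.leaf 251) (.leaf 251))) (.node 3465 (.node 198910672898 (.node 23286775811 (.node 198508019714 (.leaf 251) (.leaf 251)) (.node 198508019714
    (.leaf 251) (.leaf 251))) (.leaf 251)) (.node 198910672898 (.leaf 251) (.leaf 251)))))) (.node 3401 (.node 198105366530 (.node 23488102403 (.node 3337 (.node 197300060162 (.leaf 1) (.leaf 1)) (.leaf 255)) (.node 3337 (.node 197300060162 (.leaf 1) (.leaf 1)) (.leaf 255))) (.node 23488102403 (.node 3337 (.leaf 253) (.node 198910672898 (.leaf 253) (.node 23420993539 (.leaf 251) (.leaf 251)))) (.node 3337 (.leaf 253) (.leaf 253)))) (.node 198105366530 (.node 23488102403 (.node 3465 (.node 197300060162 (.leaf 254) (.leaf 254)) (.leaf 254)) (.node 3465 (.node 197300060162 (.leaf 3) (.leaf 254)) (.leaf 254))) (.setw 994654061369944142147336445747692709356645831007505452396690184089782733077826729149178 (.node 23488102403 (.node 3465 (.node 198910672898 (.node 23420993539 (.node 198508019714 (.leaf 254) (.leaf 254)) (.node 198508019714 (.leaf 254)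 (.leaf 254))) (.leaf 250)) (.leaf 3)) (.node 3465 (.node 198910672898 (.node 23555211267 (.node 198508019714 (.leaf 254) (.leaf 254)) (.node 198508019714 (.leaf 254) (.leaf 254))) (.leaf 250)) (.leaf 3)))))))))))))))))
    ⟨25769803776, 25769803776, 828928688128, 944892805120, 12079595520, 12482248704, 1409286144, 1476395008, 4294967296, 4294967296, 0⟩ = true := by decide +kernel

theorem px6_7 : Tr.run2 ce0 pPX
    (.comp 15 7588666152346153259154574548353147419070277102816127547549838366647411946429677568 (.node 3289 (.comp 65 7588666152346153259154574548353147419070277102816127547549838366647411946429677568 (.comp 143 0 (.node 202937204738 (.node 22817013763 (.node 3177 (.node 201326592002 (.node 22682796035 (.node 13434657701889 (.leaf 1) (.leaf 1)) (.node 200521285634 (.node 3129 (.leaf 1) (.leaf 1)) (.node 3129 (.leaf 1) (.leaf 1)))) (.node 22682796035 (.node 13434657701889 (.leaf 1) (.leaf 1)) (.node 202131898370 (.node 3129 (.leaf 1) (.leaf 1)) (.node 3129 (.leaf 1) (.leaf 1))))) (.node 201326592002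 (.node 22682796035 (.node 13881334300673 (.leaf 1) (.leaf 1)) (.node 3225 (.leaf 1) (.node 200521285634 (.node 22749904899 (.leaf 1) (.node 3257 (.leaf 1) (.node 200118632450 (.node 22783459331 (.leaf 1) (.node 14053132992513 (.leaf 1) (.leaf 1))) (.node 22783459331 (.leaf 1) (.node 14053132992513 (.leaf 1) (.leaf 1)))))) (.node 22749904899 (.leaf 1) (.node 3257 (.leaf 1) (.node 14053132992513 (.leaf 1) (.leaf 1))))))) (.node 22682796035 (.node 13881334300673 (.leaf 1) (.leaf 1)) (.node 3225 (.leaf 5) (.node 202131898370 (.node 22749904899 (.leaf 5) (.node 3257 (.leaf 5) (.node 14053132992513 (.leaf 5) (.leaf 5)))) (.node 22749904899 (.leaf 5) (.node 3257 (.leaf 5) (.node 14053132992513 (.leaf 5) (.leaf 5))))))))) (.comp 193 7588666152346153259154574548353147419070277102816127547549838366647693421406388224 (.setw 497330824960157499991954197600871869256189680210157734956226207196604789321215349098239 (.node 3177 (.node 201326592002 (.setw 497330824960157499991954197600871869256189680210157734956226207196641682809358473234174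 (.node 22951231491 (.node 200521285634 (.node 3129 (.node 22884122627 (.leaf 1) (.node 200118632450 (.leaf 7) (.leaf 7))) (.node 22884122627 (.leaf 1) (.node 200118632450 (.node 3145 (.leaf 1) (.leaf 254)) (.node 3145 (.leaf 1) (.leaf 254))))) (.node 3129 (.node 22884122627 (.leaf 1) (.node 200923938818 (.leaf 7) (.node 3097 (.leaf 7) (.leaf 7))))
    (.leaf 255))) (.node 200521285634 (.node 3129 (.leaf 255) (.node 23018340355 (.node 200118632450 (.node 3145 (.leaf 1) (.leaf 254)) (.node 3145 (.leaf 1) (.leaf 254))) (.node 200118632450 (.node 3145 (.leaf 1) (.leaf 254)) (.node 3145 (.leaf 1) (.leaf 254))))) (.node 3129 (.node 23018340355 (.node 200923938818 (.leaf 7) (.node 3097 (.leaf 7) (.leaf 7))) (.leaf 255)) (.leaf 255))))) (.node 22951231491 (.node 202131898370 (.node 3129 (.node 22884122627 (.leaf 1) (.node 201729245186 (.node 3097 (.leaf 7) (.leaf 7)) (.node 3097 (.leaf 7) (.node 22917677059 (.node 201930571778 (.node 3113 (.leaf 7) (.leaf 7)) (.node 3113 (.leaf 7) (.leaf 7))) (.node 201930571778 (.node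 3113 (.leaf 7) (.leaf 7)) (.node 3113 (.leaf 7) (.leaf 7))))))) (.leaf 255)) (.node 3129 (.node 22884122627 (.leaf 1) (.node 202534551554 (.node 3097 (.leaf 7) (.node 22917677059 (.node 202333224962 (.leaf 7) (.leaf 7)) (.node 202333224962 (.leaf 7) (.leaf 7)))) (.node 3097 (.leaf 1) (.node 22917677059 (.node 202735878146 (.node 3113 (.leaf 7) (.leaf 7)) (.node 3113 (.leaf 7) (.leaf 7))) (.node 202735878146 (.node 3113 (.leaf 7) (.leaf 7)) (.node 3113 (.leaf 7) (.leaf 7))))))) (.node 22884122627 (.leaf 1) (.leaf 255)))) (.node 202131898370 (.node 3129 (.node 23018340355 (.node 201729245186 (.node 3097 (.leaf 1) (.leaf 3)) (.node 3097 (.leaf 3) (.node 22984785923 (.node 201930571778 (.leaf 3) (.node 3113 (.leaf 3) (.leaf 3))) (.leaf 3)))) (.node 201729245186 (.node 3097 (.leaf 1) (.leaf 3)) (.node 3097 (.leaf 3) (.leaf 3)))) (.leaf 3)) (.node 3129 (.node 23018340355 (.node 202534551554 (.node 3097 (.leaf 3) (.setw 497330824960157499991954197600871869256189680210157734956226207196623236065289058648830 (.node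 22984785923 (.node 202333224962 (.leaf 254) (.leaf 254)) (.node 202333224962 (.leaf 3) (.leaf 254))))) (.node 3097 (.leaf 3) (.node 22984785923 (.node 202735878146 (.node 3113 (.leaf 3) (.leaf 3)) (.node 3113 (.leaf 3) (.leaf 3))) (.node 202735878146 (.node 3113 (.leaf 3) (.leaf 3)) (.node 3113
    (.leaf 3) (.leaf 3)))))) (.node 202534551554 (.node 3097 (.leaf 3) (.leaf 3)) (.node 3097 (.leaf 3) (.node 23051894787 (.node 202735878146 (.node 3113 (.leaf 3) (.leaf 3)) (.node 3113 (.leaf 3) (.leaf 3))) (.leaf 3))))) (.leaf 3))))) (.node 201326592002 (.node 22951231491 (.node 3225 (.node 200521285634 (.leaf 7) (.node 22884122627 (.leaf 1) (.node 200923938818 (.leaf 7) (.node 3193 (.leaf 7) (.leaf 7))))) (.node 200521285634 (.setw 994654061369944142147336445747692709356645831007505452396690184089782733077826729150206 (.node 22884122627 (.node 3257 (.leaf 1) (.node 200118632450 (.leaf 254) (.leaf 254))) (.node 3257 (.leaf 1) (.node 200118632450 (.leaf 254) (.leaf 254))))) (.leaf 255))) (.node 3225 (.node 200521285634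 (.leaf 7) (.node 23018340355 (.node 200923938818 (.leaf 7) (.node 3193 (.leaf 7) (.leaf 7))) (.node 200923938818 (.leaf 7) (.node 3193 (.leaf 7) (.leaf 7))))) (.node 200521285634 (.node 23018340355 (.node 3257 (.leaf 1) (.leaf 1)) (.node 3257 (.node 13915694039041 (.leaf 1) (.leaf 1)) (.leaf 1))) (.leaf 255)))) (.node 22951231491 (.node 3225 (.node 202131898370 (.node 22884122627 (.leaf 1) (.node 201729245186 (.node 3193 (.leaf 1) (.leaf 7)) (.node 3193 (.leaf 1) (.node 22917677059 (.node 201930571778 (.leaf 7) (.node 3209 (.leaf 1) (.leaf 7))) (.node 201930571778 (.leaf 7) (.node 3209 (.leaf 1) (.leaf 7))))))) (.node 22884122627 (.leaf 1) (.node 202534551554 (.node 3193 (.leaf 1) (.node 22917677059 (.node 202333224962 (.node 3209 (.leaf 1) (.leaf 7)) (.leaf 255)) (.node 202333224962 (.node 3209 (.leaf 1) (.leaf 7)) (.leaf 255)))) (.leaf 255)))) (.node 202131898370 (.node 22884122627 (.node 3257 (.leaf 1) (.leaf 255)) (.leaf 255)) (.node 22884122627 (.node 3257 (.leaf 1) (.leaf 255)) (.node 3257 (.leaf 1)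 (.leaf 255))))) (.node 3225 (.node 202131898370 (.node 23018340355 (.node 201729245186 (.node 3193 (.leaf 1) (.node 13778255085569 (.leaf 1) (.leaf 1))) (.node 3193 (.leaf 1) (.node 22984785923 (.node 201930571778 (.node 13778255085569 (.leaf 1)
    (.leaf 1)) (.node 3209 (.leaf 1) (.leaf 1))) (.node 201930571778 (.node 13778255085569 (.leaf 1) (.leaf 1)) (.node 3209 (.leaf 1) (.leaf 1)))))) (.node 201729245186 (.node 3193 (.leaf 1) (.node 13778255085569 (.leaf 1) (.leaf 1))) (.node 3193 (.leaf 1) (.node 23051894787 (.node 201930571778 (.node 13778255085569 (.leaf 1) (.leaf 1)) (.node 3209 (.leaf 1) (.leaf 1))) (.leaf 1))))) (.node 23018340355 (.node 202534551554 (.node 3193 (.leaf 1) (.node 22984785923 (.node 202333224962 (.node 3209 (.leaf 1) (.leaf 7)) (.leaf 255)) (.node 202333224962 (.node 3209 (.leaf 1) (.leaf 7)) (.leaf 255)))) (.leaf 255)) (.node 202534551554 (.node 3193 (.leaf 1) (.node 23051894787 (.node 202333224962 (.node 3209 (.leaf 1) (.leaf 1)) (.node 13778255085569 (.leaf 1) (.leaf 1))) (.leaf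 1))) (.leaf 255)))) (.node 202131898370 (.node 13984413515777 (.leaf 1) (.node 14035953123329 (.leaf 1) (.leaf 1))) (.node 23018340355 (.node 3257 (.leaf 1) (.leaf 1)) (.node 13984413515777 (.node 13932873908225 (.leaf 1) (.leaf 1)) (.leaf 1))))))))))) (.node 22817013763 (.node 3177 (.node 204547817474 (.node 22682796035 (.node 13434657701889 (.leaf 5) (.leaf 5)) (.node 203742511106 (.node 3129 (.leaf 5) (.leaf 5)) (.node 3129 (.leaf 5) (.leaf 5)))) (.node 22682796035 (.node 13434657701889 (.leaf 5) (.leaf 5)) (.node 205353123842 (.node 3129 (.leaf 5) (.leaf 5)) (.node 3129 (.leaf 5) (.leaf 5))))) (.node 204547817474 (.node 22682796035 (.node 13881334300673 (.leaf 5) (.leaf 5)) (.node 3225 (.leaf 5) (.node 203742511106 (.node 22749904899 (.leaf 5) (.node 3257 (.leaf 5) (.node 203339857922 (.node 14053132992513 (.leaf 5) (.leaf 5)) (.node 22783459331 (.leaf 5) (.node 203541184514 (.node 22800236547 (.node 3273 (.leaf 5) (.leaf 5)) (.node 3273 (.leaf 5) (.leaf 5))) (.node 22800236547 (.node 3273 (.leaf 5) (.leaf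 5)) (.node 3273 (.leaf 5) (.leaf 5)))))))) (.node 22749904899 (.leaf 5) (.node 3257 (.leaf 5) (.node 204145164290 (.node 22783459331 (.leaf 5) (.node 203943837698 (.node 22800236547 (.node 3273
    (.leaf 5) (.leaf 5)) (.node 3273 (.leaf 5) (.leaf 5))) (.node 22800236547 (.node 3273 (.leaf 5) (.leaf 5)) (.node 3273 (.leaf 5) (.leaf 5))))) (.node 22783459331 (.leaf 5) (.node 204346490882 (.node 22800236547 (.node 3273 (.leaf 5) (.leaf 5)) (.node 3273 (.leaf 5) (.leaf 5))) (.node 22800236547 (.node 3273 (.leaf 5) (.leaf 5)) (.node 3273 (.leaf 5) (.leaf 5))))))))))) (.node 22682796035 (.node 13881334300673 (.leaf 5) (.leaf 5)) (.comp 207 0 (.node 3225 (.leaf 7) (.node 205353123842 (.node 22749904899 (.leaf 7) (.node 3257 (.leaf 5) (.node 204950470658 (.node 22783459331 (.leaf 5) (.node 204749144066 (.node 22800236547 (.node 3273 (.leaf 5) (.leaf 5)) (.node 3273 (.leaf 5) (.leaf 5))) (.node 22800236547 (.node 3273 (.leaf 5) (.leaf 5)) (.node 3273 (.leaf 5) (.leaf 5))))) (.node 14053132992513 (.leaf 5) (.leaf 5)))))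 (.node 13984413515777 (.leaf 7) (.node 14035953123329 (.leaf 7) (.leaf 7))))))))) (.node 3177 (.node 204547817474 (.node 22951231491 (.node 203742511106 (.node 3129 (.leaf 3) (.node 22884122627 (.leaf 1) (.node 203339857922 (.leaf 3) (.node 3145 (.leaf 1) (.leaf 3))))) (.node 3129 (.leaf 3) (.node 22884122627 (.leaf 1) (.node 204145164290 (.node 3145 (.leaf 3) (.leaf 3)) (.node 3145 (.leaf 3) (.leaf 3)))))) (.node 203742511106 (.node 3129 (.leaf 3) (.leaf 3)) (.node 3129 (.leaf 3) (.node 23018340355 (.node 204145164290 (.node 3145 (.leaf 3) (.leaf 3)) (.node 3145 (.leaf 3) (.leaf 3))) (.leaf 3))))) (.node 22951231491 (.node 205353123842 (.node 3129 (.leaf 3) (.node 22884122627 (.leaf 1) (.node 204950470658 (.node 3145 (.leaf 3) (.node 22917677059 (.node 204749144066 (.node 3161 (.leaf 3) (.leaf 3)) (.node 3161 (.leaf 3) (.leaf 3))) (.node 204749144066 (.leaf 3) (.node 3161 (.leaf 3) (.leaf 3))))) (.leaf 3)))) (.leaf 3)) (.node 205353123842 (.node 3129 (.leaf 3) (.node 23018340355 (.node 204950470658 (.node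 3145 (.leaf 3) (.leaf 3)) (.leaf 3)) (.node 204950470658 (.node 3145 (.leaf 3) (.leaf 3)) (.leaf 3)))) (.leaf 3)))) (.node 204547817474 (.node
    22951231491 (.node 3225 (.node 13743895347201 (.leaf 1) (.node 13778255085569 (.leaf 1) (.leaf 1))) (.node 203742511106 (.node 22884122627 (.node 3257 (.leaf 1) (.node 203339857922 (.node 14053132992513 (.leaf 1) (.leaf 1)) (.node 22850568195 (.node 203541184514 (.node 14053132992513 (.leaf 1) (.leaf 1)) (.node 22833790979 (.node 3273 (.leaf 1) (.leaf 1)) (.node 14053132992513 (.leaf 1) (.leaf 1)))) (.node 14053132992513 (.leaf 1) (.leaf 1))))) (.node 3257 (.leaf 1) (.node 14053132992513 (.leaf 1) (.leaf 1)))) (.node 22884122627 (.node 3257 (.leaf 1) (.node 204145164290 (.node 22850568195 (.node 203943837698 (.node 22833790979 (.node 3273 (.leaf 1) (.leaf 1)) (.node 3273 (.leaf 1) (.leaf 1))) (.node 22833790979 (.node 3273 (.leaf 1) (.leaf 1)) (.node 3273 (.leaf 1) (.leaf 1)))) (.node 203943837698 (.node 14053132992513 (.leaf 1) (.leaf 1)) (.node 22867345411 (.node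 3273 (.leaf 1) (.leaf 1)) (.node 3273 (.leaf 1) (.leaf 1))))) (.node 22850568195 (.node 204346490882 (.node 22833790979 (.node 3273 (.leaf 1) (.leaf 1)) (.node 3273 (.leaf 1) (.leaf 1))) (.node 22833790979 (.node 3273 (.leaf 1) (.leaf 1)) (.node 3273 (.leaf 1) (.leaf 1)))) (.node 204346490882 (.node 22867345411 (.node 3273 (.leaf 1) (.leaf 1)) (.node 3273 (.leaf 1) (.leaf 1))) (.node 22867345411 (.node 3273 (.leaf 1) (.leaf 1)) (.node 3273 (.leaf 1) (.leaf 1))))))) (.node 3257 (.leaf 1) (.node 204145164290 (.node 14053132992513 (.leaf 1) (.leaf 1)) (.node 22917677059 (.node 204346490882 (.node 22900899843 (.node 3273 (.leaf 1) (.leaf 1)) (.node 14053132992513 (.leaf 1) (.leaf 1))) (.node 22900899843 (.node 3273 (.leaf 1) (.leaf 1)) (.node 3273 (.leaf 1) (.leaf 1)))) (.leaf 1))))))) (.node 3225 (.node 13743895347201 (.leaf 1) (.node 13778255085569 (.leaf 1) (.leaf 1))) (.node 203742511106 (.node 23018340355 (.node 3257 (.leaf 1) (.leaf 1)) (.node 3257 (.node 203339857922 (.node 13915694039041 (.leaf 1) (.leaf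 1)) (.node 23051894787 (.node 203541184514 (.node 3241 (.leaf 1) (.leaf 1)) (.node
    13915694039041 (.leaf 1) (.leaf 1))) (.node 203541184514 (.node 13915694039041 (.leaf 1) (.leaf 1)) (.node 13915694039041 (.leaf 1) (.leaf 1))))) (.leaf 1))) (.node 23018340355 (.node 3257 (.leaf 1) (.leaf 1)) (.node 3257 (.node 13915694039041 (.leaf 1) (.leaf 1)) (.leaf 1)))))) (.node 22951231491 (.node 3225 (.node 205353123842 (.node 13743895347201 (.leaf 1) (.leaf 1)) (.node 22884122627 (.leaf 1) (.node 13743895347201 (.leaf 1) (.leaf 1)))) (.node 205353123842 (.node 22884122627 (.node 3257 (.leaf 1) (.node 204950470658 (.node 22850568195 (.node 204749144066 (.node 22833790979 (.node 3273 (.leaf 1) (.leaf 1)) (.node 3273 (.leaf 1) (.leaf 1))) (.node 22833790979 (.node 3273 (.leaf 1) (.leaf 1)) (.node 3273 (.leaf 1) (.leaf 1)))) (.node 204749144066 (.node 22867345411 (.node 3273 (.leaf 1) (.leaf 1)) (.node 3273 (.leaf 1) (.leaf 1))) (.node 22867345411 (.node 3273 (.leaf 1) (.leaf 1)) (.node 3273 (.leaf 1) (.leaf 1)))))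 (.node 14053132992513 (.leaf 1) (.leaf 1)))) (.node 3257 (.leaf 1) (.node 204950470658 (.node 22917677059 (.node 204749144066 (.node 22900899843 (.node 3273 (.leaf 1) (.leaf 1)) (.node 3273 (.leaf 1) (.leaf 1))) (.node 22900899843 (.node 3273 (.leaf 1) (.leaf 1)) (.node 3273 (.leaf 1) (.leaf 1)))) (.leaf 1)) (.node 14053132992513 (.leaf 1) (.leaf 1))))) (.node 13984413515777 (.leaf 1) (.node 14035953123329 (.leaf 1) (.leaf 1))))) (.node 3225 (.node 13743895347201 (.leaf 1) (.leaf 1)) (.node 205353123842 (.node 23018340355 (.node 3257 (.leaf 1) (.leaf 1)) (.node 3257 (.leaf 1) (.leaf 1))) (.node 13984413515777 (.leaf 1) (.node 14035953123329 (.leaf 1) (.leaf 1)))))))))))) (.comp 65 15177216512602907442433722621882518148142178817863547552439730592190288285489299456 (.setw 497330824960157499991954197600871869256189680210157734956226207196604789321215349097215 (.node 202937204738 (.setw 497330824960157499991954197600871869256189680210157734956226207196641682809358473233148 (.setw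
    497330824960157499991954197600871869256189680210157734956226207196623236065289058648829 (.setw 497330824960157499991954197600871869256189680210157734956226207196586342577137344578302 (.node 22817013763 (.node 3401 (.node 201326592002 (.node 22682796035 (.leaf 3) (.node 3337 (.node 200521285634 (.leaf 253) (.node 22749904899 (.leaf 3) (.node 200923938818 (.node 22783459331 (.leaf 3) (.node 3305 (.leaf 1) (.leaf 253))) (.node 22783459331 (.leaf 3) (.node 3305 (.leaf 1) (.leaf 253)))))) (.node 200521285634 (.node 22749904899 (.leaf 3) (.node 3369 (.leaf 1) (.leaf 1))) (.node 22749904899 (.node 14465449852929 (.leaf 1) (.leaf 1)) (.node 3369 (.leaf 1) (.leaf 1)))))) (.node 22682796035 (.leaf 3) (.node 3337 (.comp 143 0 (.node 202131898370 (.node 22749904899 (.leaf 5) (.node 201729245186 (.node 22783459331 (.leaf 5) (.node 3305 (.leaf 1) (.node 201527918594 (.node 14259291422721 (.leaf 1) (.leaf 1)) (.node 22800236547 (.node 3321 (.leaf 1) (.leaf 1)) (.node 3321 (.leaf 1) (.leaf 1)))))) (.node 22783459331 (.leaf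 5) (.node 3305 (.leaf 5) (.node 201930571778 (.node 22800236547 (.node 3321 (.leaf 5) (.leaf 5)) (.node 3321 (.leaf 5) (.leaf 5))) (.node 22800236547 (.node 3321 (.leaf 5) (.leaf 5)) (.node 3321 (.leaf 5) (.leaf 5)))))))) (.node 22749904899 (.leaf 5) (.node 202534551554 (.node 22783459331 (.leaf 5) (.node 3305 (.leaf 5) (.node 202333224962 (.node 22800236547 (.node 3321 (.leaf 5) (.leaf 5)) (.node 3321 (.leaf 5) (.leaf 5))) (.node 14259291422721 (.leaf 5) (.leaf 5))))) (.node 14224931684353 (.leaf 5) (.node 14259291422721 (.leaf 5) (.leaf 5))))))) (.node 202131898370 (.node 22749904899 (.leaf 3) (.node 3369 (.node 22783459331 (.leaf 3) (.leaf 3)) (.leaf 3))) (.node 22749904899 (.leaf 3) (.node 3369 (.node 22783459331 (.leaf 3) (.node 22800236547 (.leaf 3) (.leaf 3))) (.leaf 3))))))) (.node 201326592002 (.node 22682796035 (.leaf 3) (.node 3465 (.node 200521285634 (.node 22749904899 (.leaf 3) (.node 200118632450 (.leaf 255) (.node 3433 (.node 22783459331 (.leaf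
    3) (.leaf 3)) (.leaf 3)))) (.node 22749904899 (.leaf 3) (.node 200923938818 (.node 3433 (.leaf 254) (.leaf 3)) (.leaf 254)))) (.node 200521285634 (.node 22749904899 (.leaf 3) (.node 200118632450 (.leaf 3) (.leaf 3))) (.node 22749904899 (.leaf 3) (.node 200923938818 (.node 3497 (.leaf 3) (.leaf 252)) (.leaf 3)))))) (.node 22682796035 (.leaf 3) (.node 3465 (.node 202131898370 (.node 22749904899 (.leaf 3) (.node 201729245186 (.node 3433 (.node 22783459331 (.leaf 3) (.node 201527918594 (.leaf 3) (.node 22800236547 (.leaf 3) (.leaf 3)))) (.node 22783459331 (.leaf 3) (.leaf 3))) (.node 3433 (.node 22783459331 (.leaf 3) (.node 201930571778 (.node 22800236547 (.node 3417 (.leaf 3) (.leaf 3)) (.leaf 3)) (.leaf 3))) (.node 22783459331 (.leaf 3) (.leaf 3))))) (.node 22749904899 (.leaf 3) (.node 202534551554 (.node 3433 (.leaf 3) (.leaf 1)) (.node 3433 (.leaf 3) (.leaf 1))))) (.node 202131898370 (.node 22749904899 (.leaf 3) (.node 201729245186 (.leaf 3) (.leaf 3))) (.node 22749904899 (.leaf 3) (.node 202534551554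 (.leaf 255) (.node 3497 (.node 22783459331 (.leaf 3) (.leaf 3)) (.leaf 3))))))))) (.node 3401 (.node 201326592002 (.node 22951231491 (.node 3337 (.node 200521285634 (.node 22884122627 (.node 200118632450 (.leaf 3) (.leaf 3)) (.node 200118632450 (.leaf 3) (.leaf 3))) (.node 22884122627 (.node 200923938818 (.node 22850568195 (.node 3305 (.leaf 1) (.leaf 253)) (.node 3305 (.leaf 1) (.leaf 253))) (.node 22850568195 (.node 3305 (.leaf 1) (.leaf 253)) (.node 3305 (.leaf 1) (.leaf 253)))) (.node 200923938818 (.node 22917677059 (.node 3305 (.leaf 1) (.leaf 253)) (.node 3305 (.leaf 1) (.leaf 253))) (.node 22917677059 (.node 3305 (.leaf 1) (.leaf 253)) (.node 3305 (.leaf 1) (.leaf 253)))))) (.node 200521285634 (.node 22884122627 (.node 3369 (.leaf 1) (.leaf 1)) (.node 3369 (.leaf 253) (.leaf 1))) (.node 22884122627 (.node 3369 (.leaf 1) (.leaf 1)) (.node 3369 (.leaf 253) (.leaf 1))))) (.node 3337 (.node 200521285634 (.leaf 253) (.node 23018340355 (.node 200923938818 (.node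
    22984785923 (.node 3305 (.leaf 1) (.leaf 1)) (.node 3305 (.leaf 1) (.leaf 1))) (.node 22984785923 (.node 3305 (.leaf 1) (.leaf 1)) (.node 3305 (.leaf 1) (.leaf 1)))) (.leaf 1))) (.node 200521285634 (.node 23018340355 (.node 3369 (.leaf 255) (.node 200118632450 (.leaf 3) (.leaf 3))) (.node 3369 (.leaf 255) (.node 200118632450 (.leaf 3) (.leaf 3)))) (.node 23018340355 (.node 3369 (.leaf 255) (.node 200923938818 (.leaf 252) (.leaf 3))) (.node 3369 (.leaf 255) (.node 200923938818 (.leaf 252) (.leaf 3))))))) (.node 22951231491 (.setw 994654061369944142147336445747692709356645831007505452396690184089782733077826729148667 (.node 3337 (.node 202131898370 (.node 22884122627 (.node 201729245186 (.node 22850568195 (.comp 143 0 (.node 3305 (.leaf 5) (.node 201527918594 (.node 14259291422721 (.leaf 5) (.leaf 5)) (.node 22833790979 (.node 3321 (.leaf 5) (.leaf 5)) (.node 3321 (.leaf 5) (.leaf 5)))))) (.node 3305 (.leaf 1) (.node 201527918594 (.node 14259291422721 (.leaf 251) (.leaf 1)) (.node 22867345411 (.node 3321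 (.leaf 1) (.leaf 1)) (.node 3321 (.leaf 1) (.leaf 1)))))) (.node 22850568195 (.node 3305 (.leaf 1) (.node 201930571778 (.node 22833790979 (.node 3321 (.leaf 1) (.leaf 1)) (.node 3321 (.leaf 1) (.leaf 1))) (.node 22833790979 (.node 3321 (.leaf 1) (.leaf 1)) (.node 3321 (.leaf 1) (.leaf 1))))) (.node 3305 (.leaf 1) (.node 201930571778 (.node 22867345411 (.node 3321 (.leaf 1) (.leaf 1)) (.node 3321 (.leaf 1) (.leaf 1))) (.node 22867345411 (.node 3321 (.leaf 1) (.leaf 1)) (.node 3321 (.leaf 1) (.leaf 1))))))) (.node 201729245186 (.node 22917677059 (.node 3305 (.leaf 1) (.node 201527918594 (.node 14259291422721 (.leaf 251) (.leaf 1)) (.node 22900899843 (.node 3321 (.leaf 1) (.leaf 1)) (.node 3321 (.leaf 1) (.leaf 1))))) (.node 3305 (.leaf 1) (.leaf 1))) (.node 22917677059 (.node 3305 (.leaf 1) (.node 201930571778 (.node 22900899843 (.node 3321 (.leaf 1) (.leaf 1)) (.node 3321 (.leaf 1) (.leaf 1))) (.node 22900899843 (.node 3321 (.leaf 1) (.leaf 1)) (.node 3321 (.leaf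
    1) (.leaf 1))))) (.node 3305 (.leaf 1) (.leaf 1))))) (.node 22884122627 (.node 202534551554 (.node 22850568195 (.comp 143 0 (.node 3305 (.leaf 5) (.node 202333224962 (.node 22833790979 (.node 3321 (.leaf 5) (.leaf 5)) (.node 3321 (.leaf 5) (.leaf 5))) (.node 14259291422721 (.leaf 5) (.leaf 5))))) (.node 3305 (.leaf 1) (.node 202333224962 (.node 22867345411 (.node 3321 (.leaf 1) (.leaf 1)) (.node 3321 (.leaf 1) (.leaf 1))) (.node 14259291422721 (.leaf 1) (.leaf 1))))) (.node 14224931684353 (.leaf 1) (.node 14259291422721 (.leaf 1) (.leaf 1)))) (.node 202534551554 (.node 22917677059 (.node 3305 (.leaf 1) (.node 202333224962 (.node 22900899843 (.node 3321 (.leaf 1) (.leaf 1)) (.node 3321 (.leaf 1) (.leaf 1))) (.node 14259291422721 (.leaf 1) (.leaf 1)))) (.node 3305 (.leaf 1) (.leaf 1))) (.node 14224931684353 (.leaf 1) (.node 14259291422721 (.leaf 1) (.leaf 1)))))) (.node 202131898370 (.node 22884122627 (.node 14465449852929 (.node 14413910245377 (.leaf 1) (.leaf 1)) (.leaf 1)) (.node 14465449852929 (.node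 14413910245377 (.leaf 1) (.leaf 1)) (.leaf 1))) (.node 22884122627 (.node 3369 (.leaf 1) (.leaf 1)) (.node 3369 (.node 202534551554 (.leaf 251) (.node 14396730376193 (.leaf 1) (.leaf 1))) (.leaf 1)))))) (.node 3337 (.node 202131898370 (.node 23018340355 (.node 201729245186 (.node 22984785923 (.node 3305 (.leaf 1) (.leaf 1)) (.node 3305 (.leaf 1) (.leaf 1))) (.node 22984785923 (.node 3305 (.leaf 1) (.leaf 1)) (.node 3305 (.leaf 1) (.leaf 1)))) (.node 201729245186 (.node 23051894787 (.node 3305 (.leaf 1) (.leaf 1)) (.node 3305 (.leaf 1) (.leaf 1))) (.node 23051894787 (.node 3305 (.leaf 1) (.leaf 1)) (.node 3305 (.leaf 1) (.leaf 1))))) (.node 23018340355 (.node 202534551554 (.node 22984785923 (.node 3305 (.leaf 1) (.leaf 1)) (.node 3305 (.leaf 1) (.leaf 1))) (.node 14224931684353 (.leaf 1) (.leaf 1))) (.node 202534551554 (.node 23051894787 (.node 3305 (.leaf 1) (.leaf 1)) (.node 3305 (.leaf 1) (.leaf 1))) (.node 14224931684353 (.leaf 1) (.leaf 1))))) (.node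
    202131898370 (.node 14465449852929 (.node 14413910245377 (.leaf 1) (.leaf 1)) (.node 14516989460481 (.leaf 1) (.leaf 1))) (.node 23018340355 (.node 3369 (.node 202534551554 (.node 14396730376193 (.leaf 1) (.leaf 1)) (.node 14396730376193 (.leaf 1) (.leaf 1))) (.leaf 1)) (.node 14465449852929 (.leaf 1) (.leaf 1))))))) (.node 201326592002 (.node 22951231491 (.node 3465 (.node 200521285634 (.node 22884122627 (.node 200118632450 (.leaf 3) (.leaf 3)) (.node 200118632450 (.leaf 3) (.leaf 3))) (.node 22884122627 (.node 200923938818 (.node 3433 (.leaf 254) (.leaf 3)) (.leaf 254)) (.node 200923938818 (.node 3433 (.leaf 254) (.leaf 3)) (.leaf 254)))) (.node 200521285634 (.node 22884122627 (.node 200118632450 (.leaf 3) (.leaf 3)) (.node 200118632450 (.leaf 3) (.leaf 3))) (.node 22884122627 (.node 200923938818 (.node 3497 (.leaf 3) (.leaf 252)) (.leaf 3)) (.node 200923938818 (.node 3497 (.leaf 3) (.leaf 252)) (.leaf 3))))) (.node 3465 (.node 200521285634 (.node 23018340355 (.node 200118632450 (.leaf 3) (.leaf 3))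 (.node 200118632450 (.leaf 3) (.leaf 3))) (.node 23018340355 (.node 200923938818 (.node 3433 (.node 200722612226 (.leaf 3) (.leaf 3)) (.leaf 3)) (.node 3433 (.node 22984785923 (.leaf 3) (.leaf 3)) (.leaf 3))) (.node 200923938818 (.node 3433 (.node 200722612226 (.leaf 3) (.leaf 3)) (.leaf 252)) (.node 3433 (.node 23051894787 (.leaf 3) (.leaf 3)) (.leaf 3))))) (.node 200521285634 (.node 23018340355 (.node 200118632450 (.leaf 3) (.leaf 3)) (.node 200118632450 (.leaf 3) (.leaf 3))) (.node 23018340355 (.node 200923938818 (.node 3497 (.leaf 3) (.leaf 252)) (.leaf 3)) (.node 200923938818 (.node 3497 (.leaf 3) (.leaf 252)) (.leaf 3)))))) (.node 22951231491 (.node 3465 (.node 202131898370 (.node 22884122627 (.node 201729245186 (.node 3433 (.node 22850568195 (.node 201527918594 (.leaf 3) (.leaf 3)) (.leaf 3)) (.leaf 3)) (.node 3433 (.node 22850568195 (.node 201930571778 (.leaf 3) (.leaf 3)) (.node 201930571778 (.leaf 3) (.leaf 3))) (.leaf 3))) (.node 201729245186 (.leaf 3)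
    (.node 3433 (.node 22917677059 (.leaf 3) (.leaf 3)) (.leaf 3)))) (.node 22884122627 (.node 202534551554 (.node 3433 (.leaf 3) (.node 22850568195 (.leaf 3) (.leaf 3))) (.node 3433 (.leaf 3) (.leaf 1))) (.node 202534551554 (.node 3433 (.leaf 3) (.leaf 3)) (.node 3433 (.leaf 3) (.leaf 3))))) (.node 202131898370 (.node 22884122627 (.node 201729245186 (.leaf 3) (.leaf 3)) (.leaf 3)) (.node 22884122627 (.node 202534551554 (.leaf 3) (.leaf 3)) (.leaf 3)))) (.node 3465 (.node 202131898370 (.node 23018340355 (.node 201729245186 (.leaf 3) (.leaf 3)) (.node 201729245186 (.leaf 3) (.leaf 3))) (.node 23018340355 (.node 202534551554 (.leaf 3) (.node 3433 (.leaf 3) (.leaf 3))) (.node 202534551554 (.leaf 3) (.leaf 3)))) (.node 202131898370 (.leaf 3) (.leaf 3)))))))))) (.comp 143 0 (.node 22817013763 (.node 3401 (.node 204547817474 (.node 22682796035 (.node 14362370637825 (.leaf 5) (.leaf 5)) (.node 3337 (.node 203742511106 (.node 14224931684353 (.leaf 5) (.node 14259291422721 (.leaf 5) (.leaf 5))) (.node 22749904899 (.leaf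 5) (.node 14224931684353 (.leaf 5) (.node 14259291422721 (.leaf 5) (.leaf 5))))) (.node 203742511106 (.node 22749904899 (.node 14465449852929 (.leaf 5) (.leaf 5)) (.node 3369 (.leaf 5) (.leaf 5))) (.node 22749904899 (.node 14465449852929 (.leaf 5) (.leaf 5)) (.node 3369 (.leaf 5) (.leaf 5)))))) (.node 22682796035 (.node 14362370637825 (.leaf 5) (.leaf 5)) (.node 3337 (.node 205353123842 (.node 22749904899 (.leaf 5) (.node 204950470658 (.node 14224931684353 (.leaf 5) (.node 14259291422721 (.leaf 5) (.leaf 5))) (.node 22783459331 (.leaf 5) (.node 3305 (.leaf 5) (.node 14259291422721 (.leaf 5) (.leaf 5)))))) (.node 22749904899 (.leaf 5) (.node 205755777026 (.node 22783459331 (.leaf 5) (.node 3305 (.leaf 5) (.node 14259291422721 (.leaf 5) (.leaf 5)))) (.node 22783459331 (.leaf 5) (.node 3305 (.leaf 5) (.node 14259291422721 (.leaf 5) (.leaf 5))))))) (.node 205353123842 (.node 22749904899 (.node 14465449852929 (.leaf 5) (.leaf 5)) (.node 3369 (.leaf 5) (.leaf 5)))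
    (.node 14465449852929 (.leaf 5) (.leaf 5)))))) (.node 204547817474 (.node 22682796035 (.leaf 3) (.node 3465 (.node 203742511106 (.node 22749904899 (.leaf 3) (.node 203339857922 (.node 3433 (.leaf 3) (.leaf 5)) (.leaf 3))) (.node 22749904899 (.leaf 3) (.node 204145164290 (.leaf 3) (.leaf 3)))) (.node 203742511106 (.node 22749904899 (.leaf 3) (.node 203339857922 (.node 3497 (.node 22783459331 (.leaf 3) (.leaf 3)) (.leaf 3)) (.node 3497 (.node 22783459331 (.leaf 3) (.node 22800236547 (.leaf 3) (.leaf 3))) (.leaf 255)))) (.node 22749904899 (.leaf 3) (.node 204145164290 (.node 3497 (.leaf 5) (.leaf 255)) (.node 3497 (.leaf 5) (.node 22783459331 (.leaf 3) (.leaf 3)))))))) (.node 22682796035 (.leaf 3) (.node 3465 (.node 205353123842 (.node 22749904899 (.leaf 3) (.node 204950470658 (.leaf 3) (.node 3433 (.leaf 3) (.leaf 3)))) (.node 22749904899 (.leaf 3) (.node 205755777026 (.node 3433 (.node 22783459331 (.leaf 3) (.leaf 3)) (.leaf 3)) (.node 3433 (.node 22783459331 (.leaf 3) (.leaf 3)) (.leaf 3))))) (.node 205353123842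 (.node 22749904899 (.leaf 3) (.node 204950470658 (.node 3497 (.leaf 3) (.node 22783459331 (.leaf 3) (.node 204749144066 (.leaf 3) (.leaf 3)))) (.node 3497 (.leaf 3) (.node 22783459331 (.leaf 3) (.node 205151797250 (.leaf 3) (.node 22800236547 (.leaf 3) (.leaf 3))))))) (.node 22749904899 (.leaf 3) (.node 205755777026 (.node 3497 (.leaf 3) (.node 22783459331 (.leaf 3) (.node 205554450434 (.node 22800236547 (.leaf 3) (.leaf 3)) (.node 22800236547 (.leaf 3) (.node 3513 (.leaf 3) (.leaf 3)))))) (.leaf 3)))))))) (.node 3401 (.comp 193 7588666152346153259154574548353147419070277102816127547549838366647411946429677568 (.setw 994654061369944142147336445747692709356645831007505452396690184089782733077826729150206 (.node 204547817474 (.node 22951231491 (.node 3337 (.leaf 7) (.node 203742511106 (.node 22884122627 (.node 3369 (.leaf 5) (.leaf 5)) (.node 3369 (.leaf 254) (.leaf 5))) (.node 22884122627 (.node 3369 (.leaf 5) (.leaf 5)) (.node 3369 (.leaf 7) (.leaf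
    5))))) (.node 3337 (.leaf 7) (.node 203742511106 (.node 23018340355 (.leaf 254) (.leaf 254)) (.node 23018340355 (.node 3369 (.leaf 7) (.leaf 254)) (.leaf 254))))) (.node 22951231491 (.node 3337 (.node 205353123842 (.leaf 7) (.node 22884122627 (.node 205755777026 (.node 22850568195 (.node 3305 (.leaf 5) (.leaf 7)) (.leaf 7)) (.node 22850568195 (.node 3305 (.leaf 7) (.leaf 7)) (.node 3305 (.leaf 7) (.leaf 7)))) (.node 205755777026 (.leaf 7) (.node 22917677059 (.node 3305 (.leaf 7) (.leaf 7)) (.leaf 7))))) (.node 205353123842 (.node 22884122627 (.node 3369 (.leaf 5) (.leaf 5)) (.node 3369 (.leaf 7) (.leaf 5))) (.leaf 7))) (.node 3337 (.leaf 7) (.node 205353123842 (.node 23018340355 (.node 3369 (.leaf 7) (.leaf 254)) (.leaf 254)) (.leaf 7))))))) (.node 204547817474 (.node 22951231491 (.node 3465 (.node 203742511106 (.node 22884122627 (.node 203339857922 (.node 3433 (.leaf 3) (.leaf 5)) (.leaf 3)) (.node 203339857922 (.node 3433 (.leaf 3) (.node 22917677059 (.leaf 3) (.leaf 3))) (.leaf 3))) (.leaf 255)) (.node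 203742511106 (.node 22884122627 (.node 203339857922 (.node 3497 (.leaf 3) (.leaf 3)) (.node 3497 (.node 22850568195 (.leaf 3) (.leaf 3)) (.leaf 3))) (.node 203339857922 (.leaf 3) (.leaf 3))) (.node 22884122627 (.node 204145164290 (.node 3497 (.leaf 5) (.leaf 3)) (.node 3497 (.leaf 5) (.leaf 3))) (.node 204145164290 (.node 3497 (.leaf 3) (.leaf 3)) (.node 3497 (.node 22917677059 (.leaf 3) (.leaf 3)) (.leaf 3)))))) (.node 3465 (.node 203742511106 (.node 23018340355 (.node 203339857922 (.node 3433 (.leaf 3) (.leaf 3)) (.leaf 3)) (.node 203339857922 (.leaf 3) (.leaf 3))) (.leaf 3)) (.node 203742511106 (.node 23018340355 (.leaf 3) (.leaf 3)) (.node 23018340355 (.node 204145164290 (.leaf 3) (.leaf 3)) (.leaf 3))))) (.node 22951231491 (.node 3465 (.node 205353123842 (.node 22884122627 (.node 204950470658 (.leaf 3) (.leaf 3)) (.leaf 3)) (.node 22884122627 (.node 205755777026 (.leaf 3) (.leaf 3)) (.node 205755777026 (.leaf 3) (.leaf 3)))) (.node 205353123842 (.node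
    22884122627 (.node 204950470658 (.node 3497 (.leaf 3) (.node 22850568195 (.leaf 3) (.leaf 3))) (.node 3497 (.leaf 3) (.node 22850568195 (.node 205151797250 (.leaf 3) (.leaf 3)) (.leaf 3)))) (.node 204950470658 (.node 3497 (.leaf 3) (.leaf 3)) (.node 3497 (.leaf 3) (.leaf 3)))) (.node 22884122627 (.node 205755777026 (.node 3497 (.leaf 3) (.node 22850568195 (.node 205554450434 (.leaf 3) (.node 22833790979 (.leaf 3) (.leaf 3))) (.node 205554450434 (.leaf 3) (.leaf 3)))) (.leaf 3)) (.node 205755777026 (.node 3497 (.leaf 3) (.node 22917677059 (.leaf 3) (.leaf 3))) (.leaf 3))))) (.node 3465 (.leaf 255) (.node 205353123842 (.node 23018340355 (.node 204950470658 (.leaf 3) (.node 3497 (.leaf 3) (.leaf 3))) (.node 204950470658 (.leaf 3) (.leaf 3))) (.node 23018340355 (.node 205755777026 (.node 3497 (.leaf 3) (.leaf 3)) (.leaf 3)) (.node 205755777026 (.leaf 3) (.leaf 3)))))))))))))))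
    ⟨25769803776, 25769803776, 828928688128, 944892805120, 12482248704, 12884901888, 1409286144, 1442840576, 4294967296, 4294967296, 0⟩ = true := by decide +kernel

theorem px6_8 : Tr.run2 ce0 pPX
    (.comp 1 7588666152346153259154574548353147419070277102816127547549838366647974896383033344 (.comp 79 7588666152346153259154574548353147419070277102816127547549838366647411946429677568 (.setw 994654061369944142147336445747692709356645831007505452396690184089782733077826729148670 (.setw 497330824960157499991954197600871869256189680210157734956226207196604789321215349096703 (.node 3289 (.node 202937204738 (.node 23353884675 (.node 3177 (.node 201326592002 (.node 23219666947 (.node 200521285634 (.node 3129 (.leaf 255) (.node 23152558083 (.node 200118632450 (.node 3145 (.leaf 255) (.leaf 1)) (.node 3145 (.leaf 255) (.leaf 1))) (.node 200118632450 (.node 3145 (.leaf 255) (.leaf 1)) (.node 3145 (.leaf 255) (.leaf 1))))) (.leaf 255)) (.node 200521285634 (.node 3129 (.leaf 255) (.node 23286775811 (.node 200118632450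 (.node 3145 (.leaf 255) (.leaf 1)) (.node 3145 (.leaf 255) (.leaf 1))) (.node 200118632450 (.node 3145 (.leaf 255) (.leaf 1)) (.node 3145 (.leaf 255) (.leaf 1))))) (.leaf 255))) (.node 23219666947 (.node 202131898370 (.node 3129 (.leaf 255) (.leaf 255)) (.node 3129 (.node 23152558083 (.node 202534551554 (.node 3097 (.leaf 1) (.leaf 255)) (.node 3097 (.leaf 255) (.leaf 255))) (.leaf 3)) (.leaf 255))) (.leaf 255))) (.node 201326592002 (.node 23219666947 (.node 3225 (.node 200521285634 (.leaf 255) (.node 23152558083 (.node 200923938818 (.leaf 255) (.node 3193 (.leaf 1) (.leaf 1))) (.leaf 255))) (.node 200521285634 (.node 23152558083 (.node 3257 (.leaf 255) (.node 200118632450 (.leaf 254) (.leaf 254))) (.node 3257 (.leaf 255) (.node 200118632450 (.leaf 254) (.leaf 254)))) (.leaf 255))) (.node 3225 (.leaf 255) (.node 200521285634 (.node 23286775811 (.node 3257 (.leaf 255) (.node 200118632450 (.node 23253221379 (.leaf 254) (.leaf 254)) (.leaf 254))) (.node 3257 (.leaf 255) (.leaf 255))) (.leaf 255)))) (.node 23219666947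 (.node 3225 (.node 202131898370 (.node 23152558083 (.node 201729245186 (.node 3193 (.leaf 3) (.leaf 3)) (.node 3193 (.leaf 3) (.leaf 3))) (.leaf
    3)) (.node 23152558083 (.node 202534551554 (.node 3193 (.leaf 255) (.node 13778255085569 (.leaf 255) (.leaf 255))) (.leaf 255)) (.node 202534551554 (.node 3193 (.leaf 255) (.leaf 255)) (.leaf 255)))) (.leaf 255)) (.node 3225 (.node 202131898370 (.node 23286775811 (.node 201729245186 (.leaf 255) (.node 3193 (.leaf 255) (.leaf 255))) (.leaf 255)) (.node 23286775811 (.node 202534551554 (.node 3193 (.leaf 255) (.leaf 255)) (.leaf 255)) (.node 202534551554 (.leaf 255) (.leaf 255)))) (.leaf 255))))) (.node 3177 (.node 201326592002 (.node 23488102403 (.node 200521285634 (.node 3129 (.leaf 255) (.node 23420993539 (.node 200118632450 (.leaf 255) (.node 3145 (.leaf 255) (.leaf 1))) (.leaf 255))) (.leaf 255)) (.node 200521285634 (.node 3129 (.leaf 255) (.leaf 255)) (.leaf 255))) (.leaf 255)) (.node 201326592002 (.node 23488102403 (.node 3225 (.leaf 255) (.node 200521285634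 (.node 23420993539 (.node 3257 (.leaf 255) (.leaf 255)) (.node 3257 (.leaf 255) (.leaf 255))) (.leaf 255))) (.node 3225 (.leaf 255) (.node 200521285634 (.node 23555211267 (.node 3257 (.leaf 255) (.leaf 255)) (.leaf 255)) (.leaf 255)))) (.leaf 255)))) (.node 23353884675 (.node 3177 (.node 204547817474 (.node 23219666947 (.node 203742511106 (.node 3129 (.leaf 255) (.leaf 255)) (.node 3129 (.leaf 255) (.leaf 255))) (.node 203742511106 (.node 3129 (.leaf 255) (.leaf 255)) (.node 3129 (.leaf 255) (.leaf 255)))) (.node 23219666947 (.node 205353123842 (.node 3129 (.leaf 255) (.node 23152558083 (.node 204950470658 (.leaf 255) (.leaf 255)) (.leaf 255))) (.leaf 255)) (.node 205353123842 (.node 3129 (.leaf 255) (.leaf 255)) (.leaf 255)))) (.node 204547817474 (.node 23219666947 (.node 3225 (.leaf 255) (.node 203742511106 (.leaf 255) (.node 23152558083 (.node 3257 (.leaf 255) (.leaf 255)) (.node 3257 (.leaf 255) (.leaf 255))))) (.node 3225 (.leaf 255) (.leaf 255))) (.node 23219666947 (.node 3225 (.leaf 255) (.node 205353123842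 (.node 23152558083 (.node 3257 (.leaf 255) (.leaf 255)) (.node 3257 (.leaf 255) (.leaf
    255))) (.leaf 255))) (.node 3225 (.leaf 255) (.node 205353123842 (.node 23286775811 (.node 3257 (.leaf 255) (.leaf 255)) (.leaf 255)) (.leaf 255)))))) (.node 3177 (.node 204547817474 (.node 23488102403 (.node 203742511106 (.leaf 255) (.node 3129 (.leaf 255) (.leaf 255))) (.leaf 255)) (.node 23488102403 (.node 205353123842 (.node 3129 (.leaf 255) (.leaf 255)) (.leaf 255)) (.node 205353123842 (.leaf 255) (.leaf 255)))) (.node 204547817474 (.node 23488102403 (.node 3225 (.leaf 255) (.leaf 255)) (.node 3225 (.leaf 255) (.leaf 255))) (.node 23488102403 (.node 3225 (.leaf 255) (.node 205353123842 (.leaf 255) (.leaf 255))) (.node 3225 (.leaf 255) (.leaf 255))))))) (.node 202937204738 (.node 23353884675 (.node 3401 (.node 201326592002 (.node 23219666947 (.node 3337 (.node 200521285634 (.node 14224931684353 (.leaf 3) (.leaf 3)) (.node 23152558083 (.node 200923938818 (.node 23119003651 (.leaf 3) (.node 14224931684353 (.leaf 3)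 (.leaf 3))) (.node 23119003651 (.leaf 3) (.node 3305 (.leaf 3) (.leaf 3)))) (.node 14224931684353 (.leaf 3) (.leaf 3)))) (.node 200521285634 (.node 23152558083 (.node 3369 (.leaf 3) (.node 200118632450 (.node 14534169329665 (.leaf 3) (.leaf 3)) (.node 14534169329665 (.leaf 3) (.leaf 3)))) (.node 3369 (.leaf 3) (.leaf 3))) (.node 23152558083 (.node 3369 (.leaf 255) (.node 200923938818 (.leaf 1) (.leaf 1))) (.node 3369 (.leaf 255) (.node 14534169329665 (.leaf 1) (.node 14551349198849 (.leaf 1) (.leaf 1))))))) (.node 3337 (.leaf 255) (.node 200521285634 (.node 23286775811 (.node 3369 (.leaf 1) (.leaf 3)) (.node 3369 (.leaf 1) (.leaf 255))) (.node 23286775811 (.node 3369 (.leaf 255) (.node 14534169329665 (.leaf 1) (.node 14551349198849 (.leaf 1) (.leaf 1)))) (.node 3369 (.leaf 255) (.node 200923938818 (.leaf 1) (.leaf 1))))))) (.node 23219666947 (.node 3337 (.node 202131898370 (.node 23152558083 (.node 201729245186 (.node 23119003651 (.node 3305 (.leaf 255) (.leaf 255)) (.node 3305 (.leaf 255) (.leaf 255))) (.node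 23119003651 (.node 3305 (.leaf 1)
    (.leaf 3)) (.node 3305 (.leaf 1) (.node 14259291422721 (.leaf 255) (.leaf 255))))) (.node 201729245186 (.node 23186112515 (.node 3305 (.leaf 255) (.leaf 255)) (.node 3305 (.leaf 255) (.leaf 255))) (.node 23186112515 (.node 3305 (.leaf 1) (.leaf 255)) (.node 3305 (.leaf 1) (.leaf 255))))) (.node 23152558083 (.node 202534551554 (.node 23119003651 (.node 3305 (.leaf 255) (.node 14259291422721 (.leaf 255) (.node 202333224962 (.leaf 255) (.leaf 255)))) (.node 3305 (.leaf 255) (.node 202333224962 (.node 23135780867 (.node 3321 (.leaf 255) (.leaf 255)) (.node 3321 (.leaf 255) (.leaf 255))) (.leaf 255)))) (.leaf 255)) (.node 202534551554 (.node 23186112515 (.node 3305 (.leaf 255) (.node 202333224962 (.leaf 255) (.leaf 255))) (.node 3305 (.leaf 255) (.leaf 255))) (.leaf 255)))) (.leaf 255)) (.node 3337 (.node 202131898370 (.node 23286775811 (.node 201729245186 (.leaf 255) (.node 23253221379 (.node 3305 (.leaf 1) (.leaf 255)) (.leaf 255))) (.leaf 255)) (.node 23286775811 (.node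 202534551554 (.node 23253221379 (.node 3305 (.leaf 255) (.leaf 255)) (.node 3305 (.leaf 255) (.leaf 255))) (.leaf 255)) (.node 202534551554 (.leaf 255) (.leaf 255)))) (.leaf 255)))) (.comp 129 15177216512602907442433722621882518148142178817863547552439730592190288285489299456 (.setw 497330824960157499991954197600871869256189680210157734956226207196604789321215349097725 (.node 201326592002 (.setw 497330824960157499991954197600871869256189680210157734956226207196641682809358473233660 (.node 23219666947 (.node 3465 (.node 200521285634 (.leaf 253) (.node 23152558083 (.node 200923938818 (.node 3433 (.node 200722612226 (.leaf 5) (.leaf 5)) (.leaf 253)) (.node 3433 (.node 23119003651 (.node 201125265410 (.leaf 5) (.leaf 5)) (.node 201125265410 (.leaf 5) (.leaf 5))) (.leaf 5))) (.node 200923938818 (.leaf 253) (.node 3433 (.node 23186112515 (.node 23169335299 (.leaf 5) (.leaf 5)) (.node 23202889731 (.leaf 5) (.leaf 5))) (.leaf 5))))) (.node 200521285634 (.node 23152558083 (.node 200118632450 (.leaf 5)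
    (.leaf 5)) (.node 200118632450 (.leaf 5) (.leaf 5))) (.node 23152558083 (.node 200923938818 (.node 3497 (.leaf 5) (.leaf 252)) (.leaf 5)) (.node 200923938818 (.node 3497 (.leaf 5) (.leaf 252)) (.leaf 5))))) (.node 3465 (.leaf 253) (.node 200521285634 (.node 23286775811 (.node 200118632450 (.leaf 5) (.leaf 5)) (.node 200118632450 (.leaf 5) (.leaf 5))) (.node 23286775811 (.node 200923938818 (.node 3497 (.leaf 5) (.leaf 252)) (.leaf 5)) (.node 200923938818 (.node 3497 (.leaf 5) (.leaf 252)) (.leaf 5))))))) (.node 23219666947 (.node 3465 (.node 202131898370 (.node 23152558083 (.node 201729245186 (.node 3433 (.leaf 5) (.leaf 5)) (.leaf 5)) (.node 201729245186 (.node 3433 (.node 23186112515 (.leaf 5) (.leaf 5)) (.leaf 5)) (.leaf 5))) (.node 23152558083 (.leaf 5) (.leaf 5))) (.node 202131898370 (.leaf 5) (.leaf 5))) (.node 3465 (.node 202131898370 (.node 23286775811 (.node 201729245186 (.leaf 253) (.leaf 5)) (.leaf 253)) (.node 23286775811 (.leaf 5) (.leaf 5))) (.node 202131898370 (.leaf 5) (.leaf 5)))))))) (.node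 3401 (.node 201326592002 (.node 23488102403 (.node 3337 (.leaf 255) (.node 200521285634 (.node 23420993539 (.node 3369 (.leaf 1) (.leaf 255)) (.node 3369 (.leaf 1) (.leaf 255))) (.node 23420993539 (.node 3369 (.leaf 255) (.node 200923938818 (.leaf 1) (.leaf 1))) (.node 3369 (.leaf 255) (.leaf 255))))) (.node 3337 (.leaf 255) (.node 200521285634 (.node 23555211267 (.node 3369 (.leaf 1) (.leaf 255)) (.leaf 255)) (.node 23555211267 (.node 3369 (.leaf 255) (.leaf 255)) (.node 3369 (.leaf 255) (.leaf 255)))))) (.node 23488102403 (.leaf 255) (.leaf 255))) (.node 201326592002 (.node 23488102403 (.node 3465 (.leaf 255) (.leaf 255)) (.node 3465 (.leaf 255) (.leaf 255))) (.node 23488102403 (.node 3465 (.node 202131898370 (.leaf 255) (.node 23420993539 (.leaf 254) (.leaf 254))) (.node 202131898370 (.node 201729245186 (.leaf 254) (.leaf 254)) (.leaf 254))) (.node 3465 (.leaf 255) (.node 202131898370 (.node 23555211267 (.leaf 254) (.leaf 254)) (.leaf 254))))))) (.node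
    23353884675 (.node 3401 (.node 204547817474 (.node 23219666947 (.node 3337 (.leaf 255) (.node 203742511106 (.node 23152558083 (.node 203339857922 (.leaf 254) (.leaf 254)) (.node 203339857922 (.leaf 254) (.leaf 254))) (.leaf 254))) (.node 3337 (.leaf 255) (.leaf 255))) (.node 23219666947 (.node 3337 (.leaf 255) (.node 205353123842 (.leaf 254) (.leaf 255))) (.node 3337 (.leaf 255) (.node 205353123842 (.leaf 254) (.leaf 254))))) (.node 204547817474 (.node 23219666947 (.node 3465 (.node 203742511106 (.node 23152558083 (.node 203339857922 (.leaf 254) (.leaf 254)) (.leaf 254)) (.leaf 254)) (.node 203742511106 (.leaf 254) (.leaf 254))) (.node 3465 (.node 203742511106 (.leaf 254) (.leaf 254)) (.leaf 255))) (.node 23219666947 (.node 3465 (.leaf 255) (.node 205353123842 (.node 23152558083 (.leaf 254) (.leaf 254)) (.node 23152558083 (.node 205755777026 (.leaf 254) (.leaf 254)) (.leaf 254)))) (.node 3465 (.leaf 254) (.node 205353123842 (.leaf 254) (.leaf 254)))))) (.node 3401 (.node 204547817474 (.node 23488102403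 (.node 3337 (.leaf 255) (.leaf 255)) (.node 3337 (.leaf 255) (.leaf 255))) (.node 23488102403 (.node 3337 (.leaf 255) (.leaf 254)) (.node 3337 (.leaf 254) (.node 205353123842 (.leaf 254) (.leaf 254))))) (.node 204547817474 (.node 23488102403 (.node 3465 (.node 203742511106 (.leaf 254) (.leaf 254)) (.leaf 254)) (.node 3465 (.node 203742511106 (.leaf 254) (.leaf 254)) (.leaf 254))) (.node 23488102403 (.node 3465 (.leaf 254) (.leaf 254)) (.node 3465 (.leaf 254) (.leaf 254))))))))))))
    ⟨25769803776, 25769803776, 828928688128, 944892805120, 12482248704, 12884901888, 1442840576, 1476395008, 4294967296, 4294967296, 0⟩ = true := by decide +kernel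

end Pool.Agent.Work.MP_f4b644_ag.Mid
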